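import Mathlib

/-! # A sparse sequence of natural numbers with the digits 0 and 1 to base 16 -/

set_option autoImplicit false

namespace Pool.Agent.Q158.As

/-- read the binary digits of `n` to base `16` -/
def cs (n : ℕ) : ℕ := if h : n = 0 then 0 else 16 * cs (n / 2) + n % 2
termination_by n
decreasing_by exact Nat.div_lt_self (Nat.pos_of_ne_zero h) one_lt_two

theorem cs_zero : cs 0 = 0 := by
  rw [cs]
  simp

theorem cs_eq (n : ℕ) : cs n = 16 * cs (n / 2) + n % 2 := by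
  by_cases h : n = 0
  · subst h
    simp [cs_zero]
  · conv_lhs => rw [cs]
    simp [h]

theorem cs_lt : ∀ n m : ℕ, m < n → cs m < cs n := by
  intro n
  induction n using Nat.strong_induction_on with
  | _ n ih =>
    intro m hm
    rw [cs_eq m, cs_eq n]
    have h1 : m / 2 ≤ n / 2 := Nat.div_le_div_right hm.le
    rcases h1.lt_or_eq with h | h
    · have := ih (n / 2) (Nat.div_lt_self (by omega) one_lt_two) (m / 2) h
      omega
    · rw [h]
      omega

theorem cs_mono : StrictMono cs := fun m n h => cs_lt n m h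

/-- different blocks of level `j` are far apart -/
theorem cs_far : ∀ j m n : ℕ, m / 2 ^ j ≠ n / 2 ^ j →
    14 * 16 ^ j + 1 ≤ 15 * |(cs m : ℤ) - cs n| := by
  intro j
  induction j with
  | zero =>
    intro m n h
    have h1 : m ≠ n := by simpa using h
    have h2 : cs m ≠ cs n := fun h' => h1 (cs_mono.injective h')
    have h3 : (cs m : ℤ) - cs n ≠ 0 := by
      intro h4
      exact h2 (by exact_mod_cast sub_eq_zero.1 h4)
    have := Int.one_le_abs h3
    simp only [pow_zero]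
    linarith
  | succ j ih =>
    intro m n h
    have h1 := ih (m / 2) (n / 2) (by
      rwa [Nat.div_div_eq_div_mul, Nat.div_div_eq_div_mul, ← pow_succ'])
    have h2 : (cs m : ℤ) - cs n = 16 * ((cs (m / 2) : ℤ) - cs (n / 2)) + ((m % 2 : ℕ) - (n % 2 : ℕ)) := by
      rw [cs_eq m, cs_eq n]
      push_cast
      ring
    have h3 : |((m % 2 : ℕ) : ℤ) - (n % 2 : ℕ)| ≤ 1 := by
      rw [abs_le]
      constructor <;> omega
    have h4 : 16 * |(cs (m / 2) : ℤ) - cs (n / 2)| ≤ |(cs m : ℤ) - cs n| + 1 := by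
      rw [h2]
      have h5 := abs_sub_abs_le_abs_sub (16 * ((cs (m / 2) : ℤ) - cs (n / 2)))
        (-(((m % 2 : ℕ) : ℤ) - (n % 2 : ℕ)))
      rw [abs_neg, sub_neg_eq_add, abs_mul] at h5
      have h6 : |(16 : ℤ)| = 16 := by norm_num
      rw [h6] at h5
      linarith
    rw [pow_succ]
    linarith

/-- a block of level `j` is small -/
theorem cs_near : ∀ j m n : ℕ, m / 2 ^ j = n / 2 ^ j →
    15 * |(cs m : ℤ) - cs n| + 1 ≤ 16 ^ j := by
  intro j
  induction j with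
  | zero =>
    intro m n h
    have h1 : m = n := by simpa using h
    subst h1
    simp
  | succ j ih =>
    intro m n h
    have h1 := ih (m / 2) (n / 2) (by
      rwa [Nat.div_div_eq_div_mul, Nat.div_div_eq_div_mul, ← pow_succ'])
    have h2 : (cs m : ℤ) - cs n = 16 * ((cs (m / 2) : ℤ) - cs (n / 2)) + ((m % 2 : ℕ) - (n % 2 : ℕ)) := by
      rw [cs_eq m, cs_eq n]
      push_cast
      ring
    have h3 : |((m % 2 : ℕ) : ℤ) - (n % 2 : ℕ)| ≤ 1 := by
      rw [abs_le]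
      constructor <;> omega
    have h4 : |(cs m : ℤ) - cs n| ≤ 16 * |(cs (m / 2) : ℤ) - cs (n / 2)| + 1 := by
      rw [h2]
      refine (abs_add_le _ _).trans ?_
      rw [abs_mul]
      have h6 : |(16 : ℤ)| = 16 := by norm_num
      rw [h6]
      linarith
    rw [pow_succ]
    linarith

/-- the real sequence -/
def c (n : ℕ) : ℝ := cs n

theorem c_zero : c 0 = 0 := by simp [c, cs_zero]

theorem c_nonneg (n : ℕ) : 0 ≤ c n := Nat.cast_nonneg _

theorem c_mono : StrictMono c := fun m n h => by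
  unfold c
  exact_mod_cast cs_mono h

theorem c_abs (m n : ℕ) : |c m - c n| = ((|(cs m : ℤ) - cs n| : ℤ) : ℝ) := by
  unfold c
  push_cast
  rfl

theorem c_far {j m n : ℕ} (h : m / 2 ^ j ≠ n / 2 ^ j) : 14 * 16 ^ j ≤ 15 * |c m - c n| := by
  rw [c_abs]
  have h1 := cs_far j m n h
  have h2 : (14 : ℤ) * 16 ^ j ≤ 15 * |(cs m : ℤ) - cs n| := by linarith
  exact_mod_cast h2

theorem c_near {j m n : ℕ} (h : m / 2 ^ j = n / 2 ^ j) : 15 * |c m - c n| + 1 ≤ 16 ^ j := by
  rw [c_abs]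
  exact_mod_cast cs_near j m n h

theorem c_sep {m n : ℕ} (h : m ≠ n) : 1 ≤ |c m - c n| := by
  rw [c_abs]
  have h3 : (cs m : ℤ) - cs n ≠ 0 := by
    intro h4
    exact h (cs_mono.injective (by exact_mod_cast sub_eq_zero.1 h4))
  exact_mod_cast Int.one_le_abs h3

theorem c_ge (n : ℕ) : (n : ℝ) ≤ c n := by
  unfold c
  exact_mod_cast cs_mono.le_apply

/-- every real number at least `0` lies between two consecutive terms -/
theorem c_between {x : ℝ} (hx : 0 ≤ x) : ∃ n, c n ≤ x ∧ x < c (n + 1) := by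
  classical
  have hex : ∃ n, x < c n := by
    obtain ⟨n, hn⟩ := exists_nat_gt x
    exact ⟨n, hn.trans_le (c_ge n)⟩
  have h1 := Nat.find_spec hex
  have h0 : Nat.find hex ≠ 0 := by
    intro h
    rw [h, c_zero] at h1
    linarith
  obtain ⟨n, hn⟩ := Nat.exists_eq_succ_of_ne_zero h0
  refine ⟨n, ?_, ?_⟩
  · exact not_lt.1 (Nat.find_min hex (m := n) (by omega))
  · have : Nat.find hex = n + 1 := hn
    rwa [this] at h1

theorem log_bounds (k : ℕ) : ∃ i, (k = 0 ∨ 2 ^ i ≤ k) ∧ k < 2 ^ (i + 1) := by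
  refine ⟨Nat.log 2 k, ?_, Nat.lt_pow_succ_log_self one_lt_two k⟩
  rcases Nat.eq_zero_or_pos k with h | h
  · exact Or.inl h
  · exact Or.inr (Nat.pow_log_le_self 2 h.ne')

/-- weights of the form `(1 + u ^ 2) ^ (-1 / 4)` -/
noncomputable def gw (t : ℝ) : ℝ := (1 + t ^ 2) ^ (-(1 / 4) : ℝ)

theorem quarter {a : ℝ} (ha : 0 < a) : (a ^ 4) ^ (-(1 / 4) : ℝ) = 1 / a := by
  rw [← Real.rpow_natCast a 4, ← Real.rpow_mul ha.le]
  norm_num
  rw [Real.rpow_neg_one]

theorem le_quarter {a t : ℝ} (ha : 0 < a) (h : a ^ 4 ≤ t) : t ^ (-(1 / 4) : ℝ) ≤ 1 / a := by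
  rw [← quarter ha]
  exact Real.rpow_le_rpow_of_nonpos (by positivity) h (by norm_num)

theorem quarter_le {a t : ℝ} (ha : 0 < a) (ht : 0 < t) (h : t ≤ a ^ 4) :
    1 / a ≤ t ^ (-(1 / 4) : ℝ) := by
  rw [← quarter ha]
  exact Real.rpow_le_rpow_of_nonpos ht h (by norm_num)

theorem gw_pos (t : ℝ) : 0 < gw t := Real.rpow_pos_of_pos (by positivity) _

theorem gw_le_one (t : ℝ) : gw t ≤ 1 := by
  have := le_quarter (a := 1) (t := 1 + t ^ 2) one_pos (by nlinarith [sq_nonneg t])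
  simpa [gw] using this

theorem gw_anti {s t : ℝ} (h : |s| ≤ |t|) : gw t ≤ gw s := by
  unfold gw
  refine Real.rpow_le_rpow_of_nonpos (by positivity) ?_ (by norm_num)
  have := sq_le_sq.2 h
  linarith

theorem gw_bound {u : ℝ} {i n : ℕ} (hn : n < 2 ^ (i + 1)) (hu : 14 * 16 ^ i ≤ 15 * |u|) :
    gw u ≤ 5 / ((n : ℝ) + 1) ^ 2 := by
  have h4 : (0 : ℝ) < 4 ^ i := by positivity
  have h1 : gw u ≤ 1 / (4 / 5 * 4 ^ i) := by
    refine le_quarter (by positivity) ?_
    have e : (4 / 5 * 4 ^ i : ℝ) ^ 4 = 256 / 625 * (16 ^ i) ^ 2 := by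
      rw [mul_pow, ← pow_mul, mul_comm i 4, pow_mul]
      rw [← pow_mul 16 i 2, mul_comm i 2, pow_mul]
      norm_num
    rw [e]
    have h16 : (0 : ℝ) < 16 ^ i := by positivity
    have h2 : (14 / 15 * 16 ^ i : ℝ) ^ 2 ≤ u ^ 2 := by
      rw [← sq_abs u]
      exact pow_le_pow_left₀ (by positivity) (by linarith) 2
    nlinarith [sq_nonneg (16 ^ i : ℝ)]
  refine h1.trans ?_
  have h2 : ((n : ℝ) + 1) ≤ 2 * 2 ^ i := by
    have : n + 1 ≤ 2 ^ (i + 1) := hn
    rw [pow_succ'] at this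
    exact_mod_cast this
  have h3 : ((n : ℝ) + 1) ^ 2 ≤ 4 * 4 ^ i := by
    calc ((n : ℝ) + 1) ^ 2 ≤ (2 * 2 ^ i) ^ 2 := pow_le_pow_left₀ (by positivity) h2 2
      _ = 4 * 4 ^ i := by
        rw [mul_pow, ← pow_mul, mul_comm i 2, pow_mul]
        norm_num
  rw [div_le_div_iff₀ (by positivity) (by positivity)]
  nlinarith

theorem xor_ne {i m n : ℕ} (h : 2 ^ i ≤ n ^^^ m) : n / 2 ^ i ≠ m / 2 ^ i := by
  intro h1
  have h2 : (n ^^^ m) / 2 ^ i = 0 := by
    rw [← Nat.shiftRight_eq_div_pow, Nat.shiftRight_xor_distrib, Nat.shiftRight_eq_div_pow,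
      Nat.shiftRight_eq_div_pow, h1, Nat.xor_self]
  have h3 : 0 < (n ^^^ m) / 2 ^ i := Nat.div_pos h (by positivity)
  omega

theorem gw_xor (m n : ℕ) : gw (c n - c m) ≤ 5 / (((n ^^^ m : ℕ) : ℝ) + 1) ^ 2 := by
  obtain ⟨i, hi, hlt⟩ := log_bounds (n ^^^ m)
  rcases hi with h | h
  · rw [h]
    refine (gw_le_one _).trans ?_
    norm_num
  · exact gw_bound hlt (c_far (xor_ne h))

/-- a bounded sum -/
theorem gw_real (x : ℝ) : ∃ a b : ℕ, ∀ n, gw (x - c n) ≤
    5 / (((n ^^^ a : ℕ) : ℝ) + 1) ^ 2 + 5 / (((n ^^^ b : ℕ) : ℝ) + 1) ^ 2 := by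
  rcases lt_or_ge x 0 with hx | hx
  · refine ⟨0, 0, fun n => ?_⟩
    have h1 := gw_xor 0 n
    have h2 : gw (x - c n) ≤ gw (c n - c 0) := by
      apply gw_anti
      rw [c_zero, sub_zero, abs_of_nonneg (c_nonneg n), abs_of_nonpos (by linarith [c_nonneg n])]
      linarith
    have h3 : 0 ≤ 5 / (((n ^^^ 0 : ℕ) : ℝ) + 1) ^ 2 := by positivity
    linarith
  · obtain ⟨k, hk1, hk2⟩ := c_between hx
    refine ⟨k, k + 1, fun n => ?_⟩
    rcases Nat.lt_or_ge n (k + 1) with h | h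
    · have h1 := gw_xor k n
      have h4 : c n ≤ c k := c_mono.monotone (by omega)
      have h2 : gw (x - c n) ≤ gw (c n - c k) := by
        apply gw_anti
        rw [abs_of_nonpos (by linarith), abs_of_nonneg (by linarith)]
        linarith
      have h3 : 0 ≤ 5 / (((n ^^^ (k + 1) : ℕ) : ℝ) + 1) ^ 2 := by positivity
      linarith
    · have h1 := gw_xor (k + 1) n
      have h4 : c (k + 1) ≤ c n := c_mono.monotone h
      have h2 : gw (x - c n) ≤ gw (c n - c (k + 1)) := by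
        apply gw_anti
        rw [abs_of_nonneg (by linarith), abs_of_nonpos (by linarith)]
        linarith
      have h3 : 0 ≤ 5 / (((n ^^^ k : ℕ) : ℝ) + 1) ^ 2 := by positivity
      linarith

theorem summable_w : Summable fun n : ℕ => 5 / ((n : ℝ) + 1) ^ 2 := by
  have h := (summable_nat_add_iff 1).2 (Real.summable_one_div_nat_pow.2 (show 1 < 2 by norm_num))
  refine (h.mul_left 5).congr fun n => ?_
  push_cast
  ring

/-- the involution `n ↦ n xor a` -/
def xe (a : ℕ) : ℕ ≃ ℕ where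
  toFun n := n ^^^ a
  invFun n := n ^^^ a
  left_inv n := by
    show (n ^^^ a) ^^^ a = n
    rw [Nat.xor_assoc, Nat.xor_self, Nat.xor_zero]
  right_inv n := by
    show (n ^^^ a) ^^^ a = n
    rw [Nat.xor_assoc, Nat.xor_self, Nat.xor_zero]

theorem summable_xw (a : ℕ) : Summable fun n : ℕ => 5 / (((n ^^^ a : ℕ) : ℝ) + 1) ^ 2 :=
  (xe a).summable_iff.2 summable_w

theorem tsum_xw (a : ℕ) : ∑' n : ℕ, 5 / (((n ^^^ a : ℕ) : ℝ) + 1) ^ 2 =
    ∑' n : ℕ, 5 / ((n : ℝ) + 1) ^ 2 :=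
  (xe a).tsum_eq fun n : ℕ => 5 / ((n : ℝ) + 1) ^ 2

end Pool.Agent.Q158.As
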