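import Mathlib
import Pool.Agent.Q158.AsA

/-! # A Lipschitz quasiconformal map of the plane as a sum of radial stretches -/

set_option autoImplicit false

namespace Pool.Agent.Q158.As

open Filter Topology

noncomputable def hw (t : ℝ) : ℝ := (1 + t ^ 2) ^ (-(5 / 4) : ℝ)

theorem hw_pos (t : ℝ) : 0 < hw t := Real.rpow_pos_of_pos (by positivity) _

theorem hw_mul (t : ℝ) : hw t * (1 + t ^ 2) = gw t := by
  unfold hw gw
  have h : (0 : ℝ) < 1 + t ^ 2 := by positivity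
  have h1 := Real.rpow_add h (-(5 / 4)) 1
  rw [Real.rpow_one] at h1
  rw [← h1]
  norm_num

theorem hw_le (t : ℝ) : hw t * t ^ 2 ≤ gw t := by
  have h1 := hw_mul t
  have h2 := hw_pos t
  nlinarith

/-- the radial stretch -/
noncomputable def psi (z : ℂ) : ℂ := gw ‖z‖ • z

/-- its derivative -/
noncomputable def dpsi (z : ℂ) : ℂ →L[ℝ] ℂ :=
  gw ‖z‖ • ContinuousLinearMap.id ℝ ℂ - (1 / 2 * hw ‖z‖) • (innerSL ℝ z).smulRight z

theorem dpsi_apply (z v : ℂ) : dpsi z v = gw ‖z‖ • v - (1 / 2 * hw ‖z‖ * inner ℝ z v) • z := by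
  simp only [dpsi, sub_apply, smul_apply,
    ContinuousLinearMap.id_apply, ContinuousLinearMap.smulRight_apply, innerSL_apply_apply,
    smul_smul]

theorem hasFDerivAt_psi (z : ℂ) : HasFDerivAt psi (dpsi z) z := by
  have hp : (0 : ℝ) < 1 + ‖z‖ ^ 2 := by positivity
  have h1 : HasFDerivAt (fun z : ℂ => ‖z‖ ^ 2) (2 • innerSL ℝ z) z :=
    (hasStrictFDerivAt_norm_sq z).hasFDerivAt
  have h3 := (h1.const_add 1).rpow_const (p := -(1 / 4)) (Or.inl hp.ne')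
  have h4 := h3.smul (hasFDerivAt_id z)
  refine h4.congr_fderiv ?_
  ext1 v
  have e : (1 + ‖z‖ ^ 2) ^ (-(1 / 4) - 1 : ℝ) = hw ‖z‖ := by
    unfold hw
    norm_num
  simp only [dpsi_apply, add_apply, smul_apply,
    ContinuousLinearMap.id_apply, ContinuousLinearMap.smulRight_apply, innerSL_apply_apply, e, id]
  rw [sub_eq_add_neg, ← neg_smul]
  congr 1
  congr 1
  simp only [nsmul_eq_mul, smul_eq_mul]
  push_cast
  ring

theorem norm_dpsi_le (z : ℂ) : ‖dpsi z‖ ≤ 3 / 2 * gw ‖z‖ := by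
  have hg := gw_pos ‖z‖
  have hh := hw_pos ‖z‖
  refine ContinuousLinearMap.opNorm_le_bound _ (by positivity) fun v => ?_
  rw [dpsi_apply]
  refine (norm_sub_le _ _).trans ?_
  rw [norm_smul, norm_smul, Real.norm_eq_abs, Real.norm_eq_abs, abs_of_pos hg, abs_mul,
    abs_of_pos (by positivity : 0 < 1 / 2 * hw ‖z‖)]
  have h1 := abs_real_inner_le_norm z v
  have h2 := hw_le ‖z‖
  have h3 : 1 / 2 * hw ‖z‖ * |inner ℝ z v| * ‖z‖ ≤ 1 / 2 * gw ‖z‖ * ‖v‖ := by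
    calc 1 / 2 * hw ‖z‖ * |inner ℝ z v| * ‖z‖ ≤ 1 / 2 * hw ‖z‖ * (‖z‖ * ‖v‖) * ‖z‖ := by
          gcongr
      _ = 1 / 2 * (hw ‖z‖ * ‖z‖ ^ 2) * ‖v‖ := by ring
      _ ≤ 1 / 2 * gw ‖z‖ * ‖v‖ := by gcongr
  linarith

theorem inner_dpsi (z v w : ℂ) : inner ℝ w (dpsi z v) =
    gw ‖z‖ * inner ℝ w v - 1 / 2 * hw ‖z‖ * inner ℝ z v * inner ℝ z w := by
  rw [dpsi_apply, inner_sub_right, inner_smul_right, inner_smul_right, real_inner_comm z w]

theorem inner_dpsi_ge (z v : ℂ) : 1 / 2 * gw ‖z‖ * ‖v‖ ^ 2 ≤ inner ℝ v (dpsi z v) := by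
  rw [inner_dpsi, real_inner_self_eq_norm_sq]
  have h1 := abs_real_inner_le_norm z v
  have h2 : inner ℝ z v * inner ℝ z v ≤ ‖z‖ ^ 2 * ‖v‖ ^ 2 := by
    rw [← sq, ← sq_abs, ← mul_pow]
    exact pow_le_pow_left₀ (abs_nonneg _) h1 2
  have hh := hw_pos ‖z‖
  have h3 := hw_le ‖z‖
  have h4 : hw ‖z‖ * (inner ℝ z v * inner ℝ z v) ≤ gw ‖z‖ * ‖v‖ ^ 2 := by
    calc _ ≤ hw ‖z‖ * (‖z‖ ^ 2 * ‖v‖ ^ 2) := by gcongr
      _ = (hw ‖z‖ * ‖z‖ ^ 2) * ‖v‖ ^ 2 := by ring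
      _ ≤ _ := by gcongr
  nlinarith

theorem inner_dpsi_nonneg (z v : ℂ) : 0 ≤ inner ℝ v (dpsi z v) := by
  refine le_trans ?_ (inner_dpsi_ge z v)
  have := gw_pos ‖z‖
  positivity

theorem inner_dpsi_symm (z v w : ℂ) : inner ℝ w (dpsi z v) = inner ℝ v (dpsi z w) := by
  rw [inner_dpsi, inner_dpsi, real_inner_comm v w]
  ring

theorem contDiff_psi : ContDiff ℝ 1 psi := by
  have h1 : ContDiff ℝ 1 (fun z : ℂ => (1 + ‖z‖ ^ 2) ^ (-(1 / 4) : ℝ)) :=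
    ContDiff.rpow_const_of_ne (contDiff_const.add (contDiff_norm_sq ℝ)) (fun z => by positivity)
  exact h1.smul contDiff_id

theorem cont_dpsi : Continuous dpsi := by
  have h1 : Continuous (fderiv ℝ psi) := contDiff_psi.continuous_fderiv (by norm_num)
  have h2 : fderiv ℝ psi = dpsi := funext fun z => (hasFDerivAt_psi z).fderiv
  rwa [h2] at h1

/-- the map -/
noncomputable def F (z : ℂ) : ℂ := ∑' n : ℕ, (psi (z - (c n : ℂ)) - psi (-(c n : ℂ)))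

/-- its derivative -/
noncomputable def dF (z : ℂ) : ℂ →L[ℝ] ℂ := ∑' n : ℕ, dpsi (z - (c n : ℂ))

/-- the size of the derivative -/
noncomputable def Mf (z : ℂ) : ℝ := ∑' n : ℕ, gw ‖z - (c n : ℂ)‖

noncomputable def W : ℝ := ∑' n : ℕ, 5 / ((n : ℝ) + 1) ^ 2

theorem gw_re (z : ℂ) (n : ℕ) : gw ‖z - (c n : ℂ)‖ ≤ gw (z.re - c n) := by
  apply gw_anti
  rw [abs_norm]
  have := Complex.abs_re_le_norm (z - (c n : ℂ))
  simpa using this

theorem summable_gw (z : ℂ) : Summable fun n : ℕ => gw ‖z - (c n : ℂ)‖ := by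
  obtain ⟨a, b, h⟩ := gw_real z.re
  exact Summable.of_nonneg_of_le (fun n => (gw_pos _).le) (fun n => (gw_re z n).trans (h n))
    ((summable_xw a).add (summable_xw b))

theorem Mf_le (z : ℂ) : Mf z ≤ 2 * W := by
  obtain ⟨a, b, h⟩ := gw_real z.re
  have h1 := Summable.tsum_le_tsum (fun n => (gw_re z n).trans (h n)) (summable_gw z)
    ((summable_xw a).add (summable_xw b))
  rw [Summable.tsum_add (summable_xw a) (summable_xw b), tsum_xw, tsum_xw] at h1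
  have e : Mf z = ∑' n : ℕ, gw ‖z - (c n : ℂ)‖ := rfl
  have e2 : W = ∑' n : ℕ, 5 / ((n : ℝ) + 1) ^ 2 := rfl
  linarith

theorem Mf_pos (z : ℂ) : 0 < Mf z :=
  (summable_gw z).tsum_pos (fun n => (gw_pos _).le) 0 (gw_pos _)

theorem summable_dpsi (z : ℂ) : Summable fun n : ℕ => dpsi (z - (c n : ℂ)) :=
  Summable.of_norm_bounded ((summable_gw z).mul_left (3 / 2)) fun n => norm_dpsi_le _

theorem norm_dF_le (z : ℂ) : ‖dF z‖ ≤ 3 / 2 * Mf z := by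
  have h1 : Summable fun n : ℕ => ‖dpsi (z - (c n : ℂ))‖ :=
    Summable.of_nonneg_of_le (fun n => norm_nonneg _) (fun n => norm_dpsi_le _)
      ((summable_gw z).mul_left (3 / 2))
  refine (norm_tsum_le_tsum_norm h1).trans ?_
  refine (Summable.tsum_le_tsum (fun n => norm_dpsi_le _) h1
    ((summable_gw z).mul_left (3 / 2))).trans ?_
  rw [tsum_mul_left]
  rfl

theorem hasSum_inner (z v w : ℂ) :
    HasSum (fun n : ℕ => inner ℝ w (dpsi (z - (c n : ℂ)) v)) (inner ℝ w (dF z v)) := by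
  have h1 : HasSum (fun n : ℕ => dpsi (z - (c n : ℂ))) (dF z) := (summable_dpsi z).hasSum
  have h2 := (ContinuousLinearMap.apply ℝ ℂ v).hasSum h1
  exact (innerSL ℝ w).hasSum h2

theorem inner_dF_ge (z v : ℂ) : 1 / 2 * Mf z * ‖v‖ ^ 2 ≤ inner ℝ v (dF z v) := by
  have h1 : HasSum (fun n : ℕ => 1 / 2 * gw ‖z - (c n : ℂ)‖ * ‖v‖ ^ 2) (1 / 2 * Mf z * ‖v‖ ^ 2) :=
    ((summable_gw z).hasSum.mul_left (1 / 2)).mul_right _
  exact hasSum_le (fun n => inner_dpsi_ge _ v) h1 (hasSum_inner z v v)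

theorem inner_dF_symm (z v w : ℂ) : inner ℝ w (dF z v) = inner ℝ v (dF z w) := by
  have h1 := hasSum_inner z v w
  simp only [fun n : ℕ => inner_dpsi_symm (z - (c n : ℂ)) v w] at h1
  exact h1.unique (hasSum_inner z w v)

theorem inner_dF_term (z v : ℂ) (m : ℕ) :
    inner ℝ v (dpsi (z - (c m : ℂ)) v) ≤ inner ℝ v (dF z v) :=
  le_hasSum (hasSum_inner z v v) m fun n _ => inner_dpsi_nonneg _ v

/-- local uniform bounds -/
theorem peetre {ρ : ℝ} {z : ℂ} (hz : ‖z‖ ≤ ρ) (n : ℕ) :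
    gw ‖z - (c n : ℂ)‖ ≤ (2 * (1 + ρ ^ 2)) * (5 / ((n : ℝ) + 1) ^ 2) := by
  have hρ : 0 ≤ ρ := (norm_nonneg z).trans hz
  have h0 : gw (c n) ≤ 5 / ((n : ℝ) + 1) ^ 2 := by
    have := gw_xor 0 n
    simpa [c_zero] using this
  refine le_trans ?_ (mul_le_mul_of_nonneg_left h0 (by positivity))
  have hX : (0 : ℝ) < 1 + ‖z - (c n : ℂ)‖ ^ 2 := by positivity
  have hQ : (1 : ℝ) ≤ 2 * (1 + ρ ^ 2) := by nlinarith [sq_nonneg ρ]
  have hY : 1 + c n ^ 2 ≤ (2 * (1 + ρ ^ 2)) * (1 + ‖z - (c n : ℂ)‖ ^ 2) := by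
    have h1 : c n ≤ ‖z‖ + ‖z - (c n : ℂ)‖ := by
      have h2 : ‖(c n : ℂ)‖ = c n := by
        rw [Complex.norm_real, Real.norm_eq_abs, abs_of_nonneg (c_nonneg n)]
      have h3 := norm_sub_le z (z - (c n : ℂ))
      rw [sub_sub_cancel, h2] at h3
      exact h3
    have h2 := c_nonneg n
    have h3 := norm_nonneg (z - (c n : ℂ))
    have h4 := norm_nonneg z
    have h5 : c n ^ 2 ≤ (‖z‖ + ‖z - (c n : ℂ)‖) ^ 2 := pow_le_pow_left₀ h2 h1 2
    have h6 : ‖z‖ ^ 2 ≤ ρ ^ 2 := pow_le_pow_left₀ h4 hz 2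
    nlinarith [sq_nonneg (‖z‖ - ‖z - (c n : ℂ)‖), mul_nonneg (sq_nonneg ρ) (sq_nonneg ‖z - (c n : ℂ)‖)]
  unfold gw
  have h1 : ((2 * (1 + ρ ^ 2)) * (1 + ‖z - (c n : ℂ)‖ ^ 2)) ^ (-(1 / 4) : ℝ) ≤
      (1 + c n ^ 2) ^ (-(1 / 4) : ℝ) :=
    Real.rpow_le_rpow_of_nonpos (by positivity) hY (by norm_num)
  rw [Real.mul_rpow (by positivity) hX.le] at h1
  have h2 : (2 * (1 + ρ ^ 2))⁻¹ ≤ (2 * (1 + ρ ^ 2)) ^ (-(1 / 4) : ℝ) := by
    rw [← Real.rpow_neg_one]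
    exact Real.rpow_le_rpow_of_exponent_le hQ (by norm_num)
  have h3 : 0 < (1 + ‖z - (c n : ℂ)‖ ^ 2) ^ (-(1 / 4) : ℝ) := Real.rpow_pos_of_pos hX _
  have h4 : (2 * (1 + ρ ^ 2))⁻¹ * (1 + ‖z - (c n : ℂ)‖ ^ 2) ^ (-(1 / 4) : ℝ) ≤
      (1 + c n ^ 2) ^ (-(1 / 4) : ℝ) :=
    (mul_le_mul_of_nonneg_right h2 h3.le).trans h1
  rwa [inv_mul_le_iff₀ (by positivity)] at h4

theorem term_zero (n : ℕ) : psi (0 - (c n : ℂ)) - psi (-(c n : ℂ)) = 0 := by
  rw [zero_sub, sub_self]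

theorem F_zero : F 0 = 0 := by
  unfold F
  simp only [term_zero, tsum_zero]

theorem hasFDerivAt_term (n : ℕ) (z : ℂ) :
    HasFDerivAt (fun z : ℂ => psi (z - (c n : ℂ)) - psi (-(c n : ℂ))) (dpsi (z - (c n : ℂ))) z := by
  have h := (hasFDerivAt_psi (z - (c n : ℂ))).comp z ((hasFDerivAt_id z).sub_const (c n : ℂ))
  have h2 := h.sub_const (psi (-(c n : ℂ)))
  simpa using h2

theorem bound_ball {ρ : ℝ} (n : ℕ) (z : ℂ) (hz : z ∈ Metric.ball (0 : ℂ) ρ) :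
    ‖dpsi (z - (c n : ℂ))‖ ≤ 3 / 2 * ((2 * (1 + ρ ^ 2)) * (5 / ((n : ℝ) + 1) ^ 2)) := by
  have h1 : ‖z‖ ≤ ρ := by
    rw [mem_ball_zero_iff] at hz
    exact hz.le
  exact (norm_dpsi_le _).trans (mul_le_mul_of_nonneg_left (peetre h1 n) (by norm_num))

theorem summable_ball (ρ : ℝ) :
    Summable fun n : ℕ => 3 / 2 * ((2 * (1 + ρ ^ 2)) * (5 / ((n : ℝ) + 1) ^ 2)) :=
  (summable_w.mul_left _).mul_left _

theorem hasFDerivAt_F (z : ℂ) : HasFDerivAt F (dF z) z := by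
  have hz : z ∈ Metric.ball (0 : ℂ) (‖z‖ + 1) := by
    rw [mem_ball_zero_iff]
    linarith
  have h0 : (0 : ℂ) ∈ Metric.ball (0 : ℂ) (‖z‖ + 1) := by
    rw [mem_ball_zero_iff, norm_zero]
    positivity
  exact hasFDerivAt_tsum_of_isPreconnected (summable_ball (‖z‖ + 1)) Metric.isOpen_ball
    (convex_ball _ _).isPreconnected (fun n x _ => hasFDerivAt_term n x)
    (fun n x hx => bound_ball n x hx) h0 (by simp only [term_zero]; exact summable_zero) hz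

theorem summable_F (z : ℂ) : Summable fun n : ℕ => psi (z - (c n : ℂ)) - psi (-(c n : ℂ)) := by
  have hz : z ∈ Metric.ball (0 : ℂ) (‖z‖ + 1) := by
    rw [mem_ball_zero_iff]
    linarith
  have h0 : (0 : ℂ) ∈ Metric.ball (0 : ℂ) (‖z‖ + 1) := by
    rw [mem_ball_zero_iff, norm_zero]
    positivity
  exact summable_of_summable_hasFDerivAt_of_isPreconnected
    (f := fun (n : ℕ) (z : ℂ) => psi (z - (c n : ℂ)) - psi (-(c n : ℂ)))
    (f' := fun (n : ℕ) (z : ℂ) => dpsi (z - (c n : ℂ))) (summable_ball (‖z‖ + 1))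
    Metric.isOpen_ball (convex_ball _ _).isPreconnected (fun n x _ => hasFDerivAt_term n x)
    (fun n x hx => bound_ball n x hx) h0 (by simp only [term_zero]; exact summable_zero) hz

theorem cont_dF : Continuous dF := by
  rw [continuous_iff_continuousAt]
  intro z
  have hz : z ∈ Metric.ball (0 : ℂ) (‖z‖ + 1) := by
    rw [mem_ball_zero_iff]
    linarith
  have h1 : ContinuousOn dF (Metric.ball (0 : ℂ) (‖z‖ + 1)) :=
    continuousOn_tsum (fun n => (cont_dpsi.comp (by fun_prop)).continuousOn)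
      (summable_ball (‖z‖ + 1)) fun n x hx => bound_ball n x hx
  exact h1.continuousAt (Metric.isOpen_ball.mem_nhds hz)

theorem fderiv_F (z : ℂ) : fderiv ℝ F z = dF z := (hasFDerivAt_F z).fderiv

theorem cont_F : Continuous F := continuous_iff_continuousAt.2 fun z => (hasFDerivAt_F z).continuousAt

theorem strict_F (z : ℂ) : HasStrictFDerivAt F (dF z) z :=
  hasStrictFDerivAt_of_hasFDerivAt_of_continuousAt (Eventually.of_forall hasFDerivAt_F)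
    cont_dF.continuousAt

theorem contDiff_F : ContDiff ℝ 1 F := by
  rw [contDiff_one_iff_fderiv]
  refine ⟨fun z => (hasFDerivAt_F z).differentiableAt, ?_⟩
  have : fderiv ℝ F = dF := funext fderiv_F
  rw [this]
  exact cont_dF

end Pool.Agent.Q158.As
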