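import Mathlib
import Pool.Agent.Q158.AsB

/-! # The map is a quasiconformal homeomorphism -/

set_option autoImplicit false

namespace Pool.Agent.Q158.As

open Filter Topology

theorem det_formula (T : ℂ →L[ℝ] ℂ) :
    T.det = (T 1).re * (T Complex.I).im - (T Complex.I).re * (T 1).im := by
  have h := LinearMap.det_toMatrix Complex.basisOneI (T : ℂ →ₗ[ℝ] ℂ)
  rw [ContinuousLinearMap.det, ← h, Matrix.det_fin_two]
  simp [LinearMap.toMatrix_apply, Complex.coe_basisOneI_repr, Complex.coe_basisOneI]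

theorem det_ge {T : ℂ →L[ℝ] ℂ} {m : ℝ} (hm : 0 ≤ m)
    (hs : ∀ v w, inner ℝ w (T v) = inner ℝ v (T w))
    (hp : ∀ v, m * ‖v‖ ^ 2 ≤ inner ℝ v (T v)) : m ^ 2 ≤ T.det := by
  have hin : ∀ z w : ℂ, inner ℝ z w = z.re * w.re + z.im * w.im := fun z w => by
    simp [Complex.inner]
    ring
  obtain ⟨a, ha⟩ : ∃ a, a = (T 1).re := ⟨_, rfl⟩
  obtain ⟨b, hb⟩ : ∃ b, b = (T 1).im := ⟨_, rfl⟩
  obtain ⟨d, hd⟩ : ∃ d, d = (T Complex.I).im := ⟨_, rfl⟩
  have hb' : (T Complex.I).re = b := by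
    have := hs Complex.I 1
    rw [hin, hin] at this
    simp only [Complex.one_re, Complex.one_im, Complex.I_re, Complex.I_im] at this
    rw [hb]
    linarith
  have hT : ∀ x y : ℝ, m * (x ^ 2 + y ^ 2) ≤ a * x ^ 2 + 2 * b * x * y + d * y ^ 2 := by
    intro x y
    have e : (x + y * Complex.I : ℂ) = x • (1 : ℂ) + y • Complex.I := by simp
    have h1 := hp (x + y * Complex.I)
    have h2 : ‖(x + y * Complex.I : ℂ)‖ ^ 2 = x ^ 2 + y ^ 2 := by
      rw [← Complex.normSq_eq_norm_sq, Complex.normSq_add_mul_I]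
    rw [h2, e, map_add, map_smul, map_smul, hin] at h1
    simp only [Complex.add_re, Complex.add_im, Complex.real_smul, Complex.mul_re, Complex.mul_im,
      Complex.ofReal_re, Complex.ofReal_im, Complex.one_re, Complex.one_im, Complex.I_re,
      Complex.I_im, hb', ← ha, ← hb, ← hd] at h1
    nlinarith
  rw [det_formula, hb', ← ha, ← hb, ← hd]
  have h1 := hT 1 0
  have h2 := hT 0 1
  have hp0 : 0 ≤ a - m := by linarith
  have hq0 : 0 ≤ d - m := by linarith
  have hdisc : b ^ 2 ≤ (a - m) * (d - m) := by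
    rcases hp0.lt_or_eq with h | h
    · have h3 := hT (-b) (a - m)
      have h4 : 0 ≤ (a - m) * ((a - m) * (d - m) - b ^ 2) := by nlinarith
      have h5 := nonneg_of_mul_nonneg_right h4 h
      linarith
    · have ham : a = m := by linarith
      by_contra hcon
      push Not at hcon
      have hb0 : b ≠ 0 := by
        intro h0
        rw [h0, ham] at hcon
        simp at hcon
      have h3 := hT (-(d - m + 1) / (2 * b)) 1
      have h4 : 2 * b * (-(d - m + 1) / (2 * b)) = -(d - m + 1) := by field_simp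
      rw [ham] at h3
      nlinarith
  nlinarith

theorem Mf_det (z : ℂ) : (1 / 2 * Mf z) ^ 2 ≤ (dF z).det :=
  det_ge (by have := Mf_pos z; positivity) (fun v w => inner_dF_symm z v w) fun v => inner_dF_ge z v

/-- the distortion inequality -/
theorem qc (z : ℂ) : ‖dF z‖ ^ 2 ≤ 9 * (dF z).det := by
  have h1 := Mf_det z
  have h2 := norm_dF_le z
  have h3 : ‖dF z‖ ^ 2 ≤ (3 / 2 * Mf z) ^ 2 := pow_le_pow_left₀ (norm_nonneg _) h2 2
  nlinarith

theorem W_nonneg : 0 ≤ W := tsum_nonneg fun n => by positivity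

theorem lip_F : LipschitzWith ⟨3 * W, by have := W_nonneg; positivity⟩ F := by
  apply lipschitzWith_of_nnnorm_fderiv_le (𝕜 := ℝ) (fun z => (hasFDerivAt_F z).differentiableAt)
  intro z
  rw [fderiv_F]
  have h1 : ‖dF z‖ ≤ 3 * W := by
    have h2 := norm_dF_le z
    have h3 := Mf_le z
    linarith
  exact h1

/-- monotone maps -/
theorem mono_of {g : ℂ → ℂ} {g' : ℂ → ℂ →L[ℝ] ℂ} (hg : ∀ z, HasFDerivAt g (g' z) z)
    (hpos : ∀ z v, 0 ≤ inner ℝ v (g' z v)) (z w : ℂ) : 0 ≤ inner ℝ (z - w) (g z - g w) := by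
  set φ : ℝ → ℝ := fun t => inner ℝ (z - w) (g (w + t • (z - w))) with hφ
  have hd : ∀ t, HasDerivAt φ (inner ℝ (z - w) (g' (w + t • (z - w)) (z - w))) t := by
    intro t
    have h1 : HasDerivAt (fun t : ℝ => w + t • (z - w)) (z - w) t := by
      simpa using ((hasDerivAt_id t).smul_const (z - w)).const_add w
    have h2 := (hg (w + t • (z - w))).comp_hasDerivAt t h1
    exact ((innerSL ℝ (z - w)).hasFDerivAt).comp_hasDerivAt t h2
  have hm : Monotone φ := monotone_of_deriv_nonneg (fun t => (hd t).differentiableAt) fun t => by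
    rw [(hd t).deriv]
    exact hpos _ _
  have h3 := hm (zero_le_one)
  simp only [hφ, zero_smul, add_zero, one_smul, add_sub_cancel] at h3
  rw [inner_sub_right]
  linarith

theorem F_inj : Function.Injective F := by
  intro z w hzw
  by_contra hne
  have hpos : 0 < ‖z - w‖ := norm_pos_iff.2 (sub_ne_zero.2 hne)
  set φ : ℝ → ℝ := fun t => inner ℝ (z - w) (F (w + t • (z - w))) with hφ
  have hd : ∀ t, HasDerivAt φ (inner ℝ (z - w) (dF (w + t • (z - w)) (z - w))) t := by
    intro t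
    have h1 : HasDerivAt (fun t : ℝ => w + t • (z - w)) (z - w) t := by
      simpa using ((hasDerivAt_id t).smul_const (z - w)).const_add w
    have h2 := (hasFDerivAt_F (w + t • (z - w))).comp_hasDerivAt t h1
    exact ((innerSL ℝ (z - w)).hasFDerivAt).comp_hasDerivAt t h2
  have hm : StrictMono φ := strictMono_of_deriv_pos fun t => by
    rw [(hd t).deriv]
    refine lt_of_lt_of_le ?_ (inner_dF_ge _ _)
    have := Mf_pos (w + t • (z - w))
    positivity
  have h3 := hm (zero_lt_one)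
  simp only [hφ, zero_smul, add_zero, one_smul, add_sub_cancel, hzw] at h3
  exact absurd h3 (lt_irrefl _)

theorem psi_zero : psi 0 = 0 := by simp [psi]

/-- expansion from a centre -/
theorem F_lower (z : ℂ) (m : ℕ) :
    gw ‖z - (c m : ℂ)‖ * ‖z - (c m : ℂ)‖ ≤ ‖F z - F (c m : ℂ)‖ := by
  have h1 := mono_of (g := fun z => F z - (psi (z - (c m : ℂ)) - psi (-(c m : ℂ))))
    (g' := fun z => dF z - dpsi (z - (c m : ℂ)))
    (fun z => (hasFDerivAt_F z).sub (hasFDerivAt_term m z))
    (fun z v => by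
      rw [sub_apply, inner_sub_right]
      linarith [inner_dF_term z v m]) z (c m : ℂ)
  simp only [sub_self, psi_zero] at h1
  have e : F z - (psi (z - (c m : ℂ)) - psi (-(c m : ℂ))) - (F (c m : ℂ) - (0 - psi (-(c m : ℂ)))) =
      (F z - F (c m : ℂ)) - psi (z - (c m : ℂ)) := by ring
  rw [e, inner_sub_right] at h1
  have h2 : inner ℝ (z - (c m : ℂ)) (psi (z - (c m : ℂ))) =
      gw ‖z - (c m : ℂ)‖ * ‖z - (c m : ℂ)‖ ^ 2 := by
    unfold psi
    rw [inner_smul_right, real_inner_self_eq_norm_sq]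
  rw [h2] at h1
  have h3 := real_inner_le_norm (z - (c m : ℂ)) (F z - F (c m : ℂ))
  rcases (norm_nonneg (z - (c m : ℂ))).lt_or_eq with h | h
  · have h4 : ‖z - (c m : ℂ)‖ * (gw ‖z - (c m : ℂ)‖ * ‖z - (c m : ℂ)‖) ≤
        ‖z - (c m : ℂ)‖ * ‖F z - F (c m : ℂ)‖ := by nlinarith
    exact le_of_mul_le_mul_left h4 h
  · rw [← h]
    simp

theorem gw_lower {t : ℝ} (ht : 1 ≤ t) : √t / 2 ≤ gw t * t := by
  have h0 : 0 < √t := Real.sqrt_pos.2 (by linarith)
  have h1 : √t * √t = t := Real.mul_self_sqrt (by linarith)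
  have h2 : 1 / (2 * √t) ≤ gw t := by
    refine quarter_le (by positivity) (by positivity) ?_
    have e : (2 * √t) ^ 4 = 16 * t ^ 2 := by
      calc (2 * √t) ^ 4 = 16 * (√t * √t) ^ 2 := by ring
        _ = _ := by rw [h1]
    rw [e]
    nlinarith
  calc √t / 2 = 1 / (2 * √t) * (√t * √t) := by field_simp
    _ = 1 / (2 * √t) * t := by rw [h1]
    _ ≤ gw t * t := mul_le_mul_of_nonneg_right h2 (by linarith)

theorem gw_upper {t : ℝ} (ht : 0 ≤ t) : gw t * t ≤ √t := by
  rcases ht.lt_or_eq with h | h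
  · have h0 : 0 < √t := Real.sqrt_pos.2 h
    have h1 : √t * √t = t := Real.mul_self_sqrt ht
    have h2 : gw t ≤ 1 / √t := by
      refine le_quarter h0 ?_
      have e : √t ^ 4 = t ^ 2 := by
        calc √t ^ 4 = (√t * √t) ^ 2 := by ring
          _ = _ := by rw [h1]
      rw [e]
      linarith
    calc gw t * t ≤ 1 / √t * t := mul_le_mul_of_nonneg_right h2 ht
      _ = 1 / √t * (√t * √t) := by rw [h1]
      _ = √t := by field_simp
  · rw [← h]
    simp

theorem F_sep {m n : ℕ} (h : m ≠ n) : 1 / 2 ≤ ‖F (c m : ℂ) - F (c n : ℂ)‖ := by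
  have h1 := F_lower (c m : ℂ) n
  have h2 : ‖(c m : ℂ) - (c n : ℂ)‖ = |c m - c n| := by
    rw [← Complex.ofReal_sub, Complex.norm_real, Real.norm_eq_abs]
  have h3 := c_sep h
  rw [← h2] at h3
  have h4 := gw_lower h3
  have h5 : 1 ≤ √‖(c m : ℂ) - (c n : ℂ)‖ := Real.one_le_sqrt.2 h3
  linarith

theorem F_proper : Tendsto F (cocompact ℂ) (cocompact ℂ) := by
  rw [← Metric.cobounded_eq_cocompact, ← tendsto_norm_atTop_iff_cobounded]
  have h1 : Tendsto (fun z : ℂ => √‖z‖ / 2) (Bornology.cobounded ℂ) atTop :=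
    (Real.tendsto_sqrt_atTop.comp tendsto_norm_cobounded_atTop).atTop_div_const (by norm_num)
  refine tendsto_atTop_mono' _ ?_ h1
  have h2 : ∀ᶠ z : ℂ in Bornology.cobounded ℂ, 1 ≤ ‖z‖ :=
    tendsto_norm_cobounded_atTop.eventually_ge_atTop 1
  filter_upwards [h2] with z hz
  have h3 := F_lower z 0
  rw [c_zero, Complex.ofReal_zero, F_zero, sub_zero, sub_zero] at h3
  exact (gw_lower hz).trans h3

theorem F_open : IsOpenMap F := by
  refine IsOpenMap.of_nhds_le fun z => ?_
  have hinj : Function.Injective (dF z) := by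
    rw [injective_iff_map_eq_zero]
    intro v hv
    by_contra hne
    have h1 := inner_dF_ge z v
    rw [hv, inner_zero_right] at h1
    have h2 : 0 < ‖v‖ := norm_pos_iff.2 hne
    have h3 := Mf_pos z
    have h4 : 0 < 1 / 2 * Mf z * ‖v‖ ^ 2 := by positivity
    linarith
  have hsurj : LinearMap.range (dF z : ℂ →ₗ[ℝ] ℂ) = ⊤ := by
    rw [LinearMap.range_eq_top]
    exact (LinearMap.injective_iff_surjective (f := (dF z : ℂ →ₗ[ℝ] ℂ))).1 hinj
  exact ((strict_F z).map_nhds_eq_of_surj hsurj).ge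

theorem F_surj : Function.Surjective F := by
  have h1 : IsClosed (Set.range F) :=
    (isProperMap_iff_tendsto_cocompact.2 ⟨cont_F, F_proper⟩).isClosedMap.isClosed_range
  have h2 : IsOpen (Set.range F) := F_open.isOpen_range
  have h3 : Set.range F = Set.univ :=
    IsClopen.eq_univ ⟨h1, h2⟩ (Set.range_nonempty F)
  exact Set.range_eq_univ.1 h3

/-- the map as a homeomorphism -/
noncomputable def homeo : ℂ ≃ₜ ℂ :=
  (Equiv.ofBijective F ⟨F_inj, F_surj⟩).toHomeomorphOfContinuousOpen cont_F F_open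

theorem homeo_coe : (homeo : ℂ → ℂ) = F := rfl

end Pool.Agent.Q158.As
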