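import Mathlib
import Pool.Agent.Q158.AsC

/-! # The Assouad dimensions -/

set_option autoImplicit false

namespace Pool.Agent.Q158.As

open Filter Topology

theorem norm_psi (z : ℂ) : ‖psi z‖ = gw ‖z‖ * ‖z‖ := by
  unfold psi
  rw [norm_smul, Real.norm_eq_abs, abs_of_pos (gw_pos _)]

theorem norm_psi_le (z : ℂ) : ‖psi z‖ ≤ √‖z‖ := by
  rw [norm_psi]
  exact gw_upper (norm_nonneg _)

theorem c_le {k m : ℕ} (hm : m < 2 ^ k) : c m ≤ 16 ^ k := by
  have h1 := c_near (j := k) (m := m) (n := 0) (by rw [Nat.div_eq_of_lt hm, Nat.zero_div])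
  rw [c_zero, sub_zero, abs_of_nonneg (c_nonneg m)] at h1
  linarith [c_nonneg m]

/-- near terms -/
theorem term_near {k m n : ℕ} (hm : m < 2 ^ k) (hn : n < 2 ^ k) :
    ‖psi ((c m : ℂ) - (c n : ℂ)) - psi (-(c n : ℂ))‖ ≤ 2 * 4 ^ k := by
  have h16 : √((16 : ℝ) ^ k) = 4 ^ k := by
    rw [show (16 : ℝ) ^ k = (4 ^ k) ^ 2 by rw [← pow_mul, mul_comm k 2, pow_mul]; norm_num]
    exact Real.sqrt_sq (by positivity)
  have h1 : ‖psi ((c m : ℂ) - (c n : ℂ))‖ ≤ 4 ^ k := by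
    refine (norm_psi_le _).trans ?_
    rw [← h16]
    apply Real.sqrt_le_sqrt
    rw [← Complex.ofReal_sub, Complex.norm_real, Real.norm_eq_abs, abs_le]
    constructor <;> linarith [c_nonneg m, c_nonneg n, c_le hm, c_le hn]
  have h2 : ‖psi (-(c n : ℂ))‖ ≤ 4 ^ k := by
    refine (norm_psi_le _).trans ?_
    rw [← h16]
    apply Real.sqrt_le_sqrt
    rw [norm_neg, Complex.norm_real, Real.norm_eq_abs, abs_of_nonneg (c_nonneg n)]
    exact c_le hn
  linarith [norm_sub_le (psi ((c m : ℂ) - (c n : ℂ))) (psi (-(c n : ℂ)))]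

/-- far terms -/
theorem term_far {k m n : ℕ} (hm : m < 2 ^ k) (hn : 2 ^ k ≤ n) :
    ‖psi ((c m : ℂ) - (c n : ℂ)) - psi (-(c n : ℂ))‖ ≤
      15 / 2 * 16 ^ k * (1 / ((n : ℝ) + 1) ^ 2) := by
  obtain ⟨i, hi, hlt⟩ := log_bounds n
  have hn0 : 0 < n := lt_of_lt_of_le (by positivity) hn
  have hi' : 2 ^ i ≤ n := by
    rcases hi with h | h
    · omega
    · exact h
  have hki : k ≤ i := by
    by_contra hcon
    push Not at hcon
    have : 2 ^ (i + 1) ≤ 2 ^ k := Nat.pow_le_pow_right (by norm_num) hcon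
    omega
  have hmi : m / 2 ^ i = 0 := Nat.div_eq_of_lt (hm.trans_le (Nat.pow_le_pow_right (by norm_num) hki))
  have hni : n / 2 ^ i ≠ m / 2 ^ i := by
    rw [hmi]
    exact (Nat.div_pos hi' (by positivity)).ne'
  have hfar := c_far hni
  have hmn : c m ≤ c n := c_mono.monotone (by omega)
  rw [abs_of_nonneg (by linarith)] at hfar
  have hbound : ∀ x ∈ segment ℝ (0 : ℂ) (c m : ℂ), ‖dpsi (x - (c n : ℂ))‖ ≤
      3 / 2 * (5 / ((n : ℝ) + 1) ^ 2) := by
    intro x hx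
    rw [segment_eq_image] at hx
    obtain ⟨t, ht, rfl⟩ := hx
    refine (norm_dpsi_le _).trans (mul_le_mul_of_nonneg_left ?_ (by norm_num))
    refine gw_bound hlt ?_
    have e : (1 - t) • (0 : ℂ) + t • (c m : ℂ) - (c n : ℂ) = ((t * c m - c n : ℝ) : ℂ) := by
      rw [smul_zero, zero_add, Complex.real_smul]
      push_cast
      ring
    rw [e, Complex.norm_real, Real.norm_eq_abs, abs_abs]
    have h1 : t * c m ≤ c m := mul_le_of_le_one_left (c_nonneg m) ht.2
    rw [abs_of_nonpos (by linarith)]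
    linarith
  have h1 := Convex.norm_image_sub_le_of_norm_hasFDerivWithin_le (𝕜 := ℝ)
    (f := fun z : ℂ => psi (z - (c n : ℂ)) - psi (-(c n : ℂ))) (s := segment ℝ (0 : ℂ) (c m : ℂ))
    (fun x _ => (hasFDerivAt_term n x).hasFDerivWithinAt) hbound (convex_segment _ _)
    (left_mem_segment ℝ _ _) (right_mem_segment ℝ _ _)
  simp only [term_zero, sub_zero] at h1
  rw [Complex.norm_real, Real.norm_eq_abs, abs_of_nonneg (c_nonneg m)] at h1
  refine h1.trans ?_
  have h2 := c_le hm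
  have h3 : 0 ≤ 3 / 2 * (5 / ((n : ℝ) + 1) ^ 2) := by positivity
  calc _ ≤ 3 / 2 * (5 / ((n : ℝ) + 1) ^ 2) * 16 ^ k := mul_le_mul_of_nonneg_left h2 h3
    _ = _ := by ring

theorem sum_bound {k m : ℕ} (hm : m < 2 ^ k) (M : ℕ) (hM : 2 ^ k ≤ M) :
    ∑ n ∈ Finset.range M, ‖psi ((c m : ℂ) - (c n : ℂ)) - psi (-(c n : ℂ))‖ ≤
      2 * 4 ^ k * 2 ^ k + 15 / 2 * 16 ^ k * (1 / 2 ^ k - 1 / (M : ℝ)) := by
  induction M, hM using Nat.le_induction with
  | base =>
    have h1 := Finset.sum_le_sum fun n (hn : n ∈ Finset.range (2 ^ k)) =>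
      term_near hm (Finset.mem_range.1 hn)
    rw [Finset.sum_const, Finset.card_range, nsmul_eq_mul] at h1
    push_cast at h1 ⊢
    rw [sub_self, mul_zero, add_zero]
    linarith
  | succ M hM ih =>
    rw [Finset.sum_range_succ]
    have h1 := term_far hm hM
    have hM0 : (0 : ℝ) < M := by
      have : 0 < M := lt_of_lt_of_le (by positivity) hM
      exact_mod_cast this
    have h2 : 1 / ((M : ℝ) + 1) ^ 2 ≤ 1 / (M : ℝ) - 1 / ((M : ℝ) + 1) := by
      rw [div_sub_div _ _ hM0.ne' (by positivity), div_le_div_iff₀ (by positivity) (by positivity)]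
      nlinarith
    have h3 := mul_le_mul_of_nonneg_left h2 (show (0 : ℝ) ≤ 15 / 2 * 16 ^ k by positivity)
    push_cast
    linarith

theorem F_upper {k m : ℕ} (hm : m < 2 ^ k) : ‖F (c m : ℂ)‖ ≤ 10 * 8 ^ k := by
  have h1 : Tendsto (fun M : ℕ => ‖∑ n ∈ Finset.range M,
      (psi ((c m : ℂ) - (c n : ℂ)) - psi (-(c n : ℂ)))‖) atTop (𝓝 ‖F (c m : ℂ)‖) :=
    ((summable_F (c m : ℂ)).hasSum.tendsto_sum_nat).norm
  refine le_of_tendsto h1 ?_
  filter_upwards [eventually_ge_atTop (2 ^ k)] with M hM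
  refine (norm_sum_le _ _).trans ((sum_bound hm M hM).trans ?_)
  have h2 : 0 ≤ 1 / (M : ℝ) := by positivity
  have h3 : (0 : ℝ) < 16 ^ k := by positivity
  have e1 : (4 : ℝ) ^ k * 2 ^ k = 8 ^ k := by rw [← mul_pow]; norm_num
  have e2 : (16 : ℝ) ^ k * (1 / 2 ^ k) = 8 ^ k := by
    rw [one_div, ← inv_pow, ← mul_pow]
    norm_num
  have h4 : 0 ≤ (16 : ℝ) ^ k * (1 / (M : ℝ)) := by positivity
  have h5 : (0 : ℝ) < 8 ^ k := by positivity
  nlinarith

/-- `A` is covered by finitely many sets of diameter at most `r`, their number is at most `N` -/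
def HasCover (A : Set ℂ) (r N : ℝ) : Prop :=
  ∃ G : Finset (Set ℂ), (G.card : ℝ) ≤ N ∧ (∀ S ∈ G, ∀ x ∈ S, ∀ y ∈ S, dist x y ≤ r) ∧
    A ⊆ ⋃ S ∈ G, S

/-- the condition in the definition of the Assouad dimension -/
def AssouadBound (E : Set ℂ) (α C : ℝ) : Prop :=
  ∀ x ∈ E, ∀ r R : ℝ, 0 < r → r < R → HasCover (Metric.ball x R ∩ E) r (C * (R / r) ^ α)

/-- the set of centres -/
def Ec : Set ℂ := Set.range fun n : ℕ => (c n : ℂ)

theorem upper_dim : AssouadBound Ec (1 / 4) 4 := by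
  classical
  rintro _ ⟨n₀, rfl⟩ r R hr hrR
  obtain ⟨j, hj1, hj2⟩ := exists_nat_pow_near (x := 15 * r + 1) (y := 16) (by linarith) (by norm_num)
  obtain ⟨K, hK1, hK2⟩ := exists_nat_pow_near (x := 15 / 14 * R + 1) (y := 16) (by linarith)
    (by norm_num)
  -- blocks of level `j` inside the block of level `K + 1` of `n₀`
  set q := n₀ / 2 ^ (K + 1) with hq
  set B : ℕ → Set ℂ := fun a => {z | ∃ n : ℕ, n / 2 ^ j = a ∧ z = (c n : ℂ)} with hB
  refine ⟨(Finset.range (2 ^ (K + 1 - j))).image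
    (fun t => B ((2 ^ (K + 1) * q) / 2 ^ j + t)), ?_, ?_, ?_⟩
  · have h1 : ((Finset.range (2 ^ (K + 1 - j))).image
        (fun t => B ((2 ^ (K + 1) * q) / 2 ^ j + t))).card ≤ 2 ^ (K + 1 - j) :=
      Finset.card_image_le.trans (by rw [Finset.card_range])
    have h2 : ((2 : ℝ) ^ (K + 1 - j)) ≤ 4 * (R / r) ^ (1 / 4 : ℝ) := by
      have hRr : 1 < R / r := by rwa [one_lt_div hr]
      rcases le_or_gt (K + 1) j with h | h
      · rw [Nat.sub_eq_zero_of_le h, pow_zero]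
        have := Real.one_le_rpow hRr.le (show (0 : ℝ) ≤ 1 / 4 by norm_num)
        linarith
      · have h3 : (16 : ℝ) ^ (K + 1 - j) * 16 ^ (j + 1) = 16 ^ K * 256 := by
          rw [← pow_add, show K + 1 - j + (j + 1) = K + 2 by omega, pow_add]
          norm_num
        have h4 : (16 : ℝ) ^ (K + 1 - j) * (15 * r + 1) ≤ 256 * (15 / 14 * R + 1) := by
          have h5 : (16 : ℝ) ^ (K + 1 - j) * (15 * r + 1) ≤ 16 ^ (K + 1 - j) * 16 ^ (j + 1) :=
            mul_le_mul_of_nonneg_left hj2.le (by positivity)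
          rw [h3] at h5
          linarith
        have h5 : (16 : ℝ) ^ (K + 1 - j) ≤ 256 * (R / r) := by
          rw [mul_div_assoc', le_div_iff₀ hr]
          have h6 : (15 / 14 * R + 1) * r ≤ R * (15 * r + 1) := by nlinarith
          have h7 : 0 < 15 * r + 1 := by linarith
          have h8 : (16 : ℝ) ^ (K + 1 - j) * (15 * r + 1) * r ≤ 256 * R * (15 * r + 1) := by
            calc _ ≤ 256 * (15 / 14 * R + 1) * r := mul_le_mul_of_nonneg_right h4 hr.le
              _ ≤ _ := by nlinarith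
          have h9 : (16 : ℝ) ^ (K + 1 - j) * r * (15 * r + 1) ≤ 256 * R * (15 * r + 1) := by
            linarith
          exact le_of_mul_le_mul_right h9 h7
        have h6 : ((16 : ℝ) ^ (K + 1 - j)) ^ (1 / 4 : ℝ) = 2 ^ (K + 1 - j) := by
          rw [show (16 : ℝ) ^ (K + 1 - j) = (2 ^ (K + 1 - j)) ^ 4 by
            rw [← pow_mul, mul_comm (K + 1 - j) 4, pow_mul]; norm_num,
            ← Real.rpow_natCast (2 ^ (K + 1 - j)) 4, ← Real.rpow_mul (by positivity)]
          norm_num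
        have h7 := Real.rpow_le_rpow (by positivity) h5 (show (0 : ℝ) ≤ 1 / 4 by norm_num)
        rw [h6, Real.mul_rpow (by norm_num) (by positivity)] at h7
        have h8 : (256 : ℝ) ^ (1 / 4 : ℝ) = 4 := by
          rw [show (256 : ℝ) = 4 ^ (4 : ℕ) by norm_num, ← Real.rpow_natCast 4 4,
            ← Real.rpow_mul (by norm_num)]
          norm_num
        rwa [h8] at h7
    exact le_trans (by exact_mod_cast h1) h2
  · intro S hS x hx y hy
    obtain ⟨t, -, rfl⟩ := Finset.mem_image.1 hS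
    obtain ⟨m, hm, rfl⟩ := hx
    obtain ⟨n, hn, rfl⟩ := hy
    have h1 := c_near (hm.trans hn.symm)
    rw [dist_eq_norm, ← Complex.ofReal_sub, Complex.norm_real, Real.norm_eq_abs]
    linarith
  · rintro _ ⟨hz, n, rfl⟩
    have h1 : |c n - c n₀| < R := by
      rw [mem_ball_iff_norm, ← Complex.ofReal_sub, Complex.norm_real, Real.norm_eq_abs] at hz
      exact hz
    have h2 : n / 2 ^ (K + 1) = n₀ / 2 ^ (K + 1) := by
      by_contra hne
      have h3 := c_far hne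
      linarith
    have h3 : 2 ^ (K + 1) * q ≤ n := by
      rw [hq, ← h2]
      exact Nat.mul_div_le n _
    have h4 : n < 2 ^ (K + 1) * q + 2 ^ (K + 1) := by
      rw [hq, ← h2]
      have := Nat.lt_mul_div_succ n (show 0 < 2 ^ (K + 1) by positivity)
      rw [mul_add, mul_one] at this
      exact this
    have h5 : (2 ^ (K + 1) * q) / 2 ^ j ≤ n / 2 ^ j := Nat.div_le_div_right h3
    refine Set.mem_iUnion₂.2 ⟨B (n / 2 ^ j), Finset.mem_image.2 ⟨n / 2 ^ j - (2 ^ (K + 1) * q) / 2 ^ j,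
      ?_, ?_⟩, ⟨n, rfl, rfl⟩⟩
    · rw [Finset.mem_range]
      rcases le_or_gt (K + 1) j with h | h
      · rw [Nat.sub_eq_zero_of_le h, pow_zero]
        have h6 : n / 2 ^ j = (2 ^ (K + 1) * q) / 2 ^ j := by
          obtain ⟨s, rfl⟩ := Nat.exists_eq_add_of_le h
          rw [pow_add, ← Nat.div_div_eq_div_mul, ← Nat.div_div_eq_div_mul,
            Nat.mul_div_cancel_left _ (by positivity), h2]
        omega
      · have h6 : 2 ^ (K + 1) = 2 ^ j * 2 ^ (K + 1 - j) := by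
          rw [← pow_add]
          congr 1
          omega
        have h7 : (2 ^ (K + 1) * q) / 2 ^ j = 2 ^ (K + 1 - j) * q := by
          rw [h6, mul_assoc, Nat.mul_div_cancel_left _ (by positivity)]
        rw [h7]
        have h8 : n / 2 ^ j < 2 ^ (K + 1 - j) * q + 2 ^ (K + 1 - j) := by
          rw [Nat.div_lt_iff_lt_mul (by positivity)]
          calc n < 2 ^ (K + 1) * q + 2 ^ (K + 1) := h4
            _ = _ := by rw [h6]; ring
        have h9 : 2 ^ (K + 1 - j) * q ≤ n / 2 ^ j := by rw [← h7]; exact h5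
        omega
    · rw [Nat.add_sub_cancel' h5]

theorem lower_dim {α C : ℝ} (hα : 0 ≤ α) (hC : 0 < C) (h : AssouadBound (F '' Ec) α C) :
    1 / 3 ≤ α := by
  classical
  by_contra hcon
  push Not at hcon
  -- the points `F (c m)`, `m < 2 ^ k`
  have key : ∀ k : ℕ, (2 : ℝ) ^ k ≤ C * 44 ^ α * ((8 : ℝ) ^ α) ^ k := by
    intro k
    have h0 : (0 : ℂ) ∈ F '' Ec := ⟨0, ⟨0, by simp [c_zero]⟩, F_zero⟩
    have h8 : (1 : ℝ) ≤ 8 ^ k := one_le_pow₀ (by norm_num)
    obtain ⟨G, hG1, hG2, hG3⟩ := h 0 h0 (1 / 4) (11 * 8 ^ k) (by norm_num) (by linarith)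
    have hmem : ∀ m ∈ Finset.range (2 ^ k), ∃ S ∈ G, F (c m : ℂ) ∈ S := by
      intro m hm
      have h1 : F (c m : ℂ) ∈ Metric.ball (0 : ℂ) (11 * 8 ^ k) ∩ F '' Ec := by
        refine ⟨?_, ⟨(c m : ℂ), ⟨m, rfl⟩, rfl⟩⟩
        rw [mem_ball_zero_iff]
        have := F_upper (Finset.mem_range.1 hm)
        linarith
      obtain ⟨S, hS, h2⟩ := Set.mem_iUnion₂.1 (hG3 h1)
      exact ⟨S, hS, h2⟩
    choose! g hg1 hg2 using hmem
    have hinj : Set.InjOn g (Finset.range (2 ^ k) : Set ℕ) := by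
      intro m hm n hn hmn
      by_contra hne
      have h1 := F_sep hne
      have h2 := hg2 n hn
      rw [← hmn] at h2
      have h3 := hG2 (g m) (hg1 m hm) _ (hg2 m hm) _ h2
      rw [dist_eq_norm] at h3
      linarith
    have hcard : 2 ^ k ≤ G.card := by
      have := Finset.card_le_card_of_injOn g (fun m hm => hg1 m hm) hinj
      rwa [Finset.card_range] at this
    have h1 : (2 : ℝ) ^ k ≤ C * (11 * 8 ^ k / (1 / 4)) ^ α :=
      le_trans (by exact_mod_cast hcard) hG1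
    have e1 : (11 * (8 : ℝ) ^ k / (1 / 4)) ^ α = 44 ^ α * ((8 : ℝ) ^ α) ^ k := by
      rw [show (11 * (8 : ℝ) ^ k / (1 / 4)) = 44 * 8 ^ k by ring,
        Real.mul_rpow (by norm_num) (by positivity), ← Real.rpow_natCast 8 k,
        ← Real.rpow_mul (by norm_num), mul_comm (k : ℝ) α, Real.rpow_mul (by norm_num),
        Real.rpow_natCast]
    rw [e1, ← mul_assoc] at h1
    exact h1
  have h8α : (8 : ℝ) ^ α < 2 := by
    have h1 : (8 : ℝ) ^ α < 8 ^ (1 / 3 : ℝ) := Real.rpow_lt_rpow_of_exponent_lt (by norm_num) hcon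
    have h2 : (8 : ℝ) ^ (1 / 3 : ℝ) = 2 := by
      rw [show (8 : ℝ) = 2 ^ (3 : ℕ) by norm_num, ← Real.rpow_natCast 2 3,
        ← Real.rpow_mul (by norm_num)]
      norm_num
    rwa [h2] at h1
  have h8pos : (0 : ℝ) < 8 ^ α := by positivity
  have h1 : ∀ k : ℕ, (2 / (8 : ℝ) ^ α) ^ k ≤ C * 44 ^ α := by
    intro k
    rw [div_pow, div_le_iff₀ (by positivity)]
    exact key k
  have h2 : 1 < 2 / (8 : ℝ) ^ α := by rwa [one_lt_div h8pos]
  obtain ⟨k, hk⟩ := pow_unbounded_of_one_lt (C * 44 ^ α) h2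
  exact absurd (h1 k) (not_le.2 hk)

end Pool.Agent.Q158.As
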