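import Mathlib
import Pool.Agent.TH327.Thin.Transfer

set_option autoImplicit false

/-! # Absolutely summable sequences of small `ℓ²` norm whose transform is one near a closed null set -/

namespace Pool.Agent.Q158.Band

open Finset MeasureTheory Pool.Agent.TH327.Thin

/-- the point `s / q` of the circle -/
noncomputable def pt (q s : ℕ) : UnitAddCircle := (((s : ℝ) / q : ℝ) : UnitAddCircle)

theorem fourier_pt (q s : ℕ) (n : ℤ) :
    (fourier n (pt q s) : ℂ) = (Complex.exp (2 * Real.pi * Complex.I * n / q)) ^ s := by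
  rw [pt, fourier_coe, ← Complex.exp_nat_mul]
  congr 1
  push_cast
  ring

theorem sum_pt (q : ℕ) (hq : 1 ≤ q) (n : ℤ) (hn : ¬ (q : ℤ) ∣ n) :
    ∑ s ∈ range q, (fourier n (pt q s) : ℂ) = 0 := by
  have hq0 : (q : ℂ) ≠ 0 := by exact_mod_cast (by omega : q ≠ 0)
  set z : ℂ := Complex.exp (2 * Real.pi * Complex.I * n / q) with hz
  have h1 : z ^ q = 1 := by
    rw [hz, ← Complex.exp_nat_mul, Complex.exp_eq_one_iff]
    exact ⟨n, by field_simp⟩
  have h2 : z ≠ 1 := by
    intro h
    rw [hz, Complex.exp_eq_one_iff] at h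
    obtain ⟨m, hm⟩ := h
    apply hn
    refine ⟨m, ?_⟩
    have h3 : (2 * Real.pi * Complex.I : ℂ) ≠ 0 := Complex.two_pi_I_ne_zero
    have h4 : (n : ℂ) = q * m := by
      field_simp at hm
      have h5 : (2 * Real.pi * Complex.I : ℂ) * n = (2 * Real.pi * Complex.I : ℂ) * (q * m) := by
        linear_combination (2 * Real.pi * Complex.I) * hm
      exact mul_left_cancel₀ h3 h5
    exact_mod_cast h4
  rw [Finset.sum_congr rfl fun s _ => fourier_pt q s n]
  have h3 := mul_neg_geom_sum z q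
  rw [h1, sub_self] at h3
  exact (mul_eq_zero.1 h3).resolve_left (sub_ne_zero.2 (Ne.symm h2))

theorem W_dvd (q : ℕ) (hq : 1 ≤ q) (n : ℤ) (hn0 : n ≠ 0) (hn : (q : ℤ) ∣ n) : W (1 / q) n = 0 := by
  have hq0 : (q : ℝ) ≠ 0 := by exact_mod_cast (by omega : q ≠ 0)
  rw [W_formula _ (by positivity) n hn0]
  obtain ⟨m, rfl⟩ := hn
  have h1 : 2 * Real.pi * ((((q : ℤ) * m : ℤ)) : ℝ) * (1 / q) = m * (2 * Real.pi) := by
    push_cast
    field_simp
  rw [h1, Real.cos_int_mul_two_pi]
  simp

theorem term_shift (q s : ℕ) (n : ℤ) (η : UnitAddCircle) :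
    (fourier n (η - pt q s) : ℂ) = fourier n η * fourier (-n) (pt q s) :=
  fourier_sub_arg n η (pt q s)

theorem part_one (q : ℕ) (hq : 2 ≤ q) (η : UnitAddCircle) :
    ∑ s ∈ range q, tri (1 / q) (η - pt q s) = q := by
  have hq0 : (0 : ℝ) < q := by exact_mod_cast (by omega : 0 < q)
  have h2 : (1 : ℝ) / q ≤ 1 / 2 := by
    apply one_div_le_one_div_of_le (by norm_num)
    exact_mod_cast hq
  have h1 : HasSum (fun n : ℤ => ∑ s ∈ range q, (W (1 / q) n : ℂ) * fourier n (η - pt q s))
      (∑ s ∈ range q, tri (1 / q) (η - pt q s)) :=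
    hasSum_sum fun s _ => hasSum_W (1 / q) (by positivity) h2 (η - pt q s)
  have h3 : (fun n : ℤ => ∑ s ∈ range q, (W (1 / q) n : ℂ) * fourier n (η - pt q s)) =
      fun n => if n = 0 then (q : ℂ) else 0 := by
    funext n
    have h4 : ∑ s ∈ range q, (W (1 / q) n : ℂ) * fourier n (η - pt q s) =
        (W (1 / q) n : ℂ) * fourier n η * ∑ s ∈ range q, (fourier (-n) (pt q s) : ℂ) := by
      rw [Finset.mul_sum]
      refine Finset.sum_congr rfl fun s _ => ?_
      rw [term_shift]
      ring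
    rw [h4]
    split_ifs with h
    · subst h
      rw [W_zero _ (by positivity)]
      simp
    · by_cases hd : (q : ℤ) ∣ n
      · rw [W_dvd q (by omega) n h hd]
        simp
      · rw [sum_pt q (by omega) (-n) (by rwa [dvd_neg]), mul_zero]
  rw [h3] at h1
  exact h1.unique (hasSum_ite_eq 0 (q : ℂ))

/-- the function `F` -/
noncomputable def F (q : ℕ) (S : Finset ℕ) : C(UnitAddCircle, ℂ) :=
  ⟨fun η => (1 / (q : ℂ)) * ∑ s ∈ S, tri (1 / q) (η - pt q s), by fun_prop⟩

theorem F_apply (q : ℕ) (S : Finset ℕ) (η : UnitAddCircle) :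
    F q S η = (1 / (q : ℂ)) * ∑ s ∈ S, tri (1 / q) (η - pt q s) := rfl

/-- the coefficients -/
noncomputable def φ (q : ℕ) (S : Finset ℕ) (l : ℤ) : ℂ :=
  (1 / (q : ℂ)) * ∑ s ∈ S, (W (1 / q) (-l) : ℂ) * fourier l (pt q s)

theorem half_le (q : ℕ) (hq : 2 ≤ q) : (1 : ℝ) / q ≤ 1 / 2 := by
  apply one_div_le_one_div_of_le (by norm_num)
  exact_mod_cast hq

theorem pos_q (q : ℕ) (hq : 2 ≤ q) : (0 : ℝ) < 1 / q := by
  have hq0 : (0 : ℝ) < q := by exact_mod_cast (by omega : 0 < q)
  positivity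

theorem summable_φ (q : ℕ) (hq : 2 ≤ q) (S : Finset ℕ) : Summable (fun l => ‖φ q S l‖) := by
  have h1 : Summable fun l : ℤ => W (1 / q) (-l) :=
    (Equiv.neg ℤ).summable_iff.2 (summable_W (1 / q) (pos_q q hq))
  refine Summable.of_nonneg_of_le (fun _ => norm_nonneg _) (fun l => ?_)
    (h1.mul_left ((1 : ℝ) / q * (S.card : ℝ)))
  unfold φ
  rw [norm_mul]
  have h2 : ‖(1 / (q : ℂ))‖ = 1 / q := by
    rw [norm_div, norm_one, Complex.norm_natCast]
  rw [h2]
  have h3 : ‖∑ s ∈ S, (W (1 / q) (-l) : ℂ) * fourier l (pt q s)‖ ≤ S.card * W (1 / q) (-l) := by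
    refine (norm_sum_le _ _).trans ?_
    calc _ ≤ ∑ _s ∈ S, W (1 / q) (-l) := by
          refine Finset.sum_le_sum fun s _ => ?_
          rw [norm_mul, norm_fourier_apply, mul_one, Complex.norm_real, Real.norm_eq_abs,
            abs_of_nonneg (W_nonneg _ (pos_q q hq) _)]
      _ = _ := by simp
  calc _ ≤ 1 / (q : ℝ) * (S.card * W (1 / q) (-l)) := mul_le_mul_of_nonneg_left h3 (pos_q q hq).le
    _ = _ := by ring

theorem hasSum_φ (q : ℕ) (hq : 2 ≤ q) (S : Finset ℕ) (η : UnitAddCircle) :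
    HasSum (fun l => φ q S l * fourier (-l) η) (F q S η) := by
  have h1 : HasSum (fun n : ℤ => (1 / (q : ℂ)) * ∑ s ∈ S, (W (1 / q) n : ℂ) * fourier n (η - pt q s))
      (F q S η) := by
    rw [F_apply]
    exact (hasSum_sum fun s _ => hasSum_W (1 / q) (pos_q q hq) (half_le q hq) (η - pt q s)).mul_left _
  have h2 := (Equiv.neg ℤ).hasSum_iff.2 h1
  refine Eq.mp (congrArg (fun f => HasSum f (F q S η)) (funext fun l => Eq.symm ?_)) h2
  simp only [Function.comp, Equiv.neg_apply]
  unfold φ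
  rw [mul_assoc, Finset.sum_mul]
  congr 1
  refine Finset.sum_congr rfl fun s _ => ?_
  rw [term_shift, neg_neg]
  ring

theorem F_one (q : ℕ) (hq : 2 ≤ q) (S : Finset ℕ) (hS : S ⊆ range q) (η : UnitAddCircle)
    (h : ∀ s ∈ range q, s ∉ S → 1 / (q : ℝ) ≤ ‖η - pt q s‖) : F q S η = 1 := by
  have hq0 : (q : ℂ) ≠ 0 := by exact_mod_cast (by omega : q ≠ 0)
  have h1 : ∑ s ∈ S, tri (1 / q) (η - pt q s) = ∑ s ∈ range q, tri (1 / q) (η - pt q s) := by
    refine Finset.sum_subset hS fun s hs hsS => ?_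
    exact tri_eq_zero _ (pos_q q hq) _ (h s hs hsS)
  rw [F_apply, h1, part_one q hq]
  field_simp

/-- the real version of the triangle -/
theorem tri_real (δ : ℝ) (h : 0 < δ) (η : UnitAddCircle) :
    ∃ t : ℝ, 0 ≤ t ∧ tri δ η = (t : ℂ) :=
  ⟨max 0 (1 - ‖η‖ / δ) / δ, by positivity, tri_apply δ η⟩

theorem F_real (q : ℕ) (hq : 2 ≤ q) (S : Finset ℕ) (hS : S ⊆ range q) (η : UnitAddCircle) :
    ∃ t : ℝ, 0 ≤ t ∧ t ≤ 1 ∧ F q S η = (t : ℂ) := by
  have hq0 : (0 : ℝ) < q := by exact_mod_cast (by omega : 0 < q)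
  choose t ht0 ht using fun s : ℕ => tri_real (1 / q) (pos_q q hq) (η - pt q s)
  refine ⟨1 / q * ∑ s ∈ S, t s, ?_, ?_, ?_⟩
  · have := Finset.sum_nonneg fun s (_ : s ∈ S) => ht0 s
    positivity
  · have h1 : ∑ s ∈ S, t s ≤ ∑ s ∈ range q, t s :=
      Finset.sum_le_sum_of_subset_of_nonneg hS fun s _ _ => ht0 s
    have h2 : ∑ s ∈ range q, t s = q := by
      have h3 := part_one q hq η
      rw [Finset.sum_congr rfl fun s _ => ht s] at h3
      exact_mod_cast h3
    rw [h2] at h1
    calc 1 / (q : ℝ) * ∑ s ∈ S, t s ≤ 1 / q * q := mul_le_mul_of_nonneg_left h1 (by positivity)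
      _ = 1 := by field_simp
  · rw [F_apply, Finset.sum_congr rfl fun s _ => ht s]
    push_cast
    rfl

open AddCircle in
theorem coeff_shift (q s : ℕ) (hq : 2 ≤ q) (n : ℤ) :
    fourierCoeff (fun η => tri (1 / q) (η - pt q s)) n =
      fourier (-n) (pt q s) * (W (1 / q) n : ℂ) := by
  rw [← coeff_tri (1 / q) (pos_q q hq) (half_le q hq) n]
  unfold fourierCoeff
  have h1 : ∀ η : UnitAddCircle, (fourier (-n) η : ℂ) • tri (1 / q) (η - pt q s) =
      (fun x : UnitAddCircle => (fourier (-n) (x + pt q s) : ℂ) • tri (1 / q) x) (η - pt q s) := by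
    intro η
    simp only [sub_add_cancel]
  rw [integral_congr_ae (Filter.Eventually.of_forall h1),
    integral_sub_right_eq_self (fun x : UnitAddCircle =>
      (fourier (-n) (x + pt q s) : ℂ) • tri (1 / q) x), ← integral_const_mul]
  refine integral_congr_ae (Filter.Eventually.of_forall fun x => ?_)
  simp only [smul_eq_mul]
  have h2 : (fourier (-n) (x + pt q s) : ℂ) = fourier (-n) x * fourier (-n) (pt q s) := by
    rw [fourier_apply, fourier_apply, fourier_apply, zsmul_add, AddCircle.toCircle_add,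
      Circle.coe_mul]
  rw [h2]
  ring

open AddCircle in
theorem coeff_F (q : ℕ) (hq : 2 ≤ q) (S : Finset ℕ) (n : ℤ) :
    fourierCoeff (F q S) n = φ q S (-n) := by
  have hint : ∀ s ∈ S, Integrable (fun η : UnitAddCircle =>
      (fourier (-n) η : ℂ) • tri (1 / q) (η - pt q s)) haarAddCircle := by
    intro s _
    apply Continuous.integrable_of_hasCompactSupport
    · exact (map_continuous (fourier (-n))).smul ((map_continuous (tri (1 / q))).comp
        (continuous_id.sub continuous_const))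
    · exact HasCompactSupport.of_compactSpace _
  have h1 : fourierCoeff (F q S) n = (1 / (q : ℂ)) *
      ∑ s ∈ S, fourierCoeff (fun η => tri (1 / q) (η - pt q s)) n := by
    unfold fourierCoeff
    rw [← integral_finsetSum _ hint, ← integral_const_mul]
    refine integral_congr_ae (Filter.Eventually.of_forall fun x => ?_)
    simp only [F_apply, smul_eq_mul]
    rw [← Finset.mul_sum]
    ring
  rw [h1]
  unfold φ
  congr 1
  refine Finset.sum_congr rfl fun s _ => ?_
  rw [coeff_shift q s hq, neg_neg, mul_comm]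

open AddCircle in
/-- the mean of `F` -/
theorem mean_F (q : ℕ) (hq : 2 ≤ q) (S : Finset ℕ) :
    ∫ η, F q S η ∂(haarAddCircle : Measure UnitAddCircle) = (S.card : ℂ) / q := by
  have h1 := coeff_F q hq S 0
  unfold fourierCoeff at h1
  simp only [neg_zero, fourier_zero, one_smul] at h1
  rw [h1]
  unfold φ
  simp only [neg_zero, W_zero _ (pos_q q hq), fourier_zero]
  simp
  ring

open AddCircle in
/-- **the `ℓ²` norm** -/
theorem sq_sum (q : ℕ) (hq : 2 ≤ q) (S : Finset ℕ) :
    HasSum (fun l => ‖φ q S l‖ ^ 2) (∫ η, ‖F q S η‖ ^ 2 ∂(haarAddCircle : Measure UnitAddCircle)) := by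
  have h1 := hasSum_sq_fourierCoeff (ContinuousMap.toLp (E := ℂ) 2 haarAddCircle ℂ (F q S))
  have h2 : (∫ t : UnitAddCircle, ‖(ContinuousMap.toLp (E := ℂ) 2 haarAddCircle ℂ (F q S)) t‖ ^ 2
      ∂haarAddCircle) = ∫ η, ‖F q S η‖ ^ 2 ∂haarAddCircle := by
    refine integral_congr_ae ?_
    filter_upwards [ContinuousMap.coeFn_toLp (E := ℂ) (p := 2) (𝕜 := ℂ) haarAddCircle (F q S)]
      with x hx
    rw [hx]
  rw [h2] at h1
  simp only [fourierCoeff_toLp, coeff_F q hq] at h1
  exact (Equiv.neg ℤ).hasSum_iff.1 h1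

open AddCircle in
/-- **the `ℓ²` norm is small** -/
theorem sq_le (q : ℕ) (hq : 2 ≤ q) (S : Finset ℕ) (hS : S ⊆ range q) :
    ∑' l, ‖φ q S l‖ ^ 2 ≤ (S.card : ℝ) / q := by
  rw [(sq_sum q hq S).tsum_eq]
  have hint : Integrable (fun η : UnitAddCircle => (F q S η).re) haarAddCircle := by
    apply Continuous.integrable_of_hasCompactSupport
    · exact Complex.continuous_re.comp (map_continuous (F q S))
    · exact HasCompactSupport.of_compactSpace _
  have hintC : Integrable (fun η : UnitAddCircle => F q S η) haarAddCircle := by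
    apply Continuous.integrable_of_hasCompactSupport
    · exact map_continuous (F q S)
    · exact HasCompactSupport.of_compactSpace _
  have h1 : ∫ η, ‖F q S η‖ ^ 2 ∂(haarAddCircle : Measure UnitAddCircle) ≤
      ∫ η, (F q S η).re ∂(haarAddCircle : Measure UnitAddCircle) := by
    refine integral_mono_of_nonneg (Filter.Eventually.of_forall fun x => by positivity) hint
      (Filter.Eventually.of_forall fun x => ?_)
    obtain ⟨t, ht0, ht1, ht⟩ := F_real q hq S hS x
    simp only [ht, Complex.norm_real, Real.norm_eq_abs, abs_of_nonneg ht0, Complex.ofReal_re]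
    nlinarith
  refine h1.trans (le_of_eq ?_)
  have h2 := mean_F q hq S
  have h3 := congrArg Complex.re h2
  rw [← RCLike.re_eq_complex_re, ← integral_re hintC] at h3
  rw [RCLike.re_eq_complex_re] at h3
  rw [h3]
  have : ((S.card : ℂ) / q) = (((S.card : ℝ) / q : ℝ) : ℂ) := by push_cast; rfl
  rw [this, Complex.ofReal_re]

open AddCircle in
/-- **the number of arcs** -/
theorem card_le (q : ℕ) (hq : 2 ≤ q) (S : Finset ℕ) (hS : S ⊆ range q) (A : Set UnitAddCircle)
    (hA : MeasurableSet A) (h : ∀ s ∈ S, ∀ η, η ∉ A → 1 / (q : ℝ) ≤ ‖η - pt q s‖) :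
    (S.card : ℝ) / q ≤ ((haarAddCircle : Measure UnitAddCircle) A).toReal := by
  have hintC : Integrable (fun η : UnitAddCircle => F q S η) haarAddCircle := by
    apply Continuous.integrable_of_hasCompactSupport
    · exact map_continuous (F q S)
    · exact HasCompactSupport.of_compactSpace _
  have h2 := mean_F q hq S
  have h3 := congrArg Complex.re h2
  rw [← RCLike.re_eq_complex_re, ← integral_re hintC] at h3
  have h4 : RCLike.re ((S.card : ℂ) / q) = (S.card : ℝ) / q := by
    have : ((S.card : ℂ) / q) = (((S.card : ℝ) / q : ℝ) : ℂ) := by push_cast; rfl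
    rw [this]
    exact Complex.ofReal_re _
  rw [h4] at h3
  rw [← h3, ← measureReal_def, ← integral_indicator_one hA]
  refine integral_mono_of_nonneg (Filter.Eventually.of_forall fun x => ?_)
    ((integrable_const (1 : ℝ)).indicator hA) (Filter.Eventually.of_forall fun x => ?_)
  · obtain ⟨t, ht0, ht1, ht⟩ := F_real q hq S hS x
    simp only [ht]
    exact ht0
  · simp only
    by_cases hx : x ∈ A
    · rw [Set.indicator_of_mem hx]
      obtain ⟨t, ht0, ht1, ht⟩ := F_real q hq S hS x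
      simp only [ht]
      exact ht1
    · rw [Set.indicator_of_notMem hx]
      have h5 : F q S x = 0 := by
        rw [F_apply, Finset.sum_eq_zero, mul_zero]
        intro s hs
        exact tri_eq_zero _ (pos_q q hq) _ (h s hs x hx)
      rw [h5]
      simp

end Pool.Agent.Q158.Band
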