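import Mathlib
import Pool.Agent.Q158.BandA

set_option autoImplicit false

/-! # Bounded sequences with spectrum in a closed null set are slow -/

namespace Pool.Agent.Q158.Band

open Finset MeasureTheory Pool.Agent.TH327.Thin

open AddCircle in
theorem band (K : Set UnitAddCircle) (hK : IsClosed K) (h0 : volume K = 0) (δ : ℝ) (hδ : 0 < δ) :
    ∃ φ : ℤ → ℂ, Summable (fun l => ‖φ l‖) ∧ Summable (fun l => ‖φ l‖ ^ 2) ∧
      ∑' l, ‖φ l‖ ^ 2 ≤ δ ∧ ∃ U : Set UnitAddCircle, IsOpen U ∧ K ⊆ U ∧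
      ∀ η ∈ U, ∑' l, φ l * fourier (-l) η = 1 := by
  classical
  have hK0 : (haarAddCircle : Measure UnitAddCircle) K = 0 := by
    rw [volume_eq_smul_haarAddCircle] at h0
    simpa using h0
  have h1 : Filter.Tendsto (fun q : ℕ => (haarAddCircle : Measure UnitAddCircle)
      (Metric.cthickening (3 / (q : ℝ)) K)) Filter.atTop (nhds 0) := by
    have h2 := tendsto_measure_cthickening_of_isClosed (μ := (haarAddCircle : Measure UnitAddCircle))
      (s := K) ⟨1, one_pos, measure_ne_top _ _⟩ hK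
    rw [hK0] at h2
    exact h2.comp (tendsto_const_div_atTop_nhds_zero_nat 3)
  have h2 := (h1.eventually (gt_mem_nhds (ENNReal.ofReal_pos.2 hδ))).and
    (Filter.eventually_ge_atTop 2)
  obtain ⟨q, hq1, hq⟩ := h2.exists
  have hq0 : (0 : ℝ) < q := by exact_mod_cast (by omega : 0 < q)
  set S : Finset ℕ := (range q).filter (fun s => ∃ κ ∈ K, ‖κ - pt q s‖ < 2 / q) with hS
  have hSr : S ⊆ range q := Finset.filter_subset _ _
  have hcard : (S.card : ℝ) / q ≤ δ := by
    refine (card_le q hq S hSr (Metric.cthickening (3 / (q : ℝ)) K)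
      Metric.isClosed_cthickening.measurableSet (fun s hs η hη => ?_)).trans ?_
    · obtain ⟨κ, hκ, h3⟩ := (Finset.mem_filter.1 hs).2
      by_contra h4
      push Not at h4
      apply hη
      apply Metric.mem_cthickening_of_dist_le η κ _ K hκ
      rw [dist_eq_norm]
      have h5 : η - κ = (η - pt q s) - (κ - pt q s) := by abel
      rw [h5]
      refine (norm_sub_le _ _).trans ?_
      have h6 : (3 : ℝ) / q = 1 / q + 2 / q := by ring
      linarith
    · exact (ENNReal.toReal_le_of_le_ofReal hδ.le hq1.le)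
  refine ⟨φ q S, summable_φ q hq S, (sq_sum q hq S).summable, (sq_le q hq S hSr).trans hcard,
    Metric.thickening (1 / q) K, Metric.isOpen_thickening,
    Metric.self_subset_thickening (by positivity) K, ?_⟩
  intro η hη
  rw [(hasSum_φ q hq S η).tsum_eq]
  apply F_one q hq S hSr
  intro s hs hsS
  obtain ⟨κ, hκ, h3⟩ := Metric.mem_thickening_iff.1 hη
  have h4 : ¬ ‖κ - pt q s‖ < 2 / q := fun h5 => hsS (Finset.mem_filter.2 ⟨hs, κ, hκ, h5⟩)
  rw [dist_eq_norm] at h3
  have h5 : κ - pt q s = (η - pt q s) - (η - κ) := by abel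
  rw [h5] at h4
  push Not at h4
  have h6 := h4.trans (norm_sub_le _ _)
  have h7 : (2 : ℝ) / q = 1 / q + 1 / q := by ring
  linarith

variable {E : Type*} [NormedAddCommGroup E] [NormedSpace ℂ E] [CompleteSpace E]

theorem summable_shift {φ : ℤ → ℂ} (hφ : Summable (fun l => ‖φ l‖)) (j : ℤ) :
    Summable (fun m => ‖φ (j - m)‖) :=
  (Equiv.subLeft j).summable_iff.2 hφ

theorem summable_smul {φ : ℤ → ℂ} (hφ : Summable (fun l => ‖φ l‖)) {a : ℤ → E} {B : ℝ}
    (ha : ∀ n, ‖a n‖ ≤ B) (j : ℤ) : Summable (fun m => φ (j - m) • a m) := by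
  refine Summable.of_norm_bounded ((summable_shift hφ j).mul_right B) fun m => ?_
  rw [norm_smul]
  exact mul_le_mul_of_nonneg_left (ha m) (norm_nonneg _)

/-- **the reproducing formula** -/
theorem repr {K : Set UnitAddCircle} {φ : ℤ → ℂ} (hφ : Summable (fun l => ‖φ l‖))
    (hU : ∃ U : Set UnitAddCircle, IsOpen U ∧ K ⊆ U ∧ ∀ η ∈ U, ∑' l, φ l * fourier (-l) η = 1)
    {a : ℤ → E} {B : ℝ} (ha : ∀ n, ‖a n‖ ≤ B) (hs : SpecIn K a) (j : ℤ) :
    ∑' m, φ (j - m) • a m = a j := by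
  obtain ⟨U, hUo, hKU, h1⟩ := hU
  have hd : Summable (fun m : ℤ => ‖(if m = j then (1 : ℂ) else 0)‖) := by
    refine summable_of_ne_finset_zero (s := {j}) fun m hm => ?_
    rw [Finset.mem_singleton] at hm
    rw [if_neg hm, norm_zero]
  have h2 := hs (fun m => (if m = j then 1 else 0) - φ (j - m)) (by
    refine Summable.of_nonneg_of_le (fun _ => norm_nonneg _) (fun m => norm_sub_le _ _)
      (hd.add (summable_shift hφ j))) ⟨U, hUo, hKU, fun η hη => ?_⟩
  · have h3 : Summable (fun m : ℤ => (if m = j then (1 : ℂ) else 0) • a m) := by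
      refine summable_of_ne_finset_zero (s := {j}) fun m hm => ?_
      rw [Finset.mem_singleton] at hm
      rw [if_neg hm, zero_smul]
    simp only [sub_smul] at h2
    rw [Summable.tsum_sub h3 (summable_smul hφ ha j)] at h2
    have h4 : ∑' m : ℤ, (if m = j then (1 : ℂ) else 0) • a m = a j := by
      rw [tsum_eq_single j fun m hm => by rw [if_neg hm, zero_smul]]
      rw [if_pos rfl, one_smul]
    rw [h4] at h2
    exact (sub_eq_zero.1 h2).symm
  · have h5 : Summable (fun m : ℤ => (if m = j then (1 : ℂ) else 0) * fourier m η) := by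
      refine summable_of_ne_finset_zero (s := {j}) fun m hm => ?_
      rw [Finset.mem_singleton] at hm
      rw [if_neg hm, zero_mul]
    have h6 : Summable (fun m : ℤ => φ (j - m) * fourier m η) := by
      refine Summable.of_norm ((summable_shift hφ j).congr fun m => ?_)
      rw [norm_mul, norm_fourier_apply, mul_one]
    simp only [sub_mul]
    rw [Summable.tsum_sub h5 h6, tsum_eq_single j fun m hm => by rw [if_neg hm, zero_mul]]
    rw [if_pos rfl, one_mul]
    have h7 : ∑' m : ℤ, φ (j - m) * fourier m η = ∑' l : ℤ, φ l * fourier (j - l) η := by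
      rw [← (Equiv.subLeft j).tsum_eq]
      refine tsum_congr fun m => ?_
      simp
    have h8 : ∀ l : ℤ, φ l * fourier (j - l) η = fourier j η * (φ l * fourier (-l) η) := by
      intro l
      rw [sub_eq_add_neg, fourier_add]
      ring
    rw [h7, tsum_congr h8, tsum_mul_left, h1 η hη, mul_one, sub_self]

omit [NormedSpace ℂ E] in
theorem tail_le {f : ℤ → E} {g : ℤ → ℝ} (hg : Summable g) (hfg : ∀ m, ‖f m‖ ≤ g m)
    (J : Finset ℤ) : ‖∑' m, f m - ∑ m ∈ J, f m‖ ≤ ∑' m, g m - ∑ m ∈ J, g m := by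
  have hf : Summable f := Summable.of_norm_bounded hg hfg
  have h1 := hf.sum_add_tsum_subtype_compl J
  have h2 := hg.sum_add_tsum_subtype_compl J
  rw [← h1, ← h2, add_sub_cancel_left, add_sub_cancel_left]
  have h3 : Summable fun x : {x // x ∉ J} => g x := hg.subtype _
  exact tsum_of_norm_bounded h3.hasSum fun x => hfg x

theorem tsum_shift (g : ℤ → ℝ) (j : ℤ) : ∑' m, g (j - m) = ∑' l, g l :=
  (Equiv.subLeft j).tsum_eq g

theorem summable_shift' {g : ℤ → ℝ} (hg : Summable g) (j : ℤ) : Summable (fun m => g (j - m)) :=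
  (Equiv.subLeft j).summable_iff.2 hg

/-- the vectors -/
noncomputable def cvec (C : ℝ) (φ : ℤ → ℂ) (J : Finset ℤ) (h : ℕ) :
    EuclideanSpace ℂ {m // m ∈ J} := WithLp.toLp 2 fun m => (C : ℂ) * φ ((h : ℤ) - m)

theorem cvec_apply (C : ℝ) (φ : ℤ → ℂ) (J : Finset ℤ) (h : ℕ) (m : {m // m ∈ J}) :
    cvec C φ J h m = (C : ℂ) * φ ((h : ℤ) - m) := rfl

theorem cvec_sq (C : ℝ) (φ : ℤ → ℂ) (J : Finset ℤ) (h : ℕ) :
    ‖cvec C φ J h‖ ^ 2 = C ^ 2 * ∑ m ∈ J, ‖φ ((h : ℤ) - m)‖ ^ 2 := by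
  rw [EuclideanSpace.norm_sq_eq, Finset.mul_sum, ← Finset.sum_coe_sort J]
  refine Finset.sum_congr rfl fun m _ => ?_
  rw [cvec_apply, norm_mul, mul_pow, Complex.norm_real, Real.norm_eq_abs, sq_abs]

theorem cvec_sum_sq (C : ℝ) (φ : ℤ → ℂ) (J : Finset ℤ) (L : ℕ) (v : ℕ → ℂ) :
    ‖∑ h ∈ range L, v h • cvec C φ J h‖ ^ 2 =
      C ^ 2 * ∑ m ∈ J, ‖∑ h ∈ range L, v h * φ ((h : ℤ) - m)‖ ^ 2 := by
  rw [EuclideanSpace.norm_sq_eq, Finset.mul_sum, ← Finset.sum_coe_sort J]
  refine Finset.sum_congr rfl fun m _ => ?_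
  have h6 : (∑ h ∈ range L, v h • cvec C φ J h) m =
      (C : ℂ) * ∑ h ∈ range L, v h * φ ((h : ℤ) - m) := by
    rw [WithLp.ofLp_sum, Finset.sum_apply, Finset.mul_sum]
    refine Finset.sum_congr rfl fun h _ => ?_
    rw [PiLp.smul_apply, cvec_apply, smul_eq_mul]
    ring
  rw [h6, norm_mul, mul_pow, Complex.norm_real, Real.norm_eq_abs, sq_abs]

/-- **bounded sequences with spectrum in a closed null set** -/
theorem slow_band (K : Set UnitAddCircle) (hK : IsClosed K) (h0 : volume K = 0) (B : ℝ)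
    (hB : 0 ≤ B) (η : ℝ) (hη : 0 < η) : ∃ L : ℕ, 1 ≤ L ∧
      ∃ (ι : Type) (_ : Fintype ι) (c : ℕ → EuclideanSpace ℂ ι),
        ∑ h ∈ range L, ‖c h‖ ^ 2 ≤ (η * L) ^ 2 ∧ ∀ a : ℤ → E, (∀ n, ‖a n‖ ≤ B) → SpecIn K a →
        ∀ v : ℕ → ℂ, (∀ h, ‖v h‖ ≤ 1) →
          ‖∑ h ∈ range L, v h • a h‖ ≤ ‖∑ h ∈ range L, v h • c h‖ + η * L := by
  classical
  obtain ⟨φ, hφ, hφ2, hsq, hU⟩ := band K hK h0 (η ^ 2 / (3 * B ^ 2 + 1)) (by positivity)
  -- the tail
  obtain ⟨s0, hs0⟩ : ∃ s0 : Finset ℤ, ∀ s : Finset ℤ, s0 ⊆ s →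
      ∑' l, ‖φ l‖ - ∑ l ∈ s, ‖φ l‖ ≤ η / (B + 1) := by
    have h1 := hφ.hasSum.eventually (lt_mem_nhds (sub_lt_self (∑' l, ‖φ l‖)
      (show 0 < η / (B + 1) by positivity)))
    obtain ⟨s0, hs0⟩ := Filter.eventually_atTop.1 h1
    exact ⟨s0, fun s hs => by
      have := hs0 s hs
      linarith⟩
  obtain ⟨L₀, hL₀⟩ : ∃ L₀ : ℕ, ∀ l ∈ s0, |l| ≤ (L₀ : ℤ) := by
    refine ⟨∑ l ∈ s0, l.natAbs, fun l hl => ?_⟩
    have := Finset.single_le_sum (f := fun l : ℤ => l.natAbs) (fun _ _ => Nat.zero_le _) hl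
    rw [Int.abs_eq_natAbs]
    exact_mod_cast this
  set L : ℕ := L₀ + 1 with hL
  have hL1 : (1 : ℝ) ≤ L := by exact_mod_cast (by omega : 1 ≤ L)
  set J : Finset ℤ := Finset.Ico (-(L : ℤ)) (2 * L) with hJ
  have hJc : (J.card : ℝ) = 3 * L := by
    rw [hJ, Int.card_Ico]
    have : ((2 * (L : ℤ) - -(L : ℤ)).toNat) = 3 * L := by omega
    rw [this]
    push_cast
    ring
  set C : ℝ := B * Real.sqrt (3 * L) with hC
  refine ⟨L, by omega, {m // m ∈ J}, inferInstance, cvec C φ J, ?_, ?_⟩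
  · have h1 : ∀ h ∈ range L, ‖cvec C φ J h‖ ^ 2 ≤ C ^ 2 * (η ^ 2 / (3 * B ^ 2 + 1)) := by
      intro h _
      rw [cvec_sq]
      refine mul_le_mul_of_nonneg_left ?_ (sq_nonneg _)
      have h3 := (summable_shift' hφ2 (h : ℤ)).sum_le_tsum J fun _ _ => sq_nonneg _
      refine h3.trans ?_
      rw [tsum_shift (fun l => ‖φ l‖ ^ 2) (h : ℤ)]
      exact hsq
    refine (Finset.sum_le_sum h1).trans ?_
    rw [Finset.sum_const, Finset.card_range, nsmul_eq_mul, hC, mul_pow,
      Real.sq_sqrt (by positivity)]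
    have h2 : 3 * B ^ 2 * (η ^ 2 / (3 * B ^ 2 + 1)) ≤ η ^ 2 := by
      rw [← mul_div_assoc, div_le_iff₀ (by positivity)]
      nlinarith [sq_nonneg η]
    calc (L : ℝ) * (B ^ 2 * (3 * L) * (η ^ 2 / (3 * B ^ 2 + 1))) =
          L ^ 2 * (3 * B ^ 2 * (η ^ 2 / (3 * B ^ 2 + 1))) := by ring
      _ ≤ L ^ 2 * η ^ 2 := mul_le_mul_of_nonneg_left h2 (by positivity)
      _ = _ := by ring
  · intro a ha hsp v hv
    have h1 : ∀ h ∈ range L, ‖a h - ∑ m ∈ J, φ ((h : ℤ) - m) • a m‖ ≤ η := by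
      intro h hh
      have hh' : (h : ℤ) < L := by exact_mod_cast mem_range.1 hh
      rw [← repr hφ hU ha hsp h]
      refine (tail_le (g := fun m => ‖φ ((h : ℤ) - m)‖ * B) ((summable_shift hφ h).mul_right B)
        (fun m => ?_) J).trans ?_
      · rw [norm_smul]
        exact mul_le_mul_of_nonneg_left (ha m) (norm_nonneg _)
      · rw [tsum_mul_right, ← Finset.sum_mul, ← sub_mul]
        rw [tsum_shift (fun l => ‖φ l‖) (h : ℤ)]
        have h5 : ∑ m ∈ J, ‖φ ((h : ℤ) - m)‖ = ∑ l ∈ J.image (fun m => (h : ℤ) - m), ‖φ l‖ := by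
          rw [Finset.sum_image fun x _ y _ hxy => by simpa using hxy]
        rw [h5]
        have h6 := hs0 (J.image (fun m => (h : ℤ) - m)) (by
          intro l hl
          rw [Finset.mem_image]
          refine ⟨h - l, ?_, by ring⟩
          have h7 := abs_le.1 (hL₀ l hl)
          rw [hJ, Finset.mem_Ico]
          constructor
          · have : (0 : ℤ) ≤ h := Int.natCast_nonneg h
            have : (L : ℤ) = L₀ + 1 := by rw [hL]; push_cast; ring
            omega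
          · have : (L : ℤ) = L₀ + 1 := by rw [hL]; push_cast; ring
            omega)
        calc _ ≤ η / (B + 1) * B := mul_le_mul_of_nonneg_right h6 hB
          _ ≤ η := by
              rw [div_mul_eq_mul_div, div_le_iff₀ (by positivity)]
              nlinarith
    have h2 : ‖∑ h ∈ range L, v h • a h‖ ≤
        ‖∑ m ∈ J, (∑ h ∈ range L, v h * φ ((h : ℤ) - m)) • a m‖ + η * L := by
      have h3 : ∑ h ∈ range L, v h • a h =
          ∑ m ∈ J, (∑ h ∈ range L, v h * φ ((h : ℤ) - m)) • a m +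
          ∑ h ∈ range L, v h • (a h - ∑ m ∈ J, φ ((h : ℤ) - m) • a m) := by
        have h4 : ∑ m ∈ J, (∑ h ∈ range L, v h * φ ((h : ℤ) - m)) • a m =
            ∑ h ∈ range L, v h • ∑ m ∈ J, φ ((h : ℤ) - m) • a m := by
          simp only [Finset.sum_smul, Finset.smul_sum, mul_smul]
          rw [Finset.sum_comm]
        rw [h4, ← Finset.sum_add_distrib]
        refine Finset.sum_congr rfl fun h _ => ?_
        rw [smul_sub]
        abel
      rw [h3]
      refine (norm_add_le _ _).trans (add_le_add le_rfl ((norm_sum_le _ _).trans ?_))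
      calc _ ≤ ∑ _h ∈ range L, η := by
            refine Finset.sum_le_sum fun h hh => ?_
            rw [norm_smul]
            calc _ ≤ 1 * η := mul_le_mul (hv h) (h1 h hh) (norm_nonneg _) zero_le_one
              _ = η := one_mul _
        _ = _ := by rw [Finset.sum_const, Finset.card_range, nsmul_eq_mul, mul_comm]
    refine h2.trans (add_le_add ?_ le_rfl)
    refine (norm_sum_le _ _).trans ?_
    have h3 : ∑ m ∈ J, ‖(∑ h ∈ range L, v h * φ ((h : ℤ) - m)) • a m‖ ≤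
        B * ∑ m ∈ J, ‖∑ h ∈ range L, v h * φ ((h : ℤ) - m)‖ := by
      rw [Finset.mul_sum]
      refine Finset.sum_le_sum fun m _ => ?_
      rw [norm_smul, mul_comm]
      exact mul_le_mul_of_nonneg_right (ha m) (norm_nonneg _)
    refine h3.trans ?_
    have h4 : (∑ m ∈ J, ‖∑ h ∈ range L, v h * φ ((h : ℤ) - m)‖) ^ 2 ≤
        (3 * L) * ∑ m ∈ J, ‖∑ h ∈ range L, v h * φ ((h : ℤ) - m)‖ ^ 2 := by
      have := sq_sum_le_card_mul_sum_sq (s := J)
        (f := fun m => ‖∑ h ∈ range L, v h * φ ((h : ℤ) - m)‖)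
      rwa [hJc] at this
    have h5 := cvec_sum_sq C φ J L v
    refine le_of_sq_le_sq ?_ (norm_nonneg _)
    rw [h5, hC, mul_pow, mul_pow, Real.sq_sqrt (by positivity)]
    calc _ ≤ B ^ 2 * ((3 * L) * ∑ m ∈ J, ‖∑ h ∈ range L, v h * φ ((h : ℤ) - m)‖ ^ 2) :=
          mul_le_mul_of_nonneg_left h4 (sq_nonneg _)
      _ = _ := by ring

end Pool.Agent.Q158.Band
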