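import Mathlib

/-! # Nagata dimension: explicit covers with small multiplicity -/

set_option autoImplicit false

namespace Pool.Agent.Q158.Nag

/-- for each `s > 0` the set `X` has a cover by sets of diameter at most `c * s` such that each
subset of `X` of diameter at most `s` meets at most `d + 1` members -/
def NagataLE {V : Type*} [MetricSpace V] (X : Set V) (d : ℕ) : Prop :=
  ∃ c : ℝ, 0 < c ∧ ∀ s : ℝ, 0 < s → ∃ 𝒰 : Set (Set V), X ⊆ ⋃₀ 𝒰 ∧
    (∀ U ∈ 𝒰, U ⊆ X ∧ ∀ x ∈ U, ∀ y ∈ U, dist x y ≤ c * s) ∧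
    ∀ T ⊆ X, (∀ x ∈ T, ∀ y ∈ T, dist x y ≤ s) →
      {U : Set V | U ∈ 𝒰 ∧ (U ∩ T).Nonempty}.encard ≤ d + 1

theorem NagataLE.mono {V : Type*} [MetricSpace V] {X : Set V} {d d' : ℕ} (h : NagataLE X d)
    (hd : d ≤ d') : NagataLE X d' := by
  obtain ⟨c, hc, h⟩ := h
  refine ⟨c, hc, fun s hs => ?_⟩
  obtain ⟨𝒰, h1, h2, h3⟩ := h s hs
  refine ⟨𝒰, h1, h2, fun T hT hTs => (h3 T hT hTs).trans ?_⟩
  have : (d : ℕ∞) ≤ d' := by exact_mod_cast hd
  gcongr

/-- thresholds -/
def thr (s : ℝ) (i : ℕ) : ℝ := 2 * i * s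

theorem exists_level (d : ℕ) (e : Fin d → ℝ) {s : ℝ} (hs : 0 ≤ s) :
    ∃ J : Finset (Fin d), (∀ j ∈ J, e j ≤ thr s J.card) ∧ ∀ j ∉ J, thr s (J.card + 1) < e j := by
  classical
  set N : ℕ → Finset (Fin d) := fun i => Finset.univ.filter (fun j => e j ≤ thr s i) with hN
  have hex : ∃ i, (N (i + 1)).card ≤ i := ⟨d, by
    have := Finset.card_le_univ (N (d + 1))
    rwa [Fintype.card_fin] at this⟩
  obtain ⟨i, hi⟩ : ∃ i, i = Nat.find hex := ⟨_, rfl⟩
  have h1 : (N (i + 1)).card ≤ i := by rw [hi]; exact Nat.find_spec hex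
  have h2 : i ≤ (N i).card := by
    rcases Nat.eq_zero_or_pos i with h | h
    · omega
    · obtain ⟨i', rfl⟩ := Nat.exists_eq_succ_of_ne_zero h.ne'
      have := Nat.find_min hex (m := i') (by omega)
      simp only [Nat.succ_eq_add_one] at *
      omega
  have h3 : N i ⊆ N (i + 1) := by
    intro j hj
    simp only [hN, Finset.mem_filter, Finset.mem_univ, true_and] at hj ⊢
    refine hj.trans ?_
    unfold thr
    push_cast
    nlinarith
  have h4 : N i = N (i + 1) := Finset.eq_of_subset_of_card_le h3 (h1.trans h2)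
  have h5 : (N i).card = i := le_antisymm (by rw [h4]; exact h1) h2
  refine ⟨N i, ?_, ?_⟩
  · intro j hj
    rw [h5]
    simpa [hN] using hj
  · intro j hj
    rw [h5]
    rw [h4] at hj
    simpa [hN] using hj

theorem nagata_le {V : Type*} [MetricSpace V] {X : Set V} {d : ℕ} (π : V → Fin d → ℝ) {C : ℝ}
    (hC : 0 < C)
    (h1 : ∀ x ∈ X, ∀ y ∈ X, ∀ j, |π x j - π y j| ≤ dist x y)
    (h2 : ∀ x ∈ X, ∀ y ∈ X, ∀ M : ℝ, 0 ≤ M → (∀ j, |π x j - π y j| ≤ M) → dist x y ≤ C * M) :
    NagataLE X d := by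
  classical
  refine ⟨C * (4 * (d + 2)), by positivity, fun s hs => ?_⟩
  set L : ℝ := 4 * (d + 2) * s with hL
  have hL0 : 0 < L := by positivity
  set B : Finset (Fin d) × (Fin d → ℤ) → Set V := fun p => {x | x ∈ X ∧
    (∀ j ∈ p.1, |π x j - L * p.2 j| ≤ thr s p.1.card) ∧
    ∀ j, j ∉ p.1 → L * p.2 j + thr s (p.1.card + 1) < π x j ∧
      π x j < L * (p.2 j + 1) - thr s (p.1.card + 1)} with hB
  have hcard : ∀ p : Finset (Fin d) × (Fin d → ℤ), (p.1.card : ℝ) ≤ d := fun p => by
    have := Finset.card_le_univ p.1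
    rw [Fintype.card_fin] at this
    exact_mod_cast this
  have hthr0 : ∀ i : ℕ, 0 ≤ thr s i := fun i => by
    unfold thr
    positivity
  have hthrL : ∀ p : Finset (Fin d) × (Fin d → ℤ), 2 * thr s p.1.card + s < L := fun p => by
    have := hcard p
    unfold thr
    rw [hL]
    nlinarith
  have hthrS : ∀ i : ℕ, thr s i + s < thr s (i + 1) := fun i => by
    unfold thr
    push_cast
    linarith
  refine ⟨Set.range B, ?_, ?_, ?_⟩
  · -- cover
    intro x hx
    set k : Fin d → ℤ := fun j => ⌊π x j / L⌋ with hk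
    have hk1 : ∀ j, L * k j ≤ π x j := fun j => by
      have := Int.floor_le (π x j / L)
      rw [le_div_iff₀ hL0] at this
      linarith
    have hk2 : ∀ j, π x j < L * (k j + 1) := fun j => by
      have := Int.lt_floor_add_one (π x j / L)
      rw [div_lt_iff₀ hL0] at this
      linarith
    obtain ⟨J, hJ1, hJ2⟩ := exists_level d (fun j => min (π x j - L * k j) (L * (k j + 1) - π x j)) hs.le
    set κ : Fin d → ℤ := fun j => if j ∈ J ∧ thr s J.card < π x j - L * k j then k j + 1 else k j with hκ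
    refine Set.mem_sUnion.2 ⟨B (J, κ), ⟨(J, κ), rfl⟩, hx, ?_, ?_⟩
    · intro j hj
      simp only at hj ⊢
      have h3 := hJ1 j hj
      by_cases h : thr s J.card < π x j - L * k j
      · have e : κ j = k j + 1 := by simp only [hκ]; rw [if_pos ⟨hj, h⟩]
        rw [e]
        push_cast
        rcases min_le_iff.1 h3 with h4 | h4
        · linarith
        · rw [abs_le]
          constructor
          · linarith
          · linarith [hk2 j, hthr0 J.card]
      · have e : κ j = k j := by simp only [hκ]; rw [if_neg (fun h' => h h'.2)]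
        rw [e, abs_of_nonneg (by linarith [hk1 j])]
        exact not_lt.1 h
    · intro j hj
      simp only at hj ⊢
      have h3 := hJ2 j hj
      have e : κ j = k j := by simp only [hκ]; rw [if_neg (fun h' => hj h'.1)]
      rw [e]
      obtain ⟨h4, h5⟩ := lt_min_iff.1 h3
      constructor <;> linarith
  · -- diameters
    rintro _ ⟨p, rfl⟩
    refine ⟨fun x hx => hx.1, fun x hx y hy => ?_⟩
    have h3 := h2 x hx.1 y hy.1 L hL0.le fun j => by
      by_cases hj : j ∈ p.1
      · have h4 := abs_le.1 (hx.2.1 j hj)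
        have h5 := abs_le.1 (hy.2.1 j hj)
        have h6 := hthrL p
        rw [abs_le]
        constructor <;> linarith [h4.1, h4.2, h5.1, h5.2]
      · have h4 := hx.2.2 j hj
        have h5 := hy.2.2 j hj
        have h6 := hthr0 (p.1.card + 1)
        rw [abs_le]
        constructor <;> linarith [h4.1, h4.2, h5.1, h5.2]
    calc dist x y ≤ C * L := h3
      _ = C * (4 * (d + 2)) * s := by rw [hL]; ring
  · -- multiplicity
    intro T hT hTs
    set P : Set (Finset (Fin d) × (Fin d → ℤ)) := {p | (B p ∩ T).Nonempty} with hP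
    have key : ∀ p ∈ P, ∀ q ∈ P, p.1.card = q.1.card → p = q := by
      rintro p ⟨x, hxp, hxT⟩ q ⟨y, hyq, hyT⟩ hc
      have hd : ∀ j, |π x j - π y j| ≤ s := fun j =>
        (h1 x hxp.1 y hyq.1 j).trans (hTs x hxT y hyT)
      -- first component
      have hcell : ∀ (u v : V) (a b : ℤ) (i : ℕ) (j : Fin d), |π u j - π v j| ≤ s →
          |π u j - L * a| ≤ thr s i → L * b + thr s (i + 1) < π v j →
          π v j < L * (b + 1) - thr s (i + 1) → False := by
        intro u v a b i j huv hu hv1 hv2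
        obtain ⟨u1, u2⟩ := abs_le.1 hu
        obtain ⟨w1, w2⟩ := abs_le.1 huv
        have := hthrS i
        have h3 : L * b < L * a := by linarith
        have h4 : L * a < L * (b + 1) := by linarith
        have h5 : (b : ℝ) < a := lt_of_mul_lt_mul_left h3 hL0.le
        have h6 : (a : ℝ) < b + 1 := lt_of_mul_lt_mul_left h4 hL0.le
        have h7 : b < a := by exact_mod_cast h5
        have h8 : a < b + 1 := by exact_mod_cast h6
        omega
      have hsub1 : p.1 ⊆ q.1 := by
        intro j hj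
        by_contra hj'
        have h4 := hyq.2.2 j hj'
        rw [← hc] at h4
        exact hcell x y (p.2 j) (q.2 j) p.1.card j (hd j) (hxp.2.1 j hj) h4.1 h4.2
      have hJ : p.1 = q.1 := Finset.eq_of_subset_of_card_le hsub1 hc.ge
      refine Prod.ext hJ (funext fun j => ?_)
      obtain ⟨w1, w2⟩ := abs_le.1 (hd j)
      by_cases hj : j ∈ p.1
      · have h4 := abs_le.1 (hxp.2.1 j hj)
        have h5 := abs_le.1 (hyq.2.1 j (hJ ▸ hj))
        rw [← hc] at h5
        have h6 := hthrL p
        have h7 : L * (p.2 j) < L * (q.2 j + 1) := by linarith [h4.1, h4.2, h5.1, h5.2]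
        have h8 : L * (q.2 j) < L * (p.2 j + 1) := by linarith [h4.1, h4.2, h5.1, h5.2]
        have h9 : (p.2 j : ℝ) < q.2 j + 1 := lt_of_mul_lt_mul_left h7 hL0.le
        have h10 : (q.2 j : ℝ) < p.2 j + 1 := lt_of_mul_lt_mul_left h8 hL0.le
        have h11 : p.2 j < q.2 j + 1 := by exact_mod_cast h9
        have h12 : q.2 j < p.2 j + 1 := by exact_mod_cast h10
        omega
      · have h4 := hxp.2.2 j hj
        have h5 := hyq.2.2 j (hJ ▸ hj)
        have h6 := hthrS p.1.card
        have h6' := hthr0 p.1.card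
        rw [← hc] at h5
        have h7 : L * (p.2 j) < L * (q.2 j + 1) := by linarith [h4.1, h4.2, h5.1, h5.2]
        have h8 : L * (q.2 j) < L * (p.2 j + 1) := by linarith [h4.1, h4.2, h5.1, h5.2]
        have h9 : (p.2 j : ℝ) < q.2 j + 1 := lt_of_mul_lt_mul_left h7 hL0.le
        have h10 : (q.2 j : ℝ) < p.2 j + 1 := lt_of_mul_lt_mul_left h8 hL0.le
        have h11 : p.2 j < q.2 j + 1 := by exact_mod_cast h9
        have h12 : q.2 j < p.2 j + 1 := by exact_mod_cast h10
        omega
    have hsub : {U : Set V | U ∈ Set.range B ∧ (U ∩ T).Nonempty} ⊆ B '' P := by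
      rintro _ ⟨⟨p, rfl⟩, hU⟩
      exact ⟨p, hU, rfl⟩
    have hinj : Set.InjOn (fun p : Finset (Fin d) × (Fin d → ℤ) => p.1.card) P :=
      fun p hp q hq h => key p hp q hq h
    calc _ ≤ (B '' P).encard := Set.encard_le_encard hsub
      _ ≤ P.encard := Set.encard_image_le _ _
      _ = ((fun p : Finset (Fin d) × (Fin d → ℤ) => p.1.card) '' P).encard :=
        hinj.encard_image.symm
      _ ≤ ((Finset.range (d + 1) : Finset ℕ) : Set ℕ).encard := by
        refine Set.encard_le_encard ?_
        rintro _ ⟨p, -, rfl⟩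
        have := Finset.card_le_univ p.1
        rw [Fintype.card_fin] at this
        simp only [Finset.coe_range, Set.mem_Iio]
        omega
      _ = d + 1 := by
        rw [Set.encard_coe_eq_coe_finsetCard, Finset.card_range]
        push_cast
        rfl

end Pool.Agent.Q158.Nag
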