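import Mathlib
import Pool.Agent.Q158.NagA
import Pool.Agent.H63Fed.Kuhn

/-! # Nagata dimension: coarsely dense subsets of an orthant have full dimension -/

set_option autoImplicit false

namespace Pool.Agent.Q158.Nag

theorem abs_coord_le {n : ℕ} (x y : EuclideanSpace ℝ (Fin n)) (j : Fin n) :
    |x j - y j| ≤ dist x y := by
  rw [EuclideanSpace.dist_eq, ← Real.sqrt_sq_eq_abs]
  apply Real.sqrt_le_sqrt
  have := Finset.single_le_sum (f := fun i => dist (x i) (y i) ^ 2) (fun i _ => sq_nonneg _)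
    (Finset.mem_univ j)
  rw [← sq_abs (x j - y j)]
  simpa [Real.dist_eq] using this

theorem dist_le_of_coord {n : ℕ} (x y : EuclideanSpace ℝ (Fin n)) {M : ℝ} (hM : 0 ≤ M)
    (h : ∀ j, |x j - y j| ≤ M) : dist x y ≤ (n + 1) * M := by
  rw [EuclideanSpace.dist_eq]
  have h1 : ∑ i, dist (x i) (y i) ^ 2 ≤ n * M ^ 2 := by
    calc ∑ i, dist (x i) (y i) ^ 2 ≤ ∑ _i : Fin n, M ^ 2 := Finset.sum_le_sum fun i _ => by
          rw [Real.dist_eq]
          exact pow_le_pow_left₀ (abs_nonneg _) (h i) 2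
      _ = n * M ^ 2 := by rw [Finset.sum_const, Finset.card_univ, Fintype.card_fin, nsmul_eq_mul]
  have hn : (0 : ℝ) ≤ n := Nat.cast_nonneg n
  calc √(∑ i, dist (x i) (y i) ^ 2) ≤ √(((n + 1) * M) ^ 2) := by
        apply Real.sqrt_le_sqrt
        nlinarith [sq_nonneg M, mul_nonneg hn (sq_nonneg M), mul_nonneg (mul_nonneg hn hn) (sq_nonneg M)]
    _ = (n + 1) * M := Real.sqrt_sq (by positivity)

theorem nagata_full {n : ℕ} (X : Set (EuclideanSpace ℝ (Fin n))) : NagataLE X n :=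
  nagata_le (fun x j => x j) (show (0 : ℝ) < n + 1 by positivity) (fun x _ y _ j => abs_coord_le x y j)
    (fun x _ y _ _ hM h => dist_le_of_coord x y hM h)

/-- a set which is `ρ`-dense in an orthant does not have smaller dimension -/
theorem not_nagata {d n : ℕ} (hn : n = d + 1) {X : Set (EuclideanSpace ℝ (Fin n))} {ρ : ℝ}
    (hρ : 0 ≤ ρ) (b : Fin n → ℝ)
    (hX : ∀ p : EuclideanSpace ℝ (Fin n), (∀ i, b i ≤ p i) → ∃ q ∈ X, dist p q ≤ ρ) :
    ¬ NagataLE X d := by
  classical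
  rintro ⟨c, hc, h⟩
  obtain ⟨𝒰, hcov, hdiam, hmult⟩ := h (n + 1 + 2 * ρ) (by positivity)
  set s : ℝ := n + 1 + 2 * ρ with hs
  obtain ⟨m, hm⟩ := exists_nat_gt (c * s + 2 * ρ)
  -- grid points
  set P : (ℕ → ℕ) → EuclideanSpace ℝ (Fin n) := fun x => WithLp.toLp 2 (fun i => b i + (x i : ℝ)) with hP
  have hPi : ∀ x i, P x i = b i + (x i : ℝ) := fun x i => rfl
  have hq : ∀ x : ℕ → ℕ, ∃ q ∈ X, dist (P x) q ≤ ρ := fun x => hX (P x) fun i => by
    rw [hPi]
    have : (0 : ℝ) ≤ x i := Nat.cast_nonneg _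
    linarith
  choose q hqX hqd using hq
  have hA : ∀ x : ℕ → ℕ, ∃ U ∈ 𝒰, q x ∈ U := fun x => by
    obtain ⟨U, hU, h1⟩ := hcov (hqX x)
    exact ⟨U, hU, h1⟩
  choose A hAU hqA using hA
  -- labels
  set Q : Set (EuclideanSpace ℝ (Fin n)) → ℕ → Prop := fun U i =>
    i < n ∧ ∃ x : ℕ → ℕ, (∀ i, x i ≤ m) ∧ x i = m ∧ A x = U with hQ
  set lab : Set (EuclideanSpace ℝ (Fin n)) → ℕ := fun U =>
    if h : ∃ i, Q U i then Nat.find h else n with hlab
  have hlab1 : ∀ U, lab U ≤ n := by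
    intro U
    simp only [hlab]
    split_ifs with h1
    · exact (Nat.find_spec h1).1.le
    · exact le_rfl
  have hlab2 : ∀ U i, i < n → lab U = i → Q U i := by
    intro U i hi h1
    simp only [hlab] at h1
    split_ifs at h1 with h2
    · rw [← h1]
      exact Nat.find_spec h2
    · omega
  have hlab3 : ∀ U i, Q U i → lab U ≤ i := by
    intro U i h1
    have h2 : ∃ i, Q U i := ⟨i, h1⟩
    simp only [hlab]
    rw [dif_pos h2]
    exact Nat.find_min' h2 h1
  obtain ⟨x, -, hx⟩ := H63Fed.Kuhn.kuhn n m (fun x => lab (A x)) (fun x _ => hlab1 _)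
    (fun i hi x hxm hxi h1 => by
      obtain ⟨-, x', hx'm, hx'i, hAA⟩ := hlab2 _ i hi h1
      have h2 := (hdiam (A x) (hAU x)).2 (q x) (hqA x) (q x') (by rw [← hAA]; exact hqA x')
      have h3 := abs_coord_le (P x) (P x') ⟨i, hi⟩
      rw [hPi, hPi] at h3
      simp only [hxi, hx'i] at h3
      have h4 : (m : ℝ) ≤ dist (P x) (P x') := by
        refine le_trans ?_ h3
        rw [abs_sub_comm]
        refine le_trans (le_of_eq ?_) (le_abs_self _)
        push_cast
        ring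
      have h5 : dist (P x) (P x') ≤ dist (P x) (q x) + dist (q x) (q x') + dist (P x') (q x') := by
        have h6 := dist_triangle (P x) (q x) (P x')
        have h7 := dist_triangle (q x) (q x') (P x')
        rw [dist_comm (q x') (P x')] at h7
        linarith
      linarith [hqd x, hqd x'])
    (fun i hi x hxm hxi => hlab3 _ i ⟨hi, x, hxm, hxi, rfl⟩)
  -- the `n + 1` members
  choose! y hy1 hy2 hy3 using hx
  set T : Set (EuclideanSpace ℝ (Fin n)) := {z | ∃ j, j ≤ n ∧ z = q (y j)} with hT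
  have hTX : T ⊆ X := by
    rintro _ ⟨j, -, rfl⟩
    exact hqX _
  have hTs : ∀ z ∈ T, ∀ w ∈ T, dist z w ≤ s := by
    rintro _ ⟨j, hj, rfl⟩ _ ⟨k, hk, rfl⟩
    have h1 : dist (P (y j)) (P (y k)) ≤ (n + 1) * 1 := by
      refine dist_le_of_coord _ _ zero_le_one fun i => ?_
      rw [hPi, hPi]
      have h2 := hy1 j hj i i.2
      have h3 := hy1 k hk i i.2
      rw [abs_le]
      rcases h2 with h2 | h2 <;> rcases h3 with h3 | h3 <;> rw [h2, h3] <;> push_cast <;>
        constructor <;> linarith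
    have h4 := dist_triangle (q (y j)) (P (y j)) (q (y k))
    have h5 := dist_triangle (P (y j)) (P (y k)) (q (y k))
    rw [dist_comm (q (y j)) (P (y j))] at h4
    rw [hs]
    linarith [hqd (y j), hqd (y k)]
  have h1 := hmult T hTX hTs
  have h2 : ((Finset.range (n + 1)).image fun j => A (y j) : Finset _).card = n + 1 := by
    rw [Finset.card_image_of_injOn, Finset.card_range]
    intro j hj k hk hjk
    have hj' := hy3 j (Nat.lt_succ_iff.1 (Finset.mem_range.1 hj))
    have hk' := hy3 k (Nat.lt_succ_iff.1 (Finset.mem_range.1 hk))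
    simp only at hjk hj' hk'
    rw [← hj', ← hk', hjk]
  have h3 : (((Finset.range (n + 1)).image fun j => A (y j) : Finset _) : Set (Set _)) ⊆
      {U : Set (EuclideanSpace ℝ (Fin n)) | U ∈ 𝒰 ∧ (U ∩ T).Nonempty} := by
    intro U hU
    obtain ⟨j, hj, rfl⟩ := Finset.mem_image.1 (Finset.mem_coe.1 hU)
    exact ⟨hAU _, q (y j), hqA _, j, Nat.lt_succ_iff.1 (Finset.mem_range.1 hj), rfl⟩
  have h4 := (Set.encard_le_encard h3).trans h1
  rw [Set.encard_coe_eq_coe_finsetCard, h2, hn] at h4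
  have h5 : d + 1 + 1 ≤ d + 1 := by exact_mod_cast h4
  omega

end Pool.Agent.Q158.Nag
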