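import Mathlib
import Pool.Agent.Q158.NagB

/-! # A half-slab rolled up along an Archimedean spiral -/

set_option autoImplicit false

namespace Pool.Agent.Q158.Nag

open Filter Topology Complex

/-- `ℝ^(k+2)` -/
abbrev V (k : ℕ) := EuclideanSpace ℝ (Fin (k + 2))

/-- the plane part -/
noncomputable def G (x t : ℝ) : ℂ := ((√x + t : ℝ) : ℂ) * exp ((√x : ℝ) * I)

/-- the vector with the given first two coordinates -/
noncomputable def vec {k : ℕ} (z : ℂ) (y : Fin k → ℝ) : V k :=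
  WithLp.toLp 2 (Fin.cons z.re (Fin.cons z.im y))

/-- the first two coordinates -/
def pl {k : ℕ} (p : V k) : ℂ := ⟨p 0, p 1⟩

/-- the remaining coordinates -/
def re' {k : ℕ} (p : V k) : Fin k → ℝ := fun j => p j.succ.succ

theorem vec_zero {k : ℕ} (z : ℂ) (y : Fin k → ℝ) : (vec z y) 0 = z.re := rfl

theorem vec_one {k : ℕ} (z : ℂ) (y : Fin k → ℝ) : (vec z y) 1 = z.im := rfl

theorem vec_succ {k : ℕ} (z : ℂ) (y : Fin k → ℝ) (j : Fin k) : (vec z y) j.succ.succ = y j := rfl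

theorem pl_vec {k : ℕ} (z : ℂ) (y : Fin k → ℝ) : pl (vec z y) = z := rfl

theorem re'_vec {k : ℕ} (z : ℂ) (y : Fin k → ℝ) : re' (vec z y) = y := rfl

theorem vec_eta {k : ℕ} (p : V k) : vec (pl p) (re' p) = p := by
  ext i
  refine Fin.cases ?_ (fun j => Fin.cases ?_ (fun l => ?_) j) i <;> rfl

/-- the first two coordinates, conjugated -/
def plc {k : ℕ} (p : V k) : ℂ := ⟨p 0, -p 1⟩

/-- the vector with the given first two coordinates, conjugated -/
noncomputable def vecc {k : ℕ} (z : ℂ) (y : Fin k → ℝ) : V k := vec ⟨z.re, -z.im⟩ y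

theorem plc_vecc {k : ℕ} (z : ℂ) (y : Fin k → ℝ) : plc (vecc z y) = z := by
  apply Complex.ext
  · rfl
  · exact neg_neg z.im

theorem re'_vecc {k : ℕ} (z : ℂ) (y : Fin k → ℝ) : re' (vecc z y) = y := rfl

theorem vecc_eta {k : ℕ} (p : V k) : vecc (plc p) (re' p) = p := by
  have e : (⟨(plc p).re, -(plc p).im⟩ : ℂ) = pl p := by
    apply Complex.ext
    · rfl
    · exact neg_neg (p 1)
  unfold vecc
  rw [e]
  exact vec_eta p

/-- the map -/
noncomputable def f {k : ℕ} (p : V k) : V k := vecc (G (p 0) (p 1)) (re' p)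

theorem dist_sq {k : ℕ} (p q : V k) :
    dist p q ^ 2 = ‖pl p - pl q‖ ^ 2 + ∑ j, (re' p j - re' q j) ^ 2 := by
  rw [EuclideanSpace.dist_eq, Real.sq_sqrt (Finset.sum_nonneg fun _ _ => sq_nonneg _),
    Fin.sum_univ_succ, Fin.sum_univ_succ, ← normSq_eq_norm_sq, normSq_apply]
  have e : ∀ i, dist (p i) (q i) ^ 2 = (p i - q i) ^ 2 := fun i => by rw [Real.dist_eq, sq_abs]
  simp only [e]
  have e1 : (pl p - pl q).re = p 0 - q 0 := rfl
  have e2 : (pl p - pl q).im = p 1 - q 1 := rfl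
  have e3 : (Fin.succ 0 : Fin (k + 2)) = 1 := rfl
  rw [e1, e2, e3]
  simp only [re']
  ring

theorem plc_f {k : ℕ} (p : V k) : plc (f p) = G (p 0) (p 1) := plc_vecc _ _

theorem dist_sqc {k : ℕ} (p q : V k) :
    dist p q ^ 2 = ‖plc p - plc q‖ ^ 2 + ∑ j, (re' p j - re' q j) ^ 2 := by
  rw [dist_sq]
  congr 1
  rw [← normSq_eq_norm_sq, ← normSq_eq_norm_sq, normSq_apply, normSq_apply]
  have e1 : (pl p - pl q).re = p 0 - q 0 := rfl
  have e2 : (pl p - pl q).im = p 1 - q 1 := rfl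
  have e3 : (plc p - plc q).re = p 0 - q 0 := rfl
  have e4 : (plc p - plc q).im = -p 1 - -q 1 := rfl
  rw [e1, e2, e3, e4]
  ring

theorem re'_f {k : ℕ} (p : V k) : re' (f p) = re' p := rfl

theorem pl_dist {k : ℕ} (p q : V k) : ‖pl p - pl q‖ ^ 2 = (p 0 - q 0) ^ 2 + (p 1 - q 1) ^ 2 := by
  rw [← normSq_eq_norm_sq, normSq_apply]
  have e1 : (pl p - pl q).re = p 0 - q 0 := rfl
  have e2 : (pl p - pl q).im = p 1 - q 1 := rfl
  rw [e1, e2]
  ring

theorem sqrt_diff {x x' : ℝ} (hx : 1 < x) (hx' : 1 < x') :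
    |√x - √x'| * (√x + √x') = |x - x'| := by
  have h1 : (√x - √x') * (√x + √x') = x - x' := by
    have h2 := Real.mul_self_sqrt (show 0 ≤ x by linarith)
    have h3 := Real.mul_self_sqrt (show 0 ≤ x' by linarith)
    nlinarith
  have h4 : 0 ≤ √x + √x' := by positivity
  rw [← h1, abs_mul, abs_of_nonneg h4]

theorem norm_G {x t : ℝ} (ht : 0 < t) : ‖G x t‖ = √x + t := by
  unfold G
  rw [norm_mul, norm_exp_ofReal_mul_I, mul_one, norm_real, Real.norm_eq_abs,
    abs_of_nonneg (by positivity)]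

theorem G_upper {x x' t t' : ℝ} (hx : 1 < x) (hx' : 1 < x') (ht' : 0 < t') (ht1' : t' < 1) :
    ‖G x t - G x' t'‖ ≤ 3 * |x - x'| + |t - t'| := by
  have h1 : 1 < √x := by rw [Real.lt_sqrt (by norm_num)]; linarith
  have h1' : 1 < √x' := by rw [Real.lt_sqrt (by norm_num)]; linarith
  have hd := sqrt_diff hx hx'
  have h0 := abs_nonneg (√x - √x')
  have e : G x t - G x' t' = ((√x + t - (√x' + t') : ℝ) : ℂ) * exp ((√x : ℝ) * I) +
      ((√x' + t' : ℝ) : ℂ) * (exp ((√x : ℝ) * I) - exp ((√x' : ℝ) * I)) := by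
    unfold G
    push_cast
    ring
  have h2 : ‖exp ((√x : ℝ) * I) - exp ((√x' : ℝ) * I)‖ ≤ |√x - √x'| := by
    have e2 : exp ((√x : ℝ) * I) - exp ((√x' : ℝ) * I) =
        exp ((√x' : ℝ) * I) * (exp (I * ((√x - √x' : ℝ) : ℂ)) - 1) := by
      rw [mul_sub, mul_one, ← Complex.exp_add]
      congr 2
      push_cast
      ring
    rw [e2, norm_mul, norm_exp_ofReal_mul_I, one_mul]
    exact Real.norm_exp_I_mul_ofReal_sub_one_le
  rw [e]
  refine (norm_add_le _ _).trans ?_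
  rw [norm_mul, norm_mul, norm_exp_ofReal_mul_I, mul_one, norm_real, norm_real, Real.norm_eq_abs,
    Real.norm_eq_abs, abs_of_pos (show 0 < √x' + t' by linarith)]
  have h3 : |√x + t - (√x' + t')| ≤ |√x - √x'| + |t - t'| := by
    rw [show √x + t - (√x' + t') = (√x - √x') + (t - t') by ring]
    exact abs_add_le _ _
  have h4 : (√x' + t') * ‖exp ((√x : ℝ) * I) - exp ((√x' : ℝ) * I)‖ ≤ (√x' + t') * |√x - √x'| :=
    mul_le_mul_of_nonneg_left h2 (by linarith)
  nlinarith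

theorem G_lower {x x' t t' : ℝ} (hx : 1 < x) (hx' : 1 < x') (ht : 0 < t) (ht' : 0 < t')
    (hclose : |√x - √x'| ≤ 1) :
    |x - x'| ≤ 6 * ‖G x t - G x' t'‖ ∧ |t - t'| ≤ 4 * ‖G x t - G x' t'‖ := by
  have h1 : 1 < √x := by rw [Real.lt_sqrt (by norm_num)]; linarith
  have h1' : 1 < √x' := by rw [Real.lt_sqrt (by norm_num)]; linarith
  have hd := sqrt_diff hx hx'
  have h0 := abs_nonneg (√x - √x')
  have hpi : |√x - √x'| ≤ Real.pi / 2 := by linarith [Real.pi_gt_three]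
  have h2 := Real.mul_abs_le_abs_sin hpi
  have h3 : (√x + t) * |Real.sin (√x - √x')| ≤ ‖G x t - G x' t'‖ := by
    have e : (G x t - G x' t') * exp (-((√x' : ℝ) * I)) =
        ((√x + t : ℝ) : ℂ) * exp (((√x - √x' : ℝ) : ℂ) * I) - ((√x' + t' : ℝ) : ℂ) := by
      unfold G
      rw [sub_mul, mul_assoc, ← Complex.exp_add, mul_assoc, ← Complex.exp_add, add_neg_cancel,
        Complex.exp_zero, mul_one]
      congr 3
      push_cast
      ring
    have h4 : ‖(G x t - G x' t') * exp (-((√x' : ℝ) * I))‖ = ‖G x t - G x' t'‖ := by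
      rw [norm_mul, ← neg_mul, ← ofReal_neg, norm_exp_ofReal_mul_I, mul_one]
    rw [← h4, e]
    refine le_trans (le_of_eq ?_) (abs_im_le_norm _)
    rw [sub_im, ofReal_im, sub_zero, im_ofReal_mul, exp_ofReal_mul_I_im, abs_mul,
      abs_of_pos (show 0 < √x + t by linarith)]
  have h5 : |√x - √x'| / 2 ≤ |Real.sin (√x - √x')| := by
    refine le_trans ?_ h2
    have : (1 / 2 : ℝ) ≤ 2 / Real.pi := by
      rw [div_le_div_iff₀ (by norm_num) Real.pi_pos]
      linarith [Real.pi_le_four]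
    nlinarith
  have h6 : √x * (|√x - √x'| / 2) ≤ ‖G x t - G x' t'‖ := by
    refine le_trans ?_ h3
    exact mul_le_mul (by linarith) h5 (by positivity) (by linarith)
  have h7 : √x' ≤ √x + 1 := by linarith [(abs_le.1 hclose).1]
  have h8 : |x - x'| ≤ 6 * ‖G x t - G x' t'‖ := by
    rw [← hd]
    nlinarith
  refine ⟨h8, ?_⟩
  have h9 : |(√x + t) - (√x' + t')| ≤ ‖G x t - G x' t'‖ := by
    rw [← norm_G ht, ← norm_G ht']
    exact abs_norm_sub_norm_le _ _
  have h10 : |t - t'| ≤ |(√x + t) - (√x' + t')| + |√x - √x'| := by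
    have := abs_sub (√x + t - (√x' + t')) (√x - √x')
    rwa [show √x + t - (√x' + t') - (√x - √x') = t - t' by ring] at this
  have h11 : |√x - √x'| * 2 ≤ |x - x'| := by
    rw [← hd]
    exact mul_le_mul_of_nonneg_left (by linarith) h0
  linarith

/-- the half-slab -/
def Om (k : ℕ) : Set (V k) := {p | 1 < p 0 ∧ 0 < p 1 ∧ p 1 < 1}

theorem cont_coord {k : ℕ} (i : Fin (k + 2)) : Continuous fun p : V k => p i := by fun_prop

theorem Om_open (k : ℕ) : IsOpen (Om k) :=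
  (isOpen_lt continuous_const (cont_coord 0)).inter
    ((isOpen_lt continuous_const (cont_coord 1)).inter (isOpen_lt (cont_coord 1) continuous_const))

theorem Om_convex (k : ℕ) : Convex ℝ (Om k) := by
  intro p hp q hq a b ha hb hab
  have e : ∀ i, (a • p + b • q) i = a * p i + b * q i := fun i => rfl
  refine ⟨?_, ?_, ?_⟩
  · rw [e]
    rcases ha.lt_or_eq with h | h
    · nlinarith [hp.1, hq.1, mul_pos h (sub_pos.2 hp.1), mul_nonneg hb (sub_pos.2 hq.1).le]
    · have hb1 : b = 1 := by linarith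
      rw [← h, hb1]
      linarith [hq.1]
  · rw [e]
    rcases ha.lt_or_eq with h | h
    · nlinarith [hp.2.1, hq.2.1, mul_pos h hp.2.1, mul_nonneg hb hq.2.1.le]
    · have hb1 : b = 1 := by linarith
      rw [← h, hb1]
      linarith [hq.2.1]
  · rw [e]
    rcases ha.lt_or_eq with h | h
    · nlinarith [hp.2.2, hq.2.2, mul_pos h (sub_pos.2 hp.2.2), mul_nonneg hb (sub_pos.2 hq.2.2).le]
    · have hb1 : b = 1 := by linarith
      rw [← h, hb1]
      linarith [hq.2.2]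

theorem Om_nonempty (k : ℕ) : (Om k).Nonempty := by
  refine ⟨vec ⟨2, 1 / 2⟩ 0, ?_, ?_, ?_⟩
  · rw [vec_zero]; norm_num
  · rw [vec_one]; norm_num
  · rw [vec_one]; norm_num

theorem f_upper {k : ℕ} {p q : V k} (hp : p ∈ Om k) (hq : q ∈ Om k) :
    dist (f p) (f q) ≤ 5 * dist p q := by
  have h1 := dist_sqc (f p) (f q)
  have h2 := dist_sq p q
  rw [plc_f, plc_f, re'_f, re'_f] at h1
  rw [pl_dist] at h2
  have h3 := G_upper (t := p 1) hp.1 hq.1 hq.2.1 hq.2.2
  have h4 : ‖G (p 0) (p 1) - G (q 0) (q 1)‖ ^ 2 ≤ (3 * |p 0 - q 0| + |p 1 - q 1|) ^ 2 :=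
    pow_le_pow_left₀ (norm_nonneg _) h3 2
  have h5 : 0 ≤ ∑ j, (re' p j - re' q j) ^ 2 := Finset.sum_nonneg fun _ _ => sq_nonneg _
  have h6 := sq_abs (p 0 - q 0)
  have h7 := sq_abs (p 1 - q 1)
  refine abs_le_of_sq_le_sq' ?_ (by positivity) |>.2
  nlinarith [sq_nonneg (3 * |p 0 - q 0| - |p 1 - q 1|), sq_nonneg (p 1 - q 1), sq_nonneg (p 0 - q 0)]

theorem f_lower {k : ℕ} {p q : V k} (hp : p ∈ Om k) (hq : q ∈ Om k)
    (hclose : |√(p 0) - √(q 0)| ≤ 1) : dist p q ≤ 8 * dist (f p) (f q) := by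
  have h1 := dist_sqc (f p) (f q)
  have h2 := dist_sq p q
  rw [plc_f, plc_f, re'_f, re'_f] at h1
  rw [pl_dist] at h2
  obtain ⟨h3, h4⟩ := G_lower hp.1 hq.1 hp.2.1 hq.2.1 hclose
  have h3' : |p 0 - q 0| ^ 2 ≤ (6 * ‖G (p 0) (p 1) - G (q 0) (q 1)‖) ^ 2 :=
    pow_le_pow_left₀ (abs_nonneg _) h3 2
  have h4' : |p 1 - q 1| ^ 2 ≤ (4 * ‖G (p 0) (p 1) - G (q 0) (q 1)‖) ^ 2 :=
    pow_le_pow_left₀ (abs_nonneg _) h4 2
  rw [sq_abs] at h3' h4'
  have h5 : 0 ≤ ∑ j, (re' p j - re' q j) ^ 2 := Finset.sum_nonneg fun _ _ => sq_nonneg _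
  refine abs_le_of_sq_le_sq' ?_ (by positivity) |>.2
  nlinarith [sq_nonneg ‖G (p 0) (p 1) - G (q 0) (q 1)‖]

theorem f_inj (k : ℕ) : Set.InjOn (f (k := k)) (Om k) := by
  intro p hp q hq hpq
  have hG : G (p 0) (p 1) = G (q 0) (q 1) := by rw [← plc_f, ← plc_f, hpq]
  have h1 : √(p 0) + p 1 = √(q 0) + q 1 := by
    rw [← norm_G hp.2.1, ← norm_G hq.2.1, hG]
  have h2 : |√(p 0) - √(q 0)| ≤ 1 := by
    rw [abs_le]
    constructor <;> linarith [hp.2.1, hp.2.2, hq.2.1, hq.2.2]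
  have h3 := f_lower hp hq h2
  rw [hpq, dist_self, mul_zero] at h3
  exact dist_le_zero.1 h3

theorem cont_vec {k : ℕ} {X : Type*} [TopologicalSpace X] {z : X → ℂ} {y : X → Fin k → ℝ} {x : X}
    (hz : ContinuousAt z x) (hy : ContinuousAt y x) : ContinuousAt (fun x => vec (z x) (y x)) x := by
  unfold vec
  have h1 : ContinuousAt (fun x => (Fin.cons (z x).re (Fin.cons (z x).im (y x)) : Fin (k + 2) → ℝ)) x := by
    refine continuousAt_pi.2 fun i => ?_
    refine Fin.cases ?_ (fun j => Fin.cases ?_ (fun l => ?_) j) i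
    · exact continuous_re.continuousAt.comp hz
    · exact continuous_im.continuousAt.comp hz
    · exact continuousAt_pi.1 hy l
  exact (PiLp.continuous_toLp 2 _).continuousAt.comp h1

theorem cont_vecc {k : ℕ} {X : Type*} [TopologicalSpace X] {z : X → ℂ} {y : X → Fin k → ℝ} {x : X}
    (hz : ContinuousAt z x) (hy : ContinuousAt y x) : ContinuousAt (fun x => vecc (z x) (y x)) x := by
  unfold vecc
  refine cont_vec ?_ hy
  have e : (fun x => (⟨(z x).re, -(z x).im⟩ : ℂ)) = fun x => (starRingEnd ℂ) (z x) := rfl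
  rw [e]
  exact continuous_conj.continuousAt.comp hz

theorem cont_plc {k : ℕ} : Continuous (plc (k := k)) := by
  have e : plc (k := k) = fun p => ((p 0 : ℝ) : ℂ) + ((-p 1 : ℝ) : ℂ) * I := by
    funext p
    exact (mk_eq_add_mul_I _ _)
  rw [e]
  have h0 := cont_coord (k := k) 0
  have h1 := cont_coord (k := k) 1
  fun_prop

theorem cont_pl {k : ℕ} : Continuous (pl (k := k)) := by
  have e : pl (k := k) = fun p => ((p 0 : ℝ) : ℂ) + ((p 1 : ℝ) : ℂ) * I := by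
    funext p
    exact (mk_eq_add_mul_I _ _)
  rw [e]
  have h0 := cont_coord (k := k) 0
  have h1 := cont_coord (k := k) 1
  fun_prop

theorem cont_re' {k : ℕ} : Continuous (re' (k := k)) :=
  continuous_pi fun j => cont_coord j.succ.succ

theorem f_cont {k : ℕ} : Continuous (f (k := k)) := by
  rw [continuous_iff_continuousAt]
  intro p
  refine cont_vecc ?_ cont_re'.continuousAt
  have h0 := cont_coord (k := k) 0
  have h1 := cont_coord (k := k) 1
  unfold G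
  fun_prop

/-- a local inverse -/
theorem local_inverse {k : ℕ} {p₀ : V k} (hp : p₀ ∈ Om k) :
    ∃ h : V k → V k, ContinuousAt h (f p₀) ∧ h (f p₀) = p₀ ∧ ∀ᶠ w in 𝓝 (f p₀), f (h w) = w := by
  set φ₀ := √(p₀ 0) with hφ₀
  have h1 : 1 < φ₀ := by rw [hφ₀, Real.lt_sqrt (by norm_num)]; linarith [hp.1]
  set a : V k → ℂ := fun w => plc w * exp (-((φ₀ : ℝ) * I)) with ha
  set φ : V k → ℝ := fun w => φ₀ + arg (a w) with hφ
  have ha0 : a (f p₀) = ((φ₀ + p₀ 1 : ℝ) : ℂ) := by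
    simp only [ha, plc_f, G]
    rw [mul_assoc, ← Complex.exp_add, add_neg_cancel, Complex.exp_zero, mul_one]
  have hpos : 0 < φ₀ + p₀ 1 := by linarith [hp.2.1]
  have harg0 : arg (a (f p₀)) = 0 := by
    rw [ha0]
    exact arg_ofReal_of_nonneg hpos.le
  have hac : Continuous a := cont_plc.mul continuous_const
  have hφc : ContinuousAt φ (f p₀) := by
    refine continuousAt_const.add ?_
    refine ContinuousAt.comp (g := arg) ?_ hac.continuousAt
    apply continuousAt_arg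
    rw [ha0, ofReal_mem_slitPlane]
    exact hpos
  have hφ0 : φ (f p₀) = φ₀ := by simp only [hφ, harg0, add_zero]
  refine ⟨fun w => vec ⟨φ w ^ 2, ‖plc w‖ - φ w⟩ (re' w), ?_, ?_, ?_⟩
  · refine cont_vec ?_ cont_re'.continuousAt
    have e : (fun w : V k => (⟨φ w ^ 2, ‖plc w‖ - φ w⟩ : ℂ)) =
        fun w => ((φ w ^ 2 : ℝ) : ℂ) + ((‖plc w‖ - φ w : ℝ) : ℂ) * I := by
      funext w
      exact mk_eq_add_mul_I _ _
    rw [e]
    refine ContinuousAt.add ?_ (ContinuousAt.mul ?_ continuousAt_const)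
    · exact continuous_ofReal.continuousAt.comp (hφc.pow 2)
    · exact continuous_ofReal.continuousAt.comp ((cont_plc.norm.continuousAt).sub hφc)
  · have e1 : φ (f p₀) ^ 2 = p₀ 0 := by
      rw [hφ0, hφ₀, Real.sq_sqrt (by linarith [hp.1])]
    have e2 : ‖plc (f p₀)‖ - φ (f p₀) = p₀ 1 := by
      rw [hφ0, plc_f, norm_G hp.2.1]
      ring
    show vec ⟨φ (f p₀) ^ 2, ‖plc (f p₀)‖ - φ (f p₀)⟩ (re' (f p₀)) = p₀
    rw [e1, e2, re'_f]
    exact vec_eta p₀
  · have h2 : ∀ᶠ w in 𝓝 (f p₀), 0 < φ w :=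
      continuousAt_const.eventually_lt hφc (by rw [hφ0]; linarith)
    filter_upwards [h2] with w hw
    have e1 : √(φ w ^ 2) = φ w := Real.sqrt_sq hw.le
    have e2 : G (φ w ^ 2) (‖plc w‖ - φ w) = plc w := by
      unfold G
      rw [e1, show φ w + (‖plc w‖ - φ w) = ‖plc w‖ by ring]
      have e3 : ‖a w‖ = ‖plc w‖ := by
        simp only [ha]
        rw [norm_mul, ← neg_mul, ← ofReal_neg, norm_exp_ofReal_mul_I, mul_one]
      have e4 := norm_mul_exp_arg_mul_I (a w)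
      rw [e3] at e4
      simp only [hφ]
      rw [ofReal_add, add_mul, Complex.exp_add, mul_left_comm, e4]
      simp only [ha]
      rw [mul_left_comm, ← Complex.exp_add, add_neg_cancel, Complex.exp_zero, mul_one]
    show vecc (G (φ w ^ 2) (‖plc w‖ - φ w)) (re' w) = w
    rw [e2]
    exact vecc_eta w

theorem image_open (k : ℕ) : IsOpen (f '' Om k) := by
  rw [isOpen_iff_mem_nhds]
  rintro _ ⟨p₀, hp, rfl⟩
  obtain ⟨h, hc, h0, h1⟩ := local_inverse hp
  have h2 : ∀ᶠ w in 𝓝 (f p₀), h w ∈ Om k :=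
    hc.eventually_mem (by rw [h0]; exact (Om_open k).mem_nhds hp)
  filter_upwards [h1, h2] with w hw1 hw2
  exact ⟨h w, hw2, hw1⟩

/-- the inverse map -/
theorem inverse (k : ℕ) : ∃ g : V k → V k, (∀ p ∈ Om k, g (f p) = p) ∧
    (∀ w ∈ f '' Om k, g w ∈ Om k ∧ f (g w) = w) ∧ ContinuousOn g (f '' Om k) := by
  classical
  have hg1 : ∀ p ∈ Om k, Function.invFunOn (f (k := k)) (Om k) (f p) = p := fun p hp =>
    (f_inj k).leftInvOn_invFunOn hp
  refine ⟨Function.invFunOn f (Om k), hg1, ?_, ?_⟩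
  · rintro _ ⟨p, hp, rfl⟩
    rw [hg1 p hp]
    exact ⟨hp, rfl⟩
  · rintro _ ⟨p₀, hp, rfl⟩
    refine ContinuousAt.continuousWithinAt ?_
    obtain ⟨h, hc, h0, h1⟩ := local_inverse hp
    have h2 : ∀ᶠ w in 𝓝 (f p₀), h w ∈ Om k :=
      hc.eventually_mem (by rw [h0]; exact (Om_open k).mem_nhds hp)
    refine hc.congr ?_
    filter_upwards [h1, h2] with w hw1 hw2
    conv_rhs => rw [← hw1]
    exact (hg1 _ hw2).symm

theorem distortion {k : ℕ} {p : V k} (hp : p ∈ Om k) : ∃ r₀ > 0, Metric.ball p r₀ ⊆ Om k ∧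
    ∀ q q' : V k, dist q p < r₀ → dist q p = dist q' p → dist (f q) (f p) ≤ 40 * dist (f q') (f p) := by
  obtain ⟨ρ, hρ, hball⟩ := Metric.isOpen_iff.1 (Om_open k) p hp
  refine ⟨min ρ 1, lt_min hρ one_pos, (Metric.ball_subset_ball (min_le_left _ _)).trans hball,
    fun q q' hq hqq => ?_⟩
  have hq1 : q ∈ Om k := hball (Metric.mem_ball.2 (hq.trans_le (min_le_left _ _)))
  have hq' : dist q' p < min ρ 1 := by rwa [← hqq]
  have hq1' : q' ∈ Om k := hball (Metric.mem_ball.2 (hq'.trans_le (min_le_left _ _)))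
  have h1 := f_upper hq1 hp
  have h2 : |√(q' 0) - √(p 0)| ≤ 1 := by
    have h3 := sqrt_diff hq1'.1 hp.1
    have h4 := abs_coord_le q' p 0
    have h5 : 1 < √(q' 0) := by rw [Real.lt_sqrt (by norm_num)]; linarith [hq1'.1]
    have h6 : 1 < √(p 0) := by rw [Real.lt_sqrt (by norm_num)]; linarith [hp.1]
    have h7 := hq'.trans_le (min_le_right _ _)
    nlinarith [abs_nonneg (√(q' 0) - √(p 0))]
  have h3 := f_lower hq1' hp h2
  linarith

/-- the subset -/
def Es (k : ℕ) : Set (V k) := {p | p ∈ Om k ∧ p 1 = 1 / 2}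

theorem E_le (k : ℕ) : NagataLE (Es k) (k + 1) := by
  refine nagata_le (fun x (j : Fin (k + 1)) => x ((1 : Fin (k + 2)).succAbove j))
    (show (0 : ℝ) < ((k + 2 : ℕ) : ℝ) + 1 by positivity)
    (fun x _ y _ j => abs_coord_le x y _) (fun x hx y hy M hM h => ?_)
  refine dist_le_of_coord x y hM fun i => ?_
  by_cases hi : i = 1
  · rw [hi, hx.2, hy.2, sub_self, abs_zero]
    exact hM
  · obtain ⟨j, rfl⟩ := Fin.exists_succAbove_eq hi
    exact h j

theorem fE_not (k : ℕ) : ¬ NagataLE (f '' Es k) (k + 1) := by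
  refine not_nagata (n := k + 2) rfl (show (0 : ℝ) ≤ 7 by norm_num) (Fin.cons 20 0) fun p hp => ?_
  have hp0 : (20 : ℝ) ≤ p 0 := hp 0
  have hR : 20 ≤ ‖plc p‖ := by
    have := abs_re_le_norm (plc p)
    have e : (plc p).re = p 0 := rfl
    rw [e, abs_of_nonneg (by linarith)] at this
    linarith
  set R := ‖plc p‖ with hRdef
  set θ := arg (plc p) with hθ
  have hpi := Real.pi_gt_three
  have hpi2 := Real.pi_lt_d2
  set m : ℤ := ⌊(R - 1 / 2 - θ) / (2 * Real.pi)⌋ with hm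
  set φ : ℝ := θ + m * (2 * Real.pi) with hφ
  have h1 : φ ≤ R - 1 / 2 := by
    have := Int.floor_le ((R - 1 / 2 - θ) / (2 * Real.pi))
    rw [le_div_iff₀ (by positivity)] at this
    linarith
  have h2 : R - 1 / 2 - 2 * Real.pi < φ := by
    have := Int.lt_floor_add_one ((R - 1 / 2 - θ) / (2 * Real.pi))
    rw [div_lt_iff₀ (by positivity)] at this
    rw [hφ]
    linarith
  have hφ1 : 1 < φ := by linarith
  have e0 : √(φ ^ 2) = φ := Real.sqrt_sq (by linarith)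
  refine ⟨f (vec ⟨φ ^ 2, 1 / 2⟩ (re' p)), ⟨_, ⟨⟨?_, ?_, ?_⟩, ?_⟩, rfl⟩, ?_⟩
  · rw [vec_zero]
    show 1 < φ ^ 2
    nlinarith
  · rw [vec_one]
    norm_num
  · rw [vec_one]
    norm_num
  · rw [vec_one]
  · have e1 : plc (f (vec ⟨φ ^ 2, 1 / 2⟩ (re' p))) = ((φ + 1 / 2 : ℝ) : ℂ) * exp ((θ : ℝ) * I) := by
      rw [plc_f, vec_zero, vec_one]
      show G (φ ^ 2) (1 / 2) = _
      unfold G
      rw [e0]
      congr 1
      have e2 : ((φ : ℝ) : ℂ) * I = (θ : ℝ) * I + m * (2 * Real.pi * I) := by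
        rw [hφ]
        push_cast
        ring
      rw [e2, exp_add, exp_int_mul_two_pi_mul_I, mul_one]
    have e3 : plc p = ((R : ℝ) : ℂ) * exp ((θ : ℝ) * I) := (norm_mul_exp_arg_mul_I (plc p)).symm
    have e4 : ‖plc p - plc (f (vec ⟨φ ^ 2, 1 / 2⟩ (re' p)))‖ = |R - (φ + 1 / 2)| := by
      rw [e1]
      conv_lhs => rw [e3]
      rw [← sub_mul, ← ofReal_sub, norm_mul, norm_exp_ofReal_mul_I, mul_one, norm_real,
        Real.norm_eq_abs]
    have h3 := dist_sqc p (f (vec ⟨φ ^ 2, 1 / 2⟩ (re' p)))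
    rw [e4, re'_f, re'_vec] at h3
    simp only [sub_self] at h3
    have h4 : |R - (φ + 1 / 2)| ≤ 7 := by
      rw [abs_le]
      constructor <;> linarith
    have h5 : |R - (φ + 1 / 2)| ^ 2 ≤ 7 ^ 2 := pow_le_pow_left₀ (abs_nonneg _) h4 2
    refine abs_le_of_sq_le_sq' ?_ (by norm_num) |>.2
    rw [h3]
    simp only [ne_eq, OfNat.ofNat_ne_zero, not_false_eq_true, zero_pow, Finset.sum_const_zero,
      add_zero]
    exact h5

end Pool.Agent.Q158.Nag
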