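import Mathlib
import Pool.Agent.Q158.NagC

/-! # The derivative of the rolling-up map -/

set_option autoImplicit false

namespace Pool.Agent.Q158.Nag

open Filter Topology

/-- the derivative, as a linear map depending on four real numbers -/
noncomputable def Tl {k : ℕ} (a b c d : ℝ) : V k →ₗ[ℝ] V k where
  toFun v := WithLp.toLp 2 (Fin.cons (a * v 0 + b * v 1) (Fin.cons (c * v 0 + d * v 1) (re' v)))
  map_add' v w := by
    ext i
    refine Fin.cases ?_ (fun j => Fin.cases ?_ (fun l => ?_) j) i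
    · show a * (v 0 + w 0) + b * (v 1 + w 1) = (a * v 0 + b * v 1) + (a * w 0 + b * w 1)
      ring
    · show c * (v 0 + w 0) + d * (v 1 + w 1) = (c * v 0 + d * v 1) + (c * w 0 + d * w 1)
      ring
    · rfl
  map_smul' r v := by
    ext i
    refine Fin.cases ?_ (fun j => Fin.cases ?_ (fun l => ?_) j) i
    · show a * (r * v 0) + b * (r * v 1) = r * (a * v 0 + b * v 1)
      ring
    · show c * (r * v 0) + d * (r * v 1) = r * (c * v 0 + d * v 1)
      ring
    · rfl

theorem Tl_zero {k : ℕ} (a b c d : ℝ) (v : V k) : (Tl a b c d v) 0 = a * v 0 + b * v 1 := rfl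

theorem Tl_one {k : ℕ} (a b c d : ℝ) (v : V k) : (Tl a b c d v) 1 = c * v 0 + d * v 1 := rfl

theorem Tl_succ {k : ℕ} (a b c d : ℝ) (v : V k) (l : Fin k) :
    (Tl a b c d v) l.succ.succ = v l.succ.succ := rfl

theorem det_Tl {k : ℕ} (a b c d : ℝ) : LinearMap.det (Tl (k := k) a b c d) = a * d - b * c := by
  rw [← LinearMap.det_toMatrix (EuclideanSpace.basisFun (Fin (k + 2)) ℝ).toBasis]
  set A := LinearMap.toMatrix (EuclideanSpace.basisFun (Fin (k + 2)) ℝ).toBasis
    (EuclideanSpace.basisFun (Fin (k + 2)) ℝ).toBasis (Tl (k := k) a b c d) with hA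
  have hA' : ∀ i j, A i j = (Tl (k := k) a b c d (EuclideanSpace.single j 1)) i := by
    intro i j
    rw [hA, LinearMap.toMatrix_apply]
    simp [EuclideanSpace.basisFun_apply]
  have n1 : ∀ l : Fin k, (0 : Fin (k + 2)) ≠ l.succ.succ := fun l => (Fin.succ_ne_zero _).symm
  have n2 : ∀ l : Fin k, (1 : Fin (k + 2)) ≠ l.succ.succ := fun l h =>
    (Fin.succ_ne_zero l) (Fin.succ_injective _ (h.symm : l.succ.succ = Fin.succ 0))
  have n3 : (0 : Fin (k + 2)) ≠ 1 := Fin.zero_ne_one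
  have h00 : A 0 0 = a := by rw [hA', Tl_zero]; simp [n3.symm]
  have h10 : A 1 0 = c := by rw [hA', Tl_one]; simp [n3.symm]
  have h01 : A 0 1 = b := by rw [hA', Tl_zero]; simp [n3]
  have h11 : A 1 1 = d := by rw [hA', Tl_one]; simp [n3]
  have hl0 : ∀ l : Fin k, A l.succ.succ 0 = 0 := fun l => by
    rw [hA', Tl_succ]
    simp [(n1 l).symm]
  have hl1 : ∀ l : Fin k, A l.succ.succ 1 = 0 := fun l => by
    rw [hA', Tl_succ]
    simp [(n2 l).symm]
  have h0l : ∀ l : Fin k, A 0 l.succ.succ = 0 := fun l => by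
    rw [hA', Tl_zero]
    simp [n1 l, n2 l]
  have h1l : ∀ l : Fin k, A 1 l.succ.succ = 0 := fun l => by
    rw [hA', Tl_one]
    simp [n1 l, n2 l]
  have hll : ∀ l m : Fin k, A l.succ.succ m.succ.succ = if l = m then 1 else 0 := fun l m => by
    rw [hA', Tl_succ]
    by_cases h : l = m
    · subst h
      simp
    · have h' : l.succ.succ ≠ m.succ.succ := fun h'' => h (Fin.succ_injective _ (Fin.succ_injective _ h''))
      simp [h, h']
  have e1 : (Fin.succ 0 : Fin (k + 2)) = 1 := rfl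
  rw [Matrix.det_succ_column_zero, Fin.sum_univ_succ, Fin.sum_univ_succ]
  have hz : ∑ i : Fin k, (-1 : ℝ) ^ ((i.succ.succ : Fin (k + 2)) : ℕ) * A i.succ.succ 0 *
      (A.submatrix (i.succ.succ).succAbove Fin.succ).det = 0 :=
    Finset.sum_eq_zero fun i _ => by rw [hl0]; ring
  have hB : A.submatrix (Fin.succAbove 0) Fin.succ = Matrix.diagonal (Fin.cons d fun _ => 1) := by
    ext i j
    rw [Matrix.submatrix_apply, Fin.zero_succAbove]
    refine Fin.cases ?_ (fun l => ?_) i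
    · refine Fin.cases ?_ (fun m => ?_) j
      · rw [e1, h11, Matrix.diagonal_apply_eq]
        rfl
      · rw [e1, h1l, Matrix.diagonal_apply_ne _ (Fin.succ_ne_zero m).symm]
    · refine Fin.cases ?_ (fun m => ?_) j
      · rw [e1, hl1, Matrix.diagonal_apply_ne _ (Fin.succ_ne_zero l)]
      · rw [hll, Matrix.diagonal_apply]
        simp [Fin.succ_inj]
  have hC : A.submatrix (Fin.succAbove (Fin.succ 0)) Fin.succ =
      Matrix.diagonal (Fin.cons b fun _ => 1) := by
    ext i j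
    rw [Matrix.submatrix_apply]
    refine Fin.cases ?_ (fun l => ?_) i
    · have e2 : (Fin.succAbove (Fin.succ 0) 0 : Fin (k + 2)) = 0 := rfl
      rw [e2]
      refine Fin.cases ?_ (fun m => ?_) j
      · rw [e1, h01, Matrix.diagonal_apply_eq]
        rfl
      · rw [h0l, Matrix.diagonal_apply_ne _ (Fin.succ_ne_zero m).symm]
    · have e2 : (Fin.succAbove (Fin.succ 0) l.succ : Fin (k + 2)) = l.succ.succ := by
        rw [Fin.succ_succAbove_succ, Fin.zero_succAbove]
      rw [e2]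
      refine Fin.cases ?_ (fun m => ?_) j
      · rw [e1, hl1, Matrix.diagonal_apply_ne _ (Fin.succ_ne_zero l)]
      · rw [hll, Matrix.diagonal_apply]
        simp [Fin.succ_inj]
  rw [hz, hB, hC, Matrix.det_diagonal, Matrix.det_diagonal, Fin.prod_univ_succ, Fin.prod_univ_succ,
    e1, h00, h10]
  simp only [Fin.cons_zero, Fin.cons_succ, Finset.prod_const_one, mul_one, Fin.val_zero, pow_zero,
    one_mul, Fin.val_one, pow_one, add_zero]
  ring

theorem f_zero {k : ℕ} (p : V k) : (f p) 0 = (√(p 0) + p 1) * Real.cos √(p 0) := by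
  show (G (p 0) (p 1)).re = _
  unfold G
  rw [Complex.re_ofReal_mul, Complex.exp_ofReal_mul_I_re]

theorem f_one {k : ℕ} (p : V k) : (f p) 1 = -((√(p 0) + p 1) * Real.sin √(p 0)) := by
  show -(G (p 0) (p 1)).im = _
  unfold G
  rw [Complex.im_ofReal_mul, Complex.exp_ofReal_mul_I_im]

theorem f_succ {k : ℕ} (p : V k) (l : Fin k) : (f p) l.succ.succ = p l.succ.succ := rfl

/-- the derivative of `f` -/
noncomputable def df {k : ℕ} (p : V k) : V k →L[ℝ] V k :=
  LinearMap.toContinuousLinearMap (Tl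
    (1 / (2 * √(p 0)) * (Real.cos √(p 0) - (√(p 0) + p 1) * Real.sin √(p 0)))
    (Real.cos √(p 0))
    (-(1 / (2 * √(p 0)) * (Real.sin √(p 0) + (√(p 0) + p 1) * Real.cos √(p 0))))
    (-Real.sin √(p 0)))

theorem hasFDerivAt_f {k : ℕ} {p : V k} (hp : p ∈ Om k) : HasFDerivAt f (df p) p := by
  have hp0 : p 0 ≠ 0 := by linarith [hp.1]
  rw [← hasFDerivWithinAt_univ, hasFDerivWithinAt_euclidean]
  have hpr : ∀ i : Fin (k + 2), HasFDerivAt (fun x : V k => x i) (EuclideanSpace.proj i : V k →L[ℝ] ℝ) p :=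
    fun i => (EuclideanSpace.proj i : V k →L[ℝ] ℝ).hasFDerivAt
  have hs := (hpr 0).sqrt hp0
  have h1 := hs.add (hpr 1)
  intro i
  rw [hasFDerivWithinAt_univ]
  refine Fin.cases ?_ (fun j => Fin.cases ?_ (fun l => ?_) j) i
  · have h2 := h1.mul hs.cos
    have e : (fun x : V k => (f x) 0) = fun x : V k => (√(x 0) + x 1) * Real.cos √(x 0) :=
      funext f_zero
    rw [e]
    refine h2.congr_fderiv ?_
    ext v
    show (√(p 0) + p 1) * (-Real.sin √(p 0) * (1 / (2 * √(p 0)) * v 0)) +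
      Real.cos √(p 0) * (1 / (2 * √(p 0)) * v 0 + v 1) = (df p v) 0
    show _ = (1 / (2 * √(p 0)) * (Real.cos √(p 0) - (√(p 0) + p 1) * Real.sin √(p 0))) * v 0 +
      Real.cos √(p 0) * v 1
    ring
  · have h2 := (h1.mul hs.sin).neg
    have e : (fun x : V k => (f x) 1) = fun x : V k => -((√(x 0) + x 1) * Real.sin √(x 0)) :=
      funext f_one
    show HasFDerivAt (fun x : V k => (f x) 1) _ p
    rw [e]
    refine h2.congr_fderiv ?_
    ext v
    show -((√(p 0) + p 1) * (Real.cos √(p 0) * (1 / (2 * √(p 0)) * v 0)) +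
      Real.sin √(p 0) * (1 / (2 * √(p 0)) * v 0 + v 1)) = (df p v) 1
    show _ = (-(1 / (2 * √(p 0)) * (Real.sin √(p 0) + (√(p 0) + p 1) * Real.cos √(p 0)))) * v 0 +
      -Real.sin √(p 0) * v 1
    ring
  · have e : (fun x : V k => (f x) l.succ.succ) = fun x : V k => x l.succ.succ := funext fun x => rfl
    rw [e]
    refine (hpr l.succ.succ).congr_fderiv ?_
    ext v
    rfl

theorem det_df {k : ℕ} {p : V k} (hp : p ∈ Om k) : 1 / 2 ≤ (df p).det := by
  have e : (df p).det = LinearMap.det (Tl (k := k)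
    (1 / (2 * √(p 0)) * (Real.cos √(p 0) - (√(p 0) + p 1) * Real.sin √(p 0)))
    (Real.cos √(p 0))
    (-(1 / (2 * √(p 0)) * (Real.sin √(p 0) + (√(p 0) + p 1) * Real.cos √(p 0))))
    (-Real.sin √(p 0))) := rfl
  rw [e, det_Tl]
  have h1 : 0 < √(p 0) := Real.sqrt_pos.2 (by linarith [hp.1])
  have h2 := Real.sin_sq_add_cos_sq √(p 0)
  have h3 : 1 / (2 * √(p 0)) * (Real.cos √(p 0) - (√(p 0) + p 1) * Real.sin √(p 0)) *
      -Real.sin √(p 0) - Real.cos √(p 0) * -(1 / (2 * √(p 0)) * (Real.sin √(p 0) +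
        (√(p 0) + p 1) * Real.cos √(p 0))) =
      1 / (2 * √(p 0)) * ((√(p 0) + p 1) * (Real.sin √(p 0) ^ 2 + Real.cos √(p 0) ^ 2)) := by
    ring
  rw [h3, h2, mul_one, div_mul_eq_mul_div, one_mul, div_le_div_iff₀ (by norm_num) (by positivity)]
  linarith [hp.2.1]

theorem norm_df {k : ℕ} {p : V k} (hp : p ∈ Om k) : ‖df p‖ ≤ 5 := by
  refine (hasFDerivAt_f hp).le_of_lip' (by norm_num) ?_
  filter_upwards [(Om_open k).mem_nhds hp] with q hq
  have := f_upper hq hp
  rwa [dist_eq_norm, dist_eq_norm] at this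

theorem fderiv_f {k : ℕ} {p : V k} (hp : p ∈ Om k) : fderiv ℝ f p = df p := (hasFDerivAt_f hp).fderiv

theorem analytic_qc {k : ℕ} {p : V k} (hp : p ∈ Om k) :
    ‖fderiv ℝ f p‖ ^ (k + 2) ≤ 2 * 5 ^ (k + 2) * (fderiv ℝ f p).det := by
  rw [fderiv_f hp]
  have h1 := pow_le_pow_left₀ (norm_nonneg _) (norm_df hp) (k + 2)
  have h2 := det_df hp
  have h3 : (0 : ℝ) < 5 ^ (k + 2) := by positivity
  nlinarith

theorem contDiffOn_f {k : ℕ} : ContDiffOn ℝ 1 f (Om k) := by
  rw [contDiffOn_euclidean]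
  intro i p hp
  refine ContDiffAt.contDiffWithinAt ?_
  have hp0 : p 0 ≠ 0 := by linarith [hp.1]
  have hpr : ∀ i : Fin (k + 2), ContDiffAt ℝ 1 (fun x : V k => x i) p :=
    fun i => (EuclideanSpace.proj i : V k →L[ℝ] ℝ).contDiff.contDiffAt
  have hs := (hpr 0).sqrt hp0
  have h1 := hs.add (hpr 1)
  refine Fin.cases ?_ (fun j => Fin.cases ?_ (fun l => ?_) j) i
  · have e : (fun x : V k => (f x) 0) = fun x : V k => (√(x 0) + x 1) * Real.cos √(x 0) :=
      funext f_zero
    rw [e]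
    exact h1.mul hs.cos
  · have e : (fun x : V k => (f x) 1) = fun x : V k => -((√(x 0) + x 1) * Real.sin √(x 0)) :=
      funext f_one
    show ContDiffAt ℝ 1 (fun x : V k => (f x) 1) p
    rw [e]
    exact (h1.mul hs.sin).neg
  · exact hpr l.succ.succ

end Pool.Agent.Q158.Nag
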