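import Mathlib
import Pool.Agent.Q158.NagD

/-! # A winding map followed by the rolling-up map: dimension of the image of the branch set -/

set_option autoImplicit false

namespace Pool.Agent.Q158.Nag

open Filter Topology

/-- a set close to a family of points behaving like a grid does not have small Nagata dimension -/
theorem not_nagata' {V : Type*} [MetricSpace V] {d n : ℕ} (hn : n = d + 1) {X : Set V} {ρ C : ℝ}
    (hρ : 0 ≤ ρ) (hC : 0 ≤ C) (P : (ℕ → ℕ) → V)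
    (hP1 : ∀ (x x' : ℕ → ℕ) (i : ℕ), i < n → |(x i : ℝ) - x' i| ≤ dist (P x) (P x'))
    (hP2 : ∀ x x' : ℕ → ℕ, (∀ i, i < n → |(x i : ℝ) - x' i| ≤ 1) → dist (P x) (P x') ≤ C)
    (hX : ∀ x, ∃ q ∈ X, dist (P x) q ≤ ρ) :
    ¬ NagataLE X d := by
  classical
  rintro ⟨c, hc, h⟩
  obtain ⟨𝒰, hcov, hdiam, hmult⟩ := h (C + 1 + 2 * ρ) (by positivity)
  set s : ℝ := C + 1 + 2 * ρ with hs
  obtain ⟨m, hm⟩ := exists_nat_gt (c * s + 2 * ρ)
  choose q hqX hqd using hX
  have hA : ∀ x : ℕ → ℕ, ∃ U ∈ 𝒰, q x ∈ U := fun x => by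
    obtain ⟨U, hU, h1⟩ := hcov (hqX x)
    exact ⟨U, hU, h1⟩
  choose A hAU hqA using hA
  set Q : Set V → ℕ → Prop := fun U i =>
    i < n ∧ ∃ x : ℕ → ℕ, (∀ i, x i ≤ m) ∧ x i = m ∧ A x = U with hQ
  set lab : Set V → ℕ := fun U =>
    if h : ∃ i, Q U i then Nat.find h else n with hlab
  have hlab1 : ∀ U, lab U ≤ n := by
    intro U
    simp only [hlab]
    split_ifs with h1
    · exact (Nat.find_spec h1).1.le
    · exact le_rfl
  have hlab2 : ∀ U i, i < n → lab U = i → Q U i := by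
    intro U i hi h1
    simp only [hlab] at h1
    split_ifs at h1 with h2
    · rw [← h1]
      exact Nat.find_spec h2
    · omega
  have hlab3 : ∀ U i, Q U i → lab U ≤ i := by
    intro U i h1
    have h2 : ∃ i, Q U i := ⟨i, h1⟩
    simp only [hlab]
    rw [dif_pos h2]
    exact Nat.find_min' h2 h1
  obtain ⟨x, -, hx⟩ := H63Fed.Kuhn.kuhn n m (fun x => lab (A x)) (fun x _ => hlab1 _)
    (fun i hi x hxm hxi h1 => by
      obtain ⟨-, x', hx'm, hx'i, hAA⟩ := hlab2 _ i hi h1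
      have h2 := (hdiam (A x) (hAU x)).2 (q x) (hqA x) (q x') (by rw [← hAA]; exact hqA x')
      have h3 := hP1 x x' i hi
      rw [hxi, hx'i] at h3
      have h4 : (m : ℝ) ≤ dist (P x) (P x') := by
        refine le_trans ?_ h3
        rw [abs_sub_comm]
        refine le_trans (le_of_eq ?_) (le_abs_self _)
        push_cast
        ring
      have h5 : dist (P x) (P x') ≤ dist (P x) (q x) + dist (q x) (q x') + dist (P x') (q x') := by
        have h6 := dist_triangle (P x) (q x) (P x')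
        have h7 := dist_triangle (q x) (q x') (P x')
        rw [dist_comm (q x') (P x')] at h7
        linarith
      linarith [hqd x, hqd x'])
    (fun i hi x hxm hxi => hlab3 _ i ⟨hi, x, hxm, hxi, rfl⟩)
  choose! y hy1 hy2 hy3 using hx
  set T : Set V := {z | ∃ j, j ≤ n ∧ z = q (y j)} with hT
  have hTX : T ⊆ X := by
    rintro _ ⟨j, -, rfl⟩
    exact hqX _
  have hTs : ∀ z ∈ T, ∀ w ∈ T, dist z w ≤ s := by
    rintro _ ⟨j, hj, rfl⟩ _ ⟨k, hk, rfl⟩
    have h1 : dist (P (y j)) (P (y k)) ≤ C := by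
      refine hP2 _ _ fun i hi => ?_
      have h2 := hy1 j hj i hi
      have h3 := hy1 k hk i hi
      rw [abs_le]
      rcases h2 with h2 | h2 <;> rcases h3 with h3 | h3 <;> rw [h2, h3] <;> push_cast <;>
        constructor <;> linarith
    have h4 := dist_triangle (q (y j)) (P (y j)) (q (y k))
    have h5 := dist_triangle (P (y j)) (P (y k)) (q (y k))
    rw [dist_comm (q (y j)) (P (y j))] at h4
    rw [hs]
    linarith [hqd (y j), hqd (y k)]
  have h1 := hmult T hTX hTs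
  have h2 : ((Finset.range (n + 1)).image fun j => A (y j) : Finset _).card = n + 1 := by
    rw [Finset.card_image_of_injOn, Finset.card_range]
    intro j hj k hk hjk
    have hj' := hy3 j (Nat.lt_succ_iff.1 (Finset.mem_range.1 hj))
    have hk' := hy3 k (Nat.lt_succ_iff.1 (Finset.mem_range.1 hk))
    simp only at hjk hj' hk'
    rw [← hj', ← hk', hjk]
  have h3 : (((Finset.range (n + 1)).image fun j => A (y j) : Finset _) : Set (Set _)) ⊆
      {U : Set V | U ∈ 𝒰 ∧ (U ∩ T).Nonempty} := by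
    intro U hU
    obtain ⟨j, hj, rfl⟩ := Finset.mem_image.1 (Finset.mem_coe.1 hU)
    exact ⟨hAU _, q (y j), hqA _, j, Nat.lt_succ_iff.1 (Finset.mem_range.1 hj), rfl⟩
  have h4 := (Set.encard_le_encard h3).trans h1
  rw [Set.encard_coe_eq_coe_finsetCard, h2, hn] at h4
  have h5 : d + 1 + 1 ≤ d + 1 := by exact_mod_cast h4
  omega

theorem NagataLE.subset {V : Type*} [MetricSpace V] {X Y : Set V} {d : ℕ} (h : NagataLE Y d)
    (hXY : X ⊆ Y) : NagataLE X d := by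
  obtain ⟨c, hc, h⟩ := h
  refine ⟨c, hc, fun s hs => ?_⟩
  obtain ⟨𝒰, h1, h2, h3⟩ := h s hs
  refine ⟨(fun U => U ∩ X) '' 𝒰, ?_, ?_, ?_⟩
  · intro x hx
    obtain ⟨U, hU, hxU⟩ := h1 (hXY hx)
    exact ⟨U ∩ X, ⟨U, hU, rfl⟩, hxU, hx⟩
  · rintro _ ⟨U, hU, rfl⟩
    exact ⟨Set.inter_subset_right, fun x hx y hy => (h2 U hU).2 x hx.1 y hy.1⟩
  · intro T hT hTs
    have h4 : {U : Set V | U ∈ (fun U => U ∩ X) '' 𝒰 ∧ (U ∩ T).Nonempty} ⊆
        (fun U => U ∩ X) '' {U : Set V | U ∈ 𝒰 ∧ (U ∩ T).Nonempty} := by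
      rintro _ ⟨⟨U, hU, rfl⟩, x, hx1, hx2⟩
      exact ⟨U, ⟨hU, x, hx1.1, hx2⟩, rfl⟩
    exact (Set.encard_le_encard h4).trans ((Set.encard_image_le _ _).trans (h3 T (hT.trans hXY) hTs))

theorem dense_point {k : ℕ} (p : V k) (hp0 : (20 : ℝ) ≤ p 0) :
    ∃ φ : ℝ, 1 < φ ∧ dist p (f (vec ⟨φ ^ 2, 1 / 2⟩ (re' p))) ≤ 7 := by
  have hR : 20 ≤ ‖plc p‖ := by
    have := Complex.abs_re_le_norm (plc p)
    have e : (plc p).re = p 0 := rfl
    rw [e, abs_of_nonneg (by linarith)] at this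
    linarith
  set R := ‖plc p‖ with hRdef
  set θ := Complex.arg (plc p) with hθ
  have hpi := Real.pi_gt_three
  have hpi2 := Real.pi_lt_d2
  set m : ℤ := ⌊(R - 1 / 2 - θ) / (2 * Real.pi)⌋ with hm
  set φ : ℝ := θ + m * (2 * Real.pi) with hφ
  have h1 : φ ≤ R - 1 / 2 := by
    have := Int.floor_le ((R - 1 / 2 - θ) / (2 * Real.pi))
    rw [le_div_iff₀ (by positivity)] at this
    linarith
  have h2 : R - 1 / 2 - 2 * Real.pi < φ := by
    have := Int.lt_floor_add_one ((R - 1 / 2 - θ) / (2 * Real.pi))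
    rw [div_lt_iff₀ (by positivity)] at this
    rw [hφ]
    linarith
  have hφ1 : 1 < φ := by linarith
  have e0 : √(φ ^ 2) = φ := Real.sqrt_sq (by linarith)
  refine ⟨φ, hφ1, ?_⟩
  have e1 : plc (f (vec ⟨φ ^ 2, 1 / 2⟩ (re' p))) =
      ((φ + 1 / 2 : ℝ) : ℂ) * Complex.exp ((θ : ℝ) * Complex.I) := by
    rw [plc_f, vec_zero, vec_one]
    show G (φ ^ 2) (1 / 2) = _
    unfold G
    rw [e0]
    congr 1
    have e2 : ((φ : ℝ) : ℂ) * Complex.I = (θ : ℝ) * Complex.I + m * (2 * Real.pi * Complex.I) := by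
      rw [hφ]
      push_cast
      ring
    rw [e2, Complex.exp_add, Complex.exp_int_mul_two_pi_mul_I, mul_one]
  have e3 : plc p = ((R : ℝ) : ℂ) * Complex.exp ((θ : ℝ) * Complex.I) :=
    (Complex.norm_mul_exp_arg_mul_I (plc p)).symm
  have e4 : ‖plc p - plc (f (vec ⟨φ ^ 2, 1 / 2⟩ (re' p)))‖ = |R - (φ + 1 / 2)| := by
    rw [e1]
    conv_lhs => rw [e3]
    rw [← sub_mul, ← Complex.ofReal_sub, norm_mul, Complex.norm_exp_ofReal_mul_I, mul_one,
      Complex.norm_real, Real.norm_eq_abs]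
  have h3 := dist_sqc p (f (vec ⟨φ ^ 2, 1 / 2⟩ (re' p)))
  rw [e4, re'_f, re'_vec] at h3
  simp only [sub_self] at h3
  have h4 : |R - (φ + 1 / 2)| ≤ 7 := by
    rw [abs_le]
    constructor <;> linarith
  have h5 : |R - (φ + 1 / 2)| ^ 2 ≤ 7 ^ 2 := pow_le_pow_left₀ (abs_nonneg _) h4 2
  refine abs_le_of_sq_le_sq' ?_ (by norm_num) |>.2
  rw [h3]
  simp only [ne_eq, OfNat.ofNat_ne_zero, not_false_eq_true, zero_pow, Finset.sum_const_zero,
    add_zero]
  exact h5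

end Pool.Agent.Q158.Nag
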