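import Mathlib
import Pool.Agent.Q158.BrA

/-! # The winding map -/

set_option autoImplicit false

namespace Pool.Agent.Q158.Nag

open Filter Topology

/-- drop the first coordinate -/
noncomputable def tl {k : ℕ} (p : V (k + 1)) : V k := WithLp.toLp 2 fun i => p i.succ

/-- add a first coordinate -/
noncomputable def cn {k : ℕ} (x : ℝ) (q : V k) : V (k + 1) :=
  WithLp.toLp 2 (Fin.cons x fun i => q i)

theorem tl_apply {k : ℕ} (p : V (k + 1)) (i : Fin (k + 2)) : tl p i = p i.succ := rfl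

theorem cn_zero {k : ℕ} (x : ℝ) (q : V k) : cn x q 0 = x := rfl

theorem cn_succ {k : ℕ} (x : ℝ) (q : V k) (i : Fin (k + 2)) : cn x q i.succ = q i := rfl

theorem tl_cn {k : ℕ} (x : ℝ) (q : V k) : tl (cn x q) = q := rfl

theorem cn_tl {k : ℕ} (p : V (k + 1)) : cn (p 0) (tl p) = p := by
  ext i
  refine Fin.cases ?_ (fun j => ?_) i <;> rfl

theorem dist_cn {k : ℕ} (p q : V (k + 1)) : dist p q ^ 2 = (p 0 - q 0) ^ 2 + dist (tl p) (tl q) ^ 2 := by
  rw [EuclideanSpace.dist_eq, EuclideanSpace.dist_eq,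
    Real.sq_sqrt (Finset.sum_nonneg fun _ _ => sq_nonneg _),
    Real.sq_sqrt (Finset.sum_nonneg fun _ _ => sq_nonneg _), Fin.sum_univ_succ, Real.dist_eq, sq_abs]
  rfl

/-- the winding map of the plane -/
noncomputable def wd (z : ℂ) : ℂ := z * z / (‖z‖ : ℂ)

theorem wd_neg (z : ℂ) : wd (-z) = wd z := by
  unfold wd
  rw [neg_mul_neg, norm_neg]

theorem norm_wd (z : ℂ) : ‖wd z‖ = ‖z‖ := by
  unfold wd
  rcases eq_or_ne z 0 with h | h
  · rw [h]; simp
  · have h1 : ‖z‖ ≠ 0 := norm_ne_zero_iff.2 h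
    rw [norm_div, norm_mul, Complex.norm_real, Real.norm_eq_abs, abs_norm]
    field_simp

theorem wd_lip (z w : ℂ) : ‖wd z - wd w‖ ≤ 3 * ‖z - w‖ := by
  rcases eq_or_ne z 0 with h | h
  · have e : wd 0 = 0 := by simp [wd]
    rw [h, e, zero_sub, zero_sub, norm_neg, norm_neg, norm_wd]
    linarith [norm_nonneg w]
  rcases eq_or_ne w 0 with h' | h'
  · have e : wd 0 = 0 := by simp [wd]
    rw [h', e, sub_zero, sub_zero, norm_wd]
    linarith [norm_nonneg z]
  have hz : 0 < ‖z‖ := norm_pos_iff.2 h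
  have hw : 0 < ‖w‖ := norm_pos_iff.2 h'
  have hzc : (‖z‖ : ℂ) ≠ 0 := by exact_mod_cast hz.ne'
  have hwc : (‖w‖ : ℂ) ≠ 0 := by exact_mod_cast hw.ne'
  have e : wd z - wd w = (z - w) * (z / ‖z‖) +
      (w / ‖z‖) * ((z - w) + w * (((‖w‖ - ‖z‖ : ℝ) : ℂ) / ‖w‖)) := by
    unfold wd
    push_cast
    field_simp
    ring
  have h1 : ‖z / (‖z‖ : ℂ)‖ = 1 := by
    rw [norm_div, Complex.norm_real, Real.norm_eq_abs, abs_norm, div_self hz.ne']
  rcases le_total ‖w‖ ‖z‖ with hle | hle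
  · have h2 : ‖w / (‖z‖ : ℂ)‖ ≤ 1 := by
      rw [norm_div, Complex.norm_real, Real.norm_eq_abs, abs_norm, div_le_one hz]
      exact hle
    have h3 : ‖w * (((‖w‖ - ‖z‖ : ℝ) : ℂ) / ‖w‖)‖ ≤ ‖z - w‖ := by
      rw [norm_mul, norm_div, Complex.norm_real, Complex.norm_real, Real.norm_eq_abs,
        Real.norm_eq_abs, abs_norm, mul_div_cancel₀ _ hw.ne', abs_sub_comm]
      exact abs_norm_sub_norm_le z w
    rw [e]
    calc _ ≤ ‖(z - w) * (z / ‖z‖)‖ + ‖(w / ‖z‖) * ((z - w) + w * (((‖w‖ - ‖z‖ : ℝ) : ℂ) / ‖w‖))‖ :=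
          norm_add_le _ _
      _ ≤ ‖z - w‖ * 1 + 1 * (‖z - w‖ + ‖z - w‖) := by
          rw [norm_mul, norm_mul, h1]
          have h4 := norm_add_le (z - w) (w * (((‖w‖ - ‖z‖ : ℝ) : ℂ) / ‖w‖))
          have h5 := norm_nonneg ((z - w) + w * (((‖w‖ - ‖z‖ : ℝ) : ℂ) / ‖w‖))
          have h6 := mul_le_mul h2 (h4.trans (add_le_add le_rfl h3)) h5 zero_le_one
          linarith
      _ = 3 * ‖z - w‖ := by ring
  · have e' : wd z - wd w = (z - w) * (w / ‖w‖) +
        (z / ‖w‖) * ((z - w) + z * (((‖w‖ - ‖z‖ : ℝ) : ℂ) / ‖z‖)) := by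
      unfold wd
      push_cast
      field_simp
      ring
    have h1' : ‖w / (‖w‖ : ℂ)‖ = 1 := by
      rw [norm_div, Complex.norm_real, Real.norm_eq_abs, abs_norm, div_self hw.ne']
    have h2 : ‖z / (‖w‖ : ℂ)‖ ≤ 1 := by
      rw [norm_div, Complex.norm_real, Real.norm_eq_abs, abs_norm, div_le_one hw]
      exact hle
    have h3 : ‖z * (((‖w‖ - ‖z‖ : ℝ) : ℂ) / ‖z‖)‖ ≤ ‖z - w‖ := by
      rw [norm_mul, norm_div, Complex.norm_real, Complex.norm_real, Real.norm_eq_abs,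
        Real.norm_eq_abs, abs_norm, mul_div_cancel₀ _ hz.ne', abs_sub_comm]
      exact abs_norm_sub_norm_le z w
    rw [e']
    calc _ ≤ ‖(z - w) * (w / ‖w‖)‖ + ‖(z / ‖w‖) * ((z - w) + z * (((‖w‖ - ‖z‖ : ℝ) : ℂ) / ‖z‖))‖ :=
          norm_add_le _ _
      _ ≤ ‖z - w‖ * 1 + 1 * (‖z - w‖ + ‖z - w‖) := by
          rw [norm_mul, norm_mul, h1']
          have h4 := norm_add_le (z - w) (z * (((‖w‖ - ‖z‖ : ℝ) : ℂ) / ‖z‖))
          have h5 := norm_nonneg ((z - w) + z * (((‖w‖ - ‖z‖ : ℝ) : ℂ) / ‖z‖))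
          have h6 := mul_le_mul h2 (h4.trans (add_le_add le_rfl h3)) h5 zero_le_one
          linarith
      _ = 3 * ‖z - w‖ := by ring

/-- the winding map, shifted, acting on the first two coordinates -/
noncomputable def W0 {k : ℕ} (q : V k) : V k := vec (wd (pl q) + 1 / 2) (re' q)

/-- the winding map acting on the second and third coordinate -/
noncomputable def W {k : ℕ} (p : V (k + 1)) : V (k + 1) := cn (p 0) (W0 (tl p))

theorem pl_W0 {k : ℕ} (q : V k) : pl (W0 q) = wd (pl q) + 1 / 2 := rfl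

theorem W0_lip {k : ℕ} (q q' : V k) : dist (W0 q) (W0 q') ≤ 3 * dist q q' := by
  have h1 := dist_sq (W0 q) (W0 q')
  have h2 := dist_sq q q'
  have h3 := wd_lip (pl q) (pl q')
  have e : pl (W0 q) - pl (W0 q') = wd (pl q) - wd (pl q') := by
    rw [pl_W0, pl_W0]
    ring
  rw [e] at h1
  have e2 : ∀ j, re' (W0 q) j - re' (W0 q') j = re' q j - re' q' j := fun j => rfl
  simp only [e2] at h1
  have h4 : ‖wd (pl q) - wd (pl q')‖ ^ 2 ≤ (3 * ‖pl q - pl q'‖) ^ 2 :=
    pow_le_pow_left₀ (norm_nonneg _) h3 2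
  have h5 : 0 ≤ ∑ j, (re' q j - re' q' j) ^ 2 := Finset.sum_nonneg fun _ _ => sq_nonneg _
  refine abs_le_of_sq_le_sq' ?_ (by positivity) |>.2
  nlinarith

theorem W_lip {k : ℕ} (p p' : V (k + 1)) : dist (W p) (W p') ≤ 3 * dist p p' := by
  have h1 := dist_cn (W p) (W p')
  have h2 := dist_cn p p'
  have h3 := W0_lip (tl p) (tl p')
  have e : tl (W p) = W0 (tl p) := rfl
  have e' : tl (W p') = W0 (tl p') := rfl
  have e0 : (W p) 0 - (W p') 0 = p 0 - p' 0 := rfl
  rw [e, e', e0] at h1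
  have h4 : dist (W0 (tl p)) (W0 (tl p')) ^ 2 ≤ (3 * dist (tl p) (tl p')) ^ 2 :=
    pow_le_pow_left₀ dist_nonneg h3 2
  refine abs_le_of_sq_le_sq' ?_ (by positivity) |>.2
  nlinarith [sq_nonneg (p 0 - p' 0)]

/-- the domain -/
def Ob (k : ℕ) : Set (V (k + 1)) := {p | 1 < p 0 ∧ ‖pl (tl p)‖ < 1 / 2}

theorem cont_tl {k : ℕ} : Continuous (tl (k := k)) := by
  refine (PiLp.continuous_toLp 2 _).comp (continuous_pi fun i => cont_coord i.succ)

theorem Ob_open (k : ℕ) : IsOpen (Ob k) :=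
  (isOpen_lt continuous_const (cont_coord 0)).inter
    (isOpen_lt (cont_pl.comp cont_tl).norm continuous_const)

theorem Ob_convex (k : ℕ) : Convex ℝ (Ob k) := by
  intro p hp q hq a b ha hb hab
  have e : (a • p + b • q) 0 = a * p 0 + b * q 0 := rfl
  have e2 : pl (tl (a • p + b • q)) = a • pl (tl p) + b • pl (tl q) := by
    apply Complex.ext
    · show a * p 1 + b * q 1 = (a • pl (tl p) + b • pl (tl q)).re
      simp [pl, tl_apply]
    · show a * p 2 + b * q 2 = (a • pl (tl p) + b • pl (tl q)).im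
      simp [pl, tl_apply]
  have hn : ‖a • pl (tl p) + b • pl (tl q)‖ ≤ a * ‖pl (tl p)‖ + b * ‖pl (tl q)‖ := by
    refine (norm_add_le _ _).trans ?_
    rw [norm_smul, norm_smul, Real.norm_eq_abs, Real.norm_eq_abs, abs_of_nonneg ha, abs_of_nonneg hb]
  obtain ⟨hp1, hp2⟩ := hp
  obtain ⟨hq1, hq2⟩ := hq
  refine ⟨?_, ?_⟩
  · rw [e]
    rcases ha.lt_or_eq with h | h
    · nlinarith [mul_pos h (sub_pos.2 hp1), mul_nonneg hb (sub_pos.2 hq1).le]
    · have hb1 : b = 1 := by linarith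
      rw [← h, hb1]
      linarith
  · show ‖pl (tl (a • p + b • q))‖ < 1 / 2
    rw [e2]
    refine lt_of_le_of_lt hn ?_
    rcases ha.lt_or_eq with h | h
    · nlinarith [mul_pos h (sub_pos.2 hp2), mul_nonneg hb (sub_pos.2 hq2).le]
    · have hb1 : b = 1 := by linarith
      rw [← h, hb1]
      linarith

theorem W_mem {k : ℕ} {p : V (k + 1)} (hp : p ∈ Ob k) : W p ∈ Om (k + 1) := by
  have h1 : |(wd (pl (tl p))).re| < 1 / 2 :=
    lt_of_le_of_lt (Complex.abs_re_le_norm _) (by rw [norm_wd]; exact hp.2)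
  obtain ⟨h2, h3⟩ := abs_lt.1 h1
  have e : (W p) 1 = (wd (pl (tl p))).re + 1 / 2 := by
    show (wd (pl (tl p)) + 1 / 2).re = _
    rw [Complex.add_re]
    norm_num
  refine ⟨hp.1, ?_, ?_⟩
  · rw [e]; linarith
  · rw [e]; linarith

/-- the composition -/
noncomputable def Fw {k : ℕ} (p : V (k + 1)) : V (k + 1) := f (W p)

theorem Fw_lip {k : ℕ} {p q : V (k + 1)} (hp : p ∈ Ob k) (hq : q ∈ Ob k) :
    dist (Fw p) (Fw q) ≤ 15 * dist p q := by
  have h1 := f_upper (W_mem hp) (W_mem hq)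
  have h2 := W_lip p q
  unfold Fw
  linarith

/-- extension of a linear map by the identity on the first coordinate -/
noncomputable def Tw {k : ℕ} (L : V k →ₗ[ℝ] V k) : V (k + 1) →ₗ[ℝ] V (k + 1) where
  toFun v := cn (v 0) (L (tl v))
  map_add' v w := by
    have e : tl (v + w) = tl v + tl w := rfl
    ext i
    refine Fin.cases ?_ (fun j => ?_) i
    · rfl
    · show (L (tl (v + w))) j = (L (tl v)) j + (L (tl w)) j
      rw [e, map_add]
      rfl
  map_smul' r v := by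
    have e : tl (r • v) = r • tl v := rfl
    ext i
    refine Fin.cases ?_ (fun j => ?_) i
    · rfl
    · show (L (tl (r • v))) j = r * (L (tl v)) j
      rw [e, map_smul]
      rfl

theorem det_Tw {k : ℕ} (L : V k →ₗ[ℝ] V k) : LinearMap.det (Tw L) = LinearMap.det L := by
  rw [← LinearMap.det_toMatrix (EuclideanSpace.basisFun (Fin (k + 1 + 2)) ℝ).toBasis,
    ← LinearMap.det_toMatrix (EuclideanSpace.basisFun (Fin (k + 2)) ℝ).toBasis L]
  set A := LinearMap.toMatrix (EuclideanSpace.basisFun (Fin (k + 1 + 2)) ℝ).toBasis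
    (EuclideanSpace.basisFun (Fin (k + 1 + 2)) ℝ).toBasis (Tw L) with hA
  set B := LinearMap.toMatrix (EuclideanSpace.basisFun (Fin (k + 2)) ℝ).toBasis
    (EuclideanSpace.basisFun (Fin (k + 2)) ℝ).toBasis L with hB
  have hA' : ∀ i j, A i j = (Tw L (EuclideanSpace.single j 1)) i := by
    intro i j
    rw [hA, LinearMap.toMatrix_apply]
    simp [EuclideanSpace.basisFun_apply]
  have hB' : ∀ i j, B i j = (L (EuclideanSpace.single j 1)) i := by
    intro i j
    rw [hB, LinearMap.toMatrix_apply]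
    simp [EuclideanSpace.basisFun_apply]
  have t0 : tl (EuclideanSpace.single (0 : Fin (k + 1 + 2)) (1 : ℝ)) = 0 := by
    ext i
    rw [tl_apply]
    simp
  have t1 : ∀ j : Fin (k + 2), tl (EuclideanSpace.single j.succ (1 : ℝ)) =
      EuclideanSpace.single j 1 := by
    intro j
    ext i
    rw [tl_apply]
    by_cases h : i = j
    · subst h
      simp
    · have h' : i.succ ≠ j.succ := fun h'' => h (Fin.succ_injective _ h'')
      simp [h, h']
  have h00 : A 0 0 = 1 := by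
    rw [hA']
    show (EuclideanSpace.single (0 : Fin (k + 1 + 2)) (1 : ℝ)) 0 = 1
    simp
  have hi0 : ∀ i : Fin (k + 2), A i.succ 0 = 0 := fun i => by
    rw [hA']
    show (L (tl (EuclideanSpace.single (0 : Fin (k + 1 + 2)) (1 : ℝ)))) i = 0
    rw [t0, map_zero]
    rfl
  have hij : A.submatrix (Fin.succAbove 0) Fin.succ = B := by
    ext i j
    rw [Matrix.submatrix_apply, Fin.zero_succAbove, hA', hB']
    show (L (tl (EuclideanSpace.single j.succ (1 : ℝ)))) i = _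
    rw [t1]
  rw [Matrix.det_succ_column_zero, Fin.sum_univ_succ, hij, h00,
    Finset.sum_eq_zero fun i _ => by rw [hi0]; ring]
  simp

end Pool.Agent.Q158.Nag
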