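import Mathlib
import Pool.Agent.Q158.BrB

/-! # Distortion of the composition, and the image of the branch set -/

set_option autoImplicit false

namespace Pool.Agent.Q158.Nag

open Filter Topology MeasureTheory

/-- the square of the distance to the axis -/
noncomputable def Nq {k : ℕ} (q : V k) : ℝ := q 0 ^ 2 + q 1 ^ 2

/-- its power `-3/2` -/
noncomputable def Sq {k : ℕ} (q : V k) : ℝ := Nq q ^ (-(3 / 2) : ℝ)

theorem Nq_pos {k : ℕ} {q : V k} (hq : pl q ≠ 0) : 0 < Nq q := by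
  have h1 : 0 < Complex.normSq (pl q) := Complex.normSq_pos.2 hq
  rw [Complex.normSq_apply] at h1
  have e1 : (pl q).re = q 0 := rfl
  have e2 : (pl q).im = q 1 := rfl
  rw [e1, e2] at h1
  unfold Nq
  nlinarith

theorem half_eq {k : ℕ} {q : V k} (hq : pl q ≠ 0) : Nq q ^ (-(1 / 2) : ℝ) = Nq q * Sq q := by
  have h := Nq_pos hq
  unfold Sq
  have h1 := Real.rpow_add h 1 (-(3 / 2))
  rw [Real.rpow_one] at h1
  rw [← h1]
  norm_num

theorem cube_eq {k : ℕ} {q : V k} (hq : pl q ≠ 0) : Nq q ^ 3 * Sq q ^ 2 = 1 := by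
  have h := Nq_pos hq
  unfold Sq
  rw [← Real.rpow_natCast (Nq q ^ (-(3 / 2) : ℝ)) 2, ← Real.rpow_mul h.le,
    ← Real.rpow_natCast (Nq q) 3, ← Real.rpow_add h]
  norm_num

theorem norm_pl {k : ℕ} (q : V k) : ‖pl q‖ = √(Nq q) := by
  have h : ‖pl q‖ ^ 2 = Nq q := by
    rw [← Complex.normSq_eq_norm_sq, Complex.normSq_apply]
    have e1 : (pl q).re = q 0 := rfl
    have e2 : (pl q).im = q 1 := rfl
    rw [e1, e2]
    unfold Nq
    ring
  rw [← h, Real.sqrt_sq (norm_nonneg _)]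

theorem W0_zero' {k : ℕ} (q : V k) (hq : pl q ≠ 0) :
    (W0 q) 0 = (q 0 ^ 2 - q 1 ^ 2) * Nq q ^ (-(1 / 2) : ℝ) + 1 / 2 := by
  show (wd (pl q) + 1 / 2).re = _
  have h := Nq_pos hq
  have h1 : Nq q ^ (-(1 / 2) : ℝ) = (√(Nq q))⁻¹ := by
    rw [Real.rpow_neg h.le, Real.sqrt_eq_rpow]
  rw [Complex.add_re, h1, ← norm_pl]
  unfold wd
  rw [Complex.div_ofReal_re, Complex.mul_re]
  have e1 : (pl q).re = q 0 := rfl
  have e2 : (pl q).im = q 1 := rfl
  rw [e1, e2]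
  norm_num
  rw [div_eq_mul_inv]
  ring

theorem W0_one' {k : ℕ} (q : V k) (hq : pl q ≠ 0) :
    (W0 q) 1 = 2 * (q 0 * q 1) * Nq q ^ (-(1 / 2) : ℝ) := by
  show (wd (pl q) + 1 / 2).im = _
  have h := Nq_pos hq
  have h1 : Nq q ^ (-(1 / 2) : ℝ) = (√(Nq q))⁻¹ := by
    rw [Real.rpow_neg h.le, Real.sqrt_eq_rpow]
  rw [Complex.add_im, h1, ← norm_pl]
  unfold wd
  rw [Complex.div_ofReal_im, Complex.mul_im]
  have e1 : (pl q).re = q 0 := rfl
  have e2 : (pl q).im = q 1 := rfl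
  rw [e1, e2]
  norm_num
  rw [div_eq_mul_inv]
  ring

/-- the derivative of `W0` -/
noncomputable def dW0 {k : ℕ} (q : V k) : V k →ₗ[ℝ] V k :=
  Tl ((q 0 ^ 3 + 3 * q 0 * q 1 ^ 2) * Sq q) (-(3 * q 0 ^ 2 * q 1 + q 1 ^ 3) * Sq q)
    (2 * q 1 ^ 3 * Sq q) (2 * q 0 ^ 3 * Sq q)

theorem det_dW0 {k : ℕ} {q : V k} (hq : pl q ≠ 0) : LinearMap.det (dW0 q) = 2 := by
  unfold dW0
  rw [det_Tl]
  have h := cube_eq hq
  unfold Nq at h
  calc _ = 2 * ((q 0 ^ 2 + q 1 ^ 2) ^ 3 * Sq q ^ 2) := by ring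
    _ = 2 := by rw [h]; norm_num

theorem hasFDerivAt_W0 {k : ℕ} {q : V k} (hq : pl q ≠ 0) :
    HasFDerivAt W0 (LinearMap.toContinuousLinearMap (dW0 q)) q := by
  have hN := Nq_pos hq
  rw [← hasFDerivWithinAt_univ, hasFDerivWithinAt_euclidean]
  have hpr : ∀ i : Fin (k + 2), HasFDerivAt (fun x : V k => x i) (EuclideanSpace.proj i : V k →L[ℝ] ℝ) q :=
    fun i => (EuclideanSpace.proj i : V k →L[ℝ] ℝ).hasFDerivAt
  have hne : ∀ᶠ x in 𝓝 q, pl x ≠ 0 := cont_pl.continuousAt.eventually_ne hq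
  have h0 := (hpr 0).pow 2
  have h1 := (hpr 1).pow 2
  have hNd := (h0.add h1).rpow_const (p := -(1 / 2)) (Or.inl (by
    show q 0 ^ 2 + q 1 ^ 2 ≠ 0
    unfold Nq at hN
    exact hN.ne'))
  have e32 : (q 0 ^ 2 + q 1 ^ 2) ^ (-(1 / 2) - 1 : ℝ) = Sq q := by
    unfold Sq Nq
    norm_num
  have e12 : (q 0 ^ 2 + q 1 ^ 2) ^ (-(1 / 2) : ℝ) = (q 0 ^ 2 + q 1 ^ 2) * Sq q := by
    have := half_eq hq
    unfold Nq at this
    exact this
  intro i
  rw [hasFDerivWithinAt_univ]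
  refine Fin.cases ?_ (fun j => Fin.cases ?_ (fun l => ?_) j) i
  · have h2 := ((h0.sub h1).mul hNd).add_const (1 / 2)
    refine (h2.congr_of_eventuallyEq ?_).congr_fderiv ?_
    · filter_upwards [hne] with x hx
      rw [W0_zero' x hx]
      rfl
    · ext v
      show (q 0 ^ 2 - q 1 ^ 2) * ((-(1 / 2) * (q 0 ^ 2 + q 1 ^ 2) ^ (-(1 / 2) - 1 : ℝ)) *
          (((2 : ℕ) • q 0 ^ (2 - 1)) * v 0 + ((2 : ℕ) • q 1 ^ (2 - 1)) * v 1)) +
        (q 0 ^ 2 + q 1 ^ 2) ^ (-(1 / 2) : ℝ) *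
          (((2 : ℕ) • q 0 ^ (2 - 1)) * v 0 - ((2 : ℕ) • q 1 ^ (2 - 1)) * v 1) =
        ((q 0 ^ 3 + 3 * q 0 * q 1 ^ 2) * Sq q) * v 0 + (-(3 * q 0 ^ 2 * q 1 + q 1 ^ 3) * Sq q) * v 1
      rw [e32, e12]
      simp only [nsmul_eq_mul]
      push_cast
      ring
  · have h2 := ((hpr 0).mul (hpr 1)).mul hNd
    have h3 := h2.const_mul 2
    refine (h3.congr_of_eventuallyEq ?_).congr_fderiv ?_
    · filter_upwards [hne] with x hx
      show (W0 x) 1 = _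
      rw [W0_one' x hx, mul_assoc]
      rfl
    · ext v
      show 2 * ((q 0 * q 1) * ((-(1 / 2) * (q 0 ^ 2 + q 1 ^ 2) ^ (-(1 / 2) - 1 : ℝ)) *
          (((2 : ℕ) • q 0 ^ (2 - 1)) * v 0 + ((2 : ℕ) • q 1 ^ (2 - 1)) * v 1)) +
        (q 0 ^ 2 + q 1 ^ 2) ^ (-(1 / 2) : ℝ) * (q 0 * v 1 + q 1 * v 0)) =
        (2 * q 1 ^ 3 * Sq q) * v 0 + (2 * q 0 ^ 3 * Sq q) * v 1
      rw [e32, e12]
      simp only [nsmul_eq_mul]
      push_cast
      ring
  · exact hpr l.succ.succ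

/-- `tl` as a continuous linear map -/
noncomputable def tlL {k : ℕ} : V (k + 1) →L[ℝ] V k :=
  LinearMap.toContinuousLinearMap
    { toFun := tl
      map_add' := fun _ _ => rfl
      map_smul' := fun _ _ => rfl }

theorem hasFDerivAt_W {k : ℕ} {p : V (k + 1)} (hp : pl (tl p) ≠ 0) :
    HasFDerivAt W (LinearMap.toContinuousLinearMap (Tw (dW0 (tl p)))) p := by
  rw [← hasFDerivWithinAt_univ, hasFDerivWithinAt_euclidean]
  intro i
  rw [hasFDerivWithinAt_univ]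
  refine Fin.cases ?_ (fun j => ?_) i
  · exact (EuclideanSpace.proj (0 : Fin (k + 1 + 2)) : V (k + 1) →L[ℝ] ℝ).hasFDerivAt
  · have h1 : HasFDerivAt (fun p : V (k + 1) => W0 (tl p))
        ((LinearMap.toContinuousLinearMap (dW0 (tl p))).comp tlL) p :=
      (hasFDerivAt_W0 hp).comp p (tlL (k := k)).hasFDerivAt
    exact ((EuclideanSpace.proj j : V k →L[ℝ] ℝ).hasFDerivAt).comp p h1

theorem hasFDerivAt_Fw {k : ℕ} {p : V (k + 1)} (hp : p ∈ Ob k) (h0 : pl (tl p) ≠ 0) :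
    HasFDerivAt Fw ((df (W p)).comp (LinearMap.toContinuousLinearMap (Tw (dW0 (tl p))))) p :=
  (hasFDerivAt_f (W_mem hp)).comp p (hasFDerivAt_W h0)

theorem Fw_qr {k : ℕ} {p : V (k + 1)} (hp : p ∈ Ob k) (h0 : pl (tl p) ≠ 0) :
    DifferentiableAt ℝ Fw p ∧ ‖fderiv ℝ Fw p‖ ^ (k + 3) ≤ 15 ^ (k + 3) * (fderiv ℝ Fw p).det := by
  have h1 := hasFDerivAt_Fw hp h0
  refine ⟨h1.differentiableAt, ?_⟩
  rw [h1.fderiv]
  have h2 : ‖(df (W p)).comp (LinearMap.toContinuousLinearMap (Tw (dW0 (tl p))))‖ ≤ 15 := by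
    refine h1.le_of_lip' (by norm_num) ?_
    filter_upwards [(Ob_open k).mem_nhds hp] with q hq
    have := Fw_lip hq hp
    rwa [dist_eq_norm, dist_eq_norm] at this
  have h3 : ((df (W p)).comp (LinearMap.toContinuousLinearMap (Tw (dW0 (tl p))))).det =
      (df (W p)).det * 2 := by
    have e : ((df (W p)).comp (LinearMap.toContinuousLinearMap (Tw (dW0 (tl p))))).det =
        LinearMap.det (((df (W p) : V (k + 1) →L[ℝ] V (k + 1)) : V (k + 1) →ₗ[ℝ] V (k + 1)) ∘ₗ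
          (Tw (dW0 (tl p)))) := rfl
    rw [e, LinearMap.det_comp, det_Tw, det_dW0 h0]
  have h4 := det_df (W_mem hp)
  have h5 := pow_le_pow_left₀ (norm_nonneg _) h2 (k + 3)
  rw [h3]
  have h6 : (0 : ℝ) < 15 ^ (k + 3) := by positivity
  nlinarith

theorem null_axis (k : ℕ) : volume {p : V (k + 1) | pl (tl p) = 0} = 0 := by
  set S : Submodule ℝ (V (k + 1)) := LinearMap.ker
    ((EuclideanSpace.proj (1 : Fin (k + 1 + 2)) : V (k + 1) →L[ℝ] ℝ) : V (k + 1) →ₗ[ℝ] ℝ) with hS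
  have h1 : {p : V (k + 1) | pl (tl p) = 0} ⊆ (S : Set (V (k + 1))) := by
    intro p hp
    show p 1 = 0
    have : (pl (tl p)).re = 0 := by
      rw [Set.mem_setOf_eq] at hp
      rw [hp]
      rfl
    exact this
  refine measure_mono_null h1 (Measure.addHaar_submodule _ _ ?_)
  intro htop
  have h2 : EuclideanSpace.single (1 : Fin (k + 1 + 2)) (1 : ℝ) ∈ S := by
    rw [htop]
    trivial
  have h3 : (EuclideanSpace.single (1 : Fin (k + 1 + 2)) (1 : ℝ)) 1 = 0 := h2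
  simp at h3

theorem ae_qr (k : ℕ) : ∀ᵐ p : V (k + 1) ∂volume, p ∈ Ob k →
    DifferentiableAt ℝ Fw p ∧ ‖fderiv ℝ Fw p‖ ^ (k + 3) ≤ 15 ^ (k + 3) * (fderiv ℝ Fw p).det := by
  have h := null_axis k
  have h1 : ∀ᵐ p : V (k + 1) ∂volume, ¬ pl (tl p) = 0 := by
    rw [ae_iff]
    simpa using h
  filter_upwards [h1] with p hp hO
  exact Fw_qr hO hp

/-- `Fw` is not injective near the points of the axis -/
theorem not_inj {k : ℕ} {p : V (k + 1)} (hp : pl (tl p) = 0) {U : Set (V (k + 1))} (hU : IsOpen U)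
    (hpU : p ∈ U) : ¬ Set.InjOn (Fw (k := k)) U := by
  intro hinj
  obtain ⟨ε, hε, hball⟩ := Metric.isOpen_iff.1 hU p hpU
  set q : ℝ → V (k + 1) := fun t => cn (p 0) (vec ((t : ℝ) : ℂ) (re' (tl p))) with hq
  have hp' : p = q 0 := by
    have h1 : vec (pl (tl p)) (re' (tl p)) = tl p := vec_eta _
    simp only [hq, Complex.ofReal_zero]
    rw [← hp, h1, cn_tl]
  have hd : ∀ t, dist (q t) p = |t| := by
    intro t
    have h1 : dist (q t) p ^ 2 = t ^ 2 := by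
      conv_lhs => rw [hp']
      rw [dist_cn, dist_sq]
      have e1 : (q t) 0 - (q 0) 0 = 0 := sub_self _
      have e2 : pl (tl (q t)) - pl (tl (q 0)) = ((t : ℝ) : ℂ) := by
        show ((t : ℝ) : ℂ) - ((0 : ℝ) : ℂ) = _
        rw [Complex.ofReal_zero, sub_zero]
      have e3 : ∀ j, re' (tl (q t)) j - re' (tl (q 0)) j = 0 := fun j => sub_self _
      rw [e1, e2]
      simp only [e3]
      simp
    rw [← abs_of_nonneg (dist_nonneg (x := q t) (y := p))]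
    exact (sq_eq_sq_iff_abs_eq_abs _ _).1 h1
  have h1 : q (ε / 2) ∈ U := hball (by
    rw [Metric.mem_ball, hd, abs_of_pos (by positivity)]
    linarith)
  have h2 : q (-(ε / 2)) ∈ U := hball (by
    rw [Metric.mem_ball, hd, abs_neg, abs_of_pos (by positivity)]
    linarith)
  have h3 : Fw (q (ε / 2)) = Fw (q (-(ε / 2))) := by
    unfold Fw
    congr 1
    have e : W0 (tl (q (ε / 2))) = W0 (tl (q (-(ε / 2)))) := by
      unfold W0
      have e1 : pl (tl (q (ε / 2))) = (((ε / 2) : ℝ) : ℂ) := rfl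
      have e2 : pl (tl (q (-(ε / 2)))) = -(((ε / 2) : ℝ) : ℂ) := by
        show ((-(ε / 2) : ℝ) : ℂ) = _
        rw [Complex.ofReal_neg]
      rw [e1, e2, wd_neg]
      rfl
    show cn (p 0) (W0 (tl (q (ε / 2)))) = cn (p 0) (W0 (tl (q (-(ε / 2)))))
    rw [e]
  have h4 := hinj h1 h2 h3
  have h5 : (((ε / 2 : ℝ)) : ℂ) = ((-(ε / 2) : ℝ) : ℂ) := congrArg (fun v => pl (tl v)) h4
  have h6 : ε / 2 = -(ε / 2) := by exact_mod_cast h5
  linarith

/-- the axis -/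
def Ax (k : ℕ) : Set (V (k + 1)) := {p | p ∈ Ob k ∧ pl (tl p) = 0}

theorem axis_dim (k : ℕ) : ¬ NagataLE (Fw '' Ax k) (k + 1) := by
  -- the grid
  set B : (ℕ → ℕ) → Fin (k + 2) → ℝ := fun x i => (if i = 0 then 20 else 0) + (x i : ℝ) with hB
  set P : (ℕ → ℕ) → V (k + 1) := fun x => WithLp.toLp 2
    (Fin.insertNth (α := fun _ : Fin (k + 3) => ℝ) (2 : Fin (k + 3)) (0 : ℝ) (B x)) with hP
  have hP2 : ∀ x, P x 2 = 0 := fun x =>
    Fin.insertNth_apply_same (α := fun _ : Fin (k + 3) => ℝ) (2 : Fin (k + 3)) (0 : ℝ) (B x)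
  have hPs : ∀ x (i : Fin (k + 2)), P x ((2 : Fin (k + 3)).succAbove i) =
      (if i = 0 then 20 else 0) + (x i : ℝ) := fun x i =>
    Fin.insertNth_apply_succAbove (α := fun _ : Fin (k + 3) => ℝ) (2 : Fin (k + 3)) (0 : ℝ) (B x) i
  refine not_nagata' (n := k + 2) rfl (show (0 : ℝ) ≤ 7 by norm_num)
    (show (0 : ℝ) ≤ ((k + 3 : ℕ) : ℝ) + 1 by positivity) P ?_ ?_ ?_
  · intro x x' i hi
    have h1 := abs_coord_le (P x) (P x') ((2 : Fin (k + 3)).succAbove ⟨i, hi⟩)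
    rw [hPs, hPs] at h1
    rw [show ((if (⟨i, hi⟩ : Fin (k + 2)) = 0 then (20 : ℝ) else 0) + (x ((⟨i, hi⟩ : Fin (k + 2)) : ℕ) : ℝ)) -
      ((if (⟨i, hi⟩ : Fin (k + 2)) = 0 then (20 : ℝ) else 0) + (x' ((⟨i, hi⟩ : Fin (k + 2)) : ℕ) : ℝ)) =
      (x i : ℝ) - x' i by ring] at h1
    exact h1
  · intro x x' h
    have h1 := dist_le_of_coord (P x) (P x') zero_le_one fun j => by
      by_cases hj : j = 2
      · rw [hj, hP2, hP2, sub_self, abs_zero]
        exact zero_le_one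
      · obtain ⟨i, rfl⟩ := Fin.exists_succAbove_eq hj
        rw [hPs, hPs]
        rw [show ((if i = 0 then (20 : ℝ) else 0) + (x (i : ℕ) : ℝ)) -
          ((if i = 0 then (20 : ℝ) else 0) + (x' (i : ℕ) : ℝ)) = (x i : ℝ) - x' i by ring]
        exact h i i.2
    rwa [mul_one] at h1
  · intro x
    have h0 : (20 : ℝ) ≤ P x 0 := by
      have h1 := hPs x 0
      have e : (2 : Fin (k + 3)).succAbove 0 = 0 := rfl
      rw [e, if_pos rfl] at h1
      rw [h1]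
      have : (0 : ℝ) ≤ x ((0 : Fin (k + 2)) : ℕ) := Nat.cast_nonneg _
      linarith
    obtain ⟨φ, hφ, h2⟩ := dense_point (P x) h0
    set p : V (k + 1) := cn (φ ^ 2) (vec 0 (re' (tl (P x)))) with hp
    have hpl : pl (tl p) = 0 := rfl
    refine ⟨Fw p, ⟨p, ⟨⟨?_, ?_⟩, hpl⟩, rfl⟩, ?_⟩
    · show 1 < φ ^ 2
      nlinarith
    · rw [hpl, norm_zero]
      norm_num
    · have e : W p = vec ⟨φ ^ 2, 1 / 2⟩ (re' (P x)) := by
        ext i
        refine Fin.cases ?_ (fun j => Fin.cases ?_ (fun l => Fin.cases ?_ (fun m => ?_) l) j) i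
        · rfl
        · show (wd (pl (tl p)) + 1 / 2).re = 1 / 2
          rw [hpl]
          simp [wd]
        · show (wd (pl (tl p)) + 1 / 2).im = P x 2
          rw [hpl, hP2]
          simp [wd]
        · rfl
      show dist (P x) (f (W p)) ≤ 7
      rw [e]
      exact h2

end Pool.Agent.Q158.Nag
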