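import Mathlib

set_option autoImplicit false

/-! # Windows in subspaces of small dimension: the abstract estimate -/

namespace Pool.Agent.Q158.Lin

open Finset

/-- the window of length `H` after `n` -/
noncomputable def win (H : ℕ) (u : ℕ → ℂ) (n : ℕ) : EuclideanSpace ℂ (Fin H) :=
  WithLp.toLp 2 fun j => u (n + 1 + j)

theorem win_apply (H : ℕ) (u : ℕ → ℂ) (n : ℕ) (j : Fin H) : win H u n j = u (n + 1 + j) := rfl

theorem norm_win_le (H : ℕ) (u : ℕ → ℂ) (hu : ∀ n, ‖u n‖ ≤ 1) (n : ℕ) :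
    ‖win H u n‖ ≤ Real.sqrt H := by
  rw [EuclideanSpace.norm_eq]
  apply Real.sqrt_le_sqrt
  calc ∑ j : Fin H, ‖win H u n j‖ ^ 2 ≤ ∑ _j : Fin H, (1 : ℝ) :=
        Finset.sum_le_sum fun j _ => pow_le_one₀ (norm_nonneg _) (hu _)
    _ = H := by simp

/-- shifted correlations -/
theorem corr_shift (u : ℕ → ℤ) (hu : ∀ n, |u n| ≤ 1) (N a h : ℕ) (δ : ℝ)
    (hδ : |∑ k ∈ range N, ((u k * u (k + h) : ℤ) : ℝ)| ≤ δ) :
    |∑ n ∈ range N, ((u (n + a) * u (n + a + h) : ℤ) : ℝ)| ≤ δ + 2 * a := by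
  set g : ℕ → ℝ := fun k => ((u k * u (k + h) : ℤ) : ℝ) with hg
  have hg1 : ∀ k, |g k| ≤ 1 := by
    intro k
    have h1 : |u k * u (k + h)| ≤ 1 := by
      rw [abs_mul]
      exact mul_le_one₀ (hu _) (abs_nonneg _) (hu _)
    simp only [hg]
    exact_mod_cast h1
  have e1 : ∑ n ∈ range N, g (n + a) = ∑ k ∈ range (N + a), g k - ∑ k ∈ range a, g k := by
    have h2 := Finset.sum_range_add_sum_Ico (f := g) (m := a) (n := N + a) (by omega)
    have h3 : ∑ k ∈ Ico a (N + a), g k = ∑ n ∈ range N, g (n + a) := by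
      rw [Finset.sum_Ico_eq_sum_range]
      have : N + a - a = N := by omega
      rw [this]
      exact Finset.sum_congr rfl fun n _ => by rw [add_comm]
    rw [← h3]
    linarith
  have e2 : ∑ k ∈ range (N + a), g k = ∑ k ∈ range N, g k + ∑ k ∈ Ico N (N + a), g k :=
    (Finset.sum_range_add_sum_Ico (f := g) (m := N) (n := N + a) (by omega)).symm
  have b1 : |∑ k ∈ range a, g k| ≤ a := by
    refine (Finset.abs_sum_le_sum_abs _ _).trans ?_
    calc ∑ k ∈ range a, |g k| ≤ ∑ _k ∈ range a, (1 : ℝ) := Finset.sum_le_sum fun k _ => hg1 k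
      _ = a := by simp
  have b2 : |∑ k ∈ Ico N (N + a), g k| ≤ a := by
    refine (Finset.abs_sum_le_sum_abs _ _).trans ?_
    calc ∑ k ∈ Ico N (N + a), |g k| ≤ ∑ _k ∈ Ico N (N + a), (1 : ℝ) :=
          Finset.sum_le_sum fun k _ => hg1 k
      _ = a := by simp
  show |∑ n ∈ range N, g (n + a)| ≤ δ + 2 * a
  rw [e1, e2]
  have h4 : |∑ k ∈ range N, g k| ≤ δ := hδ
  rw [abs_le] at *
  constructor <;> linarith [b1.1, b1.2, b2.1, b2.2, h4.1, h4.2]

/-- the correlations of the windows with one vector -/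
theorem sum_inner_sq (u : ℕ → ℤ) (hu : ∀ n, |u n| ≤ 1) (N H : ℕ) (δ : ℝ) (hδ0 : 0 ≤ δ)
    (hδ : ∀ h, 1 ≤ h → h < H → |∑ k ∈ range N, ((u k * u (k + h) : ℤ) : ℝ)| ≤ δ)
    (e : EuclideanSpace ℂ (Fin H)) (he : ‖e‖ = 1) :
    ∑ n ∈ range N, ‖inner ℂ e (win H (fun k => (u k : ℂ)) n)‖ ^ 2 ≤ N + H * (δ + 2 * H) := by
  have hinner : ∀ n, inner ℂ e (win H (fun k => (u k : ℂ)) n) =
      ∑ j : Fin H, (starRingEnd ℂ) (e j) * ((u (n + 1 + j) : ℤ) : ℂ) := by
    intro n
    rw [PiLp.inner_apply]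
    refine Finset.sum_congr rfl fun j _ => ?_
    rw [win_apply]
    simp [mul_comm]
  have hsq : ∀ n, ((‖inner ℂ e (win H (fun k => (u k : ℂ)) n)‖ ^ 2 : ℝ) : ℂ) =
      ∑ i : Fin H, ∑ j : Fin H, ((starRingEnd ℂ) (e i) * e j) *
        ((u (n + 1 + i) * u (n + 1 + j) : ℤ) : ℂ) := by
    intro n
    have h1 : ((‖inner ℂ e (win H (fun k => (u k : ℂ)) n)‖ ^ 2 : ℝ) : ℂ) =
        inner ℂ e (win H (fun k => (u k : ℂ)) n) *
          (starRingEnd ℂ) (inner ℂ e (win H (fun k => (u k : ℂ)) n)) := by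
      rw [Complex.mul_conj, Complex.normSq_eq_norm_sq]
    rw [h1, hinner, map_sum, Finset.sum_mul_sum]
    refine Finset.sum_congr rfl fun i _ => Finset.sum_congr rfl fun j _ => ?_
    rw [map_mul, Complex.conj_conj, map_intCast]
    push_cast
    ring
  have htot : ((∑ n ∈ range N, ‖inner ℂ e (win H (fun k => (u k : ℂ)) n)‖ ^ 2 : ℝ) : ℂ) =
      ∑ i : Fin H, ∑ j : Fin H, ((starRingEnd ℂ) (e i) * e j) *
        ((∑ n ∈ range N, ((u (n + 1 + i) * u (n + 1 + j) : ℤ) : ℝ) : ℝ) : ℂ) := by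
    rw [Complex.ofReal_sum, Finset.sum_congr rfl fun n _ => hsq n, Finset.sum_comm]
    refine Finset.sum_congr rfl fun i _ => ?_
    rw [Finset.sum_comm]
    refine Finset.sum_congr rfl fun j _ => ?_
    rw [Complex.ofReal_sum, Finset.mul_sum]
    refine Finset.sum_congr rfl fun n _ => ?_
    push_cast
    ring
  set S : Fin H → Fin H → ℝ := fun i j =>
    ∑ n ∈ range N, ((u (n + 1 + i) * u (n + 1 + j) : ℤ) : ℝ) with hS
  have hoff : ∀ i j : Fin H, i ≠ j → |S i j| ≤ δ + 2 * H := by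
    intro i j hij
    have key : ∀ i j : Fin H, (i : ℕ) < j → |S i j| ≤ δ + 2 * H := by
      intro i j h
      have h1 := corr_shift u hu N (1 + i) ((j : ℕ) - i) δ (hδ _ (by omega) (by omega))
      have h2 : S i j = ∑ n ∈ range N,
          ((u (n + (1 + i)) * u (n + (1 + i) + ((j : ℕ) - i)) : ℤ) : ℝ) := by
        simp only [hS]
        refine Finset.sum_congr rfl fun n _ => ?_
        have e1 : n + (1 + (i : ℕ)) = n + 1 + i := by omega
        have e2 : n + (1 + (i : ℕ)) + ((j : ℕ) - i) = n + 1 + j := by omega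
        rw [e2, e1]
      rw [h2]
      refine h1.trans ?_
      have h3 : ((1 + (i : ℕ) : ℕ) : ℝ) ≤ H := by
        have := i.2
        exact_mod_cast (by omega : 1 + (i : ℕ) ≤ H)
      push_cast at h3 ⊢
      linarith
    rcases lt_or_gt_of_ne (fun h => hij (Fin.ext h) : (i : ℕ) ≠ j) with h | h
    · exact key i j h
    · have h4 : S i j = S j i := by
        simp only [hS]
        exact Finset.sum_congr rfl fun n _ => by rw [mul_comm]
      rw [h4]
      exact key j i h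
  have hdiag : ∀ i : Fin H, |S i i| ≤ N := by
    intro i
    refine (Finset.abs_sum_le_sum_abs _ _).trans ?_
    calc ∑ n ∈ range N, |((u (n + 1 + i) * u (n + 1 + i) : ℤ) : ℝ)| ≤ ∑ _n ∈ range N, (1 : ℝ) := by
          refine Finset.sum_le_sum fun n _ => ?_
          have h1 : |u (n + 1 + i) * u (n + 1 + i)| ≤ 1 := by
            rw [abs_mul]
            exact mul_le_one₀ (hu _) (abs_nonneg _) (hu _)
          exact_mod_cast h1
      _ = N := by simp
  have hterm : ∀ i j : Fin H, ‖((starRingEnd ℂ) (e i) * e j) * ((S i j : ℝ) : ℂ)‖ ≤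
      (if i = j then ‖e i‖ ^ 2 * N else 0) + ‖e i‖ * ‖e j‖ * (if i = j then 0 else (δ + 2 * H)) := by
    intro i j
    rw [norm_mul, norm_mul, RCLike.norm_conj, Complex.norm_real, Real.norm_eq_abs]
    by_cases hij : i = j
    · subst hij
      rw [if_pos rfl, if_pos rfl, mul_zero, add_zero, ← sq]
      exact mul_le_mul_of_nonneg_left (hdiag i) (sq_nonneg _)
    · rw [if_neg hij, if_neg hij, zero_add]
      exact mul_le_mul_of_nonneg_left (hoff i j hij) (by positivity)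
  have hsum1 : ∑ i : Fin H, ‖e i‖ ^ 2 = 1 := by
    have h1 := EuclideanSpace.norm_sq_eq e
    rw [he] at h1
    rw [← h1]
    norm_num
  have hcs : (∑ i : Fin H, ‖e i‖) ^ 2 ≤ H := by
    have h1 := sq_sum_le_card_mul_sum_sq (s := (Finset.univ : Finset (Fin H)))
      (f := fun i => ‖e i‖)
    rw [hsum1, Finset.card_univ, Fintype.card_fin, mul_one] at h1
    exact h1
  have hreal : ∑ n ∈ range N, ‖inner ℂ e (win H (fun k => (u k : ℂ)) n)‖ ^ 2 =
      ‖((∑ n ∈ range N, ‖inner ℂ e (win H (fun k => (u k : ℂ)) n)‖ ^ 2 : ℝ) : ℂ)‖ := by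
    rw [Complex.norm_real, Real.norm_eq_abs, abs_of_nonneg]
    exact Finset.sum_nonneg fun n _ => sq_nonneg _
  rw [hreal, htot]
  refine (norm_sum_le _ _).trans ((Finset.sum_le_sum fun i _ => norm_sum_le _ _).trans ?_)
  refine (Finset.sum_le_sum fun i _ => Finset.sum_le_sum fun j _ => hterm i j).trans ?_
  have h5 : ∀ i : Fin H, ∑ j : Fin H, ((if i = j then ‖e i‖ ^ 2 * N else 0) +
      ‖e i‖ * ‖e j‖ * (if i = j then 0 else (δ + 2 * H))) ≤
      ‖e i‖ ^ 2 * N + ‖e i‖ * (∑ j : Fin H, ‖e j‖) * |δ + 2 * H| := by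
    intro i
    rw [Finset.sum_add_distrib, Finset.sum_ite_eq, if_pos (Finset.mem_univ _)]
    refine add_le_add le_rfl ?_
    rw [Finset.mul_sum, Finset.sum_mul]
    refine Finset.sum_le_sum fun j _ => ?_
    refine mul_le_mul_of_nonneg_left ?_ (by positivity)
    split_ifs
    · exact abs_nonneg _
    · exact le_abs_self _
  refine (Finset.sum_le_sum fun i _ => h5 i).trans ?_
  rw [Finset.sum_add_distrib, ← Finset.sum_mul, hsum1, one_mul, ← Finset.sum_mul, ← Finset.sum_mul,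
    ← sq]
  refine add_le_add le_rfl ?_
  rw [abs_of_nonneg (by positivity)]
  exact mul_le_mul_of_nonneg_right hcs (by positivity)

end Pool.Agent.Q158.Lin
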