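import Mathlib
import Pool.Agent.Q158.LinA

set_option autoImplicit false

/-! # Sequences of vectors dominated by Hilbert space vectors -/

namespace Pool.Agent.Q158.Lin

open Finset

/-- the mean square estimate for vectors of a Hilbert space -/
theorem sq_est {F : Type*} [NormedAddCommGroup F] [InnerProductSpace ℂ F] (u : ℕ → ℤ)
    (hu : ∀ n, |u n| ≤ 1) (N L : ℕ) (δ : ℝ) (hδ0 : 0 ≤ δ)
    (hδ : ∀ h, 1 ≤ h → h < L → |∑ k ∈ range N, ((u k * u (k + h) : ℤ) : ℝ)| ≤ δ)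
    (c : ℕ → F) :
    ∑ n ∈ range N, ‖∑ j ∈ range L, ((u (n + 1 + j) : ℤ) : ℂ) • c j‖ ^ 2 ≤
      (∑ j ∈ range L, ‖c j‖ ^ 2) * (N + L * (δ + 2 * L)) := by
  set S : ℕ → ℕ → ℝ := fun i j =>
    ∑ n ∈ range N, ((u (n + 1 + i) * u (n + 1 + j) : ℤ) : ℝ) with hS
  have hsq : ∀ n, ‖∑ j ∈ range L, ((u (n + 1 + j) : ℤ) : ℂ) • c j‖ ^ 2 =
      ∑ i ∈ range L, ∑ j ∈ range L, ((u (n + 1 + i) * u (n + 1 + j) : ℤ) : ℝ) *
        (inner ℂ (c i) (c j) : ℂ).re := by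
    intro n
    rw [← inner_self_eq_norm_sq (𝕜 := ℂ), sum_inner, map_sum]
    refine Finset.sum_congr rfl fun i _ => ?_
    rw [inner_sum, map_sum]
    refine Finset.sum_congr rfl fun j _ => ?_
    rw [inner_smul_left, inner_smul_right, map_intCast, ← mul_assoc]
    have : ((u (n + 1 + i) : ℤ) : ℂ) * ((u (n + 1 + j) : ℤ) : ℂ) =
        (((u (n + 1 + i) * u (n + 1 + j) : ℤ) : ℝ) : ℂ) := by push_cast; ring
    rw [this]
    show (((((u (n + 1 + i) * u (n + 1 + j) : ℤ) : ℝ) : ℂ)) * inner ℂ (c i) (c j)).re = _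
    rw [Complex.re_ofReal_mul]
  have htot : ∑ n ∈ range N, ‖∑ j ∈ range L, ((u (n + 1 + j) : ℤ) : ℂ) • c j‖ ^ 2 =
      ∑ i ∈ range L, ∑ j ∈ range L, S i j * (inner ℂ (c i) (c j) : ℂ).re := by
    rw [Finset.sum_congr rfl fun n _ => hsq n, Finset.sum_comm]
    refine Finset.sum_congr rfl fun i _ => ?_
    rw [Finset.sum_comm]
    refine Finset.sum_congr rfl fun j _ => ?_
    rw [Finset.sum_mul]
  have hoff : ∀ i j : ℕ, i < L → j < L → i ≠ j → |S i j| ≤ δ + 2 * L := by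
    have key : ∀ i j : ℕ, j < L → i < j → |S i j| ≤ δ + 2 * L := by
      intro i j hj h
      have h1 := corr_shift u hu N (1 + i) (j - i) δ (hδ _ (by omega) (by omega))
      have h2 : S i j = ∑ n ∈ range N,
          ((u (n + (1 + i)) * u (n + (1 + i) + (j - i)) : ℤ) : ℝ) := by
        simp only [hS]
        refine Finset.sum_congr rfl fun n _ => ?_
        have e1 : n + (1 + i) = n + 1 + i := by omega
        have e2 : n + (1 + i) + (j - i) = n + 1 + j := by omega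
        rw [e2, e1]
      rw [h2]
      refine h1.trans ?_
      have h3 : ((1 + i : ℕ) : ℝ) ≤ L := by
        exact_mod_cast (by omega : 1 + i ≤ L)
      push_cast at h3 ⊢
      linarith
    intro i j hi hj hij
    rcases lt_or_gt_of_ne hij with h | h
    · exact key i j hj h
    · have h4 : S i j = S j i := by
        simp only [hS]
        exact Finset.sum_congr rfl fun n _ => by rw [mul_comm]
      rw [h4]
      exact key j i hi h
  have hdiag : ∀ i : ℕ, |S i i| ≤ N := by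
    intro i
    refine (Finset.abs_sum_le_sum_abs _ _).trans ?_
    calc ∑ n ∈ range N, |((u (n + 1 + i) * u (n + 1 + i) : ℤ) : ℝ)| ≤ ∑ _n ∈ range N, (1 : ℝ) := by
          refine Finset.sum_le_sum fun n _ => ?_
          have h1 : |u (n + 1 + i) * u (n + 1 + i)| ≤ 1 := by
            rw [abs_mul]
            exact mul_le_one₀ (hu _) (abs_nonneg _) (hu _)
          exact_mod_cast h1
      _ = N := by simp
  have hre : ∀ i j, |(inner ℂ (c i) (c j) : ℂ).re| ≤ ‖c i‖ * ‖c j‖ := fun i j =>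
    (Complex.abs_re_le_norm _).trans (norm_inner_le_norm _ _)
  have hterm : ∀ i ∈ range L, ∀ j ∈ range L, S i j * (inner ℂ (c i) (c j) : ℂ).re ≤
      (if i = j then ‖c i‖ ^ 2 * N else 0) + ‖c i‖ * ‖c j‖ * (δ + 2 * L) := by
    intro i hi j hj
    have h0 : 0 ≤ ‖c i‖ * ‖c j‖ * (δ + 2 * L) := by positivity
    refine (le_abs_self _).trans ?_
    rw [abs_mul]
    by_cases hij : i = j
    · subst hij
      rw [if_pos rfl]
      have h1 : |S i i| * |(inner ℂ (c i) (c i) : ℂ).re| ≤ N * (‖c i‖ * ‖c i‖) :=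
        mul_le_mul (hdiag i) (hre i i) (abs_nonneg _) (Nat.cast_nonneg _)
      nlinarith
    · rw [if_neg hij, zero_add]
      have h1 : |S i j| * |(inner ℂ (c i) (c j) : ℂ).re| ≤ (δ + 2 * L) * (‖c i‖ * ‖c j‖) :=
        mul_le_mul (hoff i j (mem_range.1 hi) (mem_range.1 hj) hij) (hre i j) (abs_nonneg _)
          (by positivity)
      linarith
  have hcs : (∑ i ∈ range L, ‖c i‖) ^ 2 ≤ L * ∑ i ∈ range L, ‖c i‖ ^ 2 := by
    have h1 := sq_sum_le_card_mul_sum_sq (s := range L) (f := fun i => ‖c i‖)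
    rwa [card_range] at h1
  rw [htot]
  refine (Finset.sum_le_sum fun i hi => Finset.sum_le_sum fun j hj => hterm i hi j hj).trans ?_
  have h5 : ∀ i ∈ range L, ∑ j ∈ range L, ((if i = j then ‖c i‖ ^ 2 * N else 0) +
      ‖c i‖ * ‖c j‖ * (δ + 2 * L)) =
      ‖c i‖ ^ 2 * N + ‖c i‖ * ((∑ j ∈ range L, ‖c j‖) * (δ + 2 * L)) := by
    intro i hi
    rw [Finset.sum_add_distrib, Finset.sum_ite_eq, if_pos hi, Finset.sum_mul, Finset.mul_sum]
    congr 1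
    exact Finset.sum_congr rfl fun j _ => by ring
  rw [Finset.sum_congr rfl h5, Finset.sum_add_distrib, ← Finset.sum_mul, ← Finset.sum_mul]
  have h6 : (∑ i ∈ range L, ‖c i‖) * ((∑ j ∈ range L, ‖c j‖) * (δ + 2 * L)) ≤
      (L * ∑ i ∈ range L, ‖c i‖ ^ 2) * (δ + 2 * L) := by
    rw [← mul_assoc, ← sq]
    exact mul_le_mul_of_nonneg_right hcs (by positivity)
  calc _ ≤ (∑ i ∈ range L, ‖c i‖ ^ 2) * N + (L * ∑ i ∈ range L, ‖c i‖ ^ 2) * (δ + 2 * L) :=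
        add_le_add le_rfl h6
    _ = _ := by ring

/-- the correlations of `u` are small at the scales outside `E` -/
def Sm (u : ℕ → ℤ) (E : Set ℕ) : Prop := ∀ h : ℕ, 1 ≤ h → ∀ ε : ℝ, 0 < ε →
  ∃ N₀ : ℕ, ∀ N : ℕ, N₀ ≤ N → N ∉ E → |∑ k ∈ range N, ((u k * u (k + h) : ℤ) : ℝ)| ≤ ε * N

/-- all the correlations at once -/
theorem Sm.all {u : ℕ → ℤ} {E : Set ℕ} (h : Sm u E) (L : ℕ) (ε : ℝ) (hε : 0 < ε) :
    ∃ N₀ : ℕ, ∀ N : ℕ, N₀ ≤ N → N ∉ E → ∀ h : ℕ, 1 ≤ h → h < L →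
      |∑ k ∈ range N, ((u k * u (k + h) : ℤ) : ℝ)| ≤ ε * N := by
  classical
  have h1 : ∀ i : ℕ, ∃ N₀ : ℕ, ∀ N : ℕ, N₀ ≤ N → N ∉ E → 1 ≤ i →
      |∑ k ∈ range N, ((u k * u (k + i) : ℤ) : ℝ)| ≤ ε * N := by
    intro i
    by_cases hi : 1 ≤ i
    · obtain ⟨N₀, h2⟩ := h i hi ε hε
      exact ⟨N₀, fun N hN hE _ => h2 N hN hE⟩
    · exact ⟨0, fun N hN hE h3 => absurd h3 hi⟩
  choose N₀ h2 using h1
  refine ⟨∑ i ∈ range L, N₀ i, fun N hN hE i hi hiL => h2 i N (le_trans ?_ hN) hE hi⟩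
  exact Finset.single_le_sum (f := N₀) (fun _ _ => Nat.zero_le _) (mem_range.2 hiL)

/-- `exp (2 π i t)` -/
noncomputable def e (t : ℝ) : ℂ := Complex.exp (2 * Real.pi * t * Complex.I)

theorem norm_e (t : ℝ) : ‖e t‖ = 1 := by
  unfold e
  have : (2 * Real.pi * t * Complex.I : ℂ) = ((2 * Real.pi * t : ℝ) : ℂ) * Complex.I := by
    push_cast; ring
  rw [this, Complex.norm_exp_ofReal_mul_I]

theorem e_add (s t : ℝ) : e (s + t) = e s * e t := by
  unfold e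
  rw [← Complex.exp_add]
  congr 1
  push_cast
  ring

variable {X : Type*} [NormedAddCommGroup X] [NormedSpace ℂ X]

/-- The vectors `A 0, A 1, …` are dominated: their combinations of the first `L` ones with
coefficients bounded by one are bounded, up to `η L`, by those of `L` vectors of a Hilbert space of
small mean square. -/
def Slow (A : ℕ → X) : Prop := ∀ η : ℝ, 0 < η → ∃ L : ℕ, 1 ≤ L ∧
  ∃ (F : Type) (_ : NormedAddCommGroup F) (_ : InnerProductSpace ℂ F) (c : ℕ → F),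
    ∑ h ∈ range L, ‖c h‖ ^ 2 ≤ (η * L) ^ 2 ∧
    ∀ v : ℕ → ℂ, (∀ h, ‖v h‖ ≤ 1) →
      ‖∑ h ∈ range L, v h • A h‖ ≤ ‖∑ h ∈ range L, v h • c h‖ + η * L

/-- later pieces are smaller -/
def Contr (A : ℕ → X) : Prop := ∀ (k L : ℕ) (v : ℕ → ℂ),
  ‖∑ h ∈ range L, v h • A (k + h)‖ ≤ ‖∑ h ∈ range L, v h • A h‖

theorem Contr.le {A : ℕ → X} (hA : Contr A) (k : ℕ) : ‖A k‖ ≤ ‖A 0‖ := by
  have h := hA k 1 (fun _ => 1)
  simpa using h

/-- the sums over the windows of the fixed length `L` -/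
noncomputable def Q (u : ℕ → ℤ) (A : ℕ → X) (L : ℕ) (α : ℝ) (n : ℕ) : ℝ :=
  ‖∑ j ∈ range L, (((u (n + 1 + j) : ℤ) : ℂ) * e (α * j)) • A j‖

theorem Q_nonneg (u : ℕ → ℤ) (A : ℕ → X) (L : ℕ) (α : ℝ) (n : ℕ) : 0 ≤ Q u A L α n := norm_nonneg _

theorem coef_le (u : ℕ → ℤ) (hu : ∀ n, |u n| ≤ 1) (m : ℕ) (t : ℝ) :
    ‖((u m : ℤ) : ℂ) * e t‖ ≤ 1 := by
  rw [norm_mul, norm_e, mul_one, Complex.norm_intCast]
  exact_mod_cast hu m

theorem Q_le (u : ℕ → ℤ) (hu : ∀ n, |u n| ≤ 1) (A : ℕ → X) (hA : Contr A) (L : ℕ) (α : ℝ) (n : ℕ) :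
    Q u A L α n ≤ L * ‖A 0‖ := by
  unfold Q
  refine (norm_sum_le _ _).trans ?_
  calc _ ≤ ∑ _j ∈ range L, ‖A 0‖ := by
        refine Finset.sum_le_sum fun j _ => ?_
        rw [norm_smul]
        calc _ ≤ 1 * ‖A 0‖ := mul_le_mul (coef_le u hu _ _) (hA.le j) (norm_nonneg _) zero_le_one
          _ = _ := one_mul _
    _ = _ := by simp

/-- **the key estimate** -/
theorem key {u : ℕ → ℤ} (hu : ∀ n, |u n| ≤ 1) {E : Set ℕ} (hE : Sm u E) {A : ℕ → X} (hs : Slow A)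
    (η : ℝ) (hη : 0 < η) : ∃ L : ℕ, 1 ≤ L ∧ ∃ N₀ : ℕ, ∀ N : ℕ, N₀ ≤ N → N ∉ E → ∀ α : ℝ,
      ∑ n ∈ range N, Q u A L α n ≤ η * (L * N) := by
  obtain ⟨L, hL, F, iF, iF', c, hc1, hc2⟩ := hs (η / 3) (by positivity)
  have hL0 : (0 : ℝ) < L := by exact_mod_cast hL
  obtain ⟨N₁, hN₁⟩ := hE.all L (1 / (2 * L)) (by positivity)
  refine ⟨L, hL, max N₁ (4 * L ^ 2), fun N hN hNE α => ?_⟩
  have h1 := hN₁ N (le_trans (le_max_left _ _) hN) hNE
  have h2 : 4 * L ^ 2 ≤ N := le_trans (le_max_right _ _) hN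
  have hN0 : (0 : ℝ) ≤ N := Nat.cast_nonneg N
  set d : ℕ → F := fun j => e (α * j) • c j with hd
  have hdn : ∀ j, ‖d j‖ = ‖c j‖ := by
    intro j
    rw [hd]
    simp only [norm_smul, norm_e, one_mul]
  have h3 := sq_est u hu N L (1 / (2 * L) * N) (by positivity) h1 d
  have h4 : (N : ℝ) + L * (1 / (2 * L) * N + 2 * L) ≤ 2 * N := by
    have h5 : (L : ℝ) * (1 / (2 * L) * N) = N / 2 := by
      field_simp
    have h6 : (4 : ℝ) * L ^ 2 ≤ N := by exact_mod_cast h2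
    nlinarith
  set P : ℕ → ℝ := fun n => ‖∑ j ∈ range L, ((u (n + 1 + j) : ℤ) : ℂ) • d j‖ with hP
  have h5 : ∑ n ∈ range N, P n ^ 2 ≤ (η / 3 * L) ^ 2 * (2 * N) := by
    refine h3.trans ?_
    have h6 : ∑ j ∈ range L, ‖d j‖ ^ 2 ≤ (η / 3 * L) ^ 2 := by
      rw [Finset.sum_congr rfl fun j _ => by rw [hdn j]]
      exact hc1
    exact mul_le_mul h6 h4 (by positivity) (by positivity)
  have h6 : ∑ n ∈ range N, P n ≤ 2 * (η / 3 * L) * N := by
    have h7 := sq_sum_le_card_mul_sum_sq (s := range N) (f := P)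
    rw [Finset.card_range] at h7
    have h8 : (∑ n ∈ range N, P n) ^ 2 ≤ (2 * (η / 3 * L) * N) ^ 2 := by
      calc _ ≤ (N : ℝ) * ∑ n ∈ range N, P n ^ 2 := h7
        _ ≤ N * ((η / 3 * L) ^ 2 * (2 * N)) := mul_le_mul_of_nonneg_left h5 hN0
        _ ≤ _ := by
            have : 0 ≤ (η / 3 * L) ^ 2 * ((N : ℝ)) ^ 2 := by positivity
            nlinarith
    exact le_of_sq_le_sq h8 (by positivity)
  have h7 : ∀ n ∈ range N, Q u A L α n ≤ P n + η / 3 * L := by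
    intro n _
    have h8 := hc2 (fun j => ((u (n + 1 + j) : ℤ) : ℂ) * e (α * j)) (fun j => coef_le u hu _ _)
    refine h8.trans (add_le_add (le_of_eq ?_) le_rfl)
    rw [hP]
    congr 1
    refine Finset.sum_congr rfl fun j _ => ?_
    rw [hd, mul_smul]
  refine (Finset.sum_le_sum h7).trans ?_
  rw [Finset.sum_add_distrib, Finset.sum_const, Finset.card_range, nsmul_eq_mul]
  calc _ ≤ 2 * (η / 3 * L) * N + N * (η / 3 * L) := add_le_add h6 le_rfl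
    _ = _ := by ring

end Pool.Agent.Q158.Lin
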