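import Mathlib
import Pool.Agent.Q158.LinC

set_option autoImplicit false

/-! # Long and short averages at the scales outside one set -/

namespace Pool.Agent.Q158.Lin

open Finset

variable {X : Type*} [NormedAddCommGroup X] [NormedSpace ℂ X]

omit [NormedSpace ℂ X] in
theorem shift_sum (f : ℕ → X) (B : ℝ) (hB : ∀ n, ‖f n‖ ≤ B) (N j : ℕ) :
    ‖∑ n ∈ range N, f (n + j) - ∑ n ∈ range N, f n‖ ≤ 2 * j * B := by
  have e1 : ∑ n ∈ range N, f (n + j) = ∑ k ∈ range (N + j), f k - ∑ k ∈ range j, f k := by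
    have h2 := Finset.sum_range_add_sum_Ico (f := f) (m := j) (n := N + j) (by omega)
    have h3 : ∑ k ∈ Ico j (N + j), f k = ∑ n ∈ range N, f (n + j) := by
      rw [Finset.sum_Ico_eq_sum_range]
      have : N + j - j = N := by omega
      rw [this]
      exact Finset.sum_congr rfl fun n _ => by rw [add_comm]
    rw [← h3, ← h2]
    abel
  have e2 : ∑ k ∈ range (N + j), f k = ∑ k ∈ range N, f k + ∑ k ∈ Ico N (N + j), f k :=
    (Finset.sum_range_add_sum_Ico (f := f) (m := N) (n := N + j) (by omega)).symm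
  have b1 : ‖∑ k ∈ range j, f k‖ ≤ j * B := by
    refine (norm_sum_le _ _).trans ?_
    calc _ ≤ ∑ _k ∈ range j, B := Finset.sum_le_sum fun k _ => hB k
      _ = _ := by simp
  have b2 : ‖∑ k ∈ Ico N (N + j), f k‖ ≤ j * B := by
    refine (norm_sum_le _ _).trans ?_
    calc _ ≤ ∑ _k ∈ Ico N (N + j), B := Finset.sum_le_sum fun k _ => hB k
      _ = _ := by simp
  have e3 : ∑ n ∈ range N, f (n + j) - ∑ n ∈ range N, f n =
      ∑ k ∈ Ico N (N + j), f k - ∑ k ∈ range j, f k := by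
    rw [e1, e2]
    abel
  rw [e3]
  refine (norm_sub_le _ _).trans ?_
  linarith

theorem sum_Icc_range {M : Type*} [AddCommMonoid M] (f : ℕ → M) (N : ℕ) :
    ∑ n ∈ Icc 1 N, f n = ∑ n ∈ range N, f (n + 1) := by
  rw [Finset.range_eq_Ico, Finset.sum_Ico_add']
  rfl

/-- averaging over windows of length `L` -/
theorem avg_window (f : ℕ → X) (B : ℝ) (hB : ∀ n, ‖f n‖ ≤ B) (N L : ℕ) :
    L * ‖∑ n ∈ range N, f n‖ ≤ ∑ n ∈ range N, ‖∑ j ∈ range L, f (n + j)‖ + 2 * L ^ 2 * B := by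
  have hB0 : 0 ≤ B := (norm_nonneg _).trans (hB 0)
  have h1 : (L : ℂ) • ∑ n ∈ range N, f n = ∑ n ∈ range N, ∑ j ∈ range L, f (n + j) -
      ∑ j ∈ range L, (∑ n ∈ range N, f (n + j) - ∑ n ∈ range N, f n) := by
    rw [Finset.sum_sub_distrib, Finset.sum_const, Finset.card_range, Finset.sum_comm]
    rw [sub_sub_cancel, Nat.cast_smul_eq_nsmul]
  have h2 : (L : ℝ) * ‖∑ n ∈ range N, f n‖ = ‖(L : ℂ) • ∑ n ∈ range N, f n‖ := by
    rw [norm_smul, Complex.norm_natCast]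
  rw [h2, h1]
  refine (norm_sub_le _ _).trans (add_le_add (norm_sum_le _ _) ((norm_sum_le _ _).trans ?_))
  calc _ ≤ ∑ j ∈ range L, 2 * (L : ℝ) * B := by
        refine Finset.sum_le_sum fun j hj => (shift_sum f B hB N j).trans ?_
        have : (j : ℝ) ≤ L := by exact_mod_cast (mem_range.1 hj).le
        nlinarith
    _ = _ := by
        rw [Finset.sum_const, Finset.card_range, nsmul_eq_mul]
        ring

/-- one window -/
theorem window_le (u : ℕ → ℤ) (A : ℕ → X) (hA : Contr A) (L : ℕ) (α β : ℝ) (n k : ℕ) :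
    ‖∑ j ∈ range L, (((u (n + 1 + j) : ℤ) : ℂ) * e (α * j + β)) • A (k + j)‖ ≤ Q u A L α n := by
  refine (hA k L (fun j => ((u (n + 1 + j) : ℤ) : ℂ) * e (α * j + β))).trans (le_of_eq ?_)
  unfold Q
  have h1 : ∑ j ∈ range L, (((u (n + 1 + j) : ℤ) : ℂ) * e (α * j + β)) • A j =
      e β • ∑ j ∈ range L, (((u (n + 1 + j) : ℤ) : ℂ) * e (α * j)) • A j := by
    rw [Finset.smul_sum]
    refine Finset.sum_congr rfl fun j _ => ?_
    rw [e_add, smul_smul]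
    congr 1
    ring
  rw [h1, norm_smul, norm_e, one_mul]

/-- the conclusions for the weight `u`, the exceptional set `E` and the sequence `A`: (1) averages
over `[1, N]`; (2) averages over windows whose vectors may move with the window -/
def Dis (u : ℕ → ℤ) (E : Set ℕ) (A : ℕ → X) : Prop :=
  (∀ ε : ℝ, 0 < ε → ∃ N₀ : ℕ, ∀ N : ℕ, N₀ ≤ N → N ∉ E → ∀ α : ℝ,
    ‖∑ n ∈ Icc 1 N, (((u n : ℤ) : ℂ) * e (α * n)) • A n‖ ≤ ε * N) ∧
  (∀ ε : ℝ, 0 < ε → ∃ H₀ : ℕ, ∀ H : ℕ, H₀ ≤ H → ∃ N₀ : ℕ, ∀ N : ℕ, N₀ ≤ N → N ∉ E → ∀ α : ℝ,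
    ∑ n ∈ Icc 1 N, ‖∑ m ∈ Icc 1 H, (((u (n + m) : ℤ) : ℂ) * e (α * m)) • A m‖ ≤ ε * (H * N))

theorem bound_g (u : ℕ → ℤ) (hu : ∀ n, |u n| ≤ 1) {A : ℕ → X} (hA : Contr A) (m k : ℕ) (t : ℝ) :
    ‖(((u m : ℤ) : ℂ) * e t) • A k‖ ≤ ‖A 0‖ := by
  rw [norm_smul]
  calc _ ≤ 1 * ‖A 0‖ := mul_le_mul (coef_le u hu _ _) (hA.le k) (norm_nonneg _) zero_le_one
    _ = _ := one_mul _

theorem long_est {u : ℕ → ℤ} (hu : ∀ n, |u n| ≤ 1) {E : Set ℕ} (hE : Sm u E) {A : ℕ → X}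
    (hA : Contr A) (hs : Slow A) (ε : ℝ) (hε : 0 < ε) : ∃ N₀ : ℕ, ∀ N : ℕ, N₀ ≤ N → N ∉ E →
      ∀ α : ℝ, ‖∑ n ∈ Icc 1 N, (((u n : ℤ) : ℂ) * e (α * n)) • A n‖ ≤ ε * N := by
  obtain ⟨L, hL, N₁, h1⟩ := key hu hE hs (ε / 2) (by positivity)
  have hL0 : (0 : ℝ) < L := by exact_mod_cast hL
  obtain ⟨N₂, hN₂⟩ := exists_nat_ge (4 * L * ‖A 0‖ / ε)
  refine ⟨max N₁ N₂, fun N hN hNE α => ?_⟩
  have h2 := h1 N (le_trans (le_max_left _ _) hN) hNE α
  set g : ℕ → X := fun n => (((u (n + 1) : ℤ) : ℂ) * e (α * ((n + 1 : ℕ) : ℝ))) • A (n + 1) with hg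
  have h3 := avg_window g ‖A 0‖ (fun n => bound_g u hu hA _ _ _) N L
  have h4 : ∑ n ∈ range N, ‖∑ j ∈ range L, g (n + j)‖ ≤ ∑ n ∈ range N, Q u A L α n := by
    refine Finset.sum_le_sum fun n _ => ?_
    refine le_trans (le_of_eq ?_) (window_le u A hA L α (α * ((n + 1 : ℕ) : ℝ)) n (n + 1))
    congr 1
    refine Finset.sum_congr rfl fun j _ => ?_
    rw [hg]
    have e1 : n + j + 1 = n + 1 + j := by omega
    simp only [e1]
    congr 3
    push_cast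
    ring
  rw [sum_Icc_range]
  have h5 : 4 * L * ‖A 0‖ ≤ ε * N := by
    have h6 : 4 * L * ‖A 0‖ / ε ≤ N := hN₂.trans (by exact_mod_cast le_trans (le_max_right _ _) hN)
    rw [div_le_iff₀ hε] at h6
    linarith
  have h7 : (L : ℝ) * ‖∑ n ∈ range N, g n‖ ≤ L * (ε * N) := by
    calc _ ≤ ε / 2 * (L * N) + 2 * L ^ 2 * ‖A 0‖ := by linarith
      _ ≤ ε / 2 * (L * N) + L * (ε * N) / 2 := by nlinarith
      _ = _ := by ring
  exact le_of_mul_le_mul_left h7 hL0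

theorem short_est {u : ℕ → ℤ} (hu : ∀ n, |u n| ≤ 1) {E : Set ℕ} (hE : Sm u E) {A : ℕ → X}
    (hA : Contr A) (hs : Slow A) (ε : ℝ) (hε : 0 < ε) : ∃ H₀ : ℕ, ∀ H : ℕ, H₀ ≤ H →
      ∃ N₀ : ℕ, ∀ N : ℕ, N₀ ≤ N → N ∉ E → ∀ α : ℝ,
      ∑ n ∈ Icc 1 N, ‖∑ m ∈ Icc 1 H, (((u (n + m) : ℤ) : ℂ) * e (α * m)) • A m‖ ≤
        ε * (H * N) := by
  obtain ⟨L, hL, N₁, h1⟩ := key hu hE hs (ε / 3) (by positivity)
  have hL0 : (0 : ℝ) < L := by exact_mod_cast hL
  set B : ℝ := ‖A 0‖ with hB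
  have hB0 : 0 ≤ B := norm_nonneg _
  obtain ⟨H₀, hH₀⟩ := exists_nat_ge (6 * L * B / ε)
  refine ⟨H₀, fun H hH => ?_⟩
  obtain ⟨N₂, hN₂⟩ := exists_nat_ge (6 * H * B / ε)
  refine ⟨max N₁ N₂, fun N hN hNE α => ?_⟩
  have h2 := h1 N (le_trans (le_max_left _ _) hN) hNE α
  have c1 : 6 * L * B ≤ ε * H := by
    have h6 : 6 * L * B / ε ≤ H := hH₀.trans (by exact_mod_cast hH)
    rw [div_le_iff₀ hε] at h6
    linarith
  have c2 : 6 * H * B ≤ ε * N := by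
    have h6 : 6 * H * B / ε ≤ N := hN₂.trans (by exact_mod_cast le_trans (le_max_right _ _) hN)
    rw [div_le_iff₀ hε] at h6
    linarith
  have h3 : ∀ n, L * ‖∑ m ∈ Icc 1 H, (((u (n + m) : ℤ) : ℂ) * e (α * m)) • A m‖ ≤
      ∑ i ∈ range H, Q u A L α (n + i) + 2 * L ^ 2 * B := by
    intro n
    rw [sum_Icc_range]
    set g : ℕ → X := fun i => (((u (n + (i + 1)) : ℤ) : ℂ) * e (α * ((i + 1 : ℕ) : ℝ))) •
      A (i + 1) with hg
    refine (avg_window g B (fun i => bound_g u hu hA _ _ _) H L).trans (add_le_add ?_ le_rfl)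
    refine Finset.sum_le_sum fun i _ => ?_
    refine le_trans (le_of_eq ?_)
      (window_le u A hA L α (α * ((i + 1 : ℕ) : ℝ)) (n + i) (i + 1))
    congr 1
    refine Finset.sum_congr rfl fun j _ => ?_
    rw [hg]
    have e2 : i + j + 1 = i + 1 + j := by omega
    have e1 : n + (i + 1 + j) = n + i + 1 + j := by omega
    simp only [e2, e1]
    congr 3
    push_cast
    ring
  have h4 : ∀ i < H, ∑ n ∈ Icc 1 N, Q u A L α (n + i) ≤ ε / 3 * (L * N) + 2 * H * (L * B) := by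
    intro i hi
    rw [sum_Icc_range]
    have h5 := shift_sum (fun n => ((Q u A L α n : ℝ) : ℂ)) (L * B) (fun n => by
      rw [Complex.norm_real, Real.norm_eq_abs, abs_of_nonneg (Q_nonneg _ _ _ _ _)]
      exact Q_le u hu A hA L α n) N (i + 1)
    rw [← Complex.ofReal_sum, ← Complex.ofReal_sum, ← Complex.ofReal_sub, Complex.norm_real,
      Real.norm_eq_abs] at h5
    have h6 := (abs_le.1 h5).2
    have h7 : ((i + 1 : ℕ) : ℝ) ≤ H := by exact_mod_cast hi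
    have h8 : ∑ n ∈ range N, Q u A L α (n + 1 + i) = ∑ n ∈ range N, Q u A L α (n + (i + 1)) :=
      Finset.sum_congr rfl fun n _ => by
        congr 1
        omega
    rw [h8]
    have h9 : 2 * ((i + 1 : ℕ) : ℝ) * (L * B) ≤ 2 * H * (L * B) := by
      have : (0 : ℝ) ≤ L * B := by positivity
      nlinarith
    linarith
  have h5 : (L : ℝ) * ∑ n ∈ Icc 1 N, ‖∑ m ∈ Icc 1 H, (((u (n + m) : ℤ) : ℂ) * e (α * m)) • A m‖ ≤
      L * (ε * (H * N)) := by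
    rw [Finset.mul_sum]
    refine (Finset.sum_le_sum fun n _ => h3 n).trans ?_
    rw [Finset.sum_add_distrib, Finset.sum_comm, Finset.sum_const, Nat.card_Icc, nsmul_eq_mul,
      Nat.add_sub_cancel]
    refine (add_le_add (Finset.sum_le_sum fun i hi => h4 i (mem_range.1 hi)) le_rfl).trans ?_
    rw [Finset.sum_const, Finset.card_range, nsmul_eq_mul]
    have hH0 : (0 : ℝ) ≤ H := Nat.cast_nonneg _
    have hN0 : (0 : ℝ) ≤ N := Nat.cast_nonneg _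
    have d1 : (H : ℝ) * (2 * H * (L * B)) ≤ L * (ε * (H * N)) / 3 := by
      have : 0 ≤ (L : ℝ) * H := by positivity
      nlinarith
    have d2 : (N : ℝ) * (2 * L ^ 2 * B) ≤ L * (ε * (H * N)) / 3 := by
      have : 0 ≤ (L : ℝ) * N := by positivity
      nlinarith
    calc _ = L * (ε * (H * N)) / 3 + H * (2 * H * (L * B)) + N * (2 * L ^ 2 * B) := by ring
      _ ≤ L * (ε * (H * N)) / 3 + L * (ε * (H * N)) / 3 + L * (ε * (H * N)) / 3 := by linarith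
      _ = _ := by ring
  exact le_of_mul_le_mul_left h5 hL0

/-- **slow sequences** -/
theorem dis_of_slow {u : ℕ → ℤ} (hu : ∀ n, |u n| ≤ 1) {E : Set ℕ} (hE : Sm u E) {A : ℕ → X}
    (hA : Contr A) (hs : Slow A) : Dis u E A :=
  ⟨fun ε hε => long_est hu hE hA hs ε hε, fun ε hε => short_est hu hE hA hs ε hε⟩

theorem Dis.zero (u : ℕ → ℤ) (E : Set ℕ) : Dis u E (fun _ => (0 : X)) := by
  constructor
  · intro ε hε
    refine ⟨0, fun N _ _ α => ?_⟩
    simp only [smul_zero, Finset.sum_const_zero, norm_zero]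
    positivity
  · intro ε hε
    refine ⟨0, fun H _ => ⟨0, fun N _ _ α => ?_⟩⟩
    simp only [smul_zero, Finset.sum_const_zero, norm_zero]
    positivity

theorem Dis.add {u : ℕ → ℤ} {E : Set ℕ} {A B : ℕ → X} (hA : Dis u E A) (hB : Dis u E B) :
    Dis u E (fun n => A n + B n) := by
  constructor
  · intro ε hε
    obtain ⟨N₁, h1⟩ := hA.1 (ε / 2) (by positivity)
    obtain ⟨N₂, h2⟩ := hB.1 (ε / 2) (by positivity)
    refine ⟨max N₁ N₂, fun N hN hNE α => ?_⟩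
    simp only [smul_add, Finset.sum_add_distrib]
    refine (norm_add_le _ _).trans ?_
    have := h1 N (le_trans (le_max_left _ _) hN) hNE α
    have := h2 N (le_trans (le_max_right _ _) hN) hNE α
    linarith
  · intro ε hε
    obtain ⟨H₁, h1⟩ := hA.2 (ε / 2) (by positivity)
    obtain ⟨H₂, h2⟩ := hB.2 (ε / 2) (by positivity)
    refine ⟨max H₁ H₂, fun H hH => ?_⟩
    obtain ⟨N₁, h3⟩ := h1 H (le_trans (le_max_left _ _) hH)
    obtain ⟨N₂, h4⟩ := h2 H (le_trans (le_max_right _ _) hH)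
    refine ⟨max N₁ N₂, fun N hN hNE α => ?_⟩
    have h5 := h3 N (le_trans (le_max_left _ _) hN) hNE α
    have h6 := h4 N (le_trans (le_max_right _ _) hN) hNE α
    refine (Finset.sum_le_sum fun n _ => ?_).trans ((Finset.sum_add_distrib).le.trans
      ((add_le_add h5 h6).trans (le_of_eq (by ring))))
    simp only [smul_add, Finset.sum_add_distrib]
    exact norm_add_le _ _

theorem Dis.smul {u : ℕ → ℤ} {E : Set ℕ} {A : ℕ → X} (hA : Dis u E A) (c : ℂ) :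
    Dis u E (fun n => c • A n) := by
  have hc : (0 : ℝ) < ‖c‖ + 1 := by positivity
  constructor
  · intro ε hε
    obtain ⟨N₁, h1⟩ := hA.1 (ε / (‖c‖ + 1)) (by positivity)
    refine ⟨N₁, fun N hN hNE α => ?_⟩
    have h2 := h1 N hN hNE α
    have h3 : ∑ n ∈ Icc 1 N, (((u n : ℤ) : ℂ) * e (α * n)) • (c • A n) =
        c • ∑ n ∈ Icc 1 N, (((u n : ℤ) : ℂ) * e (α * n)) • A n := by
      rw [Finset.smul_sum]
      exact Finset.sum_congr rfl fun n _ => smul_comm _ _ _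
    rw [h3, norm_smul]
    have h4 : (0 : ℝ) ≤ ε * N := by positivity
    calc _ ≤ (‖c‖ + 1) * (ε / (‖c‖ + 1) * N) :=
          mul_le_mul (by linarith) h2 (norm_nonneg _) hc.le
      _ = _ := by field_simp
  · intro ε hε
    obtain ⟨H₁, h1⟩ := hA.2 (ε / (‖c‖ + 1)) (by positivity)
    refine ⟨H₁, fun H hH => ?_⟩
    obtain ⟨N₁, h2⟩ := h1 H hH
    refine ⟨N₁, fun N hN hNE α => ?_⟩
    have h3 := h2 N hN hNE α
    have h4 : ∀ n, ‖∑ m ∈ Icc 1 H, (((u (n + m) : ℤ) : ℂ) * e (α * m)) • (c • A m)‖ =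
        ‖c‖ * ‖∑ m ∈ Icc 1 H, (((u (n + m) : ℤ) : ℂ) * e (α * m)) • A m‖ := by
      intro n
      rw [← norm_smul, Finset.smul_sum]
      congr 1
      exact Finset.sum_congr rfl fun n _ => smul_comm _ _ _
    rw [Finset.sum_congr rfl fun n _ => h4 n, ← Finset.mul_sum]
    have h5 : (0 : ℝ) ≤ ∑ n ∈ Icc 1 N,
        ‖∑ m ∈ Icc 1 H, (((u (n + m) : ℤ) : ℂ) * e (α * m)) • A m‖ :=
      Finset.sum_nonneg fun _ _ => norm_nonneg _
    calc _ ≤ (‖c‖ + 1) * (ε / (‖c‖ + 1) * (H * N)) := mul_le_mul (by linarith) h3 h5 hc.le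
      _ = _ := by field_simp

theorem Dis.approx {u : ℕ → ℤ} (hu : ∀ n, |u n| ≤ 1) {E : Set ℕ} {A : ℕ → X}
    (h : ∀ ε : ℝ, 0 < ε → ∃ B : ℕ → X, (∀ n, ‖A n - B n‖ ≤ ε) ∧ Dis u E B) : Dis u E A := by
  have hterm : ∀ (B : ℕ → X) (δ : ℝ), (∀ n, ‖A n - B n‖ ≤ δ) → ∀ (s : Finset ℕ) (v : ℕ → ℂ),
      (∀ n, ‖v n‖ ≤ 1) → ‖∑ n ∈ s, v n • A n‖ ≤ ‖∑ n ∈ s, v n • B n‖ + δ * s.card := by
    intro B δ hB s v hv
    have h1 : ∑ n ∈ s, v n • A n = ∑ n ∈ s, v n • B n + ∑ n ∈ s, v n • (A n - B n) := by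
      rw [← Finset.sum_add_distrib]
      refine Finset.sum_congr rfl fun n _ => ?_
      rw [smul_sub]
      abel
    rw [h1]
    refine (norm_add_le _ _).trans (add_le_add le_rfl ((norm_sum_le _ _).trans ?_))
    calc _ ≤ ∑ _n ∈ s, δ := by
          refine Finset.sum_le_sum fun n _ => ?_
          rw [norm_smul]
          calc _ ≤ 1 * δ := mul_le_mul (hv n) (hB n) (norm_nonneg _) zero_le_one
            _ = δ := one_mul _
      _ = _ := by rw [Finset.sum_const, nsmul_eq_mul, mul_comm]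
  constructor
  · intro ε hε
    obtain ⟨B, hB, hD⟩ := h (ε / 2) (by positivity)
    obtain ⟨N₁, h1⟩ := hD.1 (ε / 2) (by positivity)
    refine ⟨N₁, fun N hN hNE α => ?_⟩
    have h2 := hterm B (ε / 2) hB (Icc 1 N) (fun n => ((u n : ℤ) : ℂ) * e (α * n))
      (fun n => coef_le u hu _ _)
    rw [Nat.card_Icc, Nat.add_sub_cancel] at h2
    have h3 := h1 N hN hNE α
    linarith
  · intro ε hε
    obtain ⟨B, hB, hD⟩ := h (ε / 2) (by positivity)
    obtain ⟨H₁, h1⟩ := hD.2 (ε / 2) (by positivity)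
    refine ⟨H₁, fun H hH => ?_⟩
    obtain ⟨N₁, h2⟩ := h1 H hH
    refine ⟨N₁, fun N hN hNE α => ?_⟩
    have h3 := h2 N hN hNE α
    have h4 : ∀ n ∈ Icc 1 N, ‖∑ m ∈ Icc 1 H, (((u (n + m) : ℤ) : ℂ) * e (α * m)) • A m‖ ≤
        ‖∑ m ∈ Icc 1 H, (((u (n + m) : ℤ) : ℂ) * e (α * m)) • B m‖ + ε / 2 * H := by
      intro n _
      have h5 := hterm B (ε / 2) hB (Icc 1 H) (fun m => ((u (n + m) : ℤ) : ℂ) * e (α * m))
        (fun n => coef_le u hu _ _)
      rwa [Nat.card_Icc, Nat.add_sub_cancel] at h5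
    refine (Finset.sum_le_sum h4).trans ?_
    rw [Finset.sum_add_distrib, Finset.sum_const, Nat.card_Icc, nsmul_eq_mul, Nat.add_sub_cancel]
    calc _ ≤ ε / 2 * (H * N) + N * (ε / 2 * H) := add_le_add h3 le_rfl
      _ = _ := by ring

end Pool.Agent.Q158.Lin
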