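import Mathlib
import Pool.Agent.Y326.Appr
import Pool.Agent.Q158.LinD
import Pool.Agent.Q158.BandB

set_option autoImplicit false

/-! # Orbits of linear contractions and of automorphisms of C*-algebras -/

namespace Pool.Agent.Q158.Cst

open Finset MeasureTheory Pool.Agent.Q158.Lin

universe w

variable {X : Type w} [NormedAddCommGroup X] [NormedSpace ℂ X]

theorem contr (T : X →L[ℂ] X) (hT : ‖T‖ ≤ 1) (x : X) : Contr (fun n => (T^[n]) x) := by
  intro k L v
  have h1 : ∑ h ∈ range L, v h • (T^[k + h]) x = (T^[k]) (∑ h ∈ range L, v h • (T^[h]) x) := by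
    rw [Pool.Agent.Y326.iter_sum]
    exact Finset.sum_congr rfl fun h _ => by rw [Function.iterate_add_apply]
  show ‖∑ h ∈ range L, v h • (T^[k + h]) x‖ ≤ _
  rw [h1]
  exact Pool.Agent.Y326.iter_le hT k _

/-- all vectors of the closed span -/
theorem dis_all {u : ℕ → ℤ} (hu : ∀ n, |u n| ≤ 1) {E : Set ℕ} (hE : Sm u E) (T : X →L[ℂ] X)
    (hT : ‖T‖ ≤ 1) (D : Set X) (hD : ∀ x ∈ D, Slow (fun n => (T^[n]) x))
    (x : X) (hx : x ∈ (Submodule.span ℂ D).topologicalClosure) : Dis u E (fun n => (T^[n]) x) := by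
  set P : Submodule ℂ X :=
    { carrier := {y | Dis u E (fun n => (T^[n]) y)}
      add_mem' := fun {a b} ha hb => by
        have h1 : (fun n => (T^[n]) (a + b)) = fun n => (T^[n]) a + (T^[n]) b :=
          funext fun n => Pool.Agent.Y326.iter_add n a b
        show Dis u E (fun n => (T^[n]) (a + b))
        rw [h1]
        exact Dis.add ha hb
      zero_mem' := by
        have h1 : (fun n => (T^[n]) (0 : X)) = fun _ => (0 : X) :=
          funext fun n => Pool.Agent.Y326.iter_zero n
        show Dis u E (fun n => (T^[n]) (0 : X))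
        rw [h1]
        exact Dis.zero u E
      smul_mem' := fun c y hy => by
        have h1 : (fun n => (T^[n]) (c • y)) = fun n => c • (T^[n]) y :=
          funext fun n => Pool.Agent.Y326.iter_smul n c y
        show Dis u E (fun n => (T^[n]) (c • y))
        rw [h1]
        exact Dis.smul hy c } with hP
  have h1 : Submodule.span ℂ D ≤ P :=
    Submodule.span_le.2 fun y hy => dis_of_slow hu hE (contr T hT y) (hD y hy)
  have h3 : x ∈ closure ((Submodule.span ℂ D : Submodule ℂ X) : Set X) := hx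
  refine Dis.approx hu fun ε hε => ?_
  obtain ⟨y, hy, hxy⟩ := Metric.mem_closure_iff.1 h3 ε hε
  refine ⟨fun n => (T^[n]) y, fun n => ?_, h1 hy⟩
  show ‖(T^[n]) x - (T^[n]) y‖ ≤ ε
  rw [← Pool.Agent.Y326.iter_sub]
  refine (Pool.Agent.Y326.iter_le hT n _).trans ?_
  rw [← dist_eq_norm]
  exact hxy.le

/-- spectrum in a closed null set -/
theorem slow_null [CompleteSpace X] (A : ℕ → X) (a : ℤ → X) (B : ℝ) (ha : ∀ n, ‖a n‖ ≤ B)
    (haA : ∀ n : ℕ, a n = A n) (K : Set UnitAddCircle) (hK : IsClosed K) (h0 : volume K = 0)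
    (hs : Pool.Agent.TH327.Thin.SpecIn K a) : Slow A := by
  intro η hη
  obtain ⟨L, hL, ι, iι, c, hc1, hc2⟩ := Pool.Agent.Q158.Band.slow_band (E := X) K hK h0 B
    ((norm_nonneg _).trans (ha 0)) η hη
  refine ⟨L, hL, EuclideanSpace ℂ ι, inferInstance, inferInstance, c, hc1, fun v hv => ?_⟩
  refine le_trans (le_of_eq ?_) (hc2 a ha hs v hv)
  congr 1
  exact Finset.sum_congr rfl fun n _ => by rw [haA]

end Pool.Agent.Q158.Cst
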