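import Mathlib

/-! # Convex functions on the line: local characterisation and sums of second differences -/

set_option autoImplicit false

namespace Pool.Agent.Q158.Dust

open Set

/-- a continuous function on an interval which has nonnegative small second differences lies below
its chord -/
theorem below_chord {g : ℝ → ℝ} {a b : ℝ} (hab : a < b) (hg : ContinuousOn g (Icc a b))
    (hl : ∀ t ∈ Ioo a b, ∃ ε > 0, ∀ s, 0 < s → s < ε → 2 * g t ≤ g (t - s) + g (t + s)) :
    ∀ t ∈ Icc a b, (b - a) * g t ≤ (b - t) * g a + (t - a) * g b := by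
  by_contra hcon
  push Not at hcon
  obtain ⟨t, ht, hlt⟩ := hcon
  set h : ℝ → ℝ := fun x => (b - a) * g x - ((b - x) * g a + (x - a) * g b) with hh
  have hba : 0 < b - a := by linarith
  have hc : ContinuousOn h (Icc a b) := by
    apply ContinuousOn.sub (continuousOn_const.mul hg)
    fun_prop
  obtain ⟨t₁, ht₁, hmax⟩ := isCompact_Icc.exists_isMaxOn ⟨t, ht⟩ hc
  have hmax' : ∀ x ∈ Icc a b, h x ≤ h t₁ := fun x hx => hmax hx
  have hpos : 0 < h t₁ := lt_of_lt_of_le (by simp only [hh]; linarith) (hmax' t ht)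
  set S : Set ℝ := Icc a b ∩ h ⁻¹' {h t₁} with hS
  have hScl : IsClosed S := hc.preimage_isClosed_of_isClosed isClosed_Icc isClosed_singleton
  have hSc : IsCompact S := isCompact_Icc.of_isClosed_subset hScl inter_subset_left
  have hSne : S.Nonempty := ⟨t₁, ht₁, rfl⟩
  set c := sSup S with hcdef
  have hcS : c ∈ S := hSc.sSup_mem hSne
  have hch : h c = h t₁ := hcS.2
  have ha0 : h a = 0 := by simp only [hh]; ring
  have hb0 : h b = 0 := by simp only [hh]; ring
  have hca : a < c := lt_of_le_of_ne hcS.1.1 (fun e => by rw [← e, ha0] at hch; linarith)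
  have hcb : c < b := lt_of_le_of_ne hcS.1.2 (fun e => by rw [e, hb0] at hch; linarith)
  obtain ⟨ε, hε, hloc⟩ := hl c ⟨hca, hcb⟩
  obtain ⟨s, hs0, hs⟩ : ∃ s, 0 < s ∧ s < min ε (min (c - a) (b - c)) :=
    exists_between (lt_min hε (lt_min (by linarith) (by linarith)))
  rw [lt_min_iff, lt_min_iff] at hs
  obtain ⟨hs1, hs2, hs3⟩ := hs
  have h1 := hloc s hs0 hs1
  have h2 : h (c - s) ≤ h t₁ := hmax' _ ⟨by linarith, by linarith⟩
  have h3 : h (c + s) ≤ h t₁ := hmax' _ ⟨by linarith, by linarith⟩
  have h4 : h (c + s) ≠ h t₁ := fun e => by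
    have h5 : c + s ∈ S := ⟨⟨by linarith, by linarith⟩, e⟩
    have h6 : c + s ≤ c := le_csSup hSc.bddAbove h5
    linarith
  have h7 : h (c + s) < h t₁ := lt_of_le_of_ne h3 h4
  have h8 : 2 * h c ≤ h (c - s) + h (c + s) := by
    simp only [hh]
    nlinarith
  linarith

/-- a continuous function which has nonnegative small second differences is convex -/
theorem convexOn_of_local {g : ℝ → ℝ} (hg : Continuous g)
    (hl : ∀ t, ∃ ε > 0, ∀ s, 0 < s → s < ε → 2 * g t ≤ g (t - s) + g (t + s)) :
    ConvexOn ℝ univ g := by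
  refine LinearOrder.convexOn_of_lt convex_univ fun x _ y _ hxy a b ha hb hab => ?_
  have hb' : b = 1 - a := by linarith
  subst hb'
  have h1 := below_chord hxy hg.continuousOn (fun t _ => hl t) (a * x + (1 - a) * y)
    ⟨by nlinarith, by nlinarith⟩
  simp only [smul_eq_mul]
  have h2 : 0 < y - x := by linarith
  have h3 : (y - x) * g (a * x + (1 - a) * y) ≤ (y - x) * (a * g x + (1 - a) * g y) := by
    calc _ ≤ _ := h1
      _ = _ := by ring
  exact le_of_mul_le_mul_left h3 h2

/-- the second difference -/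
def dd (g : ℝ → ℝ) (m r : ℝ) : ℝ := g (m + r) - 2 * g m + g (m - r)

section

variable {g : ℝ → ℝ} (hg : ConvexOn ℝ univ g)

include hg

theorem conv {x y a b : ℝ} (ha : 0 ≤ a) (hb : 0 ≤ b) (hab : a + b = 1) :
    g (a * x + b * y) ≤ a * g x + b * g y := by
  have := hg.2 (mem_univ x) (mem_univ y) ha hb hab
  simpa only [smul_eq_mul] using this

/-- four points -/
theorem four {a u v b : ℝ} (hab : a < b) (hau : a ≤ u) (hub : u ≤ b) (hv : u + v = a + b) :
    g u + g v ≤ g a + g b := by
  have h0 : 0 < b - a := by linarith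
  have h1 := conv hg (x := a) (y := b) (a := (b - u) / (b - a)) (b := (u - a) / (b - a))
    (div_nonneg (by linarith) h0.le) (div_nonneg (by linarith) h0.le) (by field_simp; ring)
  have h2 := conv hg (x := a) (y := b) (a := (u - a) / (b - a)) (b := (b - u) / (b - a))
    (div_nonneg (by linarith) h0.le) (div_nonneg (by linarith) h0.le) (by field_simp; ring)
  have e1 : (b - u) / (b - a) * a + (u - a) / (b - a) * b = u := by field_simp; ring
  have e2 : (u - a) / (b - a) * a + (b - u) / (b - a) * b = v := by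
    have : v = a + b - u := by linarith
    rw [this]; field_simp; ring
  rw [e1] at h1
  rw [e2] at h2
  have e3 : (b - u) / (b - a) * g a + (u - a) / (b - a) * g b +
      ((u - a) / (b - a) * g a + (b - u) / (b - a) * g b) = g a + g b := by
    field_simp; ring
  linarith

theorem dd_nonneg (m r : ℝ) : 0 ≤ dd g m r := by
  have h := conv hg (x := m + r) (y := m - r) (a := 1 / 2) (b := 1 / 2) (by norm_num) (by norm_num)
    (by norm_num)
  have e : (1 / 2 : ℝ) * (m + r) + 1 / 2 * (m - r) = m := by ring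
  rw [e] at h
  unfold dd
  linarith

theorem dd_scale {m r ρ : ℝ} (hρ : 0 ≤ ρ) (hr : 0 < r) (hρr : ρ ≤ r) :
    dd g m ρ ≤ ρ / r * dd g m r := by
  have h1 := conv hg (x := m) (y := m + r) (a := 1 - ρ / r) (b := ρ / r)
    (by rw [sub_nonneg, div_le_one hr]; exact hρr) (by positivity) (by ring)
  have h2 := conv hg (x := m) (y := m - r) (a := 1 - ρ / r) (b := ρ / r)
    (by rw [sub_nonneg, div_le_one hr]; exact hρr) (by positivity) (by ring)
  have e1 : (1 - ρ / r) * m + ρ / r * (m + r) = m + ρ := by field_simp; ring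
  have e2 : (1 - ρ / r) * m + ρ / r * (m - r) = m - ρ := by field_simp; ring
  rw [e1] at h1
  rw [e2] at h2
  unfold dd
  nlinarith

/-- slopes increase -/
theorem slopes {x y r : ℝ} (hr : 0 < r) (hxy : x ≤ y) : g (x + r) - g x ≤ g (y + r) - g y := by
  rcases hxy.eq_or_lt with rfl | h
  · exact le_refl _
  · have := four hg (a := x) (b := y + r) (u := y) (v := x + r) (by linarith) hxy (by linarith)
      (by ring)
    linarith

/-- the sum of the second differences at separated points -/
theorem dd_sum {r M c : ℝ} (hr : 0 < r) (hr1 : r ≤ 1) (hc : |c| ≤ 1)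
    (hM : ∀ x ∈ Icc (-3 : ℝ) 3, |g x| ≤ M) (E : Finset ℝ)
    (hE : ∀ e ∈ E, ∀ e' ∈ E, e < e' → e + r ≤ e') (h01 : ∀ e ∈ E, 0 ≤ e ∧ e ≤ 1) :
    ∑ e ∈ E, dd g (e + c) r ≤ 4 * M * r := by
  obtain ⟨hc1, hc2⟩ := abs_le.1 hc
  set s : ℝ → ℝ := fun x => g (x + r) - g x with hs
  have hmono : ∀ x y, x ≤ y → s x ≤ s y := fun x y h => slopes hg hr h
  have key : ∀ F : Finset ℝ, (∀ e ∈ F, ∀ e' ∈ F, e < e' → e + r ≤ e') → (∀ e ∈ F, 0 ≤ e) →
      ∀ B : ℝ, -r ≤ B → (∀ e ∈ F, e ≤ B) → ∑ e ∈ F, dd g (e + c) r ≤ s (B + c) - s (-r + c) := by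
    intro F
    induction F using Finset.induction_on_max with
    | empty =>
      intro _ _ B hB _
      simp only [Finset.sum_empty]
      linarith [hmono (-r + c) (B + c) (by linarith)]
    | insert a F hmax ih =>
      intro h1 h2 B hB hle
      have ha : a ∉ F := fun h => lt_irrefl _ (hmax a h)
      rw [Finset.sum_insert ha]
      have h3 := ih (fun e he e' he' => h1 e (Finset.mem_insert_of_mem he) e' (Finset.mem_insert_of_mem he'))
        (fun e he => h2 e (Finset.mem_insert_of_mem he)) (a - r)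
        (by linarith [h2 a (Finset.mem_insert_self _ _)])
        (fun e he => by
          have := h1 e (Finset.mem_insert_of_mem he) a (Finset.mem_insert_self _ _) (hmax e he)
          linarith)
      have h4 := hmono (a + c) (B + c) (by linarith [hle a (Finset.mem_insert_self _ _)])
      have h5 : dd g (a + c) r = s (a + c) - s (a - r + c) := by
        simp only [hs, dd]
        have e1 : a - r + c + r = a + c := by ring
        have e2 : a - r + c = a + c - r := by ring
        rw [e1, e2]; ring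
      linarith
  have h1 := key E hE (fun e he => (h01 e he).1) 1 (by linarith) (fun e he => (h01 e he).2)
  have h2 := hmono (1 + c) 2 (by linarith)
  have h3 := hmono (-2) (-r + c) (by linarith)
  have h4 : s 2 ≤ 2 * M * r := by
    have h5 := conv hg (x := 2) (y := 3) (a := 1 - r) (b := r) (by linarith) hr.le (by ring)
    have e : (1 - r) * 2 + r * 3 = 2 + r := by ring
    rw [e] at h5
    have h6 := abs_le.1 (hM 2 ⟨by norm_num, by norm_num⟩)
    have h7 := abs_le.1 (hM 3 ⟨by norm_num, by norm_num⟩)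
    simp only [hs]
    nlinarith [h6.1, h7.2]
  have h5 : -(2 * M * r) ≤ s (-2) := by
    have h6 := conv hg (x := -3) (y := -2 + r) (a := r / (1 + r)) (b := 1 / (1 + r)) (by positivity)
      (by positivity) (by field_simp; ring)
    have e : r / (1 + r) * -3 + 1 / (1 + r) * (-2 + r) = -2 := by field_simp; ring
    rw [e] at h6
    have h7 : (1 + r) * g (-2) ≤ r * g (-3) + g (-2 + r) := by
      have h8 : (1 + r) * g (-2) ≤ (1 + r) * (r / (1 + r) * g (-3) + 1 / (1 + r) * g (-2 + r)) :=
        mul_le_mul_of_nonneg_left h6 (by linarith)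
      have e2 : (1 + r) * (r / (1 + r) * g (-3) + 1 / (1 + r) * g (-2 + r)) = r * g (-3) + g (-2 + r) := by
        field_simp
      linarith
    have h8 := abs_le.1 (hM (-2) ⟨by norm_num, by norm_num⟩)
    have h9 := abs_le.1 (hM (-3) ⟨by norm_num, by norm_num⟩)
    simp only [hs]
    nlinarith [h8.1, h9.2]
  linarith

/-- the difference of the secant and an initial slope -/
theorem slope_term {a δ r : ℝ} (hδ : 0 < δ) (hr : 0 < r) (hδr : δ < 5 / 4 * r) :
    0 ≤ g (a + 5 / 4 * r) - g a - 5 / 4 * r / δ * (g (a + δ) - g a) ∧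
    g (a + 5 / 4 * r) - g a - 5 / 4 * r / δ * (g (a + δ) - g a) ≤
      10 / 3 * dd g (a + 5 / 8 * r) r := by
  constructor
  · have h1 := conv hg (x := a) (y := a + 5 / 4 * r) (a := 1 - δ / (5 / 4 * r)) (b := δ / (5 / 4 * r))
      (by rw [sub_nonneg, div_le_one (by positivity)]; exact hδr.le) (by positivity) (by ring)
    have e : (1 - δ / (5 / 4 * r)) * a + δ / (5 / 4 * r) * (a + 5 / 4 * r) = a + δ := by
      field_simp; ring
    rw [e] at h1
    have h2 : g (a + δ) - g a ≤ δ / (5 / 4 * r) * (g (a + 5 / 4 * r) - g a) := by linarith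
    have h3 := mul_le_mul_of_nonneg_left h2 (show 0 ≤ 5 / 4 * r / δ by positivity)
    have e2 : 5 / 4 * r / δ * (δ / (5 / 4 * r) * (g (a + 5 / 4 * r) - g a)) = g (a + 5 / 4 * r) - g a := by
      field_simp
    linarith
  · have h1 := hg.slope_mono_adjacent (mem_univ a) (mem_univ (a + 13 / 8 * r))
      (show a < a + 5 / 4 * r by linarith) (show a + 5 / 4 * r < a + 13 / 8 * r by linarith)
    have h2 := hg.slope_mono_adjacent (mem_univ (a - 3 / 8 * r)) (mem_univ (a + δ))
      (show a - 3 / 8 * r < a by linarith) (show a < a + δ by linarith)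
    have h3 := conv hg (x := a) (y := a + 5 / 4 * r) (a := 1 / 2) (b := 1 / 2) (by norm_num)
      (by norm_num) (by norm_num)
    have e3 : 1 / 2 * a + 1 / 2 * (a + 5 / 4 * r) = a + 5 / 8 * r := by ring
    rw [e3] at h3
    have e1 : a + 5 / 4 * r - a = 5 / 4 * r := by ring
    have e2 : a + 13 / 8 * r - (a + 5 / 4 * r) = 3 / 8 * r := by ring
    have e4 : a - (a - 3 / 8 * r) = 3 / 8 * r := by ring
    have e5 : a + δ - a = δ := by ring
    rw [e1, e2, div_le_div_iff₀ (by positivity) (by positivity)] at h1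
    rw [e4, e5, div_le_div_iff₀ (by positivity) hδ] at h2
    have h4 : g (a + 5 / 4 * r) - g a ≤ 10 / 3 * (g (a + 13 / 8 * r) - g (a + 5 / 4 * r)) := by
      nlinarith
    have h5 : 10 / 3 * (g a - g (a - 3 / 8 * r)) ≤ 5 / 4 * r / δ * (g (a + δ) - g a) := by
      have h6 : 5 / 4 * r / δ * (g (a + δ) - g a) = (5 / 4 * r * (g (a + δ) - g a)) / δ := by ring
      rw [h6, le_div_iff₀ hδ]
      nlinarith
    have e6 : a + 5 / 8 * r + r = a + 13 / 8 * r := by ring
    have e7 : a + 5 / 8 * r - r = a - 3 / 8 * r := by ring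
    unfold dd
    rw [e6, e7]
    nlinarith

end

end Pool.Agent.Q158.Dust
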