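import Mathlib
import Pool.Agent.Q158.DustA

/-! # Functions which are locally convex off the Cantor dust: estimates on the rings -/

set_option autoImplicit false

namespace Pool.Agent.Q158.Dust

open Set

/-- the left end points of the intervals of the `n`-th step of the construction of the Cantor set -/
noncomputable def Ends : ℕ → Finset ℝ
  | 0 => {0}
  | n + 1 => (Ends n).image (fun e => e / 3) ∪ (Ends n).image (fun e => (2 + e) / 3)

theorem ends_card (n : ℕ) : (Ends n).card ≤ 2 ^ n := by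
  induction n with
  | zero => simp [Ends]
  | succ n ih =>
    refine (Finset.card_union_le _ _).trans ?_
    have h1 := Finset.card_image_le (s := Ends n) (f := fun e : ℝ => e / 3)
    have h2 := Finset.card_image_le (s := Ends n) (f := fun e : ℝ => (2 + e) / 3)
    rw [pow_succ]
    omega

theorem mem_ends_succ {n : ℕ} {x : ℝ} (h : x ∈ Ends (n + 1)) :
    ∃ e ∈ Ends n, x = e / 3 ∨ x = (2 + e) / 3 := by
  simp only [Ends, Finset.mem_union, Finset.mem_image] at h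
  rcases h with ⟨e, he, rfl⟩ | ⟨e, he, rfl⟩
  · exact ⟨e, he, Or.inl rfl⟩
  · exact ⟨e, he, Or.inr rfl⟩

theorem ends_range (n : ℕ) : ∀ e ∈ Ends n, 0 ≤ e ∧ e + (1 / 3 : ℝ) ^ n ≤ 1 := by
  induction n with
  | zero =>
    intro e he
    simp only [Ends, Finset.mem_singleton] at he
    subst he
    norm_num
  | succ n ih =>
    intro x hx
    obtain ⟨e, he, h⟩ := mem_ends_succ hx
    obtain ⟨h1, h2⟩ := ih e he
    have hp : (1 / 3 : ℝ) ^ (n + 1) = (1 / 3) ^ n / 3 := by rw [pow_succ]; ring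
    rw [hp]
    rcases h with rfl | rfl
    · constructor <;> linarith
    · constructor <;> linarith

theorem ends_sep (n : ℕ) : ∀ e ∈ Ends n, ∀ e' ∈ Ends n, e < e' → e + 2 * (1 / 3 : ℝ) ^ n ≤ e' := by
  induction n with
  | zero =>
    intro e he e' he' h
    simp only [Ends, Finset.mem_singleton] at he he'
    subst he
    subst he'
    exact absurd h (lt_irrefl _)
  | succ n ih =>
    intro x hx x' hx' hlt
    obtain ⟨e, he, h⟩ := mem_ends_succ hx
    obtain ⟨e', he', h'⟩ := mem_ends_succ hx'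
    have hp : (1 / 3 : ℝ) ^ (n + 1) = (1 / 3) ^ n / 3 := by rw [pow_succ]; ring
    have hp1 : (1 / 3 : ℝ) ^ n ≤ 1 := pow_le_one₀ (by norm_num) (by norm_num)
    obtain ⟨h1, h2⟩ := ends_range n e he
    obtain ⟨h3, h4⟩ := ends_range n e' he'
    rw [hp]
    rcases h with rfl | rfl <;> rcases h' with rfl | rfl
    · have := ih e he e' he' (by linarith)
      linarith
    · linarith
    · linarith
    · have := ih e he e' he' (by linarith)
      linarith

theorem pre_cover (n : ℕ) : ∀ x ∈ preCantorSet n, ∃ e ∈ Ends n, e ≤ x ∧ x ≤ e + (1 / 3 : ℝ) ^ n := by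
  induction n with
  | zero =>
    intro x hx
    refine ⟨0, by simp [Ends], hx.1, ?_⟩
    simpa using hx.2
  | succ n ih =>
    intro x hx
    have hp : (1 / 3 : ℝ) ^ (n + 1) = (1 / 3) ^ n / 3 := by rw [pow_succ]; ring
    rw [hp]
    rcases hx with ⟨y, hy, rfl⟩ | ⟨y, hy, rfl⟩
    · obtain ⟨e, he, h1, h2⟩ := ih y hy
      refine ⟨e / 3, by simp only [Ends, Finset.mem_union, Finset.mem_image]; exact Or.inl ⟨e, he, rfl⟩, ?_, ?_⟩
      · simp only; linarith
      · simp only; linarith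
    · obtain ⟨e, he, h1, h2⟩ := ih y hy
      refine ⟨(2 + e) / 3, by simp only [Ends, Finset.mem_union, Finset.mem_image]; exact Or.inr ⟨e, he, rfl⟩, ?_, ?_⟩
      · simp only; linarith
      · simp only; linarith

theorem cover (n : ℕ) {x : ℝ} (hx : x ∈ cantorSet) :
    ∃ e ∈ Ends n, e ≤ x ∧ x ≤ e + (1 / 3 : ℝ) ^ n :=
  pre_cover n x (mem_iInter.1 hx n)

/-- the gaps on both sides of an interval -/
theorem gap (n : ℕ) {e x : ℝ} (he : e ∈ Ends n)
    (hx : e - (1 / 3 : ℝ) ^ n < x ∧ x < e ∨ e + (1 / 3 : ℝ) ^ n < x ∧ x < e + 2 * (1 / 3 : ℝ) ^ n) :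
    x ∉ cantorSet := by
  intro hxC
  obtain ⟨e', he', h1, h2⟩ := cover n hxC
  have hr : (0 : ℝ) < (1 / 3) ^ n := by positivity
  rcases lt_trichotomy e e' with h | h | h
  · have := ends_sep n e he e' he' h
    rcases hx with ⟨h3, h4⟩ | ⟨h3, h4⟩ <;> linarith
  · subst h
    rcases hx with ⟨h3, h4⟩ | ⟨h3, h4⟩ <;> linarith
  · have := ends_sep n e' he' e he h
    rcases hx with ⟨h3, h4⟩ | ⟨h3, h4⟩ <;> linarith

theorem dense_compl : Dense (cantorSetᶜ : Set ℝ) := by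
  rw [Metric.dense_iff]
  intro x ρ hρ
  obtain ⟨n, hn⟩ := exists_pow_lt_of_lt_one (show 0 < ρ / 2 by linarith) (show (1 / 3 : ℝ) < 1 by norm_num)
  by_cases hx : x ∈ cantorSet
  · obtain ⟨e, he, h1, h2⟩ := cover n hx
    have hr : (0 : ℝ) < (1 / 3) ^ n := by positivity
    refine ⟨e + 3 / 2 * (1 / 3) ^ n, ?_, gap n he (Or.inr ⟨by linarith, by linarith⟩)⟩
    rw [Metric.mem_ball, Real.dist_eq, abs_lt]
    constructor <;> linarith
  · exact ⟨x, Metric.mem_ball_self hρ, hx⟩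

/-- the rectangle function -/
def Rf (f : ℝ × ℝ → ℝ) (a b c d : ℝ) : ℝ := f (b, d) - f (a, d) - f (b, c) + f (a, c)

/-- continuous, and convex near each point off the Cantor dust -/
structure Hyp (f : ℝ × ℝ → ℝ) : Prop where
  cont : Continuous f
  loc : ∀ z : ℝ × ℝ, z ∉ (cantorSet ×ˢ cantorSet : Set (ℝ × ℝ)) →
    ∃ V : Set (ℝ × ℝ), IsOpen V ∧ z ∈ V ∧ ConvexOn ℝ V f

section

variable {f : ℝ × ℝ → ℝ} (hf : Hyp f)

include hf

theorem Hyp.small {z : ℝ × ℝ} (hz : z ∉ (cantorSet ×ˢ cantorSet : Set (ℝ × ℝ))) (v : ℝ × ℝ) :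
    ∃ ε > 0, ∀ s : ℝ, 0 < s → s < ε → 2 * f z ≤ f (z - s • v) + f (z + s • v) := by
  obtain ⟨V, hV, hzV, hc⟩ := hf.loc z hz
  have h1 : ∀ᶠ s : ℝ in nhds 0, z + s • v ∈ V := by
    have : Continuous fun s : ℝ => z + s • v := by fun_prop
    exact this.continuousAt.eventually_mem (hV.mem_nhds (by simpa using hzV))
  have h2 : ∀ᶠ s : ℝ in nhds 0, z - s • v ∈ V := by
    have : Continuous fun s : ℝ => z - s • v := by fun_prop
    exact this.continuousAt.eventually_mem (hV.mem_nhds (by simpa using hzV))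
  obtain ⟨ε, hε, h3⟩ := Metric.eventually_nhds_iff.1 (h1.and h2)
  refine ⟨ε, hε, fun s hs0 hs => ?_⟩
  obtain ⟨h4, h5⟩ := h3 (y := s) (by rw [Real.dist_eq, sub_zero, abs_of_pos hs0]; exact hs)
  have h6 := hc.2 h4 h5 (show (0 : ℝ) ≤ 1 / 2 by norm_num) (show (0 : ℝ) ≤ 1 / 2 by norm_num) (by norm_num)
  have e : (1 / 2 : ℝ) • (z + s • v) + (1 / 2 : ℝ) • (z - s • v) = z := by
    module
  rw [e, smul_eq_mul, smul_eq_mul] at h6
  linarith

/-- convexity along segments which avoid the dust -/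
theorem Hyp.seg {p q : ℝ × ℝ}
    (h : ∀ t ∈ Icc (0 : ℝ) 1, p + t • (q - p) ∉ (cantorSet ×ˢ cantorSet : Set (ℝ × ℝ)))
    {t : ℝ} (ht : t ∈ Icc (0 : ℝ) 1) : f (p + t • (q - p)) ≤ (1 - t) * f p + t * f q := by
  have h1 := below_chord (g := fun t : ℝ => f (p + t • (q - p))) zero_lt_one
    ((hf.cont.comp (by fun_prop)).continuousOn) (fun t ht => by
      obtain ⟨ε, hε, h2⟩ := hf.small (h t ⟨ht.1.le, ht.2.le⟩) (q - p)
      refine ⟨ε, hε, fun s hs0 hs => ?_⟩
      have e1 : p + (t - s) • (q - p) = p + t • (q - p) - s • (q - p) := by module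
      have e2 : p + (t + s) • (q - p) = p + t • (q - p) + s • (q - p) := by module
      rw [e1, e2]
      exact h2 s hs0 hs) t ht
  have e0 : p + (0 : ℝ) • (q - p) = p := by module
  have e1 : p + (1 : ℝ) • (q - p) = q := by module
  simp only [e0, e1] at h1
  linarith

theorem Hyp.slice_x (y : ℝ) : ConvexOn ℝ univ (fun x => f (x, y)) := by
  refine ⟨convex_univ, fun x _ x' _ a b ha hb hab => ?_⟩
  have hcl : IsClosed {y : ℝ | f (a • x + b • x', y) ≤ a • f (x, y) + b • f (x', y)} := by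
    apply isClosed_le
    · exact hf.cont.comp (by fun_prop)
    · exact ((hf.cont.comp (by fun_prop)).const_smul a).add ((hf.cont.comp (by fun_prop)).const_smul b)
  have hsub : (cantorSetᶜ : Set ℝ) ⊆ {y : ℝ | f (a • x + b • x', y) ≤ a • f (x, y) + b • f (x', y)} := by
    intro y hy
    have h1 : ConvexOn ℝ univ (fun x => f (x, y)) := by
      refine convexOn_of_local (hf.cont.comp (by fun_prop)) fun t => ?_
      obtain ⟨ε, hε, h2⟩ := hf.small (z := (t, y)) (fun h => hy h.2) (1, 0)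
      refine ⟨ε, hε, fun s hs0 hs => ?_⟩
      have := h2 s hs0 hs
      simpa using this
    exact h1.2 (mem_univ x) (mem_univ x') ha hb hab
  have h2 : y ∈ closure (cantorSetᶜ : Set ℝ) := by rw [dense_compl.closure_eq]; trivial
  exact (hcl.closure_subset_iff.2 hsub) h2

theorem Hyp.slice_y (x : ℝ) : ConvexOn ℝ univ (fun y => f (x, y)) := by
  refine ⟨convex_univ, fun y _ y' _ a b ha hb hab => ?_⟩
  have hcl : IsClosed {x : ℝ | f (x, a • y + b • y') ≤ a • f (x, y) + b • f (x, y')} := by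
    apply isClosed_le
    · exact hf.cont.comp (by fun_prop)
    · exact ((hf.cont.comp (by fun_prop)).const_smul a).add ((hf.cont.comp (by fun_prop)).const_smul b)
  have hsub : (cantorSetᶜ : Set ℝ) ⊆ {x : ℝ | f (x, a • y + b • y') ≤ a • f (x, y) + b • f (x, y')} := by
    intro x hx
    have h1 : ConvexOn ℝ univ (fun y => f (x, y)) := by
      refine convexOn_of_local (hf.cont.comp (by fun_prop)) fun t => ?_
      obtain ⟨ε, hε, h2⟩ := hf.small (z := (x, t)) (fun h => hx h.1) (0, 1)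
      refine ⟨ε, hε, fun s hs0 hs => ?_⟩
      have := h2 s hs0 hs
      simpa using this
    exact h1.2 (mem_univ y) (mem_univ y') ha hb hab
  have h2 : x ∈ closure (cantorSetᶜ : Set ℝ) := by rw [dense_compl.closure_eq]; trivial
  exact (hcl.closure_subset_iff.2 hsub) h2

/-- convexity in a vertical strip over a gap -/
theorem Hyp.strip {lo hi : ℝ} (hgap : ∀ x, lo ≤ x → x ≤ hi → x ∉ cantorSet) {x₁ x₂ y₁ y₂ t : ℝ}
    (h1 : lo ≤ x₁) (h2 : x₁ ≤ hi) (h3 : lo ≤ x₂) (h4 : x₂ ≤ hi) (ht : 0 ≤ t) (ht1 : t ≤ 1) :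
    f ((1 - t) * x₁ + t * x₂, (1 - t) * y₁ + t * y₂) ≤ (1 - t) * f (x₁, y₁) + t * f (x₂, y₂) := by
  have h := hf.seg (p := (x₁, y₁)) (q := (x₂, y₂)) (fun s hs hK => by
    refine hgap _ ?_ ?_ hK.1
    · simp only [Prod.fst_add, Prod.smul_fst, Prod.fst_sub, smul_eq_mul]
      nlinarith [hs.1, hs.2]
    · simp only [Prod.fst_add, Prod.smul_fst, Prod.fst_sub, smul_eq_mul]
      nlinarith [hs.1, hs.2]) (t := t) ⟨ht, ht1⟩
  have e : ((x₁, y₁) : ℝ × ℝ) + t • ((x₂, y₂) - (x₁, y₁)) =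
      ((1 - t) * x₁ + t * x₂, (1 - t) * y₁ + t * y₂) := by
    ext
    · simp only [Prod.fst_add, Prod.smul_fst, Prod.fst_sub, smul_eq_mul]; ring
    · simp only [Prod.snd_add, Prod.smul_snd, Prod.snd_sub, smul_eq_mul]; ring
  rw [e] at h
  exact h

/-- the rectangle function of a thin vertical strip -/
theorem Hyp.thin {a δ c r : ℝ} (hδ : 0 < δ)
    (hgap : ∀ x, a + δ / 2 - 4 / 3 * δ ≤ x → x ≤ a + δ / 2 + 4 / 3 * δ → x ∉ cantorSet) :
    |Rf f a (a + δ) c (c + 5 / 4 * r)| ≤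
      3 / 8 * dd (fun x => f (x, c + 5 / 8 * r)) (a + δ / 2) (4 / 3 * δ) +
      5 / 8 * dd (fun y => f (a + δ / 2, y)) (c + 5 / 8 * r) r := by
  set lo := a + δ / 2 - 4 / 3 * δ with hlo
  set hi := a + δ / 2 + 4 / 3 * δ with hhi
  -- the four corners
  have c1 := hf.strip hgap (x₁ := hi) (x₂ := a + δ / 2) (y₁ := c + 5 / 8 * r) (y₂ := c + 5 / 8 * r + r)
    (t := 5 / 8) (by linarith) le_rfl (by linarith) (by linarith) (by norm_num) (by norm_num)
  have c2 := hf.strip hgap (x₁ := lo) (x₂ := a + δ / 2) (y₁ := c + 5 / 8 * r) (y₂ := c + 5 / 8 * r - r)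
    (t := 5 / 8) le_rfl (by linarith) (by linarith) (by linarith) (by norm_num) (by norm_num)
  have c3 := hf.strip hgap (x₁ := hi) (x₂ := a + δ / 2) (y₁ := c + 5 / 8 * r) (y₂ := c + 5 / 8 * r - r)
    (t := 5 / 8) (by linarith) le_rfl (by linarith) (by linarith) (by norm_num) (by norm_num)
  have c4 := hf.strip hgap (x₁ := lo) (x₂ := a + δ / 2) (y₁ := c + 5 / 8 * r) (y₂ := c + 5 / 8 * r + r)
    (t := 5 / 8) le_rfl (by linarith) (by linarith) (by linarith) (by norm_num) (by norm_num)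
  have m1 := hf.strip hgap (x₁ := a) (x₂ := a + δ) (y₁ := c) (y₂ := c + 5 / 4 * r)
    (t := 1 / 2) (by linarith) (by linarith) (by linarith) (by linarith) (by norm_num) (by norm_num)
  have m2 := hf.strip hgap (x₁ := a + δ) (x₂ := a) (y₁ := c) (y₂ := c + 5 / 4 * r)
    (t := 1 / 2) (by linarith) (by linarith) (by linarith) (by linarith) (by norm_num) (by norm_num)
  have ex1 : (1 - 5 / 8 : ℝ) * hi + 5 / 8 * (a + δ / 2) = a + δ := by rw [hhi]; ring
  have ex2 : (1 - 5 / 8 : ℝ) * lo + 5 / 8 * (a + δ / 2) = a := by rw [hlo]; ring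
  have ey1 : (1 - 5 / 8 : ℝ) * (c + 5 / 8 * r) + 5 / 8 * (c + 5 / 8 * r + r) = c + 5 / 4 * r := by ring
  have ey2 : (1 - 5 / 8 : ℝ) * (c + 5 / 8 * r) + 5 / 8 * (c + 5 / 8 * r - r) = c := by ring
  have ex3 : (1 - 1 / 2 : ℝ) * a + 1 / 2 * (a + δ) = a + δ / 2 := by ring
  have ex4 : (1 - 1 / 2 : ℝ) * (a + δ) + 1 / 2 * a = a + δ / 2 := by ring
  have ey3 : (1 - 1 / 2 : ℝ) * c + 1 / 2 * (c + 5 / 4 * r) = c + 5 / 8 * r := by ring
  rw [ex1, ey1] at c1
  rw [ex2, ey2] at c2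
  rw [ex1, ey2] at c3
  rw [ex2, ey1] at c4
  rw [ex3, ey3] at m1
  rw [ex4, ey3] at m2
  unfold Rf dd
  simp only [← hlo, ← hhi]
  rw [abs_le]
  constructor <;> linarith

/-- the rectangle function around a square of the construction -/
theorem Hyp.ring_one {n : ℕ} {e e' s t : ℝ} (he : e ∈ Ends n)
    (hs : |s| ≤ (1 / 3 : ℝ) ^ n / 16) :
    |Rf f (e - (1 / 3) ^ n / 8 + s) (e - (1 / 3) ^ n / 8 + s + 5 / 4 * (1 / 3) ^ n)
        (e' - (1 / 3) ^ n / 8 + t) (e' - (1 / 3) ^ n / 8 + t + 5 / 4 * (1 / 3) ^ n)| ≤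
      10 / 3 * dd (fun x => f (x, e' - (1 / 3) ^ n / 8 + t + 5 / 4 * (1 / 3) ^ n))
        (e + ((1 / 3) ^ n / 2 + s)) ((1 / 3) ^ n) +
      10 / 3 * dd (fun x => f (x, e' - (1 / 3) ^ n / 8 + t)) (e + ((1 / 3) ^ n / 2 + s)) ((1 / 3) ^ n) +
      (dd (fun x => f (x, e' + ((1 / 3) ^ n / 2 + t))) (e + (-(7 / 64) * (1 / 3) ^ n + s)) ((1 / 3) ^ n) +
      25 * dd (fun y => f (e + (-(7 / 64) * (1 / 3) ^ n + s), y)) (e' + ((1 / 3) ^ n / 2 + t))
        ((1 / 3) ^ n)) := by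
  obtain ⟨r, hrdef⟩ : ∃ r : ℝ, r = (1 / 3) ^ n := ⟨_, rfl⟩
  have hgap0 := fun x => gap n (x := x) he
  rw [← hrdef] at hgap0 hs ⊢
  have hr : 0 < r := by rw [hrdef]; positivity
  obtain ⟨hs1, hs2⟩ := abs_le.1 hs
  set a := e - r / 8 + s with ha
  set c := e' - r / 8 + t with hc
  have hδ : 0 < r / 32 := by positivity
  have h1 := hf.thin (a := a) (δ := r / 32) (c := c) (r := r) hδ (fun x h1 h2 =>
    hgap0 x (Or.inl ⟨by linarith, by linarith⟩))
  have h2 := slope_term (hf.slice_x (c + 5 / 4 * r)) (a := a) hδ hr (by linarith)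
  have h3 := slope_term (hf.slice_x c) (a := a) hδ hr (by linarith)
  have hq : 5 / 4 * r / (r / 32) = 40 := by field_simp; norm_num
  rw [hq] at h2 h3
  have h4 := dd_scale (hf.slice_x (c + 5 / 8 * r)) (m := a + r / 32 / 2) (r := r) (ρ := 4 / 3 * (r / 32))
    (by positivity) hr (by linarith)
  have hq2 : 4 / 3 * (r / 32) / r = 1 / 24 := by field_simp; norm_num
  rw [hq2] at h4
  have h5 := dd_nonneg (hf.slice_x (c + 5 / 8 * r)) (a + r / 32 / 2) r
  have e1 : e + (r / 2 + s) = a + 5 / 8 * r := by rw [ha]; ring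
  have e2 : e' + (r / 2 + t) = c + 5 / 8 * r := by rw [hc]; ring
  have e3 : e + (-(7 / 64) * r + s) = a + r / 32 / 2 := by rw [ha]; ring
  rw [e1, e2, e3]
  have h6 : Rf f a (a + 5 / 4 * r) c (c + 5 / 4 * r) =
      (f (a + 5 / 4 * r, c + 5 / 4 * r) - f (a, c + 5 / 4 * r) -
        40 * (f (a + r / 32, c + 5 / 4 * r) - f (a, c + 5 / 4 * r))) -
      (f (a + 5 / 4 * r, c) - f (a, c) - 40 * (f (a + r / 32, c) - f (a, c))) +
      40 * Rf f a (a + r / 32) c (c + 5 / 4 * r) := by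
    unfold Rf
    ring
  rw [h6]
  obtain ⟨h7, h8⟩ := abs_le.1 h1
  obtain ⟨h9, h10⟩ := h2
  obtain ⟨h11, h12⟩ := h3
  rw [abs_le]
  constructor <;> linarith

/-- the sum over all squares of the `n`-th step -/
theorem Hyp.ring {M : ℝ} (hM : ∀ x ∈ Icc (-3 : ℝ) 3, ∀ y ∈ Icc (-3 : ℝ) 3, |f (x, y)| ≤ M)
    {n : ℕ} {s t : ℝ} (hs : |s| ≤ (1 / 3 : ℝ) ^ n / 16) (ht : |t| ≤ (1 / 3 : ℝ) ^ n / 16) :
    ∑ e ∈ Ends n, ∑ e' ∈ Ends n,
      |Rf f (e - (1 / 3) ^ n / 8 + s) (e - (1 / 3) ^ n / 8 + s + 5 / 4 * (1 / 3) ^ n)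
        (e' - (1 / 3) ^ n / 8 + t) (e' - (1 / 3) ^ n / 8 + t + 5 / 4 * (1 / 3) ^ n)| ≤
      132 * M * (2 / 3) ^ n := by
  obtain ⟨r, hrdef⟩ : ∃ r : ℝ, r = (1 / 3) ^ n := ⟨_, rfl⟩
  have hr : 0 < r := by rw [hrdef]; positivity
  have hr1 : r ≤ 1 := by rw [hrdef]; exact pow_le_one₀ (by norm_num) (by norm_num)
  have hM0 : 0 ≤ M := (abs_nonneg _).trans (hM 0 ⟨by norm_num, by norm_num⟩ 0 ⟨by norm_num, by norm_num⟩)
  have hsep : ∀ e ∈ Ends n, ∀ e' ∈ Ends n, e < e' → e + r ≤ e' := fun e he e' he' h => by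
    have := ends_sep n e he e' he' h
    rw [← hrdef] at this
    linarith
  have h01 : ∀ e ∈ Ends n, 0 ≤ e ∧ e ≤ 1 := fun e he => by
    have := ends_range n e he
    rw [← hrdef] at this
    exact ⟨this.1, by linarith⟩
  have hcard : ((Ends n).card : ℝ) ≤ 2 ^ n := by exact_mod_cast ends_card n
  have hone := fun e (he : e ∈ Ends n) e' => hf.ring_one (e' := e') (s := s) (t := t) he hs
  rw [← hrdef] at hone hs ht ⊢
  obtain ⟨hs1, hs2⟩ := abs_le.1 hs
  obtain ⟨ht1, ht2⟩ := abs_le.1 ht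
  -- horizontal sums
  have hx : ∀ y ∈ Icc (-3 : ℝ) 3, ∀ c : ℝ, |c| ≤ 1 →
      ∑ e ∈ Ends n, dd (fun x => f (x, y)) (e + c) r ≤ 4 * M * r := fun y hy c hc =>
    dd_sum (hf.slice_x y) hr hr1 hc (fun x hx => hM x hx y hy) _ hsep h01
  have hy : ∀ x ∈ Icc (-3 : ℝ) 3, ∀ c : ℝ, |c| ≤ 1 →
      ∑ e ∈ Ends n, dd (fun y => f (x, y)) (e + c) r ≤ 4 * M * r := fun x hx c hc =>
    dd_sum (hf.slice_y x) hr hr1 hc (fun y hy => hM x hx y hy) _ hsep h01
  have hc1 : |r / 2 + s| ≤ 1 := by rw [abs_le]; constructor <;> linarith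
  have hc2 : |-(7 / 64) * r + s| ≤ 1 := by rw [abs_le]; constructor <;> linarith
  have hc3 : |r / 2 + t| ≤ 1 := by rw [abs_le]; constructor <;> linarith
  calc _ ≤ ∑ e ∈ Ends n, ∑ e' ∈ Ends n,
        (10 / 3 * dd (fun x => f (x, e' - r / 8 + t + 5 / 4 * r)) (e + (r / 2 + s)) r +
        10 / 3 * dd (fun x => f (x, e' - r / 8 + t)) (e + (r / 2 + s)) r +
        (dd (fun x => f (x, e' + (r / 2 + t))) (e + (-(7 / 64) * r + s)) r +
        25 * dd (fun y => f (e + (-(7 / 64) * r + s), y)) (e' + (r / 2 + t)) r)) :=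
        Finset.sum_le_sum fun e he => Finset.sum_le_sum fun e' _ => hone e he e'
    _ = 10 / 3 * (∑ e' ∈ Ends n, ∑ e ∈ Ends n,
          dd (fun x => f (x, e' - r / 8 + t + 5 / 4 * r)) (e + (r / 2 + s)) r) +
        10 / 3 * (∑ e' ∈ Ends n, ∑ e ∈ Ends n,
          dd (fun x => f (x, e' - r / 8 + t)) (e + (r / 2 + s)) r) +
        ((∑ e' ∈ Ends n, ∑ e ∈ Ends n,
          dd (fun x => f (x, e' + (r / 2 + t))) (e + (-(7 / 64) * r + s)) r) +
        25 * (∑ e ∈ Ends n, ∑ e' ∈ Ends n,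
          dd (fun y => f (e + (-(7 / 64) * r + s), y)) (e' + (r / 2 + t)) r)) := by
        simp only [Finset.sum_add_distrib, ← Finset.mul_sum]
        rw [Finset.sum_comm (s := Ends n) (t := Ends n)
            (f := fun e e' => dd (fun x => f (x, e' - r / 8 + t + 5 / 4 * r)) (e + (r / 2 + s)) r),
          Finset.sum_comm (s := Ends n) (t := Ends n)
            (f := fun e e' => dd (fun x => f (x, e' - r / 8 + t)) (e + (r / 2 + s)) r),
          Finset.sum_comm (s := Ends n) (t := Ends n)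
            (f := fun e e' => dd (fun x => f (x, e' + (r / 2 + t))) (e + (-(7 / 64) * r + s)) r)]
    _ ≤ 10 / 3 * (∑ _e' ∈ Ends n, 4 * M * r) + 10 / 3 * (∑ _e' ∈ Ends n, 4 * M * r) +
        ((∑ _e' ∈ Ends n, 4 * M * r) + 25 * (∑ _e ∈ Ends n, 4 * M * r)) := by
        have g1 : ∑ e' ∈ Ends n, ∑ e ∈ Ends n,
            dd (fun x => f (x, e' - r / 8 + t + 5 / 4 * r)) (e + (r / 2 + s)) r ≤
            ∑ _e' ∈ Ends n, 4 * M * r := Finset.sum_le_sum fun e' he' =>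
          hx _ ⟨by linarith [(h01 e' he').1], by linarith [(h01 e' he').2]⟩ _ hc1
        have g2 : ∑ e' ∈ Ends n, ∑ e ∈ Ends n,
            dd (fun x => f (x, e' - r / 8 + t)) (e + (r / 2 + s)) r ≤
            ∑ _e' ∈ Ends n, 4 * M * r := Finset.sum_le_sum fun e' he' =>
          hx _ ⟨by linarith [(h01 e' he').1], by linarith [(h01 e' he').2]⟩ _ hc1
        have g3 : ∑ e' ∈ Ends n, ∑ e ∈ Ends n,
            dd (fun x => f (x, e' + (r / 2 + t))) (e + (-(7 / 64) * r + s)) r ≤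
            ∑ _e' ∈ Ends n, 4 * M * r := Finset.sum_le_sum fun e' he' =>
          hx _ ⟨by linarith [(h01 e' he').1], by linarith [(h01 e' he').2]⟩ _ hc2
        have g4 : ∑ e ∈ Ends n, ∑ e' ∈ Ends n,
            dd (fun y => f (e + (-(7 / 64) * r + s), y)) (e' + (r / 2 + t)) r ≤
            ∑ _e ∈ Ends n, 4 * M * r := Finset.sum_le_sum fun e he =>
          hy _ ⟨by linarith [(h01 e he).1], by linarith [(h01 e he).2]⟩ _ hc3
        linarith
    _ = (Ends n).card * (4 * M * r) * (98 / 3) := by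
        rw [Finset.sum_const, nsmul_eq_mul]
        ring
    _ ≤ 2 ^ n * (4 * M * r) * (98 / 3) := by
        have : 0 ≤ 4 * M * r := by positivity
        nlinarith
    _ ≤ 132 * M * (2 / 3) ^ n := by
        have e : (2 / 3 : ℝ) ^ n = 2 ^ n * r := by
          rw [hrdef, ← mul_pow]
          norm_num
        rw [e]
        have : 0 ≤ M * ((2 : ℝ) ^ n * r) := by positivity
        nlinarith

end

end Pool.Agent.Q158.Dust
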