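import Mathlib
import Pool.Agent.Q158.DustB

/-! # Functions which are locally convex off the Cantor dust: integrated second differences -/

set_option autoImplicit false

namespace Pool.Agent.Q158.Dust

open Set MeasureTheory

/-- second difference -/
def D2 (f : ℝ × ℝ → ℝ) (x y v w : ℝ) : ℝ := f (x + v, y + w) - 2 * f (x, y) + f (x - v, y - w)

/-- mixed difference -/
def Bx (f : ℝ × ℝ → ℝ) (x y v w : ℝ) : ℝ := f (x + v, y + w) - f (x + v, y) - f (x, y + w) + f (x, y)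

theorem cont_D2 {f : ℝ × ℝ → ℝ} (hf : Continuous f) (v w : ℝ) :
    Continuous fun z : ℝ × ℝ => D2 f z.1 z.2 v w := by
  unfold D2
  fun_prop

theorem cont_Bx {f : ℝ × ℝ → ℝ} (hf : Continuous f) (v w : ℝ) :
    Continuous fun z : ℝ × ℝ => Bx f z.1 z.2 v w := by
  unfold Bx
  fun_prop

theorem inner_cont {F : ℝ × ℝ → ℝ} (hF : Continuous F) (c d : ℝ) :
    Continuous fun x : ℝ => ∫ y in c..d, F (x, y) := by
  apply intervalIntegral.continuous_parametric_intervalIntegral_of_continuous'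
  exact hF.comp (by fun_prop)

theorem dbl_mono {F G : ℝ × ℝ → ℝ} (hF : Continuous F) (hG : Continuous G) {a b c d : ℝ}
    (hab : a ≤ b) (hcd : c ≤ d) (h : ∀ x ∈ Icc a b, ∀ y ∈ Icc c d, F (x, y) ≤ G (x, y)) :
    ∫ x in a..b, ∫ y in c..d, F (x, y) ≤ ∫ x in a..b, ∫ y in c..d, G (x, y) := by
  refine intervalIntegral.integral_mono_on hab ((inner_cont hF c d).intervalIntegrable _ _)
    ((inner_cont hG c d).intervalIntegrable _ _) fun x hx => ?_
  refine intervalIntegral.integral_mono_on hcd ((hF.comp (by fun_prop)).intervalIntegrable _ _)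
    ((hG.comp (by fun_prop)).intervalIntegrable _ _) fun y hy => h x hx y hy

theorem dbl_add {F G : ℝ × ℝ → ℝ} (hF : Continuous F) (hG : Continuous G) {a b c d : ℝ} :
    ∫ x in a..b, ∫ y in c..d, (F (x, y) + G (x, y)) =
      (∫ x in a..b, ∫ y in c..d, F (x, y)) + ∫ x in a..b, ∫ y in c..d, G (x, y) := by
  rw [← intervalIntegral.integral_add ((inner_cont hF c d).intervalIntegrable _ _)
    ((inner_cont hG c d).intervalIntegrable _ _)]
  refine intervalIntegral.integral_congr fun x _ => ?_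
  exact intervalIntegral.integral_add ((hF.comp (by fun_prop)).intervalIntegrable _ _)
    ((hG.comp (by fun_prop)).intervalIntegrable _ _)

theorem dbl_sum {ι : Type*} {F : ι → ℝ × ℝ → ℝ} (hF : ∀ i, Continuous (F i)) (T : Finset ι)
    {a b c d : ℝ} :
    ∑ i ∈ T, ∫ x in a..b, ∫ y in c..d, F i (x, y) =
      ∫ x in a..b, ∫ y in c..d, ∑ i ∈ T, F i (x, y) := by
  rw [← intervalIntegral.integral_finsetSum
    (fun i _ => (inner_cont (hF i) c d).intervalIntegrable _ _)]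
  refine intervalIntegral.integral_congr fun x _ => ?_
  exact (intervalIntegral.integral_finsetSum
    (fun i _ => ((hF i).comp (by fun_prop)).intervalIntegrable _ _)).symm

theorem shift {h : ℝ → ℝ} (hh : Continuous h) (a b v : ℝ) :
    ∫ x in a..b, (h (x + v) - h x) = ∫ s in (0 : ℝ)..v, (h (b + s) - h (a + s)) := by
  have hi : ∀ p q : ℝ, IntervalIntegrable h volume p q := fun p q => hh.intervalIntegrable p q
  rw [intervalIntegral.integral_sub (Continuous.intervalIntegrable (by fun_prop) _ _) (hi _ _),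
    intervalIntegral.integral_sub (Continuous.intervalIntegrable (by fun_prop) _ _)
      (Continuous.intervalIntegrable (by fun_prop) _ _),
    intervalIntegral.integral_comp_add_right, intervalIntegral.integral_comp_add_left,
    intervalIntegral.integral_comp_add_left, add_zero, add_zero]
  have h1 := intervalIntegral.integral_add_adjacent_intervals (hi a (a + v)) (hi (a + v) (b + v))
  have h2 := intervalIntegral.integral_add_adjacent_intervals (hi a b) (hi b (b + v))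
  linarith

theorem box_int {f : ℝ × ℝ → ℝ} (hf : Continuous f) (a b c d v w : ℝ) :
    ∫ x in a..b, ∫ y in c..d, Bx f x y v w =
      ∫ s in (0 : ℝ)..v, ∫ t in (0 : ℝ)..w, Rf f (a + s) (b + s) (c + t) (d + t) := by
  set H : ℝ → ℝ := fun x => ∫ t in (0 : ℝ)..w, (f (x, d + t) - f (x, c + t)) with hH
  have hHc : Continuous H := inner_cont (F := fun z : ℝ × ℝ => f (z.1, d + z.2) - f (z.1, c + z.2))
    (by fun_prop) 0 w
  have h1 : ∀ x : ℝ, ∫ y in c..d, (f (x, y + w) - f (x, y)) = H x := fun x =>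
    shift (h := fun y => f (x, y)) (by fun_prop) c d w
  have h2 : ∀ x : ℝ, ∫ y in c..d, Bx f x y v w = H (x + v) - H x := fun x => by
    rw [← h1, ← h1, ← intervalIntegral.integral_sub (Continuous.intervalIntegrable (by fun_prop) _ _)
      (Continuous.intervalIntegrable (by fun_prop) _ _)]
    refine intervalIntegral.integral_congr fun y _ => ?_
    simp only [Bx]
    ring
  calc _ = ∫ x in a..b, (H (x + v) - H x) := intervalIntegral.integral_congr fun x _ => h2 x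
    _ = ∫ s in (0 : ℝ)..v, (H (b + s) - H (a + s)) := shift hHc a b v
    _ = _ := by
        refine intervalIntegral.integral_congr fun s _ => ?_
        simp only [hH]
        rw [← intervalIntegral.integral_sub (Continuous.intervalIntegrable (by fun_prop) _ _)
          (Continuous.intervalIntegrable (by fun_prop) _ _)]
        refine intervalIntegral.integral_congr fun t _ => ?_
        simp only [Rf]
        ring

theorem dbl_bound {F : ℝ → ℝ → ℝ} {B v w : ℝ}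
    (h : ∀ s, |s| ≤ |v| → ∀ t, |t| ≤ |w| → |F s t| ≤ B) :
    |∫ s in (0 : ℝ)..v, ∫ t in (0 : ℝ)..w, F s t| ≤ B * |w| * |v| := by
  have key : ∀ u x : ℝ, x ∈ uIoc 0 u → |x| ≤ |u| := fun u x hx => by
    rcases le_total 0 u with hu | hu
    · rw [uIoc_of_le hu] at hx
      rw [abs_of_pos hx.1, abs_of_nonneg hu]
      exact hx.2
    · rw [uIoc_of_ge hu] at hx
      rw [abs_of_nonpos hx.2, abs_of_nonpos hu]
      linarith [hx.1]
  have h1 := intervalIntegral.norm_integral_le_of_norm_le_const (a := 0) (b := v)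
    (f := fun s => ∫ t in (0 : ℝ)..w, F s t) (C := B * |w|) (fun s hs => by
      have h2 := intervalIntegral.norm_integral_le_of_norm_le_const (a := 0) (b := w)
        (f := fun t => F s t) (C := B) (fun t ht => h s (key v s hs) t (key w t ht))
      rwa [sub_zero] at h2)
  rwa [sub_zero] at h1

theorem conv_int {F : ℝ × ℝ → ℝ} (hF : Continuous F) {a b c d : ℝ} (hab : a ≤ b) (hcd : c ≤ d) :
    ∫ z in Ioc a b ×ˢ Ioc c d, F z = ∫ x in a..b, ∫ y in c..d, F (x, y) := by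
  have hi : IntegrableOn F (Ioc a b ×ˢ Ioc c d) (volume : Measure (ℝ × ℝ)) :=
    (hF.continuousOn.integrableOn_compact (isCompact_Icc.prod isCompact_Icc)).mono_set
      (prod_mono Ioc_subset_Icc_self Ioc_subset_Icc_self)
  rw [Measure.volume_eq_prod] at hi ⊢
  rw [setIntegral_prod F hi, intervalIntegral.integral_of_le hab]
  refine setIntegral_congr_fun measurableSet_Ioc fun x _ => ?_
  simp only [intervalIntegral.integral_of_le hcd]

section

variable {f : ℝ × ℝ → ℝ} (hf : Hyp f)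

include hf

theorem Hyp.D2_ge (x y v w : ℝ) : Bx f x y v w + Bx f x y (-v) (-w) ≤ D2 f x y v w := by
  have h1 := dd_nonneg (hf.slice_x y) x v
  have h2 := dd_nonneg (hf.slice_y x) y w
  unfold dd at h1 h2
  unfold Bx D2
  simp only [← sub_eq_add_neg]
  linarith

theorem Hyp.int_ge {a b c d : ℝ} (hab : a ≤ b) (hcd : c ≤ d) (v w : ℝ) :
    (∫ x in a..b, ∫ y in c..d, Bx f x y v w) + (∫ x in a..b, ∫ y in c..d, Bx f x y (-v) (-w)) ≤
      ∫ x in a..b, ∫ y in c..d, D2 f x y v w := by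
  have h1 := cont_Bx hf.cont v w
  have h2 := cont_Bx hf.cont (-v) (-w)
  have h3 := dbl_add h1 h2 (a := a) (b := b) (c := c) (d := d)
  simp only at h3
  rw [← h3]
  exact dbl_mono (F := fun z : ℝ × ℝ => Bx f z.1 z.2 v w + Bx f z.1 z.2 (-v) (-w))
    (G := fun z : ℝ × ℝ => D2 f z.1 z.2 v w) (h1.add h2) (cont_D2 hf.cont v w) hab hcd
    fun x _ y _ => hf.D2_ge x y v w

theorem Hyp.crude {L M : ℝ} (hM : ∀ x ∈ Icc (-L) L, ∀ y ∈ Icc (-L) L, |f (x, y)| ≤ M)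
    {a b c d v w : ℝ} (hab : a ≤ b) (hcd : c ≤ d) (ha : -L ≤ a - |v|) (hb : b + |v| ≤ L)
    (hc : -L ≤ c - |w|) (hd : d + |w| ≤ L) :
    -(8 * M * |w| * |v|) ≤ ∫ x in a..b, ∫ y in c..d, D2 f x y v w := by
  have key : ∀ v' w' : ℝ, |v'| = |v| → |w'| = |w| →
      |∫ x in a..b, ∫ y in c..d, Bx f x y v' w'| ≤ 4 * M * |w| * |v| := by
    intro v' w' hv' hw'
    rw [box_int hf.cont, ← hv', ← hw']
    refine dbl_bound fun s hs t ht => ?_
    rw [hv'] at hs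
    rw [hw'] at ht
    obtain ⟨hs1, hs2⟩ := abs_le.1 hs
    obtain ⟨ht1, ht2⟩ := abs_le.1 ht
    have ia : a + s ∈ Icc (-L) L := ⟨by linarith, by linarith⟩
    have ib : b + s ∈ Icc (-L) L := ⟨by linarith, by linarith⟩
    have ic : c + t ∈ Icc (-L) L := ⟨by linarith, by linarith⟩
    have id : d + t ∈ Icc (-L) L := ⟨by linarith, by linarith⟩
    have h1 := abs_le.1 (hM _ ib _ id)
    have h2 := abs_le.1 (hM _ ia _ id)
    have h3 := abs_le.1 (hM _ ib _ ic)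
    have h4 := abs_le.1 (hM _ ia _ ic)
    unfold Rf
    rw [abs_le]
    constructor <;> linarith [h1.1, h1.2, h2.1, h2.2, h3.1, h3.2, h4.1, h4.2]
  have h1 := abs_le.1 (key v w rfl rfl)
  have h2 := abs_le.1 (key (-v) (-w) (abs_neg _) (abs_neg _))
  have h3 := hf.int_ge hab hcd v w
  linarith [h1.1, h2.1]

theorem Hyp.sum_box {M : ℝ} (hM : ∀ x ∈ Icc (-3 : ℝ) 3, ∀ y ∈ Icc (-3 : ℝ) 3, |f (x, y)| ≤ M)
    {n : ℕ} {v w : ℝ} (hv : |v| ≤ (1 / 3 : ℝ) ^ n / 16) (hw : |w| ≤ (1 / 3 : ℝ) ^ n / 16)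
    (T : Finset (ℝ × ℝ)) (hT : T ⊆ Ends n ×ˢ Ends n) :
    |∑ p ∈ T, ∫ x in (p.1 - (1 / 3) ^ n / 8)..(p.1 - (1 / 3) ^ n / 8 + 5 / 4 * (1 / 3) ^ n),
      ∫ y in (p.2 - (1 / 3) ^ n / 8)..(p.2 - (1 / 3) ^ n / 8 + 5 / 4 * (1 / 3) ^ n), Bx f x y v w| ≤
      132 * M * (2 / 3) ^ n * |w| * |v| := by
  have h1 : ∀ p : ℝ × ℝ,
      ∫ x in (p.1 - (1 / 3) ^ n / 8)..(p.1 - (1 / 3) ^ n / 8 + 5 / 4 * (1 / 3) ^ n),
        ∫ y in (p.2 - (1 / 3) ^ n / 8)..(p.2 - (1 / 3) ^ n / 8 + 5 / 4 * (1 / 3) ^ n),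
          Bx f x y v w = ∫ s in (0 : ℝ)..v, ∫ t in (0 : ℝ)..w,
      Rf f (p.1 - (1 / 3) ^ n / 8 + s) (p.1 - (1 / 3) ^ n / 8 + s + 5 / 4 * (1 / 3) ^ n)
        (p.2 - (1 / 3) ^ n / 8 + t) (p.2 - (1 / 3) ^ n / 8 + t + 5 / 4 * (1 / 3) ^ n) := by
    intro p
    rw [box_int hf.cont]
    refine intervalIntegral.integral_congr fun s _ => ?_
    refine intervalIntegral.integral_congr fun t _ => ?_
    rw [show p.1 - (1 / 3) ^ n / 8 + 5 / 4 * (1 / 3) ^ n + s =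
        p.1 - (1 / 3) ^ n / 8 + s + 5 / 4 * (1 / 3) ^ n by ring,
      show p.2 - (1 / 3) ^ n / 8 + 5 / 4 * (1 / 3) ^ n + t =
        p.2 - (1 / 3) ^ n / 8 + t + 5 / 4 * (1 / 3) ^ n by ring]
  simp only [h1]
  have hcont : ∀ p : ℝ × ℝ, Continuous fun z : ℝ × ℝ =>
      Rf f (p.1 - (1 / 3) ^ n / 8 + z.1) (p.1 - (1 / 3) ^ n / 8 + z.1 + 5 / 4 * (1 / 3) ^ n)
        (p.2 - (1 / 3) ^ n / 8 + z.2) (p.2 - (1 / 3) ^ n / 8 + z.2 + 5 / 4 * (1 / 3) ^ n) := by
    intro p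
    have := hf.cont
    unfold Rf
    fun_prop
  have h2 := dbl_sum (F := fun p : ℝ × ℝ => fun z : ℝ × ℝ =>
      Rf f (p.1 - (1 / 3) ^ n / 8 + z.1) (p.1 - (1 / 3) ^ n / 8 + z.1 + 5 / 4 * (1 / 3) ^ n)
        (p.2 - (1 / 3) ^ n / 8 + z.2) (p.2 - (1 / 3) ^ n / 8 + z.2 + 5 / 4 * (1 / 3) ^ n)) hcont T
    (a := 0) (b := v) (c := 0) (d := w)
  simp only at h2
  rw [h2]
  refine dbl_bound fun s hs t ht => ?_
  refine (Finset.abs_sum_le_sum_abs _ _).trans ?_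
  refine (Finset.sum_le_sum_of_subset_of_nonneg hT fun _ _ _ => abs_nonneg _).trans ?_
  rw [Finset.sum_product]
  exact hf.ring hM (hs.trans hv) (ht.trans hw)

theorem Hyp.off {n : ℕ} {x y v w : ℝ} (hv : |v| ≤ (1 / 3 : ℝ) ^ n / 16)
    (hw : |w| ≤ (1 / 3 : ℝ) ^ n / 16)
    (h : ∀ e ∈ Ends n, ∀ e' ∈ Ends n,
      ¬ ((e - (1 / 3) ^ n / 8 < x ∧ x ≤ e - (1 / 3) ^ n / 8 + 5 / 4 * (1 / 3) ^ n) ∧
        (e' - (1 / 3) ^ n / 8 < y ∧ y ≤ e' - (1 / 3) ^ n / 8 + 5 / 4 * (1 / 3) ^ n))) :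
    0 ≤ D2 f x y v w := by
  obtain ⟨r, hrdef⟩ : ∃ r : ℝ, r = (1 / 3) ^ n := ⟨_, rfl⟩
  have hr : 0 < r := by rw [hrdef]; positivity
  have hcov := fun x (hx : x ∈ cantorSet) => cover n hx
  rw [← hrdef] at hv hw h hcov
  obtain ⟨hv1, hv2⟩ := abs_le.1 hv
  obtain ⟨hw1, hw2⟩ := abs_le.1 hw
  have h1 := hf.seg (p := (x - v, y - w)) (q := (x + v, y + w)) (fun t ht hK => by
    obtain ⟨ht0, ht1⟩ := ht
    obtain ⟨hK1, hK2⟩ := hK
    simp only [Prod.fst_add, Prod.smul_fst, Prod.fst_sub, smul_eq_mul, Prod.snd_add, Prod.smul_snd,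
      Prod.snd_sub] at hK1 hK2
    have hX : |t * ((x + v) - (x - v)) - v| ≤ r / 16 := by
      have : t * ((x + v) - (x - v)) - v = (2 * t - 1) * v := by ring
      rw [this, abs_mul]
      have h2 : |2 * t - 1| ≤ 1 := by rw [abs_le]; constructor <;> linarith
      calc _ ≤ 1 * |v| := mul_le_mul_of_nonneg_right h2 (abs_nonneg _)
        _ ≤ _ := by rw [one_mul]; exact hv
    have hY : |t * ((y + w) - (y - w)) - w| ≤ r / 16 := by
      have : t * ((y + w) - (y - w)) - w = (2 * t - 1) * w := by ring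
      rw [this, abs_mul]
      have h2 : |2 * t - 1| ≤ 1 := by rw [abs_le]; constructor <;> linarith
      calc _ ≤ 1 * |w| := mul_le_mul_of_nonneg_right h2 (abs_nonneg _)
        _ ≤ _ := by rw [one_mul]; exact hw
    obtain ⟨e, he, h3, h4⟩ := hcov _ hK1
    obtain ⟨e', he', h5, h6⟩ := hcov _ hK2
    obtain ⟨hX1, hX2⟩ := abs_le.1 hX
    obtain ⟨hY1, hY2⟩ := abs_le.1 hY
    exact h e he e' he' ⟨⟨by linarith, by linarith⟩, ⟨by linarith, by linarith⟩⟩) (t := 1 / 2)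
    ⟨by norm_num, by norm_num⟩
  have e1 : ((x - v, y - w) : ℝ × ℝ) + (1 / 2 : ℝ) • ((x + v, y + w) - (x - v, y - w)) = (x, y) := by
    ext
    · simp only [Prod.fst_add, Prod.smul_fst, Prod.fst_sub, smul_eq_mul]; ring
    · simp only [Prod.snd_add, Prod.smul_snd, Prod.snd_sub, smul_eq_mul]; ring
  rw [e1] at h1
  unfold D2
  linarith

theorem Hyp.good {M : ℝ} (hM : ∀ x ∈ Icc (-3 : ℝ) 3, ∀ y ∈ Icc (-3 : ℝ) 3, |f (x, y)| ≤ M)
    {n : ℕ} {a b c d v w : ℝ} (hab : a ≤ b) (hcd : c ≤ d)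
    (hv : |v| ≤ (1 / 3 : ℝ) ^ n / 16) (hw : |w| ≤ (1 / 3 : ℝ) ^ n / 16)
    (ga : ∀ e ∈ Ends n, ¬ (0 < a - (e - (1 / 3) ^ n / 8) ∧ a - (e - (1 / 3) ^ n / 8) < 5 / 4 * (1 / 3) ^ n))
    (gb : ∀ e ∈ Ends n, ¬ (0 < b - (e - (1 / 3) ^ n / 8) ∧ b - (e - (1 / 3) ^ n / 8) < 5 / 4 * (1 / 3) ^ n))
    (gc : ∀ e ∈ Ends n, ¬ (0 < c - (e - (1 / 3) ^ n / 8) ∧ c - (e - (1 / 3) ^ n / 8) < 5 / 4 * (1 / 3) ^ n))
    (gd : ∀ e ∈ Ends n, ¬ (0 < d - (e - (1 / 3) ^ n / 8) ∧ d - (e - (1 / 3) ^ n / 8) < 5 / 4 * (1 / 3) ^ n)) :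
    -(264 * M * (2 / 3) ^ n * |w| * |v|) ≤ ∫ x in a..b, ∫ y in c..d, D2 f x y v w := by
  classical
  obtain ⟨r, hrdef⟩ : ∃ r : ℝ, r = (1 / 3) ^ n := ⟨_, rfl⟩
  have hr : 0 < r := by rw [hrdef]; positivity
  have hsep := ends_sep n
  have hoff := fun x y => hf.off (n := n) (x := x) (y := y) hv hw
  have hsb1 := hf.sum_box hM hv hw
  have hsb2 := hf.sum_box hM (v := -v) (w := -w) (by rwa [abs_neg]) (by rwa [abs_neg])
  rw [← hrdef] at hsep hv hw ga gb gc gd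
  simp only [← hrdef, abs_neg] at hoff hsb1 hsb2
  -- the squares
  set I : ℝ → Set ℝ := fun e => Ioc (e - r / 8) (e - r / 8 + 5 / 4 * r) with hI
  have hIdisj : ∀ e ∈ Ends n, ∀ e' ∈ Ends n, e ≠ e' → Disjoint (I e) (I e') := by
    intro e he e' he' hne
    rw [Set.disjoint_left]
    rintro x ⟨h1, h2⟩ ⟨h3, h4⟩
    rcases lt_or_gt_of_ne hne with h | h
    · have := hsep e he e' he' h
      linarith
    · have := hsep e' he' e he h
      linarith
  have hside : ∀ p q : ℝ, (∀ e ∈ Ends n, ¬ (0 < p - (e - r / 8) ∧ p - (e - r / 8) < 5 / 4 * r)) →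
      (∀ e ∈ Ends n, ¬ (0 < q - (e - r / 8) ∧ q - (e - r / 8) < 5 / 4 * r)) →
      ∀ e ∈ Ends n, ∀ x ∈ I e, x ∈ Ioc p q → I e ⊆ Ioc p q := by
    intro p q hp hq e he x hx hxpq y hy
    have h1 := hp e he
    have h2 := hq e he
    simp only [hI, mem_Ioc] at hx hxpq hy ⊢
    rw [not_and_or, not_lt, not_lt] at h1 h2
    constructor
    · rcases h1 with h1 | h1 <;> linarith [hx.1, hx.2, hxpq.1, hxpq.2, hy.1, hy.2]
    · rcases h2 with h2 | h2 <;> linarith [hx.1, hx.2, hxpq.1, hxpq.2, hy.1, hy.2]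
  set R : Set (ℝ × ℝ) := Ioc a b ×ˢ Ioc c d with hR
  set T : Finset (ℝ × ℝ) := (Ends n ×ˢ Ends n).filter (fun p => I p.1 ×ˢ I p.2 ⊆ R) with hTdef
  have hTsub : T ⊆ Ends n ×ˢ Ends n := Finset.filter_subset _ _
  set F : ℝ × ℝ → ℝ := fun z => D2 f z.1 z.2 v w with hF
  have hFc : Continuous F := cont_D2 hf.cont v w
  have hint : ∀ p q p' q' : ℝ, IntegrableOn F (Ioc p q ×ˢ Ioc p' q') (volume : Measure (ℝ × ℝ)) :=
    fun p q p' q' => (hFc.continuousOn.integrableOn_compact (isCompact_Icc.prod isCompact_Icc)).mono_set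
      (prod_mono Ioc_subset_Icc_self Ioc_subset_Icc_self)
  have hms : ∀ p q p' q' : ℝ, MeasurableSet (Ioc p q ×ˢ Ioc p' q' : Set (ℝ × ℝ)) :=
    fun p q p' q' => measurableSet_Ioc.prod measurableSet_Ioc
  set U : Set (ℝ × ℝ) := ⋃ p ∈ T, I p.1 ×ˢ I p.2 with hU
  have hUm : MeasurableSet U := Finset.measurableSet_biUnion _ fun p _ => hms _ _ _ _
  have hUR : U ⊆ R := iUnion₂_subset fun p hp => (Finset.mem_filter.1 hp).2
  have h1 : ∫ z in R \ U, F z = (∫ z in R, F z) - ∫ z in U, F z :=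
    setIntegral_sdiff hUm (hint a b c d) hUR
  have h2 : 0 ≤ ∫ z in R \ U, F z := by
    refine setIntegral_nonneg ((hms _ _ _ _).diff hUm) fun z hz => ?_
    refine hoff z.1 z.2 fun e he e' he' hin => hz.2 ?_
    have hsub : I e ×ˢ I e' ⊆ R := prod_mono
      (hside a b ga gb e he z.1 ⟨hin.1.1, hin.1.2⟩ hz.1.1)
      (hside c d gc gd e' he' z.2 ⟨hin.2.1, hin.2.2⟩ hz.1.2)
    refine mem_iUnion₂.2 ⟨(e, e'), ?_, ⟨⟨hin.1.1, hin.1.2⟩, ⟨hin.2.1, hin.2.2⟩⟩⟩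
    exact Finset.mem_filter.2 ⟨Finset.mem_product.2 ⟨he, he'⟩, hsub⟩
  have h3 : ∫ z in U, F z = ∑ p ∈ T, ∫ z in I p.1 ×ˢ I p.2, F z := by
    refine integral_biUnion_finset T (fun p _ => hms _ _ _ _) ?_ fun p _ => hint _ _ _ _
    intro p hp q hq hne
    have hp' := Finset.mem_product.1 (hTsub hp)
    have hq' := Finset.mem_product.1 (hTsub hq)
    show Disjoint (I p.1 ×ˢ I p.2) (I q.1 ×ˢ I q.2)
    rw [Set.disjoint_prod]
    by_cases h : p.1 = q.1
    · right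
      exact hIdisj _ hp'.2 _ hq'.2 fun h' => hne (Prod.ext h h')
    · left
      exact hIdisj _ hp'.1 _ hq'.1 h
  have h4 : ∀ p : ℝ × ℝ, (∫ x in (p.1 - r / 8)..(p.1 - r / 8 + 5 / 4 * r),
        ∫ y in (p.2 - r / 8)..(p.2 - r / 8 + 5 / 4 * r), Bx f x y v w) +
      (∫ x in (p.1 - r / 8)..(p.1 - r / 8 + 5 / 4 * r),
        ∫ y in (p.2 - r / 8)..(p.2 - r / 8 + 5 / 4 * r), Bx f x y (-v) (-w)) ≤
      ∫ z in I p.1 ×ˢ I p.2, F z := by
    intro p
    rw [hI]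
    simp only
    rw [conv_int hFc (by linarith) (by linarith)]
    exact hf.int_ge (by linarith) (by linarith) v w
  have h5 := Finset.sum_le_sum fun p (_ : p ∈ T) => h4 p
  rw [Finset.sum_add_distrib] at h5
  have h6 := (abs_le.1 (hsb1 T hTsub)).1
  have h7 := (abs_le.1 (hsb2 T hTsub)).1
  have h8 : ∫ z in R, F z = ∫ x in a..b, ∫ y in c..d, D2 f x y v w := conv_int hFc hab hcd
  rw [← h8]
  linarith

end

end Pool.Agent.Q158.Dust
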