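import Mathlib
import Pool.Agent.Q158.DustC

/-! # Functions which are locally convex off the Cantor dust are convex -/

set_option autoImplicit false

namespace Pool.Agent.Q158.Dust

open Set MeasureTheory

/-- a convex function whose second derivative is the indicator function of `(0, ℓ)` -/
noncomputable def qf (ℓ u : ℝ) : ℝ := max 0 (min u ℓ) * u - max 0 (min u ℓ) ^ 2 / 2

theorem qf_cont (ℓ : ℝ) : Continuous (qf ℓ) := by
  unfold qf
  fun_prop

theorem qf_lower {ℓ : ℝ} (hℓ : 0 ≤ ℓ) (u : ℝ) {s : ℝ} (hs0 : 0 ≤ s) (hs : s ≤ ℓ) :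
    s * u - s ^ 2 / 2 ≤ qf ℓ u := by
  unfold qf
  rcases le_total u 0 with h | h
  · rw [min_eq_left (h.trans hℓ), max_eq_left h]
    nlinarith [mul_nonneg hs0 (neg_nonneg.2 h), sq_nonneg s]
  · rcases le_total u ℓ with h' | h'
    · rw [min_eq_left h', max_eq_right h]
      nlinarith [sq_nonneg (u - s)]
    · rw [min_eq_right h', max_eq_right hℓ]
      have h1 : 0 ≤ (ℓ - s) * (u - (ℓ + s) / 2) := mul_nonneg (by linarith) (by linarith)
      nlinarith

theorem qf_nonneg {ℓ : ℝ} (hℓ : 0 ≤ ℓ) (u : ℝ) : 0 ≤ qf ℓ u := by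
  have := qf_lower hℓ u le_rfl hℓ
  simpa using this

theorem qf_dd {ℓ : ℝ} (hℓ : 0 ≤ ℓ) (u h : ℝ) : 2 * qf ℓ u ≤ qf ℓ (u - h) + qf ℓ (u + h) := by
  have h0 : 0 ≤ max 0 (min u ℓ) := le_max_left _ _
  have h1 : max 0 (min u ℓ) ≤ ℓ := max_le hℓ (min_le_right _ _)
  have h2 := qf_lower hℓ (u - h) h0 h1
  have h3 := qf_lower hℓ (u + h) h0 h1
  have h4 : qf ℓ u = max 0 (min u ℓ) * u - max 0 (min u ℓ) ^ 2 / 2 := rfl
  rw [h4]
  linarith

theorem qf_le {ℓ : ℝ} (hℓ : 0 ≤ ℓ) (u : ℝ) : qf ℓ u ≤ ℓ * |u| := by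
  have h0 : 0 ≤ max 0 (min u ℓ) := le_max_left _ _
  have h1 : max 0 (min u ℓ) ≤ ℓ := max_le hℓ (min_le_right _ _)
  have h4 : qf ℓ u = max 0 (min u ℓ) * u - max 0 (min u ℓ) ^ 2 / 2 := rfl
  rw [h4]
  calc _ ≤ max 0 (min u ℓ) * |u| := by nlinarith [le_abs_self u, sq_nonneg (max 0 (min u ℓ))]
    _ ≤ ℓ * |u| := mul_le_mul_of_nonneg_right h1 (abs_nonneg _)

theorem qf_in {ℓ u : ℝ} (h0 : 0 ≤ u) (h1 : u ≤ ℓ) : qf ℓ u = u ^ 2 / 2 := by
  unfold qf
  rw [min_eq_left h1, max_eq_right h0]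
  ring

/-- the sum of these functions over the intervals of the `n`-th step -/
noncomputable def Psi (n : ℕ) (σ ω t : ℝ) : ℝ :=
  (∑ e ∈ Ends n, qf (5 / 4 * (1 / 3) ^ n) (σ + t * ω - (e - (1 / 3) ^ n / 8))) / ω ^ 2

theorem ell_pos (n : ℕ) : (0 : ℝ) < 5 / 4 * (1 / 3) ^ n := by positivity

theorem Psi_cont (n : ℕ) (σ ω : ℝ) : Continuous (Psi n σ ω) := by
  unfold Psi
  refine Continuous.div_const (continuous_finsetSum _ fun e _ => ?_) _
  exact (qf_cont _).comp (by fun_prop)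

theorem Psi_nonneg (n : ℕ) (σ ω t : ℝ) : 0 ≤ Psi n σ ω t :=
  div_nonneg (Finset.sum_nonneg fun _ _ => qf_nonneg (ell_pos n).le _) (sq_nonneg _)

theorem Psi_dd (n : ℕ) (σ ω t h : ℝ) : 2 * Psi n σ ω t ≤ Psi n σ ω (t - h) + Psi n σ ω (t + h) := by
  unfold Psi
  rw [← add_div, ← Finset.sum_add_distrib, ← mul_div_assoc, Finset.mul_sum]
  refine div_le_div_of_nonneg_right (Finset.sum_le_sum fun e _ => ?_) (sq_nonneg _)
  have h1 := qf_dd (ell_pos n).le (σ + t * ω - (e - (1 / 3) ^ n / 8)) (h * ω)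
  have e1 : σ + t * ω - (e - (1 / 3) ^ n / 8) - h * ω = σ + (t - h) * ω - (e - (1 / 3) ^ n / 8) := by
    ring
  have e2 : σ + t * ω - (e - (1 / 3) ^ n / 8) + h * ω = σ + (t + h) * ω - (e - (1 / 3) ^ n / 8) := by
    ring
  rwa [e1, e2] at h1

theorem Psi_bad {n : ℕ} {σ ω t e : ℝ} (hω : ω ≠ 0) (he : e ∈ Ends n)
    (hb : 0 < σ + t * ω - (e - (1 / 3) ^ n / 8) ∧
      σ + t * ω - (e - (1 / 3) ^ n / 8) < 5 / 4 * (1 / 3) ^ n) :
    ∃ ε > 0, ∀ h, 0 < h → h < ε →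
      2 * Psi n σ ω t + h ^ 2 ≤ Psi n σ ω (t - h) + Psi n σ ω (t + h) := by
  have hω' : 0 < |ω| := abs_pos.2 hω
  set u := σ + t * ω - (e - (1 / 3) ^ n / 8) with hu
  set ℓ : ℝ := 5 / 4 * (1 / 3) ^ n with hℓ
  refine ⟨min u (ℓ - u) / |ω|, div_pos (lt_min hb.1 (by linarith [hb.2])) hω', fun h hh0 hh => ?_⟩
  have h1 : h * |ω| < min u (ℓ - u) := by rwa [lt_div_iff₀ hω'] at hh
  have h2 : |h * ω| < min u (ℓ - u) := by rwa [abs_mul, abs_of_pos hh0]
  obtain ⟨h3, h4⟩ := abs_lt.1 (h2.trans_le (min_le_left _ _))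
  obtain ⟨h5, h6⟩ := abs_lt.1 (h2.trans_le (min_le_right _ _))
  have h7 : qf ℓ (u - h * ω) + qf ℓ (u + h * ω) - 2 * qf ℓ u = h ^ 2 * ω ^ 2 := by
    rw [qf_in (by linarith) (by linarith), qf_in (by linarith) (by linarith),
      qf_in hb.1.le hb.2.le]
    ring
  have h8 : qf ℓ (u - h * ω) + qf ℓ (u + h * ω) - 2 * qf ℓ u ≤
      ∑ e ∈ Ends n, (qf ℓ (σ + (t - h) * ω - (e - (1 / 3) ^ n / 8)) +
        qf ℓ (σ + (t + h) * ω - (e - (1 / 3) ^ n / 8)) -
        2 * qf ℓ (σ + t * ω - (e - (1 / 3) ^ n / 8))) := by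
    have h9 := Finset.single_le_sum (f := fun e => qf ℓ (σ + (t - h) * ω - (e - (1 / 3) ^ n / 8)) +
        qf ℓ (σ + (t + h) * ω - (e - (1 / 3) ^ n / 8)) -
        2 * qf ℓ (σ + t * ω - (e - (1 / 3) ^ n / 8))) (fun e' _ => by
          have h1 := qf_dd (ell_pos n).le (σ + t * ω - (e' - (1 / 3) ^ n / 8)) (h * ω)
          have e1 : σ + t * ω - (e' - (1 / 3) ^ n / 8) - h * ω =
              σ + (t - h) * ω - (e' - (1 / 3) ^ n / 8) := by ring
          have e2 : σ + t * ω - (e' - (1 / 3) ^ n / 8) + h * ω =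
              σ + (t + h) * ω - (e' - (1 / 3) ^ n / 8) := by ring
          rw [e1, e2] at h1
          linarith) he
    have e1 : u - h * ω = σ + (t - h) * ω - (e - (1 / 3) ^ n / 8) := by rw [hu]; ring
    have e2 : u + h * ω = σ + (t + h) * ω - (e - (1 / 3) ^ n / 8) := by rw [hu]; ring
    rw [e1, e2]
    exact h9
  rw [h7, Finset.sum_sub_distrib, Finset.sum_add_distrib, ← Finset.mul_sum] at h8
  unfold Psi
  have hω2 : 0 < ω ^ 2 := by positivity
  rw [← add_div, ← mul_div_assoc, le_div_iff₀ hω2, add_mul, div_mul_cancel₀ _ hω2.ne']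
  linarith

theorem Psi_le {n : ℕ} {σ ω t : ℝ} (hω : ω ≠ 0) (ht : |t| ≤ 1) :
    Psi n σ ω t ≤ 5 / 4 * (|σ| + |ω| + 2) / ω ^ 2 * (2 / 3) ^ n := by
  have hω2 : 0 < ω ^ 2 := by positivity
  have hr0 : (0 : ℝ) < (1 / 3) ^ n := by positivity
  have hr1 : (1 / 3 : ℝ) ^ n ≤ 1 := pow_le_one₀ (by norm_num) (by norm_num)
  have h1 : ∑ e ∈ Ends n, qf (5 / 4 * (1 / 3) ^ n) (σ + t * ω - (e - (1 / 3) ^ n / 8)) ≤
      ∑ _e ∈ Ends n, 5 / 4 * (1 / 3) ^ n * (|σ| + |ω| + 2) := by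
    refine Finset.sum_le_sum fun e he => (qf_le (ell_pos n).le _).trans ?_
    refine mul_le_mul_of_nonneg_left ?_ (ell_pos n).le
    obtain ⟨h2, h3⟩ := ends_range n e he
    have h4 : |t * ω| ≤ |ω| := by
      rw [abs_mul]
      exact mul_le_of_le_one_left (abs_nonneg _) ht
    have h5 : |e - (1 / 3) ^ n / 8| ≤ 2 := by rw [abs_le]; constructor <;> linarith
    calc |σ + t * ω - (e - (1 / 3) ^ n / 8)| ≤ |σ + t * ω| + |e - (1 / 3) ^ n / 8| := abs_sub _ _
      _ ≤ |σ| + |t * ω| + |e - (1 / 3) ^ n / 8| := by linarith [abs_add_le σ (t * ω)]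
      _ ≤ _ := by linarith
  have h2 : ((Ends n).card : ℝ) ≤ 2 ^ n := by exact_mod_cast ends_card n
  rw [Finset.sum_const, nsmul_eq_mul] at h1
  unfold Psi
  rw [div_le_iff₀ hω2]
  have e : (2 / 3 : ℝ) ^ n = 2 ^ n * (1 / 3) ^ n := by rw [← mul_pow]; norm_num
  calc _ ≤ _ := h1
    _ ≤ 2 ^ n * (5 / 4 * (1 / 3) ^ n * (|σ| + |ω| + 2)) :=
        mul_le_mul_of_nonneg_right h2 (by positivity)
    _ = 5 / 4 * (|σ| + |ω| + 2) / ω ^ 2 * (2 / 3) ^ n * ω ^ 2 := by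
        rw [e]
        field_simp

/-- a bound for a continuous function on a square -/
theorem sq_bound {f : ℝ × ℝ → ℝ} (hf : Continuous f) (L : ℝ) :
    ∃ M, ∀ x ∈ Icc (-L) L, ∀ y ∈ Icc (-L) L, |f (x, y)| ≤ M := by
  obtain ⟨M, hM⟩ := (isCompact_Icc.prod isCompact_Icc :
    IsCompact (Icc (-L) L ×ˢ Icc (-L) L)).exists_bound_of_continuousOn hf.continuousOn
  exact ⟨M, fun x hx y hy => hM (x, y) ⟨hx, hy⟩⟩

section

variable {f : ℝ × ℝ → ℝ} (hf : Hyp f)

include hf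

theorem Hyp.int_nonneg {a b c d w₁ w₂ : ℝ} (hab : a ≤ b) (hcd : c ≤ d) (h₁ : w₁ ≠ 0) (h₂ : w₂ ≠ 0) :
    0 ≤ ∫ x in a..b, ∫ y in c..d, D2 f x y w₁ w₂ := by
  obtain ⟨K, hK⟩ := sq_bound hf.cont (|a| + |b| + |c| + |d| + 2 * |w₁| + 2 * |w₂|)
  obtain ⟨M, hM⟩ := sq_bound hf.cont 3
  have hK0 : 0 ≤ K := by
    have h := hK 0 ⟨by rw [neg_nonpos]; positivity, by positivity⟩ 0
      ⟨by rw [neg_nonpos]; positivity, by positivity⟩
    exact (abs_nonneg _).trans h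
  have hM0 : 0 ≤ M := (abs_nonneg _).trans (hM 0 ⟨by norm_num, by norm_num⟩ 0 ⟨by norm_num, by norm_num⟩)
  set γ : ℝ → ℝ := fun t => ∫ x in a..b, ∫ y in c..d, f (x + t * w₁, y + t * w₂) with hγ
  have hγc : Continuous γ := by
    have hfc := hf.cont
    apply intervalIntegral.continuous_parametric_intervalIntegral_of_continuous'
    apply intervalIntegral.continuous_parametric_intervalIntegral_of_continuous'
    exact hfc.comp (by fun_prop)
  -- second differences of `γ`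
  have hdd : ∀ t h : ℝ, γ (t - h) + γ (t + h) - 2 * γ t =
      ∫ x in (a + t * w₁)..(b + t * w₁), ∫ y in (c + t * w₂)..(d + t * w₂),
        D2 f x y (h * w₁) (h * w₂) := by
    intro t h
    have hfc := hf.cont
    have e1 : ∫ x in (a + t * w₁)..(b + t * w₁), ∫ y in (c + t * w₂)..(d + t * w₂),
        D2 f x y (h * w₁) (h * w₂) =
        ∫ x in a..b, ∫ y in c..d, D2 f (x + t * w₁) (y + t * w₂) (h * w₁) (h * w₂) := by
      rw [← intervalIntegral.integral_comp_add_right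
        (fun x => ∫ y in (c + t * w₂)..(d + t * w₂), D2 f x y (h * w₁) (h * w₂))]
      refine intervalIntegral.integral_congr fun x _ => ?_
      exact (intervalIntegral.integral_comp_add_right
        (fun y => D2 f (x + t * w₁) y (h * w₁) (h * w₂)) _).symm
    rw [e1]
    have e2 : ∀ x y : ℝ, D2 f (x + t * w₁) (y + t * w₂) (h * w₁) (h * w₂) =
        (f (x + (t - h) * w₁, y + (t - h) * w₂) + f (x + (t + h) * w₁, y + (t + h) * w₂)) +
          (-2) * f (x + t * w₁, y + t * w₂) := by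
      intro x y
      unfold D2
      rw [show x + t * w₁ + h * w₁ = x + (t + h) * w₁ by ring,
        show y + t * w₂ + h * w₂ = y + (t + h) * w₂ by ring,
        show x + t * w₁ - h * w₁ = x + (t - h) * w₁ by ring,
        show y + t * w₂ - h * w₂ = y + (t - h) * w₂ by ring]
      ring
    simp only [e2]
    have h1 := dbl_add (F := fun z : ℝ × ℝ => f (z.1 + (t - h) * w₁, z.2 + (t - h) * w₂) +
        f (z.1 + (t + h) * w₁, z.2 + (t + h) * w₂))
      (G := fun z : ℝ × ℝ => (-2) * f (z.1 + t * w₁, z.2 + t * w₂)) (by fun_prop) (by fun_prop)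
      (a := a) (b := b) (c := c) (d := d)
    have h2 := dbl_add (F := fun z : ℝ × ℝ => f (z.1 + (t - h) * w₁, z.2 + (t - h) * w₂))
      (G := fun z : ℝ × ℝ => f (z.1 + (t + h) * w₁, z.2 + (t + h) * w₂)) (by fun_prop) (by fun_prop)
      (a := a) (b := b) (c := c) (d := d)
    simp only at h1 h2
    rw [h1, h2]
    simp only [intervalIntegral.integral_const_mul, hγ]
    ring
  -- the comparison
  set κ : ℝ := 8 * K * |w₂| * |w₁| with hκ
  have hκ0 : 0 ≤ κ := by positivity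
  have key : ∀ n : ℕ, 2 * γ 0 ≤ γ (-1) + γ 1 + (264 * M * |w₂| * |w₁| +
      2 * κ * (5 / 4 * (|a| + |w₁| + 2) / w₁ ^ 2 + 5 / 4 * (|b| + |w₁| + 2) / w₁ ^ 2 +
        5 / 4 * (|c| + |w₂| + 2) / w₂ ^ 2 + 5 / 4 * (|d| + |w₂| + 2) / w₂ ^ 2)) * (2 / 3) ^ n := by
    intro n
    set κn : ℝ := 264 * M * (2 / 3) ^ n * |w₂| * |w₁| with hκn
    have hκn0 : 0 ≤ κn := by positivity
    set ψ : ℝ → ℝ := fun t => κn * t ^ 2 / 2 + κ * (Psi n a w₁ t + Psi n b w₁ t + Psi n c w₂ t +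
      Psi n d w₂ t) with hψ
    have hψc : Continuous ψ := by
      have h1 := Psi_cont n a w₁
      have h2 := Psi_cont n b w₁
      have h3 := Psi_cont n c w₂
      have h4 := Psi_cont n d w₂
      fun_prop
    have hloc : ∀ t ∈ Ioo (-1 : ℝ) 1, ∃ ε > 0, ∀ h, 0 < h → h < ε →
        2 * (γ t + ψ t) ≤ (γ (t - h) + ψ (t - h)) + (γ (t + h) + ψ (t + h)) := by
      intro t ht
      have htabs : |t| ≤ 1 := abs_le.2 ⟨ht.1.le, ht.2.le⟩
      have hbox : ∀ p ω : ℝ, |p + t * ω| ≤ |p| + |ω| := fun p ω => by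
        have h1 : |t * ω| ≤ |ω| := by
          rw [abs_mul]
          exact mul_le_of_le_one_left (abs_nonneg _) htabs
        linarith [abs_add_le p (t * ω)]
      -- crude bound
      have hcr : ∀ h : ℝ, 0 < h → h < 1 → -(κ * h ^ 2) ≤ γ (t - h) + γ (t + h) - 2 * γ t := by
        intro h hh0 hh1
        rw [hdd]
        have g1 : |h * w₁| ≤ |w₁| := by
          rw [abs_mul, abs_of_pos hh0]
          exact mul_le_of_le_one_left (abs_nonneg _) hh1.le
        have g2 : |h * w₂| ≤ |w₂| := by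
          rw [abs_mul, abs_of_pos hh0]
          exact mul_le_of_le_one_left (abs_nonneg _) hh1.le
        have ha := abs_le.1 (hbox a w₁)
        have hb := abs_le.1 (hbox b w₁)
        have hc := abs_le.1 (hbox c w₂)
        have hd := abs_le.1 (hbox d w₂)
        have h1 := abs_nonneg a
        have h2 := abs_nonneg b
        have h3 := abs_nonneg c
        have h4 := abs_nonneg d
        have h5 := abs_nonneg w₁
        have h6 := abs_nonneg w₂
        have h7 := hf.crude hK (a := a + t * w₁) (b := b + t * w₁) (c := c + t * w₂)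
          (d := d + t * w₂) (v := h * w₁) (w := h * w₂) (by linarith) (by linarith)
          (by linarith [ha.1]) (by linarith [hb.2]) (by linarith [hc.1]) (by linarith [hd.2])
        refine le_trans (le_of_eq ?_) h7
        rw [abs_mul, abs_mul, abs_of_pos hh0, hκ]
        ring
      have p1 := fun h => Psi_dd n a w₁ t h
      have p2 := fun h => Psi_dd n b w₁ t h
      have p3 := fun h => Psi_dd n c w₂ t h
      have p4 := fun h => Psi_dd n d w₂ t h
      -- bad sides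
      have hbad : (∃ ε > 0, ∀ h, 0 < h → h < ε →
          2 * (Psi n a w₁ t + Psi n b w₁ t + Psi n c w₂ t + Psi n d w₂ t) + h ^ 2 ≤
          (Psi n a w₁ (t - h) + Psi n b w₁ (t - h) + Psi n c w₂ (t - h) + Psi n d w₂ (t - h)) +
          (Psi n a w₁ (t + h) + Psi n b w₁ (t + h) + Psi n c w₂ (t + h) + Psi n d w₂ (t + h))) →
          ∃ ε > 0, ∀ h, 0 < h → h < ε →
            2 * (γ t + ψ t) ≤ (γ (t - h) + ψ (t - h)) + (γ (t + h) + ψ (t + h)) := by
        rintro ⟨ε, hε, h1⟩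
        refine ⟨min ε 1, lt_min hε one_pos, fun h hh0 hh => ?_⟩
        have h2 := h1 h hh0 (hh.trans_le (min_le_left _ _))
        have h3 := hcr h hh0 (hh.trans_le (min_le_right _ _))
        have h4 := mul_le_mul_of_nonneg_left h2 hκ0
        have h5 : 0 ≤ κn * h ^ 2 := by positivity
        simp only [hψ]
        nlinarith
      by_cases ha : ∃ e ∈ Ends n, 0 < a + t * w₁ - (e - (1 / 3) ^ n / 8) ∧
          a + t * w₁ - (e - (1 / 3) ^ n / 8) < 5 / 4 * (1 / 3) ^ n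
      · obtain ⟨e, he, hb⟩ := ha
        obtain ⟨ε, hε, h1⟩ := Psi_bad h₁ he hb
        exact hbad ⟨ε, hε, fun h hh0 hh => by linarith [h1 h hh0 hh, p1 h, p2 h, p3 h, p4 h]⟩
      by_cases hb : ∃ e ∈ Ends n, 0 < b + t * w₁ - (e - (1 / 3) ^ n / 8) ∧
          b + t * w₁ - (e - (1 / 3) ^ n / 8) < 5 / 4 * (1 / 3) ^ n
      · obtain ⟨e, he, hb⟩ := hb
        obtain ⟨ε, hε, h1⟩ := Psi_bad h₁ he hb
        exact hbad ⟨ε, hε, fun h hh0 hh => by linarith [h1 h hh0 hh, p1 h, p2 h, p3 h, p4 h]⟩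
      by_cases hc : ∃ e ∈ Ends n, 0 < c + t * w₂ - (e - (1 / 3) ^ n / 8) ∧
          c + t * w₂ - (e - (1 / 3) ^ n / 8) < 5 / 4 * (1 / 3) ^ n
      · obtain ⟨e, he, hb⟩ := hc
        obtain ⟨ε, hε, h1⟩ := Psi_bad h₂ he hb
        exact hbad ⟨ε, hε, fun h hh0 hh => by linarith [h1 h hh0 hh, p1 h, p2 h, p3 h, p4 h]⟩
      by_cases hd : ∃ e ∈ Ends n, 0 < d + t * w₂ - (e - (1 / 3) ^ n / 8) ∧
          d + t * w₂ - (e - (1 / 3) ^ n / 8) < 5 / 4 * (1 / 3) ^ n
      · obtain ⟨e, he, hb⟩ := hd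
        obtain ⟨ε, hε, h1⟩ := Psi_bad h₂ he hb
        exact hbad ⟨ε, hε, fun h hh0 hh => by linarith [h1 h hh0 hh, p1 h, p2 h, p3 h, p4 h]⟩
      -- all sides are good
      push Not at ha hb hc hd
      have hW : 0 < |w₁| + |w₂| + 1 := by positivity
      have hr : (0 : ℝ) < (1 / 3) ^ n / 16 := by positivity
      refine ⟨(1 / 3) ^ n / 16 / (|w₁| + |w₂| + 1), div_pos hr hW, fun h hh0 hh => ?_⟩
      rw [lt_div_iff₀ hW] at hh
      have g1 : |h * w₁| ≤ (1 / 3) ^ n / 16 := by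
        rw [abs_mul, abs_of_pos hh0]
        nlinarith [abs_nonneg w₁, abs_nonneg w₂]
      have g2 : |h * w₂| ≤ (1 / 3) ^ n / 16 := by
        rw [abs_mul, abs_of_pos hh0]
        nlinarith [abs_nonneg w₁, abs_nonneg w₂]
      have h3 := hf.good hM (n := n) (a := a + t * w₁) (b := b + t * w₁) (c := c + t * w₂)
        (d := d + t * w₂) (v := h * w₁) (w := h * w₂) (by linarith) (by linarith) g1 g2
        (fun e he hh => absurd hh.2 (not_lt.2 (ha e he hh.1)))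
        (fun e he hh => absurd hh.2 (not_lt.2 (hb e he hh.1)))
        (fun e he hh => absurd hh.2 (not_lt.2 (hc e he hh.1)))
        (fun e he hh => absurd hh.2 (not_lt.2 (hd e he hh.1)))
      rw [← hdd, abs_mul, abs_mul, abs_of_pos hh0] at h3
      have h4 : 264 * M * (2 / 3) ^ n * (h * |w₂|) * (h * |w₁|) = κn * h ^ 2 := by
        rw [hκn]
        ring
      rw [h4] at h3
      have h5 : 0 ≤ (Psi n a w₁ (t - h) + Psi n b w₁ (t - h) + Psi n c w₂ (t - h) +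
          Psi n d w₂ (t - h)) + (Psi n a w₁ (t + h) + Psi n b w₁ (t + h) + Psi n c w₂ (t + h) +
          Psi n d w₂ (t + h)) - 2 * (Psi n a w₁ t + Psi n b w₁ t + Psi n c w₂ t + Psi n d w₂ t) := by
        linarith [p1 h, p2 h, p3 h, p4 h]
      have h6 := mul_nonneg hκ0 h5
      simp only [hψ]
      nlinarith
    have h1 := below_chord (g := fun t => γ t + ψ t) (show (-1 : ℝ) < 1 by norm_num)
      (hγc.add hψc).continuousOn hloc 0 ⟨by norm_num, by norm_num⟩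
    have h2 : 0 ≤ ψ 0 := by
      have g1 := Psi_nonneg n a w₁ 0
      have g2 := Psi_nonneg n b w₁ 0
      have g3 := Psi_nonneg n c w₂ 0
      have g4 := Psi_nonneg n d w₂ 0
      simp only [hψ]
      positivity
    have hpsi : ∀ t : ℝ, |t| ≤ 1 → t ^ 2 = 1 → ψ t ≤ κn / 2 + κ * (
        5 / 4 * (|a| + |w₁| + 2) / w₁ ^ 2 * (2 / 3) ^ n + 5 / 4 * (|b| + |w₁| + 2) / w₁ ^ 2 * (2 / 3) ^ n +
        5 / 4 * (|c| + |w₂| + 2) / w₂ ^ 2 * (2 / 3) ^ n +
        5 / 4 * (|d| + |w₂| + 2) / w₂ ^ 2 * (2 / 3) ^ n) := by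
      intro t ht ht2
      simp only [hψ, ht2]
      have g1 := Psi_le (n := n) (σ := a) h₁ ht
      have g2 := Psi_le (n := n) (σ := b) h₁ ht
      have g3 := Psi_le (n := n) (σ := c) h₂ ht
      have g4 := Psi_le (n := n) (σ := d) h₂ ht
      have g5 := mul_le_mul_of_nonneg_left (add_le_add (add_le_add (add_le_add g1 g2) g3) g4) hκ0
      linarith
    have h3 := hpsi 1 (by norm_num) (by norm_num)
    have h4 := hpsi (-1) (by norm_num) (by norm_num)
    have h5 : κn = 264 * M * |w₂| * |w₁| * (2 / 3) ^ n := by rw [hκn]; ring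
    nlinarith
  have hlim : Filter.Tendsto (fun n : ℕ => γ (-1) + γ 1 + (264 * M * |w₂| * |w₁| +
      2 * κ * (5 / 4 * (|a| + |w₁| + 2) / w₁ ^ 2 + 5 / 4 * (|b| + |w₁| + 2) / w₁ ^ 2 +
        5 / 4 * (|c| + |w₂| + 2) / w₂ ^ 2 + 5 / 4 * (|d| + |w₂| + 2) / w₂ ^ 2)) * (2 / 3 : ℝ) ^ n)
      Filter.atTop (nhds (γ (-1) + γ 1 + (264 * M * |w₂| * |w₁| +
      2 * κ * (5 / 4 * (|a| + |w₁| + 2) / w₁ ^ 2 + 5 / 4 * (|b| + |w₁| + 2) / w₁ ^ 2 +
        5 / 4 * (|c| + |w₂| + 2) / w₂ ^ 2 + 5 / 4 * (|d| + |w₂| + 2) / w₂ ^ 2)) * 0)) :=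
    tendsto_const_nhds.add (tendsto_const_nhds.mul
      (tendsto_pow_atTop_nhds_zero_of_lt_one (by norm_num) (by norm_num)))
  have h1 := ge_of_tendsto' hlim key
  have h2 := hdd 0 1
  simp only [zero_mul, add_zero, one_mul, zero_sub, zero_add] at h2
  rw [← h2]
  linarith

theorem Hyp.D2_nonneg (x y w₁ w₂ : ℝ) : 0 ≤ D2 f x y w₁ w₂ := by
  by_cases h₁ : w₁ = 0
  · have h := dd_nonneg (hf.slice_y x) y w₂
    unfold dd at h
    unfold D2
    rw [h₁, add_zero, sub_zero]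
    linarith
  by_cases h₂ : w₂ = 0
  · have h := dd_nonneg (hf.slice_x y) x w₁
    unfold dd at h
    unfold D2
    rw [h₂, add_zero, sub_zero]
    linarith
  by_contra hcon
  push Not at hcon
  have hc := cont_D2 hf.cont w₁ w₂
  have h1 : ∀ᶠ z : ℝ × ℝ in nhds (x, y), D2 f z.1 z.2 w₁ w₂ < D2 f x y w₁ w₂ / 2 :=
    hc.continuousAt.eventually_lt continuousAt_const (by simp only; linarith)
  obtain ⟨ε, hε, h2⟩ := Metric.eventually_nhds_iff.1 h1
  have h3 := hf.int_nonneg (a := x) (b := x + ε / 2) (c := y) (d := y + ε / 2) (by linarith)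
    (by linarith) h₁ h₂
  have h4 := dbl_mono (F := fun z : ℝ × ℝ => D2 f z.1 z.2 w₁ w₂)
    (G := fun _ => D2 f x y w₁ w₂ / 2) hc continuous_const
    (a := x) (b := x + ε / 2) (c := y) (d := y + ε / 2) (by linarith) (by linarith)
    (fun x' hx' y' hy' => by
      refine (h2 (y := (x', y')) ?_).le
      rw [Prod.dist_eq, max_lt_iff]
      simp only [Real.dist_eq, abs_lt]
      refine ⟨⟨?_, ?_⟩, ⟨?_, ?_⟩⟩ <;> linarith [hx'.1, hx'.2, hy'.1, hy'.2])
  simp only [intervalIntegral.integral_const, smul_eq_mul] at h4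
  have h5 : (x + ε / 2 - x) * ((y + ε / 2 - y) * (D2 f x y w₁ w₂ / 2)) < 0 := by
    have : (x + ε / 2 - x) * ((y + ε / 2 - y) * (D2 f x y w₁ w₂ / 2)) =
        (ε / 2) ^ 2 * (D2 f x y w₁ w₂ / 2) := by ring
    rw [this]
    exact mul_neg_of_pos_of_neg (by positivity) (by linarith)
  linarith

/-- a continuous function which is locally convex off the Cantor dust is convex -/
theorem Hyp.convex : ConvexOn ℝ univ f := by
  refine ⟨convex_univ, fun p _ q _ a b ha hb hab => ?_⟩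
  have h1 : ConvexOn ℝ univ (fun t : ℝ => f (p + t • (q - p))) := by
    refine convexOn_of_local (hf.cont.comp (by fun_prop)) fun t => ⟨1, one_pos, fun s _ _ => ?_⟩
    have h2 := hf.D2_nonneg (p.1 + t * (q.1 - p.1)) (p.2 + t * (q.2 - p.2)) (s * (q.1 - p.1))
      (s * (q.2 - p.2))
    unfold D2 at h2
    have e : ∀ u : ℝ, p + u • (q - p) = (p.1 + u * (q.1 - p.1), p.2 + u * (q.2 - p.2)) := fun u => rfl
    simp only [e]
    rw [show p.1 + (t - s) * (q.1 - p.1) = p.1 + t * (q.1 - p.1) - s * (q.1 - p.1) by ring,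
      show p.2 + (t - s) * (q.2 - p.2) = p.2 + t * (q.2 - p.2) - s * (q.2 - p.2) by ring,
      show p.1 + (t + s) * (q.1 - p.1) = p.1 + t * (q.1 - p.1) + s * (q.1 - p.1) by ring,
      show p.2 + (t + s) * (q.2 - p.2) = p.2 + t * (q.2 - p.2) + s * (q.2 - p.2) by ring]
    linarith
  have h2 := h1.2 (mem_univ 0) (mem_univ 1) ha hb hab
  have e0 : p + (0 : ℝ) • (q - p) = p := by module
  have e1 : p + (1 : ℝ) • (q - p) = q := by module
  have e2 : p + (a • (0 : ℝ) + b • (1 : ℝ)) • (q - p) = a • p + b • q := by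
    have : a = 1 - b := by linarith
    subst this
    simp only [smul_eq_mul, mul_zero, mul_one, zero_add]
    module
  simp only [e0, e1] at h2
  rwa [e2] at h2

end

end Pool.Agent.Q158.Dust
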