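import Mathlib

set_option autoImplicit false

open Set Filter Topology Polynomial

namespace Pool.Agent.Q158.Ent

section linear

variable {p : ℕ} [Fact p.Prime] {V : Type*} [AddCommGroup V] [Module (ZMod p) V]

/-- independence over the polynomial ring acting through `L` -/
def Ind (L : V →ₗ[ZMod p] V) {k : ℕ} (x : Fin k → V) : Prop :=
  ∀ f : Fin k → (ZMod p)[X], ∑ i, (aeval L (f i)) (x i) = 0 → ∀ i, f i = 0

lemma orbit_finite_of_aeval_eq_zero (L : V →ₗ[ZMod p] V) {h : (ZMod p)[X]} (hh : h ≠ 0) {y : V}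
    (hy : aeval L h y = 0) : (Set.range fun i : ℕ => (L ^ i) y).Finite := by
  have hc : h.leadingCoeff ≠ 0 := leadingCoeff_ne_zero.mpr hh
  set h' : (ZMod p)[X] := h * C h.leadingCoeff⁻¹ with hh'
  have hmon : h'.Monic := monic_mul_leadingCoeff_inv hh
  have hy' : aeval L h' y = 0 := by
    rw [hh', mul_comm, map_mul]
    show (aeval L (C h.leadingCoeff⁻¹)) ((aeval L h) y) = 0
    rw [hy, map_zero]
  have hfin : Finite (degreeLT (ZMod p) h'.natDegree) := Module.finite_of_finite (ZMod p)
  have hset : (Set.range fun r : degreeLT (ZMod p) h'.natDegree => (aeval L (r : (ZMod p)[X])) y).Finite :=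
    Set.finite_range _
  refine hset.subset ?_
  rintro _ ⟨i, rfl⟩
  have hdiv : (X ^ i : (ZMod p)[X]) %ₘ h' + h' * (X ^ i /ₘ h') = X ^ i := modByMonic_add_div _ _
  have hmem : (X ^ i : (ZMod p)[X]) %ₘ h' ∈ degreeLT (ZMod p) h'.natDegree := by
    rw [mem_degreeLT]
    have := degree_modByMonic_lt (X ^ i : (ZMod p)[X]) hmon
    rwa [degree_eq_natDegree hmon.ne_zero] at this
  refine ⟨⟨_, hmem⟩, ?_⟩
  show (aeval L ((X ^ i : (ZMod p)[X]) %ₘ h')) y = (L ^ i) y
  have e1 : (aeval L (X ^ i : (ZMod p)[X])) y = (L ^ i) y := by rw [map_pow, aeval_X]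
  rw [← e1]
  conv_rhs => rw [← hdiv]
  rw [map_add, LinearMap.add_apply, mul_comm h', map_mul]
  show _ = _ + (aeval L (X ^ i /ₘ h')) ((aeval L h') y)
  rw [hy', map_zero, add_zero]

variable [TopologicalSpace V] [IsTopologicalAddGroup V]

lemma continuous_aeval {L : V →ₗ[ZMod p] V} (hL : Continuous L) (g : (ZMod p)[X]) :
    Continuous (aeval L g) := by
  have hpow : ∀ i : ℕ, Continuous (L ^ i : V →ₗ[ZMod p] V) := by
    intro i
    induction i with
    | zero => rw [pow_zero]; exact continuous_id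
    | succ n ih => rw [pow_succ]; exact ih.comp hL
  have hs : ∀ c : ZMod p, Continuous fun x : V => c • x := by
    intro c
    have : (fun x : V => c • x) = fun x : V => c.val • x := by
      ext x
      conv_lhs => rw [← ZMod.natCast_zmod_val c]
      rw [Nat.cast_smul_eq_nsmul]
    rw [this]
    exact continuous_nsmul _
  have : (aeval L g : V → V) = fun x => ∑ i ∈ Finset.range (g.natDegree + 1), g.coeff i • (L ^ i) x := by
    ext x
    rw [aeval_eq_sum_range]
    simp [LinearMap.sum_apply]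
  rw [this]
  exact continuous_finsetSum _ fun i _ => (hs _).comp (hpow i)

variable [T2Space V] [CompactSpace V]

lemma ind_succ {L : V →ₗ[ZMod p] V} (hL : Continuous L) {y : V}
    (hy : ∀ h : (ZMod p)[X], h ≠ 0 → aeval L h y ≠ 0) {k : ℕ} {x : Fin k → V} (hx : Ind L x) :
    ∃ z : V, Ind L (Fin.cons z x : Fin (k + 1) → V) := by
  by_contra hcon
  push Not at hcon
  let ι := {q : (ZMod p)[X] × (Fin k → (ZMod p)[X]) // q.1 ≠ 0}
  have hcount : Countable ((ZMod p)[X]) := by
    have hinj : Function.Injective (fun f : (ZMod p)[X] => (⟨f.natDegree, fun i : Fin (f.natDegree + 1) =>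
        f.coeff i⟩ : Σ n : ℕ, (Fin (n + 1) → ZMod p))) := by
      intro f g hfg
      simp only [Sigma.mk.injEq] at hfg
      obtain ⟨h1, h2⟩ := hfg
      ext n
      by_cases hn : n < f.natDegree + 1
      · have h3 : ∀ (m m' : ℕ) (_ : m = m') (u : Fin (m + 1) → ZMod p) (w : Fin (m' + 1) → ZMod p),
            HEq u w → ∀ (j : ℕ) (h : j < m + 1) (h' : j < m' + 1), u ⟨j, h⟩ = w ⟨j, h'⟩ := by
          rintro m m' rfl u w huw j h h'
          rw [eq_of_heq huw]
        exact h3 _ _ h1 _ _ h2 n hn (by rw [← h1]; exact hn)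
      · push Not at hn
        rw [coeff_eq_zero_of_natDegree_lt (by omega), coeff_eq_zero_of_natDegree_lt (by rw [← h1]; omega)]
    exact hinj.countable
  let Cq : ι → Set V := fun q => {z | aeval L q.1.1 z + ∑ i, (aeval L (q.1.2 i)) (x i) = 0}
  have hclosed : ∀ q, IsClosed (Cq q) := fun q =>
    isClosed_eq ((continuous_aeval hL _).add continuous_const) continuous_const
  have hcover : ⋃ q, Cq q = univ := by
    rw [eq_univ_iff_forall]
    intro z
    have h1 := hcon z
    unfold Ind at h1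
    push Not at h1
    obtain ⟨f, hf, i, hi⟩ := h1
    rw [Fin.sum_univ_succ] at hf
    simp only [Fin.cons_zero, Fin.cons_succ] at hf
    have h0 : f 0 ≠ 0 := by
      intro h0
      rw [h0, map_zero, LinearMap.zero_apply, zero_add] at hf
      have h2 := hx (fun j => f j.succ) hf
      apply hi
      refine Fin.cases h0 (fun j => h2 j) i
    rw [mem_iUnion]
    exact ⟨⟨(f 0, fun j => f j.succ), h0⟩, hf⟩
  obtain ⟨q, z0, hz0⟩ := nonempty_interior_of_iUnion_of_closed hclosed hcover
  -- the kernel of `q.1.1` is open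
  set M : V →ₗ[ZMod p] V := aeval L q.1.1 with hM
  have hker : IsOpen ((M.toAddMonoidHom.ker : AddSubgroup V) : Set V) := by
    apply AddSubgroup.isOpen_of_mem_nhds (g := 0)
    have hn : Cq q ∈ 𝓝 z0 := mem_interior_iff_mem_nhds.mp hz0
    have hcont : ContinuousAt (fun v : V => z0 + v) 0 := by fun_prop
    have hn' : (fun v : V => z0 + v) ⁻¹' (Cq q) ∈ 𝓝 (0 : V) := by
      apply hcont.preimage_mem_nhds
      simpa using hn
    filter_upwards [hn'] with v hv
    have hz : z0 ∈ Cq q := interior_subset hz0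
    have e1 : M (z0 + v) + ∑ i, (aeval L (q.1.2 i)) (x i) = 0 := hv
    have e2 : M z0 + ∑ i, (aeval L (q.1.2 i)) (x i) = 0 := hz
    show M v = 0
    rw [map_add] at e1
    have : M v = (M z0 + M v + ∑ i, (aeval L (q.1.2 i)) (x i)) - (M z0 + ∑ i, (aeval L (q.1.2 i)) (x i)) := by
      abel
    rw [this, e1, e2, sub_zero]
  have hfinq : Finite (V ⧸ M.toAddMonoidHom.ker) := AddSubgroup.quotient_finite_of_isOpen _ hker
  have hrange : (Set.range M).Finite := by
    have h1 : (Set.range (QuotientAddGroup.kerLift M.toAddMonoidHom)).Finite := Set.finite_range _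
    refine h1.subset ?_
    rintro _ ⟨v, rfl⟩
    exact ⟨(v : V ⧸ M.toAddMonoidHom.ker), rfl⟩
  -- pigeonhole on the orbit of `y`
  have hninj : ¬ Function.Injective (fun i : ℕ => M ((L ^ i) y)) := by
    intro hinj
    have h1 : (Set.range fun i : ℕ => M ((L ^ i) y)).Finite :=
      hrange.subset (by rintro _ ⟨i, rfl⟩; exact ⟨_, rfl⟩)
    exact Set.infinite_range_of_injective hinj h1
  unfold Function.Injective at hninj
  push Not at hninj
  obtain ⟨a, b, hab, hne⟩ := hninj
  have hXne : (X ^ a - X ^ b : (ZMod p)[X]) ≠ 0 := by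
    intro h0
    have h1 := congrArg (fun g => coeff g a) h0
    simp [coeff_X_pow, hne] at h1
  have hprod : q.1.1 * (X ^ a - X ^ b) ≠ 0 := mul_ne_zero q.2 hXne
  apply hy _ hprod
  rw [map_mul]
  show M ((aeval L (X ^ a - X ^ b : (ZMod p)[X])) y) = 0
  rw [map_sub, map_pow, map_pow, aeval_X, LinearMap.sub_apply, map_sub, sub_eq_zero]
  exact hab

lemma exists_ind {L : V →ₗ[ZMod p] V} (hL : Continuous L) {y : V}
    (hy : ∀ h : (ZMod p)[X], h ≠ 0 → aeval L h y ≠ 0) (k : ℕ) : ∃ x : Fin k → V, Ind L x := by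
  induction k with
  | zero => exact ⟨Fin.elim0, fun f _ i => i.elim0⟩
  | succ n ih =>
    obtain ⟨x, hx⟩ := ih
    obtain ⟨z, hz⟩ := ind_succ hL hy hx
    exact ⟨_, hz⟩

end linear

end Pool.Agent.Q158.Ent
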