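import Mathlib
import Pool.Agent.Q158.EntA

set_option autoImplicit false

open Set Filter Topology Polynomial

namespace Pool.Agent.Q158.Ent

section group

variable {G : Type*} [AddCommGroup G]

/-- `T_n(φ,F) = F + φ(F) + ⋯ + φ^{n-1}(F)` -/
def T (φ : AddMonoid.End G) (F : AddSubgroup G) (n : ℕ) : AddSubgroup G :=
  ⨆ i : Fin n, F.map (φ ^ (i : ℕ) : AddMonoid.End G)

/-- the algebraic entropy: the supremum over the finite subgroups `F` of the limit of
`log |T_n(φ,F)| / n` (written as an upper limit) -/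
noncomputable def ent (φ : AddMonoid.End G) : EReal :=
  ⨆ F : {F : AddSubgroup G // Finite F},
    limsup (fun n : ℕ => ((Real.log (Nat.card (T φ F.1 n)) / n : ℝ) : EReal)) atTop

lemma closure_finite {m : ℕ} (hm : m ≠ 0) (hG : ∀ x : G, m • x = 0) {S : Set G} (hS : S.Finite) :
    Finite (AddSubgroup.closure S) := by
  have : Finite S := hS
  have hfg : AddGroup.FG (AddSubgroup.closure S) := AddGroup.closure_finite_fg S
  apply AddCommGroup.finite_of_fg_isAddTorsion
  intro x
  rw [isOfFinAddOrder_iff_nsmul_eq_zero]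
  exact ⟨m, Nat.pos_of_ne_zero hm, by ext; exact hG x⟩

/-- elements with a finite orbit -/
def Fo (φ : AddMonoid.End G) (x : G) : Prop := (Set.range fun i : ℕ => (φ ^ i) x).Finite

lemma Fo_add {φ : AddMonoid.End G} {x y : G} (hx : Fo φ x) (hy : Fo φ y) : Fo φ (x + y) := by
  have h := (hx.prod hy).image (fun q : G × G => q.1 + q.2)
  refine h.subset ?_
  rintro _ ⟨i, rfl⟩
  exact ⟨((φ ^ i) x, (φ ^ i) y), ⟨⟨i, rfl⟩, ⟨i, rfl⟩⟩, by simp⟩

lemma Fo_zero (φ : AddMonoid.End G) : Fo φ 0 := by
  have : (Set.range fun i : ℕ => (φ ^ i) (0 : G)) ⊆ {0} := by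
    rintro _ ⟨i, rfl⟩; simp
  exact (Set.finite_singleton 0).subset this

lemma Fo_nsmul {φ : AddMonoid.End G} {x : G} (hx : Fo φ x) (n : ℕ) : Fo φ (n • x) := by
  induction n with
  | zero => rw [zero_smul]; exact Fo_zero φ
  | succ n ih => rw [succ_nsmul]; exact Fo_add ih hx

lemma not_inj_of_Fo {φ : AddMonoid.End G} {x : G} (hx : Fo φ x) :
    ∃ a b : ℕ, a < b ∧ (φ ^ a) x = (φ ^ b) x := by
  have hninj : ¬ Function.Injective (fun i : ℕ => (φ ^ i) x) := fun hinj =>
    Set.infinite_range_of_injective hinj hx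
  unfold Function.Injective at hninj
  push Not at hninj
  obtain ⟨a, b, hab, hne⟩ := hninj
  rcases lt_or_gt_of_ne hne with h | h
  · exact ⟨a, b, h, hab⟩
  · exact ⟨b, a, h, hab.symm⟩

/-- if `φ^b y - φ^a y` has a finite orbit, then so has `y` -/
lemma Fo_of_sub {m : ℕ} (hm : m ≠ 0) (hG : ∀ x : G, m • x = 0) {φ : AddMonoid.End G} {y : G} {a b : ℕ}
    (hab : a < b) (h : Fo φ ((φ ^ b) y - (φ ^ a) y)) : Fo φ y := by
  set S : Set G := (Set.range fun i : ℕ => (φ ^ i) ((φ ^ b) y - (φ ^ a) y)) ∪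
    ((fun i : ℕ => (φ ^ i) y) '' Set.Iio b) with hS
  have hSf : S.Finite := h.union ((Set.finite_Iio b).image _)
  have hfin := closure_finite hm hG hSf
  have hmem : ∀ n : ℕ, (φ ^ n) y ∈ AddSubgroup.closure S := by
    intro n
    induction n using Nat.strong_induction_on with
    | _ n ih =>
      by_cases hn : n < b
      · exact AddSubgroup.subset_closure (Or.inr ⟨n, hn, rfl⟩)
      · push Not at hn
        have h1 : (φ ^ n) y = (φ ^ (n - b)) ((φ ^ b) y - (φ ^ a) y) + (φ ^ (n - b + a)) y := by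
          rw [map_sub, pow_add]
          have e1 : (φ ^ (n - b)) ((φ ^ b) y) = (φ ^ n) y := by
            show (φ ^ (n - b) * φ ^ b) y = (φ ^ n) y
            rw [← pow_add, Nat.sub_add_cancel hn]
          rw [e1]
          show _ = _ - (φ ^ (n - b)) ((φ ^ a) y) + (φ ^ (n - b)) ((φ ^ a) y)
          abel
        rw [h1]
        exact AddSubgroup.add_mem _ (AddSubgroup.subset_closure (Or.inl ⟨n - b, rfl⟩)) (ih _ (by omega))
  have : (AddSubgroup.closure S : Set G).Finite := hfin
  refine this.subset ?_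
  rintro _ ⟨i, rfl⟩
  exact hmem i

/-- from an infinite orbit to an infinite orbit in a `p`-torsion subgroup -/
lemma exists_prime {m : ℕ} (hm : m ≠ 0) (hG : ∀ x : G, m • x = 0) {φ : AddMonoid.End G} {x : G}
    (hx : ¬ Fo φ x) : ∃ p : ℕ, p.Prime ∧ ∃ y : G, p • y = 0 ∧ ¬ Fo φ y := by
  -- the least `d` such that `d • y` has a finite orbit for some `y` with an infinite orbit
  have hex : ∃ d : ℕ, 0 < d ∧ ∃ y : G, ¬ Fo φ y ∧ Fo φ (d • y) :=
    ⟨m, Nat.pos_of_ne_zero hm, x, hx, by rw [hG]; exact Fo_zero φ⟩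
  classical
  obtain ⟨hd0, y, hy, hdy⟩ := Nat.find_spec hex
  set d := Nat.find hex with hd
  have hmin : ∀ e < d, ¬ (0 < e ∧ ∃ y : G, ¬ Fo φ y ∧ Fo φ (e • y)) := fun e he => Nat.find_min hex he
  have hd1 : d ≠ 1 := by
    intro h1
    rw [h1, one_smul] at hdy
    exact hy hdy
  have hp := Nat.minFac_prime hd1
  set p := d.minFac with hpdef
  have hpd : p = d := by
    by_contra hne
    have hle : p < d := lt_of_le_of_ne (Nat.minFac_le hd0) hne
    obtain ⟨e, he⟩ := Nat.minFac_dvd d
    rw [← hpdef] at he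
    have he0 : 0 < e := by
      rcases Nat.eq_zero_or_pos e with h | h
      · rw [h, mul_zero] at he; omega
      · exact h
    have hed : e < d := by
      have := hp.two_le
      nlinarith
    by_cases h1 : Fo φ (e • y)
    · exact hmin e hed ⟨he0, y, hy, h1⟩
    · apply hmin p hle
      refine ⟨hp.pos, e • y, h1, ?_⟩
      rw [smul_smul, ← he]
      exact hdy
  rw [← hpd] at hdy
  obtain ⟨a, b, hab, heq⟩ := not_inj_of_Fo hdy
  refine ⟨p, hp, (φ ^ b) y - (φ ^ a) y, ?_, fun h => hy (Fo_of_sub hm hG hab h)⟩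
  rw [smul_sub, ← map_nsmul, ← map_nsmul, heq, sub_self]

/-- entropy zero when all orbits are finite -/
lemma ent_zero {m : ℕ} (hm : m ≠ 0) (hG : ∀ x : G, m • x = 0) {φ : AddMonoid.End G}
    (h : ∀ x, Fo φ x) : ent φ = 0 := by
  have key : ∀ F : AddSubgroup G, Finite F →
      limsup (fun n : ℕ => ((Real.log (Nat.card (T φ F n)) / n : ℝ) : EReal)) atTop = 0 := by
    intro F hF
    set S : Set G := ⋃ x ∈ (F : Set G), Set.range fun i : ℕ => (φ ^ i) x with hS
    have hSf : S.Finite := Set.Finite.biUnion hF fun x _ => h x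
    have hfin := closure_finite hm hG hSf
    have hle : ∀ n, T φ F n ≤ AddSubgroup.closure S := by
      intro n
      apply iSup_le
      rintro i _ ⟨x, hx, rfl⟩
      apply AddSubgroup.subset_closure
      rw [hS, mem_iUnion₂]
      exact ⟨x, hx, ⟨i, rfl⟩⟩
    have hcard : ∀ n, Nat.card (T φ F n) ≤ Nat.card (AddSubgroup.closure S) := fun n =>
      Nat.card_le_card_of_injective _ (AddSubgroup.inclusion_injective (hle n))
    have hpos : ∀ n, 1 ≤ Nat.card (T φ F n) := by
      intro n
      have : Finite (T φ F n) := Finite.of_injective _ (AddSubgroup.inclusion_injective (hle n))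
      exact Nat.card_pos
    have hlim : Tendsto (fun n : ℕ => (Real.log (Nat.card (T φ F n)) / n : ℝ)) atTop (𝓝 0) := by
      have h0 : Tendsto (fun n : ℕ => Real.log (Nat.card (AddSubgroup.closure S)) / (n : ℝ)) atTop (𝓝 0) :=
        tendsto_const_div_atTop_nhds_zero_nat _
      refine squeeze_zero (fun n => ?_) (fun n => ?_) h0
      · apply div_nonneg _ (Nat.cast_nonneg n)
        apply Real.log_nonneg
        exact_mod_cast hpos n
      · apply div_le_div_of_nonneg_right _ (Nat.cast_nonneg n)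
        apply Real.log_le_log
        · exact_mod_cast hpos n
        · exact_mod_cast hcard n
    have h1 : Tendsto (fun n : ℕ => ((Real.log (Nat.card (T φ F n)) / n : ℝ) : EReal)) atTop (𝓝 ((0 : ℝ) : EReal)) :=
      (continuous_coe_real_ereal.tendsto 0).comp hlim
    rw [h1.limsup_eq]
    rfl
  unfold ent
  have : (fun F : {F : AddSubgroup G // Finite F} =>
      limsup (fun n : ℕ => ((Real.log (Nat.card (T φ F.1 n)) / n : ℝ) : EReal)) atTop) = fun _ => 0 := by
    ext F
    exact key F.1 F.2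
  rw [this]
  have : Nonempty {F : AddSubgroup G // Finite F} := ⟨⟨⊥, inferInstance⟩⟩
  exact iSup_const

/-- lower bound for the entropy -/
lemma le_ent {m : ℕ} (hm : m ≠ 0) (hG : ∀ x : G, m • x = 0) {φ : AddMonoid.End G} {p : ℕ} [hp : Fact p.Prime]
    {k : ℕ} (x : Fin k → G)
    (hind : ∀ (n : ℕ) (c c' : Fin k → Fin n → Fin p),
      ∑ i, ∑ j, (c i j : ℕ) • (φ ^ (j : ℕ)) (x i) = ∑ i, ∑ j, (c' i j : ℕ) • (φ ^ (j : ℕ)) (x i) → c = c') :
    ((k * Real.log p : ℝ) : EReal) ≤ ent φ := by
  have hFf : Finite (AddSubgroup.closure (Set.range x)) := closure_finite hm hG (Set.finite_range x)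
  set F : AddSubgroup G := AddSubgroup.closure (Set.range x) with hF
  have hTfin : ∀ n, Finite (T φ F n) := by
    intro n
    set S : Set G := ⋃ i : Fin n, (F.map (φ ^ (i : ℕ) : AddMonoid.End G) : Set G) with hS
    have hSf : S.Finite := by
      apply Set.finite_iUnion
      intro i
      have : (F : Set G).Finite := hFf
      exact this.image _
    have hfin := closure_finite hm hG hSf
    have hle : T φ F n ≤ AddSubgroup.closure S := by
      apply iSup_le
      intro i y hy
      apply AddSubgroup.subset_closure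
      rw [hS, mem_iUnion]
      exact ⟨i, hy⟩
    exact Finite.of_injective _ (AddSubgroup.inclusion_injective hle)
  have hcard : ∀ n, p ^ (k * n) ≤ Nat.card (T φ F n) := by
    intro n
    have := hTfin n
    have hmem : ∀ c : Fin k → Fin n → Fin p, ∑ i, ∑ j, (c i j : ℕ) • (φ ^ (j : ℕ)) (x i) ∈ T φ F n := by
      intro c
      apply AddSubgroup.sum_mem
      intro i _
      apply AddSubgroup.sum_mem
      intro j _
      apply AddSubgroup.nsmul_mem
      have : (φ ^ (j : ℕ)) (x i) ∈ F.map (φ ^ (j : ℕ) : AddMonoid.End G) :=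
        ⟨x i, AddSubgroup.subset_closure ⟨i, rfl⟩, rfl⟩
      exact (le_iSup (fun j : Fin n => F.map (φ ^ (j : ℕ) : AddMonoid.End G)) j) this
    have hinj : Function.Injective (fun c : Fin k → Fin n → Fin p =>
        (⟨∑ i, ∑ j, (c i j : ℕ) • (φ ^ (j : ℕ)) (x i), hmem c⟩ : T φ F n)) := by
      intro c c' hcc
      exact hind n c c' (congrArg Subtype.val hcc)
    have h1 := Nat.card_le_card_of_injective _ hinj
    have h2 : Nat.card (Fin k → Fin n → Fin p) = p ^ (k * n) := by
      rw [Nat.card_eq_fintype_card]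
      simp only [Fintype.card_fun, Fintype.card_fin]
      rw [← pow_mul, mul_comm n k]
    rw [h2] at h1
    exact h1
  have hlow : ((k * Real.log p : ℝ) : EReal) ≤
      limsup (fun n : ℕ => ((Real.log (Nat.card (T φ F n)) / n : ℝ) : EReal)) atTop := by
    have hc : limsup (fun _ : ℕ => ((k * Real.log p : ℝ) : EReal)) atTop = ((k * Real.log p : ℝ) : EReal) :=
      limsup_const _
    rw [← hc]
    refine limsup_le_limsup ?_ (by isBoundedDefault) (by isBoundedDefault)
    · filter_upwards [eventually_gt_atTop 0] with n hn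
      have hn' : (0 : ℝ) < n := by exact_mod_cast hn
      have h1 : ((p : ℝ) ^ (k * n)) ≤ (Nat.card (T φ F n) : ℝ) := by exact_mod_cast hcard n
      have hp0 : (0 : ℝ) < p := by exact_mod_cast hp.out.pos
      have h2 : Real.log ((p : ℝ) ^ (k * n)) ≤ Real.log (Nat.card (T φ F n)) :=
        Real.log_le_log (by positivity) h1
      rw [Real.log_pow] at h2
      push_cast at h2
      have h3 : (k * Real.log p : ℝ) ≤ Real.log (Nat.card (T φ F n)) / n := by
        rw [le_div_iff₀ hn']
        nlinarith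
      exact_mod_cast h3
  exact hlow.trans (le_iSup (fun F : {F : AddSubgroup G // Finite F} =>
    limsup (fun n : ℕ => ((Real.log (Nat.card (T φ F.1 n)) / n : ℝ) : EReal)) atTop) ⟨F, hFf⟩)

end group

theorem of_prime {G : Type*} [AddCommGroup G] {m : ℕ} (hm : m ≠ 0) (hG : ∀ x : G, m • x = 0)
    {φ : AddMonoid.End G} {p : ℕ} [hp : Fact p.Prime] {V : Type*} [AddCommGroup V] [Module (ZMod p) V]
    [TopologicalSpace V] [IsTopologicalAddGroup V] [T2Space V] [CompactSpace V]
    {L : V →ₗ[ZMod p] V} (hL : Continuous L) (ι : V →+ G) (hι : Function.Injective ι)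
    (hLφ : ∀ z, ι (L z) = φ (ι z)) {y : V} (hy : ¬ Fo φ (ι y)) : ent φ = ⊤ := by
  have hLpow : ∀ (i : ℕ) (z : V), ι ((L ^ i) z) = (φ ^ i) (ι z) := by
    intro i
    induction i with
    | zero => intro z; rfl
    | succ n ih =>
      intro z
      rw [pow_succ, pow_succ]
      show ι ((L ^ n) (L z)) = (φ ^ n) (φ (ι z))
      rw [ih, hLφ]
  have hy' : ∀ h : (ZMod p)[X], h ≠ 0 → aeval L h y ≠ 0 := by
    intro h hh h0
    apply hy
    have h1 := (orbit_finite_of_aeval_eq_zero L hh h0).image (fun z : V => ι z)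
    refine h1.subset ?_
    rintro _ ⟨i, rfl⟩
    exact ⟨(L ^ i) y, ⟨i, rfl⟩, hLpow i y⟩
  have hge : ∀ k : ℕ, ((k * Real.log p : ℝ) : EReal) ≤ ent φ := by
    intro k
    obtain ⟨x, hx⟩ := exists_ind hL hy' k
    apply le_ent hm hG (fun i => ι (x i))
    intro n c c' hcc
    let f : Fin k → (ZMod p)[X] := fun i =>
      ∑ j : Fin n, C (((c i j : ℕ) : ZMod p) - ((c' i j : ℕ) : ZMod p)) * X ^ (j : ℕ)
    have hf : ∀ i, (aeval L (f i)) (x i) =
        ∑ j : Fin n, (((c i j : ℕ) • (L ^ (j : ℕ)) (x i)) - ((c' i j : ℕ) • (L ^ (j : ℕ)) (x i))) := by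
      intro i
      show (aeval L (∑ j : Fin n, C (((c i j : ℕ) : ZMod p) - ((c' i j : ℕ) : ZMod p)) * X ^ (j : ℕ))) (x i) = _
      rw [map_sum, LinearMap.sum_apply]
      apply Finset.sum_congr rfl
      intro j _
      rw [map_mul, aeval_C, map_pow, aeval_X]
      show ((algebraMap (ZMod p) (Module.End (ZMod p) V)) _) ((L ^ (j : ℕ)) (x i)) = _
      rw [Module.algebraMap_end_apply, sub_smul, Nat.cast_smul_eq_nsmul, Nat.cast_smul_eq_nsmul]
    have hsum : ∑ i, (aeval L (f i)) (x i) = 0 := by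
      apply hι
      rw [map_zero, map_sum]
      have h2 : ∀ i, ι ((aeval L (f i)) (x i)) =
          ∑ j : Fin n, (c i j : ℕ) • (φ ^ (j : ℕ)) (ι (x i)) -
            ∑ j : Fin n, (c' i j : ℕ) • (φ ^ (j : ℕ)) (ι (x i)) := by
        intro i
        rw [hf i, map_sum, ← Finset.sum_sub_distrib]
        apply Finset.sum_congr rfl
        intro j _
        rw [map_sub, map_nsmul, map_nsmul, hLpow]
      simp only [h2]
      rw [Finset.sum_sub_distrib, hcc, sub_self]
    have h3 := hx f hsum
    ext i j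
    have h4 := congrArg (fun g => coeff g (j : ℕ)) (h3 i)
    simp only [f, finsetSum_coeff, coeff_C_mul, coeff_X_pow, coeff_zero] at h4
    rw [Finset.sum_eq_single j] at h4
    · simp only [if_true, mul_one, sub_eq_zero] at h4
      rw [ZMod.natCast_eq_natCast_iff] at h4
      exact h4.eq_of_lt_of_lt (c i j).2 (c' i j).2
    · intro l _ hl
      rw [if_neg, mul_zero]
      intro h5
      exact hl (Fin.ext h5.symm)
    · intro h; exact absurd (Finset.mem_univ j) h
  rw [EReal.eq_top_iff_forall_lt]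
  intro r
  have hlog : 0 < Real.log p := Real.log_pos (by exact_mod_cast hp.out.one_lt)
  obtain ⟨k, hk⟩ := exists_nat_gt (r / Real.log p)
  rw [div_lt_iff₀ hlog] at hk
  exact lt_of_lt_of_le (by exact_mod_cast hk) (hge k)

theorem dichotomy {K : Type*} [AddCommGroup K] [Finite K] [TopologicalSpace K] [DiscreteTopology K]
    (φ : AddMonoid.End (ℕ → K)) (hφ : Continuous φ) : ent φ = 0 ∨ ent φ = ⊤ := by
  have hm : Nat.card K ≠ 0 := Nat.card_pos.ne'
  have hG : ∀ x : ℕ → K, Nat.card K • x = 0 := by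
    intro x; ext n
    exact card_nsmul_eq_zero'
  by_cases hall : ∀ x : ℕ → K, Fo φ x
  · exact Or.inl (ent_zero hm hG hall)
  right
  push Not at hall
  obtain ⟨x0, hx0⟩ := hall
  obtain ⟨p, hp, y, hpy, hy⟩ := exists_prime hm hG hx0
  have hpf : Fact p.Prime := ⟨hp⟩
  let V : AddSubgroup (ℕ → K) := (nsmulAddMonoidHom p : (ℕ → K) →+ (ℕ → K)).ker
  have hV : ∀ z, z ∈ V ↔ p • z = 0 := fun z => Iff.rfl
  have hVc : IsClosed (V : Set (ℕ → K)) := isClosed_eq (continuous_nsmul p) continuous_const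
  have hcomp : CompactSpace (ℕ → K) := by
    have : Fintype K := Fintype.ofFinite K
    infer_instance
  have hcV : CompactSpace V := isCompact_iff_compactSpace.mp hVc.isCompact
  have hpV : ∀ z : V, p • z = 0 := fun z => by ext1; exact (hV z.1).mp z.2
  have hmem : ∀ z ∈ V, φ z ∈ V := by
    intro z hz
    rw [hV] at hz ⊢
    rw [← map_nsmul, hz, map_zero]
  let L0 : V →+ V :=
    { toFun := fun z => ⟨φ z.1, hmem z.1 z.2⟩
      map_zero' := by ext1; exact map_zero φ
      map_add' := by intro a b; ext1; exact map_add φ _ _ }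
  have hL0 : Continuous L0 := by
    show Continuous fun z : V => (⟨φ z.1, hmem z.1 z.2⟩ : V)
    exact (hφ.comp continuous_subtype_val).subtype_mk _
  exact @of_prime (ℕ → K) _ _ hm hG φ p hpf V _ (AddCommGroup.zmodModule (n := p) hpV) _ _ _ _
    (@AddMonoidHom.toZModLinearMap p V V _ _ (AddCommGroup.zmodModule (n := p) hpV)
      (AddCommGroup.zmodModule (n := p) hpV) L0) hL0 V.subtype V.subtype_injective (fun z => rfl)
      ⟨y, (hV y).mpr hpy⟩ hy

end Pool.Agent.Q158.Ent
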