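import Mathlib

/-! # Exponential moments of lacunary series (Riesz products) -/

set_option autoImplicit false

namespace Pool.Agent.Q158.Lac

open Complex Set MeasureTheory Filter Topology

/-- the character `e^{i j θ}` -/
noncomputable def ch (j : ℤ) (θ : ℝ) : ℂ := Complex.exp ((j : ℂ) * θ * I)

theorem ch_cont (j : ℤ) : Continuous (ch j) := by
  unfold ch
  fun_prop

theorem ch_norm (j : ℤ) (θ : ℝ) : ‖ch j θ‖ = 1 := by
  unfold ch
  have : (j : ℂ) * θ * I = ((j * θ : ℝ) : ℂ) * I := by push_cast; ring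
  rw [this, Complex.norm_exp_ofReal_mul_I]

theorem ch_mul (i j : ℤ) (θ : ℝ) : ch i θ * ch j θ = ch (i + j) θ := by
  unfold ch
  rw [← Complex.exp_add]
  congr 1
  push_cast
  ring

theorem ch_zero (θ : ℝ) : ch 0 θ = 1 := by
  simp [ch]

theorem ch_conj (j : ℤ) (θ : ℝ) : (starRingEnd ℂ) (ch j θ) = ch (-j) θ := by
  unfold ch
  rw [← Complex.exp_conj]
  congr 1
  simp only [map_mul, conj_ofReal, conj_I, map_intCast]
  push_cast
  ring

theorem int_ch {j : ℤ} (hj : j ≠ 0) : ∫ θ in (0 : ℝ)..(2 * Real.pi), ch j θ = 0 := by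
  have hc : ((j : ℂ) * I) ≠ 0 := mul_ne_zero (by exact_mod_cast hj) I_ne_zero
  have h1 : ∀ θ : ℝ, ch j θ = Complex.exp (((j : ℂ) * I) * θ) := by
    intro θ
    unfold ch
    congr 1
    ring
  simp only [h1]
  rw [integral_exp_mul_complex hc]
  have h2 : (j : ℂ) * I * ((2 * Real.pi : ℝ) : ℂ) = (j : ℂ) * (2 * Real.pi * I) := by
    push_cast
    ring
  rw [h2, Complex.exp_int_mul_two_pi_mul_I]
  simp

/-- the trigonometric polynomials of degree at most `D` -/
noncomputable def T (D : ℤ) : Submodule ℂ (ℝ → ℂ) := Submodule.span ℂ (ch '' {j : ℤ | |j| ≤ D})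

theorem ch_mem {D j : ℤ} (h : |j| ≤ D) : ch j ∈ T D := Submodule.subset_span ⟨j, h, rfl⟩

theorem T_cont {D : ℤ} {f : ℝ → ℂ} (hf : f ∈ T D) : Continuous f := by
  unfold T at hf
  induction hf using Submodule.span_induction with
  | mem x hx => obtain ⟨j, -, rfl⟩ := hx; exact ch_cont j
  | zero => exact continuous_zero
  | add x y _ _ hx hy => exact hx.add hy
  | smul a x _ hx => exact hx.const_smul a

theorem T_mono {D E : ℤ} (h : D ≤ E) : T D ≤ T E := by
  unfold T
  apply Submodule.span_mono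
  apply Set.image_mono
  intro j hj
  exact le_trans hj h

theorem T_mul {D : ℤ} {f : ℝ → ℂ} (hf : f ∈ T D) (n : ℤ) : (fun θ => f θ * ch n θ) ∈ T (D + |n|) := by
  unfold T at hf
  induction hf using Submodule.span_induction with
  | mem x hx =>
    obtain ⟨j, hj, rfl⟩ := hx
    have : (fun θ => ch j θ * ch n θ) = ch (j + n) := by
      funext θ
      exact ch_mul j n θ
    rw [this]
    apply ch_mem
    exact (abs_add_le j n).trans (by
      have : |j| ≤ D := hj
      linarith)
  | zero =>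
    have : (fun θ : ℝ => (0 : ℝ → ℂ) θ * ch n θ) = 0 := by
      funext θ
      simp
    rw [this]
    exact Submodule.zero_mem _
  | add x y _ _ hx hy =>
    have : (fun θ : ℝ => (x + y) θ * ch n θ) = (fun θ => x θ * ch n θ) + (fun θ => y θ * ch n θ) := by
      funext θ
      simp only [Pi.add_apply]
      ring
    rw [this]
    exact Submodule.add_mem _ hx hy
  | smul a x _ hx =>
    have : (fun θ : ℝ => (a • x) θ * ch n θ) = a • (fun θ => x θ * ch n θ) := by
      funext θ
      simp only [Pi.smul_apply, smul_eq_mul]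
      ring
    rw [this]
    exact Submodule.smul_mem _ _ hx

theorem T_int {D : ℤ} {f : ℝ → ℂ} (hf : f ∈ T D) {m : ℤ} (hm : D < |m|) :
    ∫ θ in (0 : ℝ)..(2 * Real.pi), f θ * ch m θ = 0 := by
  unfold T at hf
  induction hf using Submodule.span_induction with
  | mem x hx =>
    obtain ⟨j, hj, rfl⟩ := hx
    simp only [ch_mul]
    apply int_ch
    intro h
    have h1 : |j| = |m| := by
      rw [show j = -m by linarith, abs_neg]
    have h2 : |j| ≤ D := hj
    omega
  | zero => simp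
  | add x y hx' hy' hx hy =>
    have h1 : Continuous x := T_cont hx'
    have h2 : Continuous y := T_cont hy'
    have h3 := ch_cont m
    have e : ∀ θ, (x + y) θ * ch m θ = x θ * ch m θ + y θ * ch m θ := by
      intro θ
      simp only [Pi.add_apply]
      ring
    have c1 : Continuous fun θ => x θ * ch m θ := h1.mul h3
    have c2 : Continuous fun θ => y θ * ch m θ := h2.mul h3
    simp only [e]
    rw [intervalIntegral.integral_add (c1.intervalIntegrable _ _) (c2.intervalIntegrable _ _), hx, hy,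
      add_zero]
  | smul a x _ hx =>
    have e : ∀ θ, (a • x) θ * ch m θ = a * (x θ * ch m θ) := by
      intro θ
      simp only [Pi.smul_apply, smul_eq_mul]
      ring
    simp only [e]
    rw [intervalIntegral.integral_const_mul, hx, mul_zero]

/-- the convexity inequality -/
theorem exp_le_chord {s x : ℝ} (hx : |x| ≤ s) : Real.exp x ≤ Real.cosh s + Real.sinh s / s * x := by
  have hs0 : 0 ≤ s := (abs_nonneg x).trans hx
  rcases hs0.eq_or_lt with h | h
  · rw [← h] at hx ⊢
    have : x = 0 := abs_nonpos_iff.1 hx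
    rw [this]
    simp
  · obtain ⟨h1, h2⟩ := abs_le.1 hx
    have p1 : 0 ≤ (s - x) / (2 * s) := div_nonneg (by linarith) (by linarith)
    have p2 : 0 ≤ (s + x) / (2 * s) := div_nonneg (by linarith) (by linarith)
    have p3 : (s - x) / (2 * s) + (s + x) / (2 * s) = 1 := by field_simp; ring
    have hc := convexOn_exp.2 (mem_univ (-s)) (mem_univ s) p1 p2 p3
    rw [smul_eq_mul, smul_eq_mul, smul_eq_mul, smul_eq_mul] at hc
    have e1 : (s - x) / (2 * s) * -s + (s + x) / (2 * s) * s = x := by field_simp; ring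
    rw [e1] at hc
    refine hc.trans (le_of_eq ?_)
    rw [Real.cosh_eq, Real.sinh_eq]
    field_simp
    ring

/-- a factor of the Riesz product -/
noncomputable def fac (a : ℂ) (n : ℤ) (θ : ℝ) : ℝ :=
  Real.cosh ‖a‖ + Real.sinh ‖a‖ / ‖a‖ * (a * ch n θ).re

theorem fac_ge (a : ℂ) (n : ℤ) (θ : ℝ) : Real.exp (a * ch n θ).re ≤ fac a n θ := by
  apply exp_le_chord
  refine (abs_re_le_norm _).trans ?_
  rw [norm_mul, ch_norm, mul_one]

theorem fac_complex (a : ℂ) (n : ℤ) (θ : ℝ) : ((fac a n θ : ℝ) : ℂ) =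
    (Real.cosh ‖a‖ : ℂ) + (Real.sinh ‖a‖ / ‖a‖ : ℝ) / 2 * a * ch n θ +
      (Real.sinh ‖a‖ / ‖a‖ : ℝ) / 2 * (starRingEnd ℂ) a * ch (-n) θ := by
  have h1 : (((a * ch n θ).re : ℝ) : ℂ) = (a * ch n θ + (starRingEnd ℂ) a * ch (-n) θ) / 2 := by
    rw [← ch_conj, ← map_mul, re_eq_add_conj]
  unfold fac
  push_cast
  rw [h1]
  ring

section

variable {n : ℕ → ℕ}

theorem sum_lt (h0 : 1 ≤ n 0) (h : ∀ k, 2 * n k ≤ n (k + 1)) (N : ℕ) : ∑ k ∈ Finset.range N, n k < n N := by
  induction N with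
  | zero =>
    rw [Finset.sum_range_zero]
    omega
  | succ N ih =>
    rw [Finset.sum_range_succ]
    have := h N
    omega

/-- the Riesz product -/
theorem riesz (h0 : 1 ≤ n 0) (h : ∀ k, 2 * n k ≤ n (k + 1)) (a : ℕ → ℂ) (N : ℕ) :
    (fun θ => ((∏ k ∈ Finset.range N, fac (a k) (-(n k : ℤ)) θ : ℝ) : ℂ)) ∈ T ((∑ k ∈ Finset.range N, n k : ℕ) : ℤ) ∧
    ∫ θ in (0 : ℝ)..(2 * Real.pi), ((∏ k ∈ Finset.range N, fac (a k) (-(n k : ℤ)) θ : ℝ) : ℂ) =
      ((2 * Real.pi * ∏ k ∈ Finset.range N, Real.cosh ‖a k‖ : ℝ) : ℂ) := by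
  induction N with
  | zero =>
    refine ⟨?_, by simp⟩
    have : (fun θ : ℝ => ((∏ k ∈ Finset.range 0, fac (a k) (-(n k : ℤ)) θ : ℝ) : ℂ)) = ch 0 := by
      funext θ
      simp [ch_zero]
    rw [this]
    exact ch_mem (by simp)
  | succ N ih =>
    obtain ⟨ih1, ih2⟩ := ih
    set P : ℝ → ℂ := fun θ => ((∏ k ∈ Finset.range N, fac (a k) (-(n k : ℤ)) θ : ℝ) : ℂ) with hP
    set A : ℂ := (Real.cosh ‖a N‖ : ℂ) with hA
    set B : ℂ := (Real.sinh ‖a N‖ / ‖a N‖ : ℝ) / 2 * a N with hB
    set C : ℂ := (Real.sinh ‖a N‖ / ‖a N‖ : ℝ) / 2 * (starRingEnd ℂ) (a N) with hC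
    have e : ∀ θ, ((∏ k ∈ Finset.range (N + 1), fac (a k) (-(n k : ℤ)) θ : ℝ) : ℂ) =
        A * P θ + B * (P θ * ch (-(n N : ℤ)) θ) + C * (P θ * ch (n N : ℤ) θ) := by
      intro θ
      rw [Finset.prod_range_succ, Complex.ofReal_mul, fac_complex, neg_neg]
      simp only [hP, hA, hB, hC]
      ring
    have hPc : Continuous P := T_cont ih1
    have hlt := sum_lt h0 h N
    refine ⟨?_, ?_⟩
    · rw [funext e]
      have hD : (((∑ k ∈ Finset.range (N + 1), n k : ℕ)) : ℤ) =
          ((∑ k ∈ Finset.range N, n k : ℕ) : ℤ) + (n N : ℤ) := by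
        rw [Finset.sum_range_succ]
        push_cast
        rfl
      rw [hD]
      have m1 : (fun θ => A * P θ) ∈ T (((∑ k ∈ Finset.range N, n k : ℕ) : ℤ) + (n N : ℤ)) :=
        Submodule.smul_mem _ A (T_mono (by omega) ih1)
      have m2 : (fun θ => B * (P θ * ch (-(n N : ℤ)) θ)) ∈
          T (((∑ k ∈ Finset.range N, n k : ℕ) : ℤ) + (n N : ℤ)) := by
        have h3 := T_mul ih1 (-(n N : ℤ))
        rw [abs_neg, Nat.abs_cast] at h3
        exact Submodule.smul_mem _ B h3
      have m3 : (fun θ => C * (P θ * ch (n N : ℤ) θ)) ∈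
          T (((∑ k ∈ Finset.range N, n k : ℕ) : ℤ) + (n N : ℤ)) := by
        have h3 := T_mul ih1 (n N : ℤ)
        rw [Nat.abs_cast] at h3
        exact Submodule.smul_mem _ C h3
      exact Submodule.add_mem _ (Submodule.add_mem _ m1 m2) m3
    · rw [intervalIntegral.integral_congr (g := fun θ => A * P θ + B * (P θ * ch (-(n N : ℤ)) θ) +
        C * (P θ * ch (n N : ℤ) θ)) (fun θ _ => e θ)]
      have c1 : Continuous fun θ => A * P θ := continuous_const.mul hPc
      have c2 : Continuous fun θ => B * (P θ * ch (-(n N : ℤ)) θ) := continuous_const.mul (hPc.mul (ch_cont _))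
      have c3 : Continuous fun θ => C * (P θ * ch (n N : ℤ) θ) := continuous_const.mul (hPc.mul (ch_cont _))
      have c12 : Continuous fun θ => A * P θ + B * (P θ * ch (-(n N : ℤ)) θ) := c1.add c2
      rw [intervalIntegral.integral_add (c12.intervalIntegrable _ _) (c3.intervalIntegrable _ _),
        intervalIntegral.integral_add (c1.intervalIntegrable _ _) (c2.intervalIntegrable _ _),
        intervalIntegral.integral_const_mul, intervalIntegral.integral_const_mul,
        intervalIntegral.integral_const_mul]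
      have z1 : ∫ θ in (0 : ℝ)..(2 * Real.pi), P θ * ch (-(n N : ℤ)) θ = 0 :=
        T_int ih1 (by rw [abs_neg, Nat.abs_cast]; exact_mod_cast hlt)
      have z2 : ∫ θ in (0 : ℝ)..(2 * Real.pi), P θ * ch (n N : ℤ) θ = 0 :=
        T_int ih1 (by rw [Nat.abs_cast]; exact_mod_cast hlt)
      rw [z1, z2, mul_zero, mul_zero, add_zero, add_zero, hP, ih2, Finset.prod_range_succ]
      simp only [hA]
      push_cast
      ring

/-- exponential moments of lacunary polynomials -/
theorem moment_fin (h0 : 1 ≤ n 0) (h : ∀ k, 2 * n k ≤ n (k + 1)) (a : ℕ → ℂ) (N : ℕ) :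
    ∫ θ in (0 : ℝ)..(2 * Real.pi), Real.exp (∑ k ∈ Finset.range N, a k * ch (-(n k : ℤ)) θ).re ≤
      2 * Real.pi * Real.exp (∑ k ∈ Finset.range N, ‖a k‖ ^ 2 / 2) := by
  obtain ⟨h1, h2⟩ := riesz h0 h a N
  have hpi := Real.pi_pos
  have hfc : ∀ k, Continuous (fac (a k) (-(n k : ℤ))) := by
    intro k
    unfold fac
    have := ch_cont (-(n k : ℤ))
    fun_prop
  have hPc : Continuous fun θ => ∏ k ∈ Finset.range N, fac (a k) (-(n k : ℤ)) θ :=
    continuous_finsetProd _ fun k _ => hfc k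
  have hsc : Continuous fun θ => ∑ k ∈ Finset.range N, a k * ch (-(n k : ℤ)) θ :=
    continuous_finsetSum _ fun k _ => continuous_const.mul (ch_cont _)
  have h3 : ∫ θ in (0 : ℝ)..(2 * Real.pi), (∏ k ∈ Finset.range N, fac (a k) (-(n k : ℤ)) θ) =
      2 * Real.pi * ∏ k ∈ Finset.range N, Real.cosh ‖a k‖ := by
    rw [intervalIntegral.integral_ofReal] at h2
    exact_mod_cast h2
  calc ∫ θ in (0 : ℝ)..(2 * Real.pi), Real.exp (∑ k ∈ Finset.range N, a k * ch (-(n k : ℤ)) θ).re
      ≤ ∫ θ in (0 : ℝ)..(2 * Real.pi), (∏ k ∈ Finset.range N, fac (a k) (-(n k : ℤ)) θ) := by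
        apply intervalIntegral.integral_mono_on (by positivity)
        · exact (Real.continuous_exp.comp (continuous_re.comp hsc)).intervalIntegrable _ _
        · exact hPc.intervalIntegrable _ _
        · intro θ _
          rw [re_sum, Real.exp_sum]
          exact Finset.prod_le_prod (fun k _ => (Real.exp_pos _).le) (fun k _ => fac_ge _ _ _)
    _ = 2 * Real.pi * ∏ k ∈ Finset.range N, Real.cosh ‖a k‖ := h3
    _ ≤ 2 * Real.pi * Real.exp (∑ k ∈ Finset.range N, ‖a k‖ ^ 2 / 2) := by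
        apply mul_le_mul_of_nonneg_left _ (by positivity)
        rw [Real.exp_sum]
        exact Finset.prod_le_prod (fun k _ => (Real.cosh_pos _).le) (fun k _ => Real.cosh_le_exp_half_sq _)

/-- exponential moments of lacunary series -/
theorem moment (h0 : 1 ≤ n 0) (h : ∀ k, 2 * n k ≤ n (k + 1)) (a : ℕ → ℂ) (ha : Summable fun k => ‖a k‖)
    {g : ℝ → ℂ} (hgc : Continuous g) (hg : ∀ θ, HasSum (fun k => a k * ch (-(n k : ℤ)) θ) (g θ)) {V : ℝ}
    (hV : ∀ N, ∑ k ∈ Finset.range N, ‖a k‖ ^ 2 ≤ V) :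
    ∫ θ in (0 : ℝ)..(2 * Real.pi), Real.exp (g θ).re ≤ 2 * Real.pi * Real.exp (V / 2) := by
  have hpi := Real.pi_pos
  set τ : ℕ → ℝ := fun N => ∑' k, ‖a (k + N)‖ with hτ
  have hτ0 : Tendsto τ atTop (𝓝 0) := tendsto_sum_nat_add fun k => ‖a k‖
  have hdiff : ∀ N θ, ‖g θ - ∑ k ∈ Finset.range N, a k * ch (-(n k : ℤ)) θ‖ ≤ τ N := by
    intro N θ
    have h1 : HasSum (fun k => a (k + N) * ch (-(n (k + N) : ℤ)) θ)
        (g θ - ∑ k ∈ Finset.range N, a k * ch (-(n k : ℤ)) θ) :=
      (hasSum_nat_add_iff' N).2 (hg θ)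
    have h2 : Summable fun k => ‖a (k + N)‖ := (summable_nat_add_iff N).2 ha
    rw [← h1.tsum_eq]
    have h3 : ∀ k, ‖a (k + N) * ch (-(n (k + N) : ℤ)) θ‖ = ‖a (k + N)‖ := by
      intro k
      rw [norm_mul, ch_norm, mul_one]
    refine (norm_tsum_le_tsum_norm (by simp only [h3]; exact h2)).trans (le_of_eq ?_)
    simp only [h3]
    rfl
  have key : ∀ N, ∫ θ in (0 : ℝ)..(2 * Real.pi), Real.exp (g θ).re ≤
      Real.exp (τ N) * (2 * Real.pi * Real.exp (V / 2)) := by
    intro N
    have hsc : Continuous fun θ => ∑ k ∈ Finset.range N, a k * ch (-(n k : ℤ)) θ :=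
      continuous_finsetSum _ fun k _ => continuous_const.mul (ch_cont _)
    calc ∫ θ in (0 : ℝ)..(2 * Real.pi), Real.exp (g θ).re
        ≤ ∫ θ in (0 : ℝ)..(2 * Real.pi), Real.exp (τ N) *
            Real.exp (∑ k ∈ Finset.range N, a k * ch (-(n k : ℤ)) θ).re := by
          apply intervalIntegral.integral_mono_on (by positivity)
          · exact (Real.continuous_exp.comp (continuous_re.comp hgc)).intervalIntegrable _ _
          · exact (continuous_const.mul (Real.continuous_exp.comp (continuous_re.comp hsc))).intervalIntegrable _ _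
          · intro θ _
            rw [← Real.exp_add]
            apply Real.exp_le_exp.2
            have h1 := (re_le_norm (g θ - ∑ k ∈ Finset.range N, a k * ch (-(n k : ℤ)) θ)).trans (hdiff N θ)
            rw [sub_re] at h1
            linarith
      _ = Real.exp (τ N) * ∫ θ in (0 : ℝ)..(2 * Real.pi),
            Real.exp (∑ k ∈ Finset.range N, a k * ch (-(n k : ℤ)) θ).re :=
          intervalIntegral.integral_const_mul _ _
      _ ≤ Real.exp (τ N) * (2 * Real.pi * Real.exp (V / 2)) := by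
          apply mul_le_mul_of_nonneg_left _ (Real.exp_pos _).le
          refine (moment_fin h0 h a N).trans ?_
          apply mul_le_mul_of_nonneg_left _ (by positivity)
          apply Real.exp_le_exp.2
          rw [← Finset.sum_div]
          exact div_le_div_of_nonneg_right (hV N) (by norm_num)
  have hlim : Tendsto (fun N => Real.exp (τ N) * (2 * Real.pi * Real.exp (V / 2))) atTop
      (𝓝 (Real.exp 0 * (2 * Real.pi * Real.exp (V / 2)))) :=
    ((Real.continuous_exp.tendsto 0).comp hτ0).mul_const _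
  rw [Real.exp_zero, one_mul] at hlim
  exact ge_of_tendsto' hlim key

end

end Pool.Agent.Q158.Lac
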