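import Mathlib
import Pool.Agent.Q158.LacA
import Pool.Agent.W677.MarK

/-! # Coefficients of `log ψ'` -/

set_option autoImplicit false

namespace Pool.Agent.Q158.Lac

open Complex Set Metric MeasureTheory Filter Topology
open Pool.Agent.W677.Mar (Sg kbound)

theorem cm_eq (r θ : ℝ) : circleMap 0 r θ = (r : ℂ) * ch 1 θ := by
  unfold circleMap ch
  rw [zero_add]
  push_cast
  rw [one_mul]

theorem ch_pow (m : ℕ) (θ : ℝ) : ch 1 θ ^ m = ch (m : ℤ) θ := by
  unfold ch
  rw [← Complex.exp_nat_mul]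
  congr 1
  push_cast
  ring

theorem cm_pow (r θ : ℝ) (m : ℕ) : circleMap 0 r θ ^ m = (r : ℂ) ^ m * ch (m : ℤ) θ := by
  rw [cm_eq, mul_pow, ch_pow]

theorem ch_deriv (j : ℤ) (θ : ℝ) : HasDerivAt (ch j) ((j : ℂ) * I * ch j θ) θ := by
  have h1 : HasDerivAt (fun θ : ℝ => (j : ℂ) * (θ : ℂ) * I) ((j : ℂ) * I) θ := by
    have h2 := ((Complex.ofRealCLM.hasDerivAt (x := θ)).const_mul (j : ℂ)).mul_const I
    simpa using h2
  have h3 := h1.cexp
  unfold ch
  convert h3 using 1
  ring

section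

variable {Y H : ℂ → ℂ}

/-- the coefficient inequality on a circle -/
theorem coeff (S : Sg Y H) {n : ℕ → ℕ} (hn : Function.Injective n) (h0 : ∀ k, 1 ≤ n k) {c : ℕ → ℂ}
    (hs : ∀ w ∈ ball (0 : ℂ) 1, HasSum (fun k => c k * w ^ n k) (H w)) (k : ℕ) {r : ℝ} (hr0 : 0 < r)
    (hr1 : r < 1) : (n k : ℝ) * ‖c k‖ * r ^ n k * (1 - r ^ 2) ≤ 4 := by
  have hpi := Real.pi_pos
  have h2pi : (0 : ℝ) ≤ 2 * Real.pi := by positivity
  have hr2 : 0 < 1 - r ^ 2 := by nlinarith
  set w : ℝ → ℂ := circleMap 0 r with hw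
  have hwn : ∀ θ, ‖w θ‖ = r := fun θ => by rw [hw, norm_circleMap_zero, abs_of_pos hr0]
  have hwm : ∀ θ, w θ ∈ ball (0 : ℂ) 1 := fun θ => by rw [mem_ball_zero_iff, hwn]; exact hr1
  have hwc : Continuous w := continuous_circleMap 0 r
  have hHd : DifferentiableOn ℂ (deriv H) (ball 0 1) := S.dH.deriv isOpen_ball
  set u : ℝ → ℂ := fun θ => w θ * deriv H (w θ) with hu
  have hdc : Continuous fun θ => deriv H (w θ) := hHd.continuousOn.comp_continuous hwc hwm
  have huc : Continuous u := hwc.mul hdc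
  set g : ℝ → ℂ := fun θ => H (w θ) with hg
  have hgc : Continuous g := S.dH.continuousOn.comp_continuous hwc hwm
  have hgd : ∀ θ, HasDerivAt g (I * u θ) θ := by
    intro θ
    have h1 : HasDerivAt H (deriv H (w θ)) (w θ) :=
      (S.dH.differentiableAt (isOpen_ball.mem_nhds (hwm θ))).hasDerivAt
    have h2 : HasDerivAt w (w θ * I) θ := hasDerivAt_circleMap 0 r θ
    have h3 := h1.comp θ h2
    refine h3.congr_deriv ?_
    simp only [hu]
    ring
  set N : ℕ := n k with hN
  -- (a) the coefficient as an integral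
  have hsum : Summable fun j => ‖c j‖ * r ^ n j := by
    have h1 := (hs (r : ℂ) (by rw [mem_ball_zero_iff, Complex.norm_real, Real.norm_of_nonneg hr0.le]; exact hr1)).summable.norm
    refine h1.congr fun j => ?_
    rw [norm_mul, norm_pow, Complex.norm_real, Real.norm_of_nonneg hr0.le]
  have ha : ∫ θ in (0 : ℝ)..(2 * Real.pi), g θ * ch (-(N : ℤ)) θ = 2 * Real.pi * (c k * r ^ N) := by
    have h1 := intervalIntegral.hasSum_integral_of_dominated_convergence (μ := volume) (a := 0)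
      (b := 2 * Real.pi) (F := fun (j : ℕ) (θ : ℝ) => c j * r ^ n j * ch ((n j : ℤ) - N) θ)
      (f := fun θ => g θ * ch (-(N : ℤ)) θ)
      (fun j _ => ‖c j‖ * r ^ n j)
      (fun j => (continuous_const.mul (ch_cont _)).aestronglyMeasurable)
      (fun j => Eventually.of_forall fun θ _ => by
        rw [norm_mul, ch_norm, mul_one, norm_mul, norm_pow, Complex.norm_real, Real.norm_of_nonneg hr0.le])
      (Eventually.of_forall fun θ _ => hsum)
      (intervalIntegrable_const)
      (Eventually.of_forall fun θ _ => by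
        have h2 := (hs (w θ) (hwm θ)).mul_right (ch (-(N : ℤ)) θ)
        have e : (fun j => c j * (r : ℂ) ^ n j * ch ((n j : ℤ) - N) θ) =
            fun j => c j * w θ ^ n j * ch (-(N : ℤ)) θ := by
          funext j
          rw [hw, cm_pow, sub_eq_add_neg, ← ch_mul]
          ring
        rw [e]
        exact h2)
    have e1 : (fun j => ∫ θ in (0 : ℝ)..(2 * Real.pi), c j * (r : ℂ) ^ n j * ch ((n j : ℤ) - N) θ) =
        fun j => if j = k then 2 * Real.pi * (c k * r ^ N) else 0 := by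
      funext j
      rw [intervalIntegral.integral_const_mul]
      by_cases hj : j = k
      · rw [if_pos hj, hj, ← hN, sub_self]
        simp only [ch_zero]
        rw [intervalIntegral.integral_const, sub_zero]
        rw [Complex.real_smul, mul_one]
        push_cast
        ring
      · rw [if_neg hj, int_ch, mul_zero]
        intro h3
        apply hj
        apply hn
        have h4 : (n j : ℤ) = (N : ℤ) := by linarith
        rw [← hN]
        exact_mod_cast h4
    rw [e1] at h1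
    have h2 : HasSum (fun j => if j = k then 2 * (Real.pi : ℂ) * (c k * r ^ N) else 0)
        (2 * Real.pi * (c k * r ^ N)) := hasSum_ite_eq k _
    exact h1.unique h2
  -- (b) integration by parts
  have hb : ∫ θ in (0 : ℝ)..(2 * Real.pi), u θ * ch (-(N : ℤ)) θ =
      (N : ℂ) * ∫ θ in (0 : ℝ)..(2 * Real.pi), g θ * ch (-(N : ℤ)) θ := by
    have h1 := intervalIntegral.integral_mul_deriv_eq_deriv_mul (a := 0) (b := 2 * Real.pi)
      (u := g) (v := ch (-(N : ℤ))) (u' := fun θ => I * u θ)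
      (v' := fun θ => ((-(N : ℤ) : ℤ) : ℂ) * I * ch (-(N : ℤ)) θ)
      (fun θ _ => hgd θ) (fun θ _ => ch_deriv _ θ)
      ((continuous_const.mul huc).intervalIntegrable _ _)
      ((continuous_const.mul (ch_cont _)).intervalIntegrable _ _)
    have hper : w (2 * Real.pi) = w 0 := by
      have := periodic_circleMap 0 r 0
      rw [zero_add] at this
      exact this
    have e2 : g (2 * Real.pi) = g 0 := by
      simp only [hg, hper]
    have e3 : ch (-(N : ℤ)) (2 * Real.pi) = 1 := by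
      unfold ch
      have : ((-(N : ℤ) : ℤ) : ℂ) * ((2 * Real.pi : ℝ) : ℂ) * I = ((-(N : ℤ) : ℤ) : ℂ) * (2 * Real.pi * I) := by
        push_cast
        ring
      rw [this, Complex.exp_int_mul_two_pi_mul_I]
    have e4 : ch (-(N : ℤ)) 0 = 1 := by
      simp [ch]
    rw [e2, e3, e4, sub_self, zero_sub] at h1
    have e5 : ∫ θ in (0 : ℝ)..(2 * Real.pi), g θ * (((-(N : ℤ) : ℤ) : ℂ) * I * ch (-(N : ℤ)) θ) =
        -((N : ℂ) * I) * ∫ θ in (0 : ℝ)..(2 * Real.pi), g θ * ch (-(N : ℤ)) θ := by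
      rw [← intervalIntegral.integral_const_mul]
      apply intervalIntegral.integral_congr
      intro θ _
      push_cast
      ring
    have e6 : ∫ θ in (0 : ℝ)..(2 * Real.pi), I * u θ * ch (-(N : ℤ)) θ =
        I * ∫ θ in (0 : ℝ)..(2 * Real.pi), u θ * ch (-(N : ℤ)) θ := by
      rw [← intervalIntegral.integral_const_mul]
      apply intervalIntegral.integral_congr
      intro θ _
      ring
    rw [e5, e6] at h1
    have h2 : I * ((∫ θ in (0 : ℝ)..(2 * Real.pi), u θ * ch (-(N : ℤ)) θ) -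
        (N : ℂ) * ∫ θ in (0 : ℝ)..(2 * Real.pi), g θ * ch (-(N : ℤ)) θ) = 0 := by
      linear_combination h1
    have h3 := (mul_eq_zero.1 h2).resolve_left I_ne_zero
    exact sub_eq_zero.1 h3
  -- (c) the integrals of `u` against the characters of nonnegative frequency
  have hcc : ∀ m : ℕ, ∫ θ in (0 : ℝ)..(2 * Real.pi), u θ * ch (m : ℤ) θ = 0 := by
    intro m
    have hFd : DifferentiableOn ℂ (fun z : ℂ => z ^ m * (z * deriv H z)) (ball 0 1) :=
      (differentiableOn_id.pow m).mul (differentiableOn_id.mul hHd)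
    have hmv : Real.circleAverage (fun z : ℂ => z ^ m * (z * deriv H z)) 0 r =
        (fun z : ℂ => z ^ m * (z * deriv H z)) 0 := by
      apply DiffContOnCl.circleAverage
      rw [abs_of_pos hr0]
      exact (hFd.mono (closedBall_subset_ball hr1)).diffContOnCl_ball (Subset.refl _)
    unfold Real.circleAverage at hmv
    simp only [zero_mul, mul_zero] at hmv
    have h1 : ∫ θ in (0 : ℝ)..(2 * Real.pi), circleMap 0 r θ ^ m * (circleMap 0 r θ * deriv H (circleMap 0 r θ)) = 0 := by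
      have h2 : ((2 * Real.pi)⁻¹ : ℝ) ≠ 0 := by positivity
      exact (smul_eq_zero.1 hmv).resolve_left h2
    have h3 : ∫ θ in (0 : ℝ)..(2 * Real.pi), circleMap 0 r θ ^ m * (circleMap 0 r θ * deriv H (circleMap 0 r θ)) =
        (r : ℂ) ^ m * ∫ θ in (0 : ℝ)..(2 * Real.pi), u θ * ch (m : ℤ) θ := by
      rw [← intervalIntegral.integral_const_mul]
      apply intervalIntegral.integral_congr
      intro θ _
      show circleMap 0 r θ ^ m * (circleMap 0 r θ * deriv H (circleMap 0 r θ)) = _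
      rw [cm_pow]
      simp only [hu, hw]
      ring
    rw [h3] at h1
    exact (mul_eq_zero.1 h1).resolve_left (pow_ne_zero m (by exact_mod_cast hr0.ne'))
  -- (d) the lower bound of the real part
  obtain ⟨B, hB⟩ : ∃ B : ℝ, B = 2 / (1 - r ^ 2) := ⟨_, rfl⟩
  have hpos : ∀ θ, 0 ≤ (u θ).re + B := by
    intro θ
    have h1 := kbound S (hwm θ)
    rw [hwn] at h1
    have h2 := (abs_re_le_norm _).trans h1
    have h3 : (((1 - r ^ 2 : ℝ) : ℂ) * (w θ * deriv H (w θ)) - 2 * (r : ℂ) ^ 2).re =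
        (1 - r ^ 2) * (u θ).re - 2 * r ^ 2 := by
      rw [sub_re, Complex.re_ofReal_mul]
      have h4 : ((2 : ℂ) * (r : ℂ) ^ 2) = ((2 * r ^ 2 : ℝ) : ℂ) := by push_cast; ring
      rw [h4, Complex.ofReal_re]
    rw [h3] at h2
    have h5 := (abs_le.1 h2).1
    have h6 : -2 ≤ (1 - r ^ 2) * (u θ).re := by nlinarith [sq_nonneg (r - 1)]
    have h7 : 0 ≤ (1 - r ^ 2) * ((u θ).re + B) := by
      rw [mul_add, hB, mul_div_cancel₀ _ hr2.ne']
      linarith
    exact nonneg_of_mul_nonneg_right h7 hr2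
  -- (e) the comparison
  have hN1 : 1 ≤ N := h0 k
  have hre : ∀ θ, (((2 * ((u θ).re + B) : ℝ) : ℂ)) * ch (-(N : ℤ)) θ =
      u θ * ch (-(N : ℤ)) θ + (starRingEnd ℂ) (u θ * ch (N : ℤ) θ) + 2 * B * ch (-(N : ℤ)) θ := by
    intro θ
    rw [map_mul, ch_conj]
    have h1 : ((2 * ((u θ).re + B) : ℝ) : ℂ) = u θ + (starRingEnd ℂ) (u θ) + 2 * B := by
      rw [Complex.add_conj]
      push_cast
      ring
    rw [h1]
    ring
  have hconj : ∫ θ in (0 : ℝ)..(2 * Real.pi), (starRingEnd ℂ) (u θ * ch (N : ℤ) θ) = 0 := by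
    rw [intervalIntegral.integral_of_le h2pi, integral_conj, ← intervalIntegral.integral_of_le h2pi,
      hcc N, map_zero]
  have hint : ∫ θ in (0 : ℝ)..(2 * Real.pi), (((2 * ((u θ).re + B) : ℝ) : ℂ)) * ch (-(N : ℤ)) θ =
      ∫ θ in (0 : ℝ)..(2 * Real.pi), u θ * ch (-(N : ℤ)) θ := by
    rw [intervalIntegral.integral_congr (g := fun θ => u θ * ch (-(N : ℤ)) θ +
      (starRingEnd ℂ) (u θ * ch (N : ℤ) θ) + 2 * B * ch (-(N : ℤ)) θ) (fun θ _ => hre θ)]
    have c1 : Continuous fun θ => u θ * ch (-(N : ℤ)) θ := huc.mul (ch_cont _)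
    have c2 : Continuous fun θ => (starRingEnd ℂ) (u θ * ch (N : ℤ) θ) :=
      continuous_conj.comp (huc.mul (ch_cont _))
    have c3 : Continuous fun θ => 2 * (B : ℂ) * ch (-(N : ℤ)) θ := continuous_const.mul (ch_cont _)
    have c12 : Continuous fun θ => u θ * ch (-(N : ℤ)) θ + (starRingEnd ℂ) (u θ * ch (N : ℤ) θ) := c1.add c2
    rw [intervalIntegral.integral_add (c12.intervalIntegrable _ _) (c3.intervalIntegrable _ _),
      intervalIntegral.integral_add (c1.intervalIntegrable _ _) (c2.intervalIntegrable _ _),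
      intervalIntegral.integral_const_mul, hconj, int_ch (by omega : -(N : ℤ) ≠ 0)]
    simp
  have hu0 : ∫ θ in (0 : ℝ)..(2 * Real.pi), (u θ).re = 0 := by
    have h1 := hcc 0
    simp only [Nat.cast_zero, ch_zero, mul_one] at h1
    have h2 : ∫ θ in (0 : ℝ)..(2 * Real.pi), (u θ).re = (∫ θ in (0 : ℝ)..(2 * Real.pi), u θ).re := by
      rw [intervalIntegral.integral_of_le h2pi, intervalIntegral.integral_of_le h2pi]
      have h3 : Integrable u (volume.restrict (Ioc 0 (2 * Real.pi))) :=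
        (huc.continuousOn.integrableOn_compact isCompact_Icc).mono_set Ioc_subset_Icc_self
      exact integral_re h3
    rw [h2, h1, Complex.zero_re]
  have hnorm : ‖∫ θ in (0 : ℝ)..(2 * Real.pi), u θ * ch (-(N : ℤ)) θ‖ ≤ 4 * Real.pi * B := by
    rw [← hint]
    refine (intervalIntegral.norm_integral_le_integral_norm h2pi).trans ?_
    have h1 : ∀ θ, ‖(((2 * ((u θ).re + B) : ℝ) : ℂ)) * ch (-(N : ℤ)) θ‖ = 2 * (u θ).re + 2 * B := by
      intro θ
      rw [norm_mul, ch_norm, mul_one, Complex.norm_real, Real.norm_of_nonneg (by have := hpos θ; linarith)]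
      ring
    simp only [h1]
    have c1 : Continuous fun θ => 2 * (u θ).re := continuous_const.mul (continuous_re.comp huc)
    rw [intervalIntegral.integral_add (c1.intervalIntegrable _ _) intervalIntegrable_const,
      intervalIntegral.integral_const_mul, hu0, intervalIntegral.integral_const, smul_eq_mul]
    linarith
  rw [hb, ha] at hnorm
  have h9 : ‖(N : ℂ) * (2 * Real.pi * (c k * r ^ N))‖ = 2 * Real.pi * ((N : ℝ) * ‖c k‖ * r ^ N) := by
    rw [norm_mul, norm_mul, norm_mul, norm_mul, norm_pow, Complex.norm_real, Complex.norm_real,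
      Real.norm_of_nonneg hr0.le, Real.norm_of_nonneg hpi.le, Complex.norm_natCast, RCLike.norm_ofNat]
    ring
  rw [h9] at hnorm
  have h10 : (N : ℝ) * ‖c k‖ * r ^ N ≤ 2 * B := by
    have h11 : 2 * Real.pi * ((N : ℝ) * ‖c k‖ * r ^ N) ≤ 2 * Real.pi * (2 * B) := by linarith
    exact le_of_mul_le_mul_left h11 (by positivity)
  have h12 : (N : ℝ) * ‖c k‖ * r ^ N * (1 - r ^ 2) ≤ 2 * B * (1 - r ^ 2) :=
    mul_le_mul_of_nonneg_right h10 hr2.le
  refine h12.trans (le_of_eq ?_)
  rw [hB]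
  field_simp
  norm_num

/-- the coefficients are at most `2 e (1 + 2 / n)` -/
theorem coeff_le (S : Sg Y H) {n : ℕ → ℕ} (hn : Function.Injective n) (h0 : ∀ k, 1 ≤ n k) {c : ℕ → ℂ}
    (hs : ∀ w ∈ ball (0 : ℂ) 1, HasSum (fun k => c k * w ^ n k) (H w)) (k : ℕ) :
    ‖c k‖ ^ 2 ≤ 4 * Real.exp 2 * (1 + 2 / (n k : ℝ)) ^ 2 := by
  have hN : (1 : ℝ) ≤ n k := by exact_mod_cast h0 k
  set N : ℝ := (n k : ℝ) with hNdef
  set x : ℝ := N / (N + 2) with hx
  have hx0 : 0 < x := by positivity
  have hx1 : x < 1 := by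
    rw [hx, div_lt_one (by linarith)]
    linarith
  have h1 := coeff S hn h0 hs k (r := Real.sqrt x) (Real.sqrt_pos.2 hx0) (by
    rw [Real.sqrt_lt' one_pos]
    linarith)
  rw [Real.sq_sqrt hx0.le, ← hNdef] at h1
  have h2 : 1 - x = 2 / (N + 2) := by
    rw [hx]
    field_simp
    ring
  rw [h2] at h1
  have h3 : 0 < N + 2 := by linarith
  -- `r ^ n ≥ 1 / e`
  have h4 : Real.exp (-1) ≤ Real.sqrt x ^ n k := by
    have h5 : (Real.sqrt x ^ n k) ^ 2 = x ^ n k := by
      rw [← pow_mul, mul_comm, pow_mul, Real.sq_sqrt hx0.le]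
    have h6 : Real.exp (-1) ^ 2 ≤ (Real.sqrt x ^ n k) ^ 2 := by
      rw [h5]
      have h7 : Real.exp (-(2 / N)) ≤ x := by
        have h8 : x = (1 + 2 / N)⁻¹ := by
          rw [hx]
          field_simp
        rw [h8, Real.exp_neg]
        apply inv_anti₀ (by positivity)
        have := Real.add_one_le_exp (2 / N)
        linarith
      have h8 : Real.exp (-(2 / N)) ^ n k ≤ x ^ n k := pow_le_pow_left₀ (Real.exp_pos _).le h7 _
      refine le_trans (le_of_eq ?_) h8
      rw [← Real.exp_nat_mul, ← Real.exp_nat_mul, ← hNdef]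
      congr 1
      field_simp
      norm_num
    exact (pow_le_pow_iff_left₀ (Real.exp_pos _).le (by positivity) two_ne_zero).1 h6
  have h5 : N * ‖c k‖ * Real.exp (-1) * (2 / (N + 2)) ≤ 4 := by
    refine le_trans ?_ h1
    apply mul_le_mul_of_nonneg_right _ (by positivity)
    exact mul_le_mul_of_nonneg_left h4 (by positivity)
  have h6 : ‖c k‖ ≤ 2 * Real.exp 1 * (1 + 2 / N) := by
    have h7 : N * ‖c k‖ * Real.exp (-1) * (2 / (N + 2)) = ‖c k‖ * (2 * N / ((N + 2) * Real.exp 1)) := by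
      rw [Real.exp_neg]
      field_simp
    rw [h7] at h5
    have h8 : 0 < 2 * N / ((N + 2) * Real.exp 1) := by positivity
    have h9 : ‖c k‖ ≤ 4 / (2 * N / ((N + 2) * Real.exp 1)) := by
      rw [le_div_iff₀ h8]
      exact h5
    refine h9.trans (le_of_eq ?_)
    field_simp
    ring
  calc ‖c k‖ ^ 2 ≤ (2 * Real.exp 1 * (1 + 2 / N)) ^ 2 := pow_le_pow_left₀ (norm_nonneg _) h6 2
    _ = 4 * Real.exp 2 * (1 + 2 / N) ^ 2 := by
        have : Real.exp 2 = Real.exp 1 ^ 2 := by
          rw [← Real.exp_nat_mul]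
          norm_num
        rw [this]
        ring

end

end Pool.Agent.Q158.Lac
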