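import Mathlib
import Pool.Agent.Q158.LacB
import Pool.Agent.Results.MP_16b0ee_an.WholeClass

/-! # The strong Marshall bound for lacunary `log ψ'` -/

set_option autoImplicit false

namespace Pool.Agent.Q158.Lac

open Complex Set Metric MeasureTheory Filter Topology
open Pool.Agent.W677.Mar (Sg hat hat_ne hat_zero toSg inv_ext gauss_avg gauss0)
open Pool.Agent.Results.MP_16b0ee_an.WholeClass (IsSigma marshall circ goluzin_ext cont_ext)

theorem geom2 (N : ℕ) : ∑ k ∈ Finset.range N, (1 / 2 : ℝ) ^ k ≤ 2 := by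
  rw [geom_sum_eq (by norm_num) N, div_le_iff_of_neg (by norm_num)]
  have : 0 < (1 / 2 : ℝ) ^ N := by positivity
  linarith

/-- the number of the terms which matter -/
theorem geo {q : ℝ} (hq : 2 ≤ q) {n : ℕ → ℕ} (hn : ∀ k, q ^ k ≤ (n k : ℝ)) {x : ℝ} (hx0 : 0 < x)
    (hx1 : x < 1) (N : ℕ) :
    ∑ k ∈ Finset.range N, x ^ n k ≤ -Real.log (1 - x) / Real.log q + 2 := by
  have hlq : 0 < Real.log q := Real.log_pos (by linarith)
  obtain ⟨L, hL⟩ : ∃ L, L = -Real.log (1 - x) := ⟨_, rfl⟩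
  rw [← hL]
  have hL0 : 0 < L := by
    rw [hL, neg_pos]
    exact Real.log_neg (by linarith) (by linarith)
  set K : ℕ := ⌊L / Real.log q⌋₊ + 1 with hK
  have hK1 : L / Real.log q < K := by
    have := Nat.lt_floor_add_one (L / Real.log q)
    rw [hK]
    push_cast
    exact this
  have hK2 : (K : ℝ) ≤ L / Real.log q + 1 := by
    have := Nat.floor_le (div_nonneg hL0.le hlq.le)
    rw [hK]
    push_cast
    linarith
  have hqK : 1 ≤ (1 - x) * q ^ K := by
    have h1 : Real.exp L ≤ q ^ K := by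
      rw [← Real.le_log_iff_exp_le (by positivity), Real.log_pow]
      rw [div_lt_iff₀ hlq] at hK1
      exact hK1.le
    have h2 : Real.exp L = (1 - x)⁻¹ := by
      rw [hL, Real.exp_neg, Real.exp_log (by linarith)]
    rw [h2] at h1
    have h3 : (1 - x) * (1 - x)⁻¹ ≤ (1 - x) * q ^ K := mul_le_mul_of_nonneg_left h1 (by linarith)
    rwa [mul_inv_cancel₀ (by linarith)] at h3
  have hnn : ∀ k, 0 ≤ x ^ n k := fun k => pow_nonneg hx0.le _
  have h1 : ∑ k ∈ Finset.range N, x ^ n k ≤ ∑ k ∈ Finset.range (K + N), x ^ n k :=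
    Finset.sum_le_sum_of_subset_of_nonneg (Finset.range_mono (by omega)) fun k _ _ => hnn k
  rw [Finset.sum_range_add] at h1
  have h2 : ∑ k ∈ Finset.range K, x ^ n k ≤ K := by
    calc ∑ k ∈ Finset.range K, x ^ n k ≤ ∑ _k ∈ Finset.range K, (1 : ℝ) :=
          Finset.sum_le_sum fun k _ => pow_le_one₀ hx0.le hx1.le
      _ = K := by simp
  have h3 : ∀ j : ℕ, x ^ n (K + j) ≤ (1 / 2 : ℝ) ^ (j + 1) := by
    intro j
    have e1 : Real.log x ≤ -(1 - x) := by
      have := Real.log_le_sub_one_of_pos hx0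
      linarith
    have e2 : (j : ℝ) + 1 ≤ (1 - x) * n (K + j) := by
      have e3 : ((j : ℝ) + 1) ≤ q ^ j := by
        have h4 : (j : ℝ) + 1 ≤ 2 ^ j := by exact_mod_cast Nat.succ_le_of_lt Nat.lt_two_pow_self
        exact h4.trans (pow_le_pow_left₀ (by norm_num) hq j)
      have e4 : 0 ≤ q ^ j := by positivity
      calc (j : ℝ) + 1 ≤ 1 * q ^ j := by rw [one_mul]; exact e3
        _ ≤ ((1 - x) * q ^ K) * q ^ j := mul_le_mul_of_nonneg_right hqK e4
        _ = (1 - x) * q ^ (K + j) := by rw [pow_add]; ring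
        _ ≤ (1 - x) * n (K + j) := mul_le_mul_of_nonneg_left (hn _) (by linarith)
    have e5 : x ^ n (K + j) ≤ Real.exp (-((j : ℝ) + 1)) := by
      rw [← Real.exp_log hx0, ← Real.exp_nat_mul]
      apply Real.exp_le_exp.2
      have e6 : (n (K + j) : ℝ) * Real.log x ≤ (n (K + j) : ℝ) * -(1 - x) :=
        mul_le_mul_of_nonneg_left e1 (Nat.cast_nonneg _)
      linarith
    refine e5.trans ?_
    have e7 : Real.exp (-((j : ℝ) + 1)) = Real.exp (-1) ^ (j + 1) := by
      rw [← Real.exp_nat_mul]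
      congr 1
      push_cast
      ring
    rw [e7]
    apply pow_le_pow_left₀ (Real.exp_pos _).le
    rw [Real.exp_neg, one_div]
    apply inv_anti₀ (by norm_num)
    have := Real.add_one_le_exp (1 : ℝ)
    linarith
  have h4 : ∑ j ∈ Finset.range N, x ^ n (K + j) ≤ 1 := by
    calc ∑ j ∈ Finset.range N, x ^ n (K + j) ≤ ∑ j ∈ Finset.range N, (1 / 2 : ℝ) ^ (j + 1) :=
          Finset.sum_le_sum fun j _ => h3 j
      _ = (1 / 2) * ∑ j ∈ Finset.range N, (1 / 2 : ℝ) ^ j := by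
          rw [Finset.mul_sum]
          exact Finset.sum_congr rfl fun j _ => by ring
      _ ≤ 1 := by
          have := geom2 N
          linarith
  linarith

theorem inv_sum {n : ℕ → ℕ} (hn : ∀ k, (2 : ℝ) ^ k ≤ (n k : ℝ)) (N : ℕ) :
    ∑ k ∈ Finset.range N, 8 / (n k : ℝ) ≤ 16 := by
  calc ∑ k ∈ Finset.range N, 8 / (n k : ℝ) ≤ ∑ k ∈ Finset.range N, 8 * (1 / 2 : ℝ) ^ k := by
        apply Finset.sum_le_sum
        intro k _
        rw [one_div, inv_pow, ← div_eq_mul_inv]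
        exact div_le_div_of_nonneg_left (by norm_num) (by positivity) (hn k)
    _ = 8 * ∑ k ∈ Finset.range N, (1 / 2 : ℝ) ^ k := by rw [Finset.mul_sum]
    _ ≤ 16 := by
        have := geom2 N
        linarith

theorem pow_le_n {q : ℝ} (hq : 2 ≤ q) {n : ℕ → ℕ} (h0 : ∀ k, 1 ≤ n k) (hn : ∀ k, q * (n k : ℝ) ≤ n (k + 1))
    (k : ℕ) : q ^ k ≤ (n k : ℝ) := by
  induction k with
  | zero =>
    rw [pow_zero]
    exact_mod_cast h0 0
  | succ k ih =>
    calc q ^ (k + 1) = q * q ^ k := by ring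
      _ ≤ q * n k := mul_le_mul_of_nonneg_left ih (by linarith)
      _ ≤ n (k + 1) := hn k

/-- the series has gaps of ratio at least `q` -/
def HasGaps (q : ℝ) (h : ℂ → ℂ) : Prop :=
  ∃ (n : ℕ → ℕ) (c : ℕ → ℂ), (∀ k, 1 ≤ n k) ∧ (∀ k, q * (n k : ℝ) ≤ n (k + 1)) ∧
    ∀ z : ℂ, 1 < ‖z‖ → HasSum (fun k => c k * (z⁻¹) ^ n k) (h z)

/-- exponential moments -/
theorem mom {q : ℝ} (hq : 2 ≤ q) {ψ h : ℂ → ℂ} (hS : IsSigma ψ h) (hg : HasGaps q h) {R : ℝ} (hR : 1 < R)
    (t : ℂ) : ∫ θ in (0 : ℝ)..(2 * Real.pi), Real.exp ((starRingEnd ℂ) t * h (circ R θ)).re ≤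
      2 * Real.pi * Real.exp (2 * Real.exp 2 * (Real.log (R ^ 2 / (R ^ 2 - 1)) / Real.log q + 18) * ‖t‖ ^ 2) := by
  obtain ⟨n, c, h0, hn, hs⟩ := hg
  have hR0 : 0 < R := by linarith
  have hR2 : 0 < R ^ 2 - 1 := by nlinarith
  have S := toSg hS.1 hS.2.1 hS.2.2.1 hS.2.2.2.1 hS.2.2.2.2.1 hS.2.2.2.2.2
  have hqn := pow_le_n hq h0 hn
  have h2n : ∀ k, (2 : ℝ) ^ k ≤ (n k : ℝ) := fun k => (pow_le_pow_left₀ (by norm_num) hq k).trans (hqn k)
  have hn2 : ∀ k, 2 * n k ≤ n (k + 1) := by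
    intro k
    have h1 : (2 : ℝ) * n k ≤ n (k + 1) :=
      (mul_le_mul_of_nonneg_right hq (Nat.cast_nonneg _)).trans (hn k)
    exact_mod_cast h1
  have hmono : StrictMono n := by
    apply strictMono_nat_of_lt_succ
    intro k
    have := hn2 k
    have := h0 k
    omega
  have hs' : ∀ w ∈ ball (0 : ℂ) 1, HasSum (fun k => c k * w ^ n k) (hat h 0 w) := by
    intro w hw
    by_cases hw0 : w = 0
    · rw [hw0, hat_zero]
      have : (fun k => c k * (0 : ℂ) ^ n k) = fun _ => 0 := by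
        funext k
        rw [zero_pow (by have := h0 k; omega), mul_zero]
      rw [this]
      exact hasSum_zero
    · rw [hat_ne _ _ hw0]
      have h1 := hs w⁻¹ (inv_ext hw hw0)
      simpa only [inv_inv] using h1
  have hcoef := coeff_le S hmono.injective h0 hs'
  -- the point and the series
  set x : ℝ := R⁻¹ ^ 2 with hx
  have hRi : 0 < R⁻¹ := inv_pos.2 hR0
  have hRi1 : R⁻¹ < 1 := inv_lt_one_of_one_lt₀ hR
  have hx0 : 0 < x := by positivity
  have hx1 : x < 1 := by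
    rw [hx]
    exact pow_lt_one₀ hRi.le hRi1 two_ne_zero
  have hL : -Real.log (1 - x) = Real.log (R ^ 2 / (R ^ 2 - 1)) := by
    have : 1 - x = (R ^ 2 / (R ^ 2 - 1))⁻¹ := by
      rw [hx]
      field_simp
    rw [this, Real.log_inv, neg_neg]
  have hzn : ∀ θ, 1 < ‖circ R θ‖ := by
    intro θ
    rw [circ, norm_mul, Complex.norm_real, Real.norm_of_nonneg hR0.le, Complex.norm_exp_ofReal_mul_I,
      mul_one]
    exact hR
  have hzi : ∀ θ, ∀ m : ℕ, (circ R θ)⁻¹ ^ m = ((R⁻¹ : ℝ) : ℂ) ^ m * ch (-(m : ℤ)) θ := by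
    intro θ m
    rw [circ, mul_inv, mul_pow, ← Complex.exp_neg, ← Complex.exp_nat_mul]
    unfold ch
    push_cast
    congr 2
    ring
  set a : ℕ → ℂ := fun k => (starRingEnd ℂ) t * (c k * ((R⁻¹ : ℝ) : ℂ) ^ n k) with ha
  have han : ∀ k, ‖a k‖ = ‖t‖ * (‖c k‖ * R⁻¹ ^ n k) := by
    intro k
    rw [ha]
    simp only
    rw [norm_mul, norm_mul, norm_pow, RCLike.norm_conj, Complex.norm_real, Real.norm_of_nonneg hRi.le]
  have hsumc : Summable fun k => ‖c k‖ * R⁻¹ ^ n k := by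
    have h1 := (hs' ((R⁻¹ : ℝ) : ℂ) (by
      rw [mem_ball_zero_iff, Complex.norm_real, Real.norm_of_nonneg hRi.le]; exact hRi1)).summable.norm
    refine h1.congr fun j => ?_
    rw [norm_mul, norm_pow, Complex.norm_real, Real.norm_of_nonneg hRi.le]
  have hsa : Summable fun k => ‖a k‖ := by
    simp only [han]
    exact hsumc.mul_left _
  have hcont := cont_ext hR hS.2.2.2.1
  have hgs : ∀ θ, HasSum (fun k => a k * ch (-(n k : ℤ)) θ) ((starRingEnd ℂ) t * h (circ R θ)) := by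
    intro θ
    have h1 := (hs _ (hzn θ)).mul_left ((starRingEnd ℂ) t)
    have e : (fun k => a k * ch (-(n k : ℤ)) θ) =
        fun k => (starRingEnd ℂ) t * (c k * (circ R θ)⁻¹ ^ n k) := by
      funext k
      rw [hzi, ha]
      ring
    rw [e]
    exact h1
  have hV : ∀ N, ∑ k ∈ Finset.range N, ‖a k‖ ^ 2 ≤
      2 * (2 * Real.exp 2 * (Real.log (R ^ 2 / (R ^ 2 - 1)) / Real.log q + 18) * ‖t‖ ^ 2) := by
    intro N
    have h1 : ∀ k, ‖a k‖ ^ 2 ≤ ‖t‖ ^ 2 * (4 * Real.exp 2 * (8 / (n k : ℝ) + x ^ n k)) := by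
      intro k
      rw [han, mul_pow, mul_pow]
      apply mul_le_mul_of_nonneg_left _ (by positivity)
      have e1 : (R⁻¹ ^ n k) ^ 2 = x ^ n k := by
        rw [hx, ← pow_mul, ← pow_mul, mul_comm]
      rw [e1]
      have e2 : 0 < x ^ n k := by positivity
      have e3 : x ^ n k ≤ 1 := pow_le_one₀ hx0.le hx1.le
      have hk1 : (1 : ℝ) ≤ n k := by exact_mod_cast h0 k
      have e4 : (1 + 2 / (n k : ℝ)) ^ 2 ≤ 1 + 8 / (n k : ℝ) := by
        have e5 : 1 / (n k : ℝ) ≤ 1 := by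
          rw [div_le_one (by linarith)]
          exact hk1
        have e6 : 0 < 1 / (n k : ℝ) := by positivity
        have e7 : 2 / (n k : ℝ) = 2 * (1 / (n k : ℝ)) := by ring
        have e8 : 8 / (n k : ℝ) = 8 * (1 / (n k : ℝ)) := by ring
        rw [e7, e8]
        nlinarith
      have e9 : 0 ≤ 8 / (n k : ℝ) := by positivity
      calc ‖c k‖ ^ 2 * x ^ n k ≤ 4 * Real.exp 2 * (1 + 2 / (n k : ℝ)) ^ 2 * x ^ n k :=
            mul_le_mul_of_nonneg_right (hcoef k) e2.le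
        _ ≤ 4 * Real.exp 2 * (1 + 8 / (n k : ℝ)) * x ^ n k := by
            apply mul_le_mul_of_nonneg_right _ e2.le
            exact mul_le_mul_of_nonneg_left e4 (by positivity)
        _ = 4 * Real.exp 2 * (8 / (n k : ℝ) * x ^ n k + x ^ n k) := by ring
        _ ≤ 4 * Real.exp 2 * (8 / (n k : ℝ) + x ^ n k) := by
            apply mul_le_mul_of_nonneg_left _ (by positivity)
            have := mul_le_mul_of_nonneg_left e3 e9
            linarith
    calc ∑ k ∈ Finset.range N, ‖a k‖ ^ 2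
        ≤ ∑ k ∈ Finset.range N, ‖t‖ ^ 2 * (4 * Real.exp 2 * (8 / (n k : ℝ) + x ^ n k)) :=
          Finset.sum_le_sum fun k _ => h1 k
      _ = ‖t‖ ^ 2 * (4 * Real.exp 2 * (∑ k ∈ Finset.range N, 8 / (n k : ℝ) + ∑ k ∈ Finset.range N, x ^ n k)) := by
          rw [← Finset.mul_sum, ← Finset.mul_sum, Finset.sum_add_distrib]
      _ ≤ ‖t‖ ^ 2 * (4 * Real.exp 2 * (16 + (-Real.log (1 - x) / Real.log q + 2))) := by
          apply mul_le_mul_of_nonneg_left _ (by positivity)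
          apply mul_le_mul_of_nonneg_left _ (by positivity)
          exact add_le_add (inv_sum h2n N) (geo hq hqn hx0 hx1 N)
      _ = _ := by
          rw [hL]
          ring
  have hfin := moment (h0 0) hn2 a hsa (continuous_const.mul hcont) hgs hV
  refine hfin.trans (le_of_eq ?_)
  congr 2
  ring

/-- the bound for a given radius -/
theorem bound_at {q : ℝ} (hq : 2 ≤ q) {ψ h : ℂ → ℂ} (hS : IsSigma ψ h) (hg : HasGaps q h) {R : ℝ}
    (hR : 1 < R) {a : ℝ} (ha : 0 < a) {κ : ℝ}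
    (hκ : κ = 2 * Real.exp 2 * (Real.log (R ^ 2 / (R ^ 2 - 1)) / Real.log q + 18))
    (hlt : κ < Real.log (R ^ 2 / (R ^ 2 - 1)) / (4 * a)) :
    marshall a R h ≤ (Real.log (R ^ 2 / (R ^ 2 - 1)) / (4 * a)) /
      (Real.log (R ^ 2 / (R ^ 2 - 1)) / (4 * a) - κ) := by
  have hpi := Real.pi_pos
  have hR2 : 0 < R ^ 2 - 1 := by nlinarith
  have hL : 0 < Real.log (R ^ 2 / (R ^ 2 - 1)) := by
    apply Real.log_pos
    rw [one_lt_div hR2]
    linarith
  set L : ℝ := Real.log (R ^ 2 / (R ^ 2 - 1)) with hLdef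
  set b : ℝ := L / (4 * a) with hb
  have hb0 : 0 < b := by positivity
  have hcont := cont_ext hR hS.2.2.2.1
  have hbk : 0 < b - κ := by linarith
  have e1 : ∀ t : ℂ, Real.exp (-b * ‖t‖ ^ 2) * (2 * Real.pi * Real.exp (κ * ‖t‖ ^ 2)) =
      2 * Real.pi * Real.exp (-(b - κ) * ‖t‖ ^ 2) := by
    intro t
    have : -(b - κ) * ‖t‖ ^ 2 = -b * ‖t‖ ^ 2 + κ * ‖t‖ ^ 2 := by ring
    rw [this, Real.exp_add]
    ring
  obtain ⟨g1, g2⟩ := gauss0 hbk
  have h1 := gauss_avg (h := fun θ => h (circ R θ)) hcont (M := L) (fun θ => goluzin_ext hR hS θ) hb0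
    (B := fun t => 2 * Real.pi * Real.exp (κ * ‖t‖ ^ 2)) (fun t => by
      have := mom hq hS hg hR t
      rw [hκ]
      exact this) (by
      simp only [e1]
      exact g1.const_mul _)
  simp only [e1] at h1
  rw [integral_const_mul, g2] at h1
  unfold marshall
  rw [one_div, inv_mul_le_iff₀ (by positivity)]
  have e2 : ∀ θ, Real.exp (a * ‖h (circ R θ)‖ ^ 2 / Real.log (R ^ 2 / (R ^ 2 - 1))) =
      Real.exp (‖h (circ R θ)‖ ^ 2 / (4 * b)) := by
    intro θ
    congr 1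
    rw [hb, ← hLdef]
    field_simp
  simp only [e2]
  refine h1.trans (le_of_eq ?_)
  field_simp

/-- **the uniform bound** -/
theorem bound {q : ℝ} (hq : 2 ≤ q) {a ρ : ℝ} (ha : 0 < a) (hρ : ρ = 8 * Real.exp 2 * a / Real.log q)
    (hρ1 : ρ < 1) {ψ h : ℂ → ℂ} (hS : IsSigma ψ h) (hg : HasGaps q h) {R : ℝ} (hR : 1 < R) :
    marshall a R h ≤ max (2 / (1 - ρ)) (Real.exp (288 * Real.exp 2 * a ^ 2 / (1 - ρ))) := by
  have hpi := Real.pi_pos
  have he := Real.exp_pos 2
  have hlq : 0 < Real.log q := Real.log_pos (by linarith)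
  have hR2 : 0 < R ^ 2 - 1 := by nlinarith
  have hL : 0 < Real.log (R ^ 2 / (R ^ 2 - 1)) := by
    apply Real.log_pos
    rw [one_lt_div hR2]
    linarith
  set L : ℝ := Real.log (R ^ 2 / (R ^ 2 - 1)) with hLdef
  have hρ0 : 0 < 1 - ρ := by linarith
  rcases le_or_gt (288 * Real.exp 2 * a / (1 - ρ)) L with h1 | h1
  · refine le_trans ?_ (le_max_left _ _)
    obtain ⟨κ, hκ⟩ : ∃ κ, κ = 2 * Real.exp 2 * (L / Real.log q + 18) := ⟨_, rfl⟩
    -- `κ ≤ (1 + ρ) / 2 * L / (4 a)`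
    have h2 : 288 * Real.exp 2 * a ≤ L * (1 - ρ) := by rwa [div_le_iff₀ hρ0] at h1
    have h3 : κ * (4 * a) = ρ * L + 144 * Real.exp 2 * a := by
      rw [hκ, hρ]
      field_simp
      ring
    have h4 : κ ≤ (1 + ρ) / 2 * (L / (4 * a)) := by
      have h5 : κ * (4 * a) ≤ (1 + ρ) / 2 * L := by
        rw [h3]
        nlinarith
      rw [← mul_div_assoc, le_div_iff₀ (by positivity)]
      exact h5
    have hb0 : 0 < L / (4 * a) := by positivity
    have h5 : (1 - ρ) / 2 * (L / (4 * a)) ≤ L / (4 * a) - κ := by nlinarith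
    have h6 : 0 < (1 - ρ) / 2 * (L / (4 * a)) := by positivity
    have h7 := bound_at hq hS hg hR ha hκ (by linarith)
    refine h7.trans ?_
    calc L / (4 * a) / (L / (4 * a) - κ) ≤ L / (4 * a) / ((1 - ρ) / 2 * (L / (4 * a))) :=
          div_le_div_of_nonneg_left hb0.le h6 h5
      _ = 2 / (1 - ρ) := by field_simp
  · refine le_trans ?_ (le_max_right _ _)
    have hc := cont_ext hR hS.2.2.2.1
    unfold marshall
    rw [one_div, inv_mul_le_iff₀ (by positivity)]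
    calc ∫ θ in (0 : ℝ)..(2 * Real.pi), Real.exp (a * ‖h (circ R θ)‖ ^ 2 / Real.log (R ^ 2 / (R ^ 2 - 1)))
        ≤ ∫ θ in (0 : ℝ)..(2 * Real.pi), Real.exp (288 * Real.exp 2 * a ^ 2 / (1 - ρ)) := by
          apply intervalIntegral.integral_mono_on (by positivity)
          · exact (Real.continuous_exp.comp ((continuous_const.mul (hc.norm.pow 2)).div_const _)).intervalIntegrable _ _
          · exact intervalIntegrable_const
          · intro θ _
            apply Real.exp_le_exp.2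
            have h2 := goluzin_ext hR hS θ
            rw [← hLdef] at h2 ⊢
            have h3 : ‖h (circ R θ)‖ ^ 2 ≤ L ^ 2 := pow_le_pow_left₀ (norm_nonneg _) h2 2
            calc a * ‖h (circ R θ)‖ ^ 2 / L ≤ a * L ^ 2 / L := by gcongr
              _ = a * L := by field_simp
              _ ≤ a * (288 * Real.exp 2 * a / (1 - ρ)) := mul_le_mul_of_nonneg_left h1.le ha.le
              _ = _ := by ring
      _ = 2 * Real.pi * Real.exp (288 * Real.exp 2 * a ^ 2 / (1 - ρ)) := by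
          rw [intervalIntegral.integral_const, sub_zero, smul_eq_mul]

end Pool.Agent.Q158.Lac
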