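import Mathlib
import Pool.Agent.Q158.LinD
import Pool.Agent.Q158.BandB

set_option autoImplicit false

/-! # Continuous functions on compact systems -/

namespace Pool.Agent.Q158.Lin

open Finset

universe w

variable {X : Type w} [TopologicalSpace X] [CompactSpace X]

/-- the functions `f ∘ T ^ n` -/
noncomputable def kc (T : X → X) (hT : Continuous T) (f : C(X, ℂ)) (n : ℕ) : C(X, ℂ) :=
  ⟨fun x => f (T^[n] x), f.continuous.comp (hT.iterate n)⟩

theorem kc_apply (T : X → X) (hT : Continuous T) (f : C(X, ℂ)) (n : ℕ) (x : X) :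
    kc T hT f n x = f (T^[n] x) := rfl

theorem sum_apply (T : X → X) (hT : Continuous T) (f : C(X, ℂ)) (k : ℕ) (s : Finset ℕ) (v : ℕ → ℂ)
    (x : X) : (∑ h ∈ s, v h • kc T hT f (k + h)) x = ∑ h ∈ s, v h * f (T^[k + h] x) := by
  rw [ContinuousMap.sum_apply]
  exact Finset.sum_congr rfl fun h _ => rfl

theorem sum_apply0 (T : X → X) (hT : Continuous T) (f : C(X, ℂ)) (s : Finset ℕ) (v : ℕ → ℂ)
    (x : X) : (∑ h ∈ s, v h • kc T hT f h) x = ∑ h ∈ s, v h * f (T^[h] x) := by
  rw [ContinuousMap.sum_apply]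
  exact Finset.sum_congr rfl fun h _ => rfl

theorem kc_contr (T : X → X) (hT : Continuous T) (f : C(X, ℂ)) : Contr (kc T hT f) := by
  intro k L v
  rw [ContinuousMap.norm_le _ (norm_nonneg _)]
  intro x
  have h1 : (∑ h ∈ range L, v h • kc T hT f (k + h)) x =
      (∑ h ∈ range L, v h • kc T hT f h) (T^[k] x) := by
    rw [sum_apply, sum_apply0]
    refine Finset.sum_congr rfl fun h _ => ?_
    rw [← Function.iterate_add_apply, add_comm k h]
  rw [h1]
  exact ContinuousMap.norm_coe_le_norm _ _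

/-- The function `f` has vanishing linear complexity in the system `(X, T)`: for each `ε > 0` there
are a length `H ≥ 1` and a subspace `V` of `ℂ^H`, of dimension at most `ε H`, such that all the
vectors `(f x, f (T x), …, f (T ^ (H - 1) x))` are within distance `√(ε H)` of `V`. -/
def VanishingLinearComplexity {X : Type w} (T : X → X) (f : X → ℂ) : Prop :=
  ∀ ε : ℝ, 0 < ε → ∃ H : ℕ, 1 ≤ H ∧ ∃ V : Submodule ℂ (EuclideanSpace ℂ (Fin H)),
    (Module.finrank ℂ V : ℝ) ≤ ε * H ∧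
    ∀ x, ∃ v ∈ V, ∑ j : Fin H, ‖f (T^[j] x) - v j‖ ^ 2 ≤ ε * H

theorem slow_vlc (T : X → X) (hT : Continuous T) (f : C(X, ℂ))
    (h : VanishingLinearComplexity T f) : Slow (kc T hT f) := by
  intro η hη
  set B : ℝ := ‖f‖ + 1 with hB
  have hB1 : 1 ≤ B := by
    have := norm_nonneg f
    linarith
  have hB0 : 0 < B := by linarith
  obtain ⟨H, hH, V, hV, hx⟩ := h (min 1 (η ^ 2 / B ^ 2)) (by positivity)
  set ε : ℝ := min 1 (η ^ 2 / B ^ 2) with hε
  have hε1 : ε ≤ 1 := min_le_left _ _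
  have hε2 : ε ≤ η ^ 2 / B ^ 2 := min_le_right _ _
  have hε0 : 0 < ε := by positivity
  have hH0 : (0 : ℝ) < H := by exact_mod_cast hH
  have hεη : Real.sqrt ε ≤ η := by
    rw [Real.sqrt_le_left hη.le]
    refine hε2.trans ?_
    rw [div_le_iff₀ (by positivity)]
    nlinarith [sq_nonneg η, sq_nonneg (B - 1)]
  set b := stdOrthonormalBasis ℂ V with hb
  set C : ℝ := B * Real.sqrt H with hC
  have hC0 : 0 < C := by positivity
  refine ⟨H, hH, EuclideanSpace ℂ (Fin (Module.finrank ℂ V)), inferInstance, inferInstance,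
    fun j => WithLp.toLp 2 fun i => if hj : j < H then
      (C : ℂ) * ((b i : V) : EuclideanSpace ℂ (Fin H)) ⟨j, hj⟩ else 0, ?_, ?_⟩
  · have h1 : ∑ j ∈ range H, ‖(WithLp.toLp 2 fun i => if hj : j < H then
        (C : ℂ) * ((b i : V) : EuclideanSpace ℂ (Fin H)) ⟨j, hj⟩ else 0 :
        EuclideanSpace ℂ (Fin (Module.finrank ℂ V)))‖ ^ 2 =
        C ^ 2 * Module.finrank ℂ V := by
      rw [Finset.sum_range]
      have h2 : ∀ j : Fin H, ‖(WithLp.toLp 2 fun i => if hj : (j : ℕ) < H then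
          (C : ℂ) * ((b i : V) : EuclideanSpace ℂ (Fin H)) ⟨j, hj⟩ else 0 :
          EuclideanSpace ℂ (Fin (Module.finrank ℂ V)))‖ ^ 2 =
          ∑ i, C ^ 2 * ‖((b i : V) : EuclideanSpace ℂ (Fin H)) j‖ ^ 2 := by
        intro j
        rw [EuclideanSpace.norm_sq_eq]
        refine Finset.sum_congr rfl fun i _ => ?_
        show ‖(if hj : (j : ℕ) < H then
          (C : ℂ) * ((b i : V) : EuclideanSpace ℂ (Fin H)) ⟨j, hj⟩ else 0)‖ ^ 2 = _
        rw [dif_pos j.2, norm_mul, mul_pow, Complex.norm_real, Real.norm_eq_abs, sq_abs]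
      rw [Finset.sum_congr rfl fun j _ => h2 j, Finset.sum_comm]
      have h3 : ∀ i, ∑ j : Fin H, C ^ 2 * ‖((b i : V) : EuclideanSpace ℂ (Fin H)) j‖ ^ 2 =
          C ^ 2 := by
        intro i
        rw [← Finset.mul_sum, ← EuclideanSpace.norm_sq_eq]
        have h4 : ‖((b i : V) : EuclideanSpace ℂ (Fin H))‖ = 1 := b.orthonormal.1 i
        rw [h4]
        ring
      rw [Finset.sum_congr rfl fun i _ => h3 i]
      simp [mul_comm]
    rw [h1]
    calc C ^ 2 * (Module.finrank ℂ V : ℝ) ≤ C ^ 2 * (ε * H) :=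
          mul_le_mul_of_nonneg_left hV (sq_nonneg _)
      _ ≤ C ^ 2 * (η ^ 2 / B ^ 2 * H) := by gcongr
      _ = (η * H) ^ 2 := by
          rw [hC, mul_pow, Real.sq_sqrt hH0.le]
          field_simp
  · intro v hv
    rw [ContinuousMap.norm_le _ (by positivity)]
    intro x
    rw [sum_apply0]
    obtain ⟨y, hyV, hy⟩ := hx x
    set wv : EuclideanSpace ℂ (Fin H) := WithLp.toLp 2 fun j => f (T^[j] x) with hwv
    have hd : ‖wv - y‖ ≤ Real.sqrt (ε * H) := by
      rw [EuclideanSpace.norm_eq]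
      apply Real.sqrt_le_sqrt
      exact hy
    have hw : ‖wv‖ ≤ ‖f‖ * Real.sqrt H := by
      rw [EuclideanSpace.norm_eq]
      rw [Real.sqrt_le_left (by positivity), mul_pow, Real.sq_sqrt hH0.le]
      calc ∑ j : Fin H, ‖wv j‖ ^ 2 ≤ ∑ _j : Fin H, ‖f‖ ^ 2 :=
            Finset.sum_le_sum fun j _ => pow_le_pow_left₀ (norm_nonneg _)
              (ContinuousMap.norm_coe_le_norm f _) 2
        _ = _ := by simp [mul_comm]
    have hyn : ‖y‖ ≤ C := by
      have h1 : ‖y‖ ≤ ‖wv‖ + ‖wv - y‖ := by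
        have : y = wv - (wv - y) := by abel
        calc ‖y‖ = ‖wv - (wv - y)‖ := by rw [← this]
          _ ≤ _ := norm_sub_le _ _
      have h2 : Real.sqrt (ε * H) ≤ Real.sqrt H := by
        apply Real.sqrt_le_sqrt
        nlinarith
      rw [hC, hB]
      linarith
    -- split
    have e1 : ∑ h ∈ range H, v h * f (T^[h] x) =
        ∑ j : Fin H, v j * y j + ∑ j : Fin H, v j * (wv j - y j) := by
      rw [Finset.sum_range, ← Finset.sum_add_distrib]
      refine Finset.sum_congr rfl fun j _ => ?_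
      show v j * f (T^[j] x) = v j * y j + v j * (f (T^[j] x) - y j)
      ring
    have e2 : ‖∑ j : Fin H, v j * (wv j - y j)‖ ≤ η * H := by
      have h1 : ‖∑ j : Fin H, v j * (wv j - y j)‖ ≤ ∑ j : Fin H, ‖(wv - y) j‖ := by
        refine (norm_sum_le _ _).trans (Finset.sum_le_sum fun j _ => ?_)
        rw [norm_mul]
        calc _ ≤ 1 * ‖(wv - y) j‖ := mul_le_mul (hv _) le_rfl (norm_nonneg _) zero_le_one
          _ = _ := one_mul _
      refine h1.trans ?_
      have h2 : (∑ j : Fin H, ‖(wv - y) j‖) ^ 2 ≤ H * ‖wv - y‖ ^ 2 := by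
        have h3 := sq_sum_le_card_mul_sum_sq (s := (Finset.univ : Finset (Fin H)))
          (f := fun j => ‖(wv - y) j‖)
        rwa [Finset.card_univ, Fintype.card_fin, ← EuclideanSpace.norm_sq_eq] at h3
      refine le_of_sq_le_sq (h2.trans ?_) (by positivity)
      calc (H : ℝ) * ‖wv - y‖ ^ 2 ≤ H * (Real.sqrt (ε * H)) ^ 2 := by gcongr
        _ = (Real.sqrt ε * H) ^ 2 := by
            rw [Real.sq_sqrt (by positivity), mul_pow, Real.sq_sqrt hε0.le]
            ring
        _ ≤ (η * H) ^ 2 := by gcongr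
    have e3 : ‖∑ j : Fin H, v j * y j‖ ≤ ‖∑ j ∈ range H, v j • (WithLp.toLp 2 fun i =>
        if hj : j < H then (C : ℂ) * ((b i : V) : EuclideanSpace ℂ (Fin H)) ⟨j, hj⟩ else 0 :
        EuclideanSpace ℂ (Fin (Module.finrank ℂ V)))‖ := by
      set z : EuclideanSpace ℂ (Fin (Module.finrank ℂ V)) := b.repr ⟨y, hyV⟩ with hz
      have h1 : ‖z‖ = ‖y‖ := b.repr.norm_map _
      have h2 : y = ∑ i, z i • ((b i : V) : EuclideanSpace ℂ (Fin H)) := by
        have h3 := b.sum_repr ⟨y, hyV⟩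
        have h4 := congrArg (Subtype.val) h3
        rw [Submodule.coe_sum] at h4
        exact h4.symm
      set g : Fin (Module.finrank ℂ V) → ℂ := fun i =>
        ∑ j : Fin H, v j * ((b i : V) : EuclideanSpace ℂ (Fin H)) j with hg
      have h3 : ∑ j : Fin H, v j * y j = ∑ i, z i * g i := by
        have h4 : ∀ j : Fin H, y j = ∑ i, z i * ((b i : V) : EuclideanSpace ℂ (Fin H)) j := by
          intro j
          conv_lhs => rw [h2]
          rw [WithLp.ofLp_sum, Finset.sum_apply]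
          rfl
        rw [Finset.sum_congr rfl fun j _ => by rw [h4 j, Finset.mul_sum], Finset.sum_comm]
        refine Finset.sum_congr rfl fun i _ => ?_
        rw [hg, Finset.mul_sum]
        exact Finset.sum_congr rfl fun j _ => by ring
      have h4 : ‖∑ i, z i * g i‖ ^ 2 ≤ ‖z‖ ^ 2 * ∑ i, ‖g i‖ ^ 2 := by
        have h5 : ‖∑ i, z i * g i‖ ≤ ∑ i, ‖z i‖ * ‖g i‖ :=
          (norm_sum_le _ _).trans (le_of_eq (Finset.sum_congr rfl fun i _ => norm_mul _ _))
        have h6 := Finset.sum_mul_sq_le_sq_mul_sq (Finset.univ) (fun i => ‖z i‖) (fun i => ‖g i‖)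
        rw [EuclideanSpace.norm_sq_eq]
        exact (pow_le_pow_left₀ (norm_nonneg _) h5 2).trans h6
      have h5 : ‖∑ j ∈ range H, v j • (WithLp.toLp 2 fun i =>
          if hj : j < H then (C : ℂ) * ((b i : V) : EuclideanSpace ℂ (Fin H)) ⟨j, hj⟩ else 0 :
          EuclideanSpace ℂ (Fin (Module.finrank ℂ V)))‖ ^ 2 = C ^ 2 * ∑ i, ‖g i‖ ^ 2 := by
        rw [EuclideanSpace.norm_sq_eq, Finset.mul_sum]
        refine Finset.sum_congr rfl fun i _ => ?_
        have h6 : (∑ j ∈ range H, v j • (WithLp.toLp 2 fun i =>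
            if hj : j < H then (C : ℂ) * ((b i : V) : EuclideanSpace ℂ (Fin H)) ⟨j, hj⟩ else 0 :
            EuclideanSpace ℂ (Fin (Module.finrank ℂ V)))) i = (C : ℂ) * g i := by
          rw [WithLp.ofLp_sum, Finset.sum_apply, Finset.sum_range, hg, Finset.mul_sum]
          refine Finset.sum_congr rfl fun j _ => ?_
          show v j * (if hj : (j : ℕ) < H then
            (C : ℂ) * ((b i : V) : EuclideanSpace ℂ (Fin H)) ⟨j, hj⟩ else 0) = _
          rw [dif_pos j.2]
          ring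
        rw [h6, norm_mul, mul_pow, Complex.norm_real, Real.norm_eq_abs, sq_abs]
      refine le_of_sq_le_sq ?_ (norm_nonneg _)
      rw [h5, h3]
      refine h4.trans (mul_le_mul_of_nonneg_right ?_ (Finset.sum_nonneg fun _ _ => sq_nonneg _))
      rw [h1]
      exact pow_le_pow_left₀ (norm_nonneg _) hyn 2
    rw [e1]
    exact (norm_add_le _ _).trans (add_le_add e3 e2)

end Pool.Agent.Q158.Lin
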