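import Mathlib
import Pool.Agent.Q158.LinE

set_option autoImplicit false

/-! # Classes of functions; the conclusions for systems -/

namespace Pool.Agent.Q158.Lin

open Finset MeasureTheory

universe w

variable {X : Type w} [TopologicalSpace X] [CompactSpace X]

/-- spectrum in a closed null set -/
theorem slow_spec (T : X → X) (hT : Continuous T) (f : C(X, ℂ)) (K : Set UnitAddCircle)
    (hK : IsClosed K) (h0 : volume K = 0) (B : ℝ)
    (h : ∀ x, ∃ a : ℤ → ℂ, (∀ n, ‖a n‖ ≤ B) ∧ (∀ n : ℕ, a n = f (T^[n] x)) ∧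
      Pool.Agent.TH327.Thin.SpecIn K a) : Slow (kc T hT f) := by
  intro η hη
  obtain ⟨L, hL, ι, iι, c, hc1, hc2⟩ := Pool.Agent.Q158.Band.slow_band (E := ℂ) K hK h0 (max B 0)
    (le_max_right _ _) η hη
  refine ⟨L, hL, EuclideanSpace ℂ ι, inferInstance, inferInstance, c, hc1, fun v hv => ?_⟩
  rw [ContinuousMap.norm_le _ (by positivity)]
  intro x
  rw [sum_apply0]
  obtain ⟨a, ha1, ha2, ha3⟩ := h x
  have h1 := hc2 a (fun n => (ha1 n).trans (le_max_left _ _)) ha3 v hv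
  refine le_trans (le_of_eq ?_) h1
  congr 1
  refine Finset.sum_congr rfl fun n _ => ?_
  rw [ha2, smul_eq_mul]

/-- The mean complexity of `(X, T)` is sublinear for infinitely many lengths: for each `ε > 0` there
are `n ≥ 1` and at most `ε n` points such that each point `x` has mean distance
`(1/n) ∑_{i < n} d(T ^ i x, T ^ i y) ≤ ε` from one of them. -/
def SublinearMeanComplexity {X : Type w} [PseudoMetricSpace X] (T : X → X) : Prop :=
  ∀ ε : ℝ, 0 < ε → ∃ n : ℕ, 1 ≤ n ∧ ∃ S : Finset X, (S.card : ℝ) ≤ ε * n ∧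
    ∀ x, ∃ y ∈ S, ∑ i ∈ range n, dist (T^[i] x) (T^[i] y) ≤ ε * n

theorem vlc_of_cplx {X : Type w} [PseudoMetricSpace X] [CompactSpace X] (T : X → X)
    (h : SublinearMeanComplexity T) (f : C(X, ℂ)) : VanishingLinearComplexity T f := by
  classical
  intro ε hε
  set B : ℝ := ‖f‖ with hB
  have hB0 : 0 ≤ B := norm_nonneg f
  have huc := CompactSpace.uniformContinuous_of_continuous f.continuous
  obtain ⟨δ, hδ, hδ2⟩ := Metric.uniformContinuous_iff.1 huc (Real.sqrt (ε / 2)) (by positivity)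
  have hpt : ∀ x y : X, ‖f x - f y‖ ^ 2 ≤ ε / 2 + 4 * B ^ 2 / δ * dist x y := by
    intro x y
    have hd : 0 ≤ dist x y := dist_nonneg
    by_cases hxy : dist x y < δ
    · have h1 := hδ2 hxy
      rw [dist_eq_norm] at h1
      have h2 : ‖f x - f y‖ ^ 2 ≤ ε / 2 := by
        calc _ ≤ (Real.sqrt (ε / 2)) ^ 2 := pow_le_pow_left₀ (norm_nonneg _) h1.le 2
          _ = _ := Real.sq_sqrt (by positivity)
      have h3 : 0 ≤ 4 * B ^ 2 / δ * dist x y := by positivity
      linarith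
    · push Not at hxy
      have h1 : ‖f x - f y‖ ≤ 2 * B := by
        refine (norm_sub_le _ _).trans ?_
        have := ContinuousMap.norm_coe_le_norm f x
        have := ContinuousMap.norm_coe_le_norm f y
        linarith
      have h2 : ‖f x - f y‖ ^ 2 ≤ 4 * B ^ 2 := by
        calc _ ≤ (2 * B) ^ 2 := pow_le_pow_left₀ (norm_nonneg _) h1 2
          _ = _ := by ring
      have h3 : 4 * B ^ 2 ≤ 4 * B ^ 2 / δ * dist x y := by
        calc 4 * B ^ 2 = 4 * B ^ 2 / δ * δ := by field_simp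
          _ ≤ _ := mul_le_mul_of_nonneg_left hxy (by positivity)
      linarith
  obtain ⟨n, hn, S, hS, hx⟩ := h (min ε (ε * δ / (8 * B ^ 2 + 1))) (by positivity)
  have hn0 : (0 : ℝ) < n := by exact_mod_cast hn
  set w : X → EuclideanSpace ℂ (Fin n) := fun y => WithLp.toLp 2 fun j => f (T^[j] y) with hw
  refine ⟨n, hn, Submodule.span ℂ ((S.image w : Finset _) : Set (EuclideanSpace ℂ (Fin n))), ?_, ?_⟩
  · have h1 := finrank_span_finset_le_card (R := ℂ) (S.image w)
    have h2 : ((S.image w).card : ℝ) ≤ S.card := by exact_mod_cast Finset.card_image_le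
    have h3 : (Module.finrank ℂ (Submodule.span ℂ
        ((S.image w : Finset _) : Set (EuclideanSpace ℂ (Fin n)))) : ℝ) ≤ (S.image w).card := by
      exact_mod_cast h1
    refine h3.trans (h2.trans (hS.trans ?_))
    exact mul_le_mul_of_nonneg_right (min_le_left _ _) hn0.le
  · intro x
    obtain ⟨y, hy, hxy⟩ := hx x
    refine ⟨w y, Submodule.subset_span (Finset.mem_coe.2 (Finset.mem_image_of_mem w hy)), ?_⟩
    have h1 : ∀ j : Fin n, ‖f (T^[j] x) - w y j‖ ^ 2 ≤
        ε / 2 + 4 * B ^ 2 / δ * dist (T^[j] x) (T^[j] y) := fun j => hpt _ _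
    refine (Finset.sum_le_sum fun j _ => h1 j).trans ?_
    rw [Finset.sum_add_distrib, ← Finset.mul_sum, Finset.sum_const, Finset.card_univ,
      Fintype.card_fin, nsmul_eq_mul]
    have h2 : ∑ j : Fin n, dist (T^[j] x) (T^[j] y) ≤ ε * δ / (8 * B ^ 2 + 1) * n := by
      rw [Finset.sum_range] at hxy
      exact hxy.trans (mul_le_mul_of_nonneg_right (min_le_right _ _) hn0.le)
    have h3 : 4 * B ^ 2 / δ * ∑ j : Fin n, dist (T^[j] x) (T^[j] y) ≤ ε / 2 * n := by
      calc _ ≤ 4 * B ^ 2 / δ * (ε * δ / (8 * B ^ 2 + 1) * n) :=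
            mul_le_mul_of_nonneg_left h2 (by positivity)
        _ = 4 * B ^ 2 / (8 * B ^ 2 + 1) * (ε * n) := by field_simp
        _ ≤ 1 / 2 * (ε * n) := by
            apply mul_le_mul_of_nonneg_right _ (by positivity)
            rw [div_le_div_iff₀ (by positivity) (by norm_num)]
            nlinarith
        _ = _ := by ring
    linarith

theorem kc_add (T : X → X) (hT : Continuous T) (f g : C(X, ℂ)) :
    kc T hT (f + g) = fun n => kc T hT f n + kc T hT g n := by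
  funext n
  ext x
  rfl

theorem kc_smul (T : X → X) (hT : Continuous T) (c : ℂ) (f : C(X, ℂ)) :
    kc T hT (c • f) = fun n => c • kc T hT f n := by
  funext n
  ext x
  rfl

theorem kc_zero (T : X → X) (hT : Continuous T) :
    kc T hT (0 : C(X, ℂ)) = fun _ => (0 : C(X, ℂ)) := by
  funext n
  ext x
  rfl

/-- all functions -/
theorem dis_all {u : ℕ → ℤ} (hu : ∀ n, |u n| ≤ 1) {E : Set ℕ} (hE : Sm u E) (T : X → X)
    (hT : Continuous T) (D : Set C(X, ℂ)) (hD : ∀ f ∈ D, Slow (kc T hT f))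
    (f : C(X, ℂ)) (hf : f ∈ (Submodule.span ℂ D).topologicalClosure) : Dis u E (kc T hT f) := by
  set P : Submodule ℂ C(X, ℂ) :=
    { carrier := {g | Dis u E (kc T hT g)}
      add_mem' := fun {a b} ha hb => by
        show Dis u E (kc T hT (a + b))
        rw [kc_add]
        exact Dis.add ha hb
      zero_mem' := by
        show Dis u E (kc T hT 0)
        rw [kc_zero]
        exact Dis.zero u E
      smul_mem' := fun c g hg => by
        show Dis u E (kc T hT (c • g))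
        rw [kc_smul]
        exact Dis.smul hg c } with hP
  have h1 : Submodule.span ℂ D ≤ P :=
    Submodule.span_le.2 fun g hg => dis_of_slow hu hE (kc_contr T hT g) (hD g hg)
  have h3 : f ∈ closure ((Submodule.span ℂ D : Submodule ℂ C(X, ℂ)) : Set C(X, ℂ)) := hf
  refine Dis.approx hu fun ε hε => ?_
  obtain ⟨g, hg, hfg⟩ := Metric.mem_closure_iff.1 h3 ε hε
  refine ⟨kc T hT g, fun n => ?_, h1 hg⟩
  rw [ContinuousMap.norm_le _ hε.le]
  intro x
  have h4 : (kc T hT f n - kc T hT g n) x = (f - g) (T^[n] x) := rfl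
  rw [h4]
  refine (ContinuousMap.norm_coe_le_norm _ _).trans ?_
  rw [← dist_eq_norm]
  exact hfg.le

/-- the conclusions for the points -/
theorem points {u : ℕ → ℤ} {E : Set ℕ} (T : X → X) (hT : Continuous T) (f : C(X, ℂ))
    (h : Dis u E (kc T hT f)) :
    (∀ ε : ℝ, 0 < ε → ∃ N₀ : ℕ, ∀ N : ℕ, N₀ ≤ N → N ∉ E → ∀ (α : ℝ) (x : X),
      ‖∑ n ∈ Icc 1 N, ((u n : ℤ) : ℂ) * e (α * n) * f (T^[n] x)‖ ≤ ε * N) ∧
    (∀ ε : ℝ, 0 < ε → ∃ H₀ : ℕ, ∀ H : ℕ, H₀ ≤ H → ∃ N₀ : ℕ, ∀ N : ℕ, N₀ ≤ N → N ∉ E →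
      ∀ (α : ℝ) (x : ℕ → X), ∑ n ∈ Icc 1 N,
        ‖∑ m ∈ Icc 1 H, ((u (n + m) : ℤ) : ℂ) * e (α * m) * f (T^[m] (x n))‖ ≤ ε * (H * N)) := by
  constructor
  · intro ε hε
    obtain ⟨N₀, h1⟩ := h.1 ε hε
    refine ⟨N₀, fun N hN hNE α x => ?_⟩
    refine le_trans ?_ (h1 N hN hNE α)
    have h2 := ContinuousMap.norm_coe_le_norm
      (∑ n ∈ Icc 1 N, (((u n : ℤ) : ℂ) * e (α * n)) • kc T hT f n) x
    rwa [sum_apply0 T hT f (Icc 1 N) (fun n => ((u n : ℤ) : ℂ) * e (α * n))] at h2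
  · intro ε hε
    obtain ⟨H₀, h1⟩ := h.2 ε hε
    refine ⟨H₀, fun H hH => ?_⟩
    obtain ⟨N₀, h2⟩ := h1 H hH
    refine ⟨N₀, fun N hN hNE α x => ?_⟩
    refine le_trans (Finset.sum_le_sum fun n _ => ?_) (h2 N hN hNE α)
    have h3 := ContinuousMap.norm_coe_le_norm
      (∑ m ∈ Icc 1 H, (((u (n + m) : ℤ) : ℂ) * e (α * m)) • kc T hT f m) (x n)
    rwa [sum_apply0 T hT f (Icc 1 H) (fun m => ((u (n + m) : ℤ) : ℂ) * e (α * m))] at h3

end Pool.Agent.Q158.Lin
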