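import Mathlib
import Pool.Agent.Q158.LinF

set_option autoImplicit false

/-! # From natural averages outside a set of logarithmic density zero to logarithmic averages -/

namespace Pool.Agent.Q158.Lin

open Finset

variable {X : Type*} [NormedAddCommGroup X] [NormedSpace ℂ X]

/-- Abel summation -/
theorem abel_vec (a : ℕ → X) (N : ℕ) : ∑ n ∈ Icc 1 N, (1 / (n : ℂ)) • a n =
    (1 / ((N : ℂ) + 1)) • (∑ n ∈ Icc 1 N, a n) +
      ∑ m ∈ Icc 1 N, (1 / ((m : ℂ) * (m + 1))) • (∑ n ∈ Icc 1 m, a n) := by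
  induction N with
  | zero => simp
  | succ N ih =>
    rw [Finset.sum_Icc_succ_top (by omega), ih,
      Finset.sum_Icc_succ_top (f := fun m => (1 / ((m : ℂ) * (m + 1))) • (∑ n ∈ Icc 1 m, a n))
      (by omega), Finset.sum_Icc_succ_top (f := a) (by omega)]
    set S : X := ∑ n ∈ Icc 1 N, a n
    have h2 : (N : ℂ) + 1 ≠ 0 := by exact_mod_cast (by omega : N + 1 ≠ 0)
    have h3 : (N : ℂ) + 1 + 1 ≠ 0 := by exact_mod_cast (by omega : N + 1 + 1 ≠ 0)
    have h4 : (1 : ℂ) / ((N : ℂ) + 1 + 1) + 1 / (((N : ℂ) + 1) * ((N : ℂ) + 1 + 1)) =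
        1 / ((N : ℂ) + 1) := by
      field_simp
    push_cast
    have h5 : (1 / ((N : ℂ) + 1 + 1)) • (S + a (N + 1)) +
        (∑ m ∈ Icc 1 N, (1 / ((m : ℂ) * (m + 1))) • (∑ n ∈ Icc 1 m, a n) +
          (1 / (((N : ℂ) + 1) * ((N : ℂ) + 1 + 1))) • (S + a (N + 1))) =
        (1 / ((N : ℂ) + 1)) • (S + a (N + 1)) +
          ∑ m ∈ Icc 1 N, (1 / ((m : ℂ) * (m + 1))) • (∑ n ∈ Icc 1 m, a n) := by
      rw [← h4, add_smul]
      abel
    rw [h5, smul_add]
    abel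

/-- the sum of `1 / n` over the elements of `E` -/
noncomputable def mass (E : Set ℕ) (N : ℕ) : ℝ :=
  open Classical in ∑ n ∈ Icc 1 N, (if n ∈ E then (1 : ℝ) / n else 0)

theorem sum_inv_le (N : ℕ) : ∑ m ∈ Icc 1 N, (1 / (m : ℝ)) ≤ 1 + Real.log N := by
  have h1 := harmonic_le_one_add_log N
  rw [harmonic_eq_sum_Icc] at h1
  push_cast at h1
  simpa [one_div] using h1

/-- the real inequality -/
theorem log_bound (S : ℕ → ℝ) (B : ℝ) (hB0 : 0 ≤ B) (hSB : ∀ m, S m ≤ B * m)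
    (E : Set ℕ) (ε : ℝ) (hε : 0 < ε) (N₀ : ℕ) (h : ∀ N : ℕ, N₀ ≤ N → N ∉ E → S N ≤ ε * N)
    (N : ℕ) : S N / (N + 1) + ∑ m ∈ Icc 1 N, S m / (m * (m + 1)) ≤
      B + ε * (1 + Real.log N) + B * mass E N + B * N₀ := by
  classical
  have hpt : ∀ m : ℕ, 1 ≤ m → S m / (m * (m + 1)) ≤ ε * (1 / m) +
      B * (if m ∈ E then (1 : ℝ) / m else 0) + (if m < N₀ then B else 0) := by
    intro m hm
    have hm0 : (0 : ℝ) < m := by exact_mod_cast hm
    have hm1 : (1 : ℝ) ≤ m := by exact_mod_cast hm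
    have g1 : ∀ C : ℝ, 0 ≤ C → S m ≤ C * m → S m / (m * (m + 1)) ≤ C * (1 / m) := by
      intro C hC hSC
      rw [div_le_iff₀ (by positivity)]
      calc S m ≤ C * m := hSC
        _ ≤ C * (m + 1) := by nlinarith
        _ = C * (1 / m) * (m * (m + 1)) := by field_simp
    have p1 : 0 ≤ ε * (1 / (m : ℝ)) := by positivity
    have p2 : 0 ≤ B * (if m ∈ E then (1 : ℝ) / m else 0) := by
      split_ifs <;> positivity
    by_cases h1 : m < N₀
    · rw [if_pos h1]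
      have h2 := g1 B hB0 (hSB m)
      have h3 : B * (1 / (m : ℝ)) ≤ B := by
        have : 1 / (m : ℝ) ≤ 1 := by
          rw [div_le_one hm0]
          exact hm1
        nlinarith
      linarith
    · rw [if_neg h1]
      by_cases h2 : m ∈ E
      · rw [if_pos h2]
        have h3 := g1 B hB0 (hSB m)
        linarith
      · have h3 := g1 ε hε.le (h m (by omega) h2)
        linarith
  have d1 : S N / (N + 1) ≤ B := by
    rw [div_le_iff₀ (by positivity)]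
    have := hSB N
    nlinarith
  have d3 : ∑ m ∈ Icc 1 N, (if m < N₀ then B else 0) ≤ B * N₀ := by
    rw [← Finset.sum_filter, Finset.sum_const, nsmul_eq_mul, mul_comm]
    apply mul_le_mul_of_nonneg_left _ hB0
    have h1 : ((Icc 1 N).filter (fun m => m < N₀)).card ≤ (range N₀).card :=
      Finset.card_le_card fun m hm => Finset.mem_range.2 (Finset.mem_filter.1 hm).2
    rw [Finset.card_range] at h1
    exact_mod_cast h1
  have d4 : ∑ m ∈ Icc 1 N, S m / ((m : ℝ) * (m + 1)) ≤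
      ε * (1 + Real.log N) + B * mass E N + B * N₀ := by
    refine (Finset.sum_le_sum fun m hm => hpt m (Finset.mem_Icc.1 hm).1).trans ?_
    rw [Finset.sum_add_distrib, Finset.sum_add_distrib, ← Finset.mul_sum, ← Finset.mul_sum]
    refine add_le_add (add_le_add (mul_le_mul_of_nonneg_left (sum_inv_le N) hε.le) (le_of_eq ?_)) d3
    unfold mass
    rfl
  linarith

/-- the scale -/
theorem scale (B : ℝ) (hB0 : 0 ≤ B) (E : Set ℕ)
    (hE : ∀ ε : ℝ, 0 < ε → ∃ X₀ : ℕ, ∀ X : ℕ, X₀ ≤ X → mass E X ≤ ε * Real.log X)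
    (ε : ℝ) (hε : 0 < ε) (N₀ : ℕ) : ∃ N₁ : ℕ, ∀ N : ℕ, N₁ ≤ N →
      B + ε * (1 + Real.log N) + B * mass E N + B * N₀ ≤ 2 * ε * Real.log N := by
  obtain ⟨X₀, hX₀⟩ := hE (ε / (2 * (B + 1))) (by positivity)
  obtain ⟨N₂, hN₂⟩ := Filter.eventually_atTop.1 ((Real.tendsto_log_atTop.comp
    tendsto_natCast_atTop_atTop).eventually_ge_atTop (2 / ε * (B + ε + B * N₀)))
  refine ⟨max X₀ (max N₂ 1), fun N hN => ?_⟩
  have hN1 : 1 ≤ N := le_trans (le_trans (le_max_right _ _) (le_max_right _ _)) hN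
  have c1 := hX₀ N (le_trans (le_max_left _ _) hN)
  have c2 : 2 / ε * (B + ε + B * N₀) ≤ Real.log N :=
    hN₂ N (le_trans (le_trans (le_max_left _ _) (le_max_right _ _)) hN)
  have c3 : B + ε + B * N₀ ≤ ε / 2 * Real.log N := by
    calc B + ε + B * N₀ = ε / 2 * (2 / ε * (B + ε + B * N₀)) := by field_simp
      _ ≤ _ := mul_le_mul_of_nonneg_left c2 (by positivity)
  have hlog : 0 ≤ Real.log N := Real.log_nonneg (by exact_mod_cast hN1)
  have d5 : B * (ε / (2 * (B + 1)) * Real.log N) ≤ ε / 2 * Real.log N := by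
    have h1 : B * (ε / (2 * (B + 1))) ≤ ε / 2 := by
      rw [← mul_div_assoc, div_le_div_iff₀ (by positivity) (by norm_num)]
      nlinarith
    calc _ = B * (ε / (2 * (B + 1))) * Real.log N := by ring
      _ ≤ _ := mul_le_mul_of_nonneg_right h1 hlog
  have d6 : B * mass E N ≤ B * (ε / (2 * (B + 1)) * Real.log N) := mul_le_mul_of_nonneg_left c1 hB0
  linarith

/-- the logarithmic conclusions, at all scales -/
def LogDis (u : ℕ → ℤ) (A : ℕ → X) : Prop :=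
  (∀ ε : ℝ, 0 < ε → ∃ N₀ : ℕ, ∀ N : ℕ, N₀ ≤ N → ∀ α : ℝ,
    ‖∑ n ∈ Icc 1 N, (1 / (n : ℂ)) • ((((u n : ℤ) : ℂ) * e (α * n)) • A n)‖ ≤ ε * Real.log N) ∧
  (∀ ε : ℝ, 0 < ε → ∃ H₀ : ℕ, ∀ H : ℕ, H₀ ≤ H → ∃ N₀ : ℕ, ∀ N : ℕ, N₀ ≤ N → ∀ α : ℝ,
    ∑ n ∈ Icc 1 N, (1 / (n : ℝ)) *
      ‖∑ m ∈ Icc 1 H, (((u (n + m) : ℤ) : ℂ) * e (α * m)) • A m‖ ≤ ε * (H * Real.log N))

theorem logDis_of_dis {u : ℕ → ℤ} (hu : ∀ n, |u n| ≤ 1) {E : Set ℕ}
    (hE : ∀ ε : ℝ, 0 < ε → ∃ X₀ : ℕ, ∀ X : ℕ, X₀ ≤ X → mass E X ≤ ε * Real.log X)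
    {A : ℕ → X} (B : ℝ) (hA : ∀ n, ‖A n‖ ≤ B) (h : Dis u E A) : LogDis u A := by
  have hB0 : 0 ≤ B := (norm_nonneg _).trans (hA 0)
  have hg : ∀ (m k : ℕ) (t : ℝ), ‖(((u m : ℤ) : ℂ) * e t) • A k‖ ≤ B := by
    intro m k t
    rw [norm_smul]
    calc _ ≤ 1 * B := mul_le_mul (coef_le u hu _ _) (hA k) (norm_nonneg _) zero_le_one
      _ = _ := one_mul _
  constructor
  · intro ε hε
    obtain ⟨N₀, h1⟩ := h.1 (ε / 2) (by positivity)
    obtain ⟨N₁, h2⟩ := scale B hB0 E hE (ε / 2) (by positivity) N₀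
    refine ⟨N₁, fun N hN α => ?_⟩
    set a : ℕ → X := fun n => (((u n : ℤ) : ℂ) * e (α * n)) • A n with ha
    set S : ℕ → ℝ := fun m => ‖∑ n ∈ Icc 1 m, a n‖ with hS
    have hSB : ∀ m, S m ≤ B * m := by
      intro m
      refine (norm_sum_le _ _).trans ?_
      calc _ ≤ ∑ _n ∈ Icc 1 m, B := Finset.sum_le_sum fun n _ => hg _ _ _
        _ = _ := by simp [mul_comm]
    have h3 := log_bound S B hB0 hSB E (ε / 2) (by positivity) N₀
      (fun N hN hNE => h1 N hN hNE α) N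
    have h4 : ‖∑ n ∈ Icc 1 N, (1 / (n : ℂ)) • a n‖ ≤
        S N / (N + 1) + ∑ m ∈ Icc 1 N, S m / (m * (m + 1)) := by
      rw [abel_vec a N]
      refine (norm_add_le _ _).trans (add_le_add (le_of_eq ?_) ((norm_sum_le _ _).trans
        (Finset.sum_le_sum fun m _ => le_of_eq ?_)))
      · rw [norm_smul, norm_div, norm_one]
        have : ‖((N : ℂ) + 1)‖ = (N : ℝ) + 1 := by
          have : ((N : ℂ) + 1) = (((N + 1 : ℕ) : ℝ) : ℂ) := by push_cast; rfl
          rw [this, Complex.norm_real, Real.norm_eq_abs, abs_of_nonneg (by positivity)]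
          push_cast
          rfl
        rw [this]
        simp only [hS]
        ring
      · rw [norm_smul, norm_div, norm_one]
        have : ‖((m : ℂ) * (m + 1))‖ = (m : ℝ) * (m + 1) := by
          have : ((m : ℂ) * (m + 1)) = (((m : ℝ) * (m + 1) : ℝ) : ℂ) := by push_cast; rfl
          rw [this, Complex.norm_real, Real.norm_eq_abs, abs_of_nonneg (by positivity)]
        rw [this]
        simp only [hS]
        ring
    refine h4.trans (h3.trans ((h2 N hN).trans (le_of_eq ?_)))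
    ring
  · intro ε hε
    obtain ⟨H₀, h1⟩ := h.2 (ε / 2) (by positivity)
    refine ⟨max H₀ 1, fun H hH => ?_⟩
    obtain ⟨N₀, h2⟩ := h1 H (le_trans (le_max_left _ _) hH)
    have hH0 : (0 : ℝ) < H := by
      have : 1 ≤ H := le_trans (le_max_right _ _) hH
      exact_mod_cast (by omega : 0 < H)
    obtain ⟨N₁, h3⟩ := scale (H * B) (by positivity) E hE (ε / 2 * H) (by positivity) N₀
    refine ⟨N₁, fun N hN α => ?_⟩
    set w : ℕ → ℝ := fun n =>
      ‖∑ m ∈ Icc 1 H, (((u (n + m) : ℤ) : ℂ) * e (α * m)) • A m‖ with hw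
    have hw0 : ∀ n, 0 ≤ w n := fun n => norm_nonneg _
    have hwB : ∀ n, w n ≤ H * B := by
      intro n
      refine (norm_sum_le _ _).trans ?_
      calc _ ≤ ∑ _m ∈ Icc 1 H, B := Finset.sum_le_sum fun m _ => hg _ _ _
        _ = _ := by simp
    set S : ℕ → ℝ := fun m => ∑ n ∈ Icc 1 m, w n with hS
    have hSB : ∀ m, S m ≤ (H * B) * m := by
      intro m
      calc S m ≤ ∑ _n ∈ Icc 1 m, (H * B) := Finset.sum_le_sum fun n _ => hwB n
        _ = _ := by simp [mul_comm]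
    have h4 := log_bound S (H * B) (by positivity) hSB E (ε / 2 * H) (by positivity) N₀
      (fun N hN hNE => (h2 N hN hNE α).trans (le_of_eq (by ring))) N
    have h5 : ∑ n ∈ Icc 1 N, (1 / (n : ℝ)) * w n =
        S N / (N + 1) + ∑ m ∈ Icc 1 N, S m / (m * (m + 1)) := by
      have h6 := abel_vec (fun n => ((w n : ℝ) : ℂ)) N
      have h7 : ∑ n ∈ Icc 1 N, (1 / (n : ℂ)) • ((w n : ℝ) : ℂ) =
          ((∑ n ∈ Icc 1 N, (1 / (n : ℝ)) * w n : ℝ) : ℂ) := by
        push_cast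
        rfl
      have h8 : (1 / ((N : ℂ) + 1)) • (∑ n ∈ Icc 1 N, ((w n : ℝ) : ℂ)) +
          ∑ m ∈ Icc 1 N, (1 / ((m : ℂ) * (m + 1))) • (∑ n ∈ Icc 1 m, ((w n : ℝ) : ℂ)) =
          ((S N / (N + 1) + ∑ m ∈ Icc 1 N, S m / (m * (m + 1)) : ℝ) : ℂ) := by
        simp only [hS, smul_eq_mul]
        push_cast
        congr 1
        · ring
        · exact Finset.sum_congr rfl fun m _ => by ring
      rw [h7, h8] at h6
      exact_mod_cast h6
    rw [h5]
    refine h4.trans ((h3 N hN).trans (le_of_eq ?_))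
    ring

end Pool.Agent.Q158.Lin
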