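import Mathlib
import Pool.Agent.TH409.FB.Luc
import Pool.Agent.H533R3.SL.GmK

set_option autoImplicit false

/-! # Sums of few powers of an algebraic number on plane curves -/

namespace Pool.Agent.Q158.Luc

open Finset Height Height.AdmissibleAbsValues Pool.Agent.TH409.SH Pool.Agent.TH409.FB NumberField
  Pool.Agent.H533R3.SL Pool.Agent.H458.Sp MvPolynomial

/-- the plane curve has no nonconstant point over the field of rational functions -/
def NoRat (F : MvPolynomial (Fin 2) ℤ) : Prop :=
  ∀ p : Fin 2 → RatFunc ℂ, MvPolynomial.aeval p F = 0 → ∀ i, ∃ c : ℂ, p i = RatFunc.C c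

/-- the homogenisation over `K` -/
noncomputable def hK (K : Type) [Field K] [NumberField K] (d : ℕ) (F : MvPolynomial (Fin 2) ℤ) :
    MvPolynomial (Fin 3) K :=
  MvPolynomial.map ((algebraMap ℚ K).comp (algebraMap (𝓞 ℚ) ℚ)) (homZ d F)

theorem hK_aeval {K : Type} [Field K] [NumberField K] (d : ℕ) (F : MvPolynomial (Fin 2) ℤ)
    {R : Type} [CommRing R] [Algebra K R] (p : Fin 3 → R) :
    MvPolynomial.aeval p (hK K d F) = ∑ α ∈ F.support, ((MvPolynomial.coeff α F : ℤ) : R) *
      (p 0 ^ (d - α.degree) * ∏ i : Fin 2, p i.succ ^ α i) := by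
  unfold hK homZ
  rw [map_sum, map_sum]
  refine Finset.sum_congr rfl fun α _ => ?_
  rw [MvPolynomial.map_monomial, MvPolynomial.aeval_monomial, Finsupp.prod_fintype _ _ (by simp),
    Fin.prod_univ_succ]
  simp only [Finsupp.cons_zero, Finsupp.cons_succ]
  congr 1
  simp only [map_intCast]

theorem deg_le {F : MvPolynomial (Fin 2) ℤ} {d : ℕ} (hF : F.totalDegree ≤ d) {α : Fin 2 →₀ ℕ}
    (hα : α ∈ F.support) : α.degree ≤ d := by
  have := MvPolynomial.le_totalDegree hα
  have h2 : α.degree = α.sum fun _ e => e := by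
    rw [Finsupp.degree_apply, Finsupp.sum]
  omega

/-- the homogeneous form at a multiple of a point -/
theorem hK_point {K : Type} [Field K] [NumberField K] {d : ℕ} {F : MvPolynomial (Fin 2) ℤ}
    (hF : F.totalDegree ≤ d) (z : K) (x : Fin 2 → K) (hx : MvPolynomial.aeval x F = 0) :
    MvPolynomial.aeval (Fin.cons z (fun i => z * x i) : Fin 3 → K) (hK K d F) = 0 := by
  rw [hK_aeval]
  have h1 : ∀ α ∈ F.support, ((MvPolynomial.coeff α F : ℤ) : K) *
      ((Fin.cons z (fun i => z * x i) : Fin 3 → K) 0 ^ (d - α.degree) *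
        ∏ i : Fin 2, (Fin.cons z (fun i => z * x i) : Fin 3 → K) i.succ ^ α i) =
      z ^ d * (((MvPolynomial.coeff α F : ℤ) : K) * ∏ i : Fin 2, x i ^ α i) := by
    intro α hα
    have h2 := deg_le hF hα
    simp only [Fin.cons_zero, Fin.cons_succ, mul_pow]
    rw [Finset.prod_mul_distrib, Finset.prod_pow_eq_pow_sum, ← Finsupp.degree_eq_sum]
    have h3 : z ^ d = z ^ (d - α.degree) * z ^ α.degree := by
      rw [← pow_add]
      congr 1
      omega
    rw [h3]
    ring
  rw [Finset.sum_congr rfl h1, ← Finset.mul_sum]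
  have h4 : ∑ α ∈ F.support, ((MvPolynomial.coeff α F : ℤ) : K) * ∏ i : Fin 2, x i ^ α i = 0 := by
    rw [MvPolynomial.aeval_def, MvPolynomial.eval₂_eq'] at hx
    rw [← hx]
    refine Finset.sum_congr rfl fun α _ => ?_
    simp
  rw [h4, mul_zero]

/-- a polynomial solution of the homogeneous equation is constant -/
theorem const_of {K : Type} [Field K] [NumberField K] {d : ℕ} {F : MvPolynomial (Fin 2) ℤ}
    (hF : F.totalDegree ≤ d) (hyp : NoRat F) (p : Fin 3 → Polynomial K) (hp0 : p 0 ≠ 0)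
    (hp : MvPolynomial.aeval p (hK K d F) = 0) (i : Fin 2) :
    ∃ c : ℂ, ∀ σ : K →+* ℂ, σ = Classical.choice (inferInstance : Nonempty (K →+* ℂ)) →
      (p i.succ).map σ = Polynomial.C c * (p 0).map σ := by
  classical
  set σ : K →+* ℂ := Classical.choice (inferInstance : Nonempty (K →+* ℂ)) with hσ
  let g : Fin 3 → RatFunc ℂ := fun j => algebraMap (Polynomial ℂ) (RatFunc ℂ) ((p j).map σ)
  have hg0 : g 0 ≠ 0 := by
    intro h
    have h1 : (p 0).map σ = 0 := by
      apply IsFractionRing.injective (Polynomial ℂ) (RatFunc ℂ)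
      rw [map_zero]
      exact h
    exact hp0 ((Polynomial.map_eq_zero σ).1 h1)
  let q : Fin 2 → RatFunc ℂ := fun i => g i.succ / g 0
  have h1 : MvPolynomial.aeval q F = 0 := by
    have h2 : g 0 ^ d * MvPolynomial.aeval q F = 0 := by
      have h3 : g 0 ^ d * MvPolynomial.aeval q F =
          algebraMap (Polynomial ℂ) (RatFunc ℂ) ((MvPolynomial.aeval p (hK K d F)).map σ) := by
        rw [hK_aeval, Polynomial.map_sum, map_sum, MvPolynomial.aeval_def,
          MvPolynomial.eval₂_eq', Finset.mul_sum]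
        refine Finset.sum_congr rfl fun α hα => ?_
        have h4 := deg_le hF hα
        have h5 : ∏ i, q i ^ α i = (∏ i : Fin 2, g i.succ ^ α i) / g 0 ^ α.degree := by
          simp only [q, div_pow]
          rw [Finset.prod_div_distrib, Finset.prod_pow_eq_pow_sum, ← Finsupp.degree_eq_sum]
        have h6 : g 0 ^ d = g 0 ^ (d - α.degree) * g 0 ^ α.degree := by
          rw [← pow_add]
          congr 1
          omega
        rw [h5, h6, Polynomial.map_mul, Polynomial.map_mul, Polynomial.map_pow,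
          Polynomial.map_prod, map_mul, map_mul, map_pow, map_prod]
        simp only [Polynomial.map_pow, map_pow, Polynomial.map_intCast, map_intCast, eq_intCast]
        have h7 : g 0 ^ α.degree ≠ 0 := pow_ne_zero _ hg0
        field_simp
        show _ = ((MvPolynomial.coeff α F : ℤ) : RatFunc ℂ) * g 0 ^ (d - α.degree) *
          ∏ x : Fin 2, g x.succ ^ α x
        ring
      rw [h3, hp, Polynomial.map_zero, map_zero]
    rcases mul_eq_zero.1 h2 with h3 | h3
    · exact absurd h3 (pow_ne_zero _ hg0)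
    · exact h3
  obtain ⟨c, hc⟩ := hyp q h1 i
  refine ⟨c, ?_⟩
  rintro _ rfl
  apply IsFractionRing.injective (Polynomial ℂ) (RatFunc ℂ)
  have h8 : g i.succ = RatFunc.C c * g 0 := by
    rw [← hc]
    simp only [q]
    rw [div_mul_cancel₀ _ hg0]
  rw [map_mul]
  have h9 : algebraMap (Polynomial ℂ) (RatFunc ℂ) (Polynomial.C c) = RatFunc.C c := by
    exact RatFunc.algebraMap_C c
  rw [h9]
  exact h8

/-- **Main bound**, for points of the plane curve over a number field. -/
theorem plane_main (K : Type) [Field K] [NumberField K] (F : MvPolynomial (Fin 2) ℤ) (d : ℕ)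
    (hd : 1 ≤ d) (hF : F.totalDegree ≤ d) (A : ℝ) (hA : 1 ≤ A)
    (hFA : ∑ α ∈ F.support, |((MvPolynomial.coeff α F : ℤ) : ℝ)| ≤ A) (hyp : NoRat F)
    {r : ℕ} (hr : 1 ≤ r) (t : K) (l : Fin r → ℕ) (v : Fin r → Fin 3 → K) (x : Fin 2 → K)
    (hx : MvPolynomial.aeval x F = 0) (z : K) (hz : z ≠ 0)
    (h0 : z = ∑ j, t ^ (l j) * v j 0) (h1 : ∀ i : Fin 2, z * x i = ∑ j, t ^ (l j) * v j i.succ) :
    mulHeight (Fin.cons 1 x : Fin 3 → K) ≤ ((A * r ^ d) ^ totalWeight K *
      mulHeight (fun q : Fin r × Fin 3 => v q.1 q.2) ^ d) ^ (1 + 8 * (4 * d) ^ r) := by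
  classical
  set u : Fin 3 → K := Fin.cons z (fun i => z * x i) with hu
  have hu0 : u ≠ 0 := by
    intro h
    exact hz (congrFun h 0)
  have huv : ∀ i, u i = ∑ j, t ^ (l j) * v j i := by
    intro i
    refine Fin.cases ?_ (fun i => ?_) i
    · exact h0
    · exact h1 i
  have hus : u = z • (Fin.cons 1 x : Fin 3 → K) := by
    funext i
    refine Fin.cases ?_ (fun i => ?_) i
    · simp [u]
    · simp [u]
  have hh : mulHeight u = mulHeight (Fin.cons 1 x : Fin 3 → K) := by
    rw [hus, mulHeight_smul_eq_mulHeight _ hz]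
  have hFF := hyps (K := K) ({homZ d F} : Set (MvPolynomial (Fin 3) (𝓞 ℚ))) d A (by
    rintro G rfl
    exact ⟨⟨d, le_rfl, homZ_homog d F hF⟩, (homZ_nrm d F).trans hFA⟩)
  rw [Set.image_singleton] at hFF
  rcases dichK ({hK K d F} : Set (MvPolynomial (Fin 3) K)) d hd A hA hFF hr t l v u hu0 huv
      (by
      rintro G rfl
      exact hK_point hF z x hx) with ⟨lam, hcur, i, i', hc⟩ | h
  · exfalso
    set p := cur (fun j i => t ^ (l j) * v j i) lam with hp
    have hev : ∀ i, (p i).eval 1 = u i := by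
      intro i
      rw [hp, cur_eval_one, huv i]
    have hp0 : p 0 ≠ 0 := by
      intro h
      have h3 := hev 0
      rw [h, Polynomial.eval_zero] at h3
      exact hz h3.symm
    have h3 := hcur _ rfl
    set σ : K →+* ℂ := Classical.choice (inferInstance : Nonempty (K →+* ℂ)) with hσ
    have hall : ∀ i, ∃ e : ℂ, (p i).map σ = Polynomial.C e * (p 0).map σ := by
      intro i
      refine Fin.cases ?_ (fun i => ?_) i
      · exact ⟨1, by simp⟩
      · obtain ⟨c, hc⟩ := const_of hF hyp p hp0 h3 i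
        exact ⟨c, hc σ rfl⟩
    obtain ⟨e, he⟩ := hall i
    obtain ⟨e', he'⟩ := hall i'
    have hevσ : ∀ i, ((p i).map σ).eval 1 = σ (u i) := by
      intro i
      rw [Polynomial.eval_one_map, hev i]
    apply hc
    apply Polynomial.map_injective σ σ.injective
    have h4 : σ (u i) = e * σ (u 0) := by
      rw [← hevσ i, he, Polynomial.eval_mul, Polynomial.eval_C, hevσ 0]
    have h5 : σ (u i') = e' * σ (u 0) := by
      rw [← hevσ i', he', Polynomial.eval_mul, Polynomial.eval_C, hevσ 0]
    rw [Polynomial.map_mul, Polynomial.map_mul, Polynomial.map_C, Polynomial.map_C, he, he', h4,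
      h5, Polynomial.C_mul, Polynomial.C_mul]
    ring
  · rwa [hh] at h

end Pool.Agent.Q158.Luc
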