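import Mathlib
import Pool.Agent.Q158.LucA

set_option autoImplicit false

/-! # Sums of terms of Lucas sequences on plane curves -/

namespace Pool.Agent.Q158.Luc

open Finset Height Height.AdmissibleAbsValues Pool.Agent.TH409.SH Pool.Agent.TH409.FB NumberField
  Pool.Agent.H533R3.SL Pool.Agent.H458.Sp

theorem int_le (K : Type) [Field K] [NumberField K] (x : Fin 2 → ℤ) (i : Fin 2) :
    max |(x i : ℝ)| 1 ^ totalWeight K ≤
      mulHeight (Fin.cons 1 (fun j => (x j : K)) : Fin 3 → K) := by
  refine (height_int (K := K) (x i)).trans ?_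
  have h3 : ((x i : K)) = (Fin.cons 1 (fun j => (x j : K)) : Fin 3 → K) i.succ /
      (Fin.cons 1 (fun j => (x j : K)) : Fin 3 → K) 0 := by
    simp
  rw [h3, mulHeight₁_div_eq_mulHeight]
  have h4 : ![(Fin.cons 1 (fun j => (x j : K)) : Fin 3 → K) i.succ,
      (Fin.cons 1 (fun j => (x j : K)) : Fin 3 → K) 0] =
      (Fin.cons 1 (fun j => (x j : K)) : Fin 3 → K) ∘ ![i.succ, 0] := by
    funext j
    fin_cases j <;> rfl
  rw [h4]
  exact mulHeight_comp_le _ _

/-- **Sums of terms of Lucas sequences.** -/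
theorem luc_plane (F : MvPolynomial (Fin 2) ℤ) (d : ℕ)
    (hd : 1 ≤ d) (hF : F.totalDegree ≤ d) (A : ℝ) (hA : 1 ≤ A)
    (hFA : ∑ α ∈ F.support, |((MvPolynomial.coeff α F : ℤ) : ℝ)| ≤ A) (hyp : NoRat F)
    (a b : ℤ) (hb : b = 1 ∨ b = -1) (hab : a ^ 2 ≠ 4 * b) (r : ℕ) (B : ℝ) (hB : 1 ≤ B)
    (c c' : Fin r → ℤ) (hc : ∀ j, |(c j : ℝ)| ≤ B) (hc' : ∀ j, |(c' j : ℝ)| ≤ B)
    (m m' : Fin r → ℕ) (x y : ℤ) (hxy : MvPolynomial.eval ![x, y] F = 0)
    (hx : x = ∑ j, c j * luc a b (m j)) (hy : y = ∑ j, c' j * luc a b (m' j)) :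
    max |(x : ℝ)| |(y : ℝ)| ≤ (A * ((4 * r + 2) * B) ^ d) ^
      (1 + 8 * (4 * d) ^ (4 * r + 2)) := by
  classical
  obtain ⟨K, iF, iN, t, ht0, hta⟩ := exists_field a b hb
  set s : K := b * t⁻¹ with hs
  have hts : t * s = b := by
    rw [hs]
    field_simp
  have hb1 : |(b : ℝ)| = 1 := by
    rcases hb with rfl | rfl <;> simp
  set N : ℕ := (∑ j, m j) + (∑ j, m' j) + 1 with hN
  have hmN : ∀ j, m j ≤ N := by
    intro j
    have := Finset.single_le_sum (f := m) (fun _ _ => Nat.zero_le _) (Finset.mem_univ j)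
    omega
  have hmN' : ∀ j, m' j ≤ N := by
    intro j
    have := Finset.single_le_sum (f := m') (fun _ _ => Nat.zero_le _) (Finset.mem_univ j)
    omega
  have hsn : ∀ k, k ≤ N → t ^ N * s ^ k = t ^ (N - k) * (b : K) ^ k := by
    intro k hk
    have h1 : t ^ N = t ^ (N - k) * t ^ k := by
      rw [← pow_add]
      congr 1
      omega
    rw [h1, mul_assoc, ← mul_pow, hts]
  have hzne : t - s ≠ 0 := by
    intro h
    apply hab
    have h1 : ((a ^ 2 : ℤ) : K) = ((4 * b : ℤ) : K) := by
      push_cast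
      rw [← hta, ← hts]
      linear_combination (t - s) * h
    exact_mod_cast h1
  -- the index set
  let ι := Bool ⊕ ((Fin r × Bool) ⊕ (Fin r × Bool))
  let ex : ι → ℕ := Sum.elim (fun β => if β then N + 1 else N - 1)
    (Sum.elim (fun q => if q.2 then N + m q.1 else N - m q.1)
      (fun q => if q.2 then N + m' q.1 else N - m' q.1))
  let w : ι → Fin 3 → ℤ := Sum.elim (fun β => ![if β then 1 else -b, 0, 0])
    (Sum.elim (fun q => ![0, if q.2 then c q.1 else -(c q.1 * b ^ m q.1), 0])
      (fun q => ![0, 0, if q.2 then c' q.1 else -(c' q.1 * b ^ m' q.1)]))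
  have hcard : Fintype.card ι = 4 * r + 2 := by
    simp only [ι, Fintype.card_sum, Fintype.card_bool, Fintype.card_prod, Fintype.card_fin]
    ring
  let e : Fin (4 * r + 2) ≃ ι := (Fintype.equivFinOfCardEq hcard).symm
  have hN1 : 1 ≤ N := by omega
  have key : ∀ (g : Fin 3), ∑ j : Fin (4 * r + 2), t ^ (ex (e j)) * (w (e j) g : K) =
      ∑ i : ι, t ^ (ex i) * (w i g : K) := fun g =>
    Equiv.sum_comp e (fun i => t ^ (ex i) * (w i g : K))
  have hz0 : t ^ N * (t - s) = ∑ i : ι, t ^ (ex i) * (w i 0 : K) := by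
    have h1 := hsn 1 hN1
    rw [Fintype.sum_sum_type, Fintype.sum_sum_type]
    simp only [ι, ex, w, Sum.elim_inl, Sum.elim_inr, Fintype.sum_bool, Matrix.cons_val_zero,
      Int.cast_zero, mul_zero, Finset.sum_const_zero, add_zero, if_true, Bool.false_eq_true,
      if_false, Int.cast_one, mul_one, Int.cast_neg]
    rw [pow_one, pow_one] at h1
    rw [mul_sub, h1]
    ring
  have hz1 : t ^ N * (t - s) * (x : K) = ∑ i : ι, t ^ (ex i) * (w i 1 : K) := by
    rw [Fintype.sum_sum_type, Fintype.sum_sum_type, hx]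
    simp only [ι, ex, w, Sum.elim_inl, Sum.elim_inr, Fintype.sum_prod_type, Fintype.sum_bool,
      Matrix.cons_val_one, Matrix.cons_val_zero, Int.cast_zero, mul_zero,
      Finset.sum_const_zero, add_zero, zero_add, if_true, Bool.false_eq_true, if_false]
    push_cast
    rw [Finset.mul_sum]
    refine Finset.sum_congr rfl fun j _ => ?_
    have h1 := binet a b t s hta hts (m j)
    have h2 := hsn (m j) (hmN j)
    calc t ^ N * (t - s) * ((c j : K) * (luc a b (m j) : K))
        = (c j : K) * (t ^ N * ((t - s) * (luc a b (m j) : K))) := by ring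
      _ = (c j : K) * (t ^ N * t ^ m j - t ^ N * s ^ m j) := by rw [h1]; ring
      _ = _ := by rw [h2, pow_add]; ring
  have hz2 : t ^ N * (t - s) * (y : K) = ∑ i : ι, t ^ (ex i) * (w i 2 : K) := by
    rw [Fintype.sum_sum_type, Fintype.sum_sum_type, hy]
    simp only [ι, ex, w, Sum.elim_inl, Sum.elim_inr, Fintype.sum_prod_type, Fintype.sum_bool,
      Matrix.cons_val, Int.cast_zero, mul_zero,
      Finset.sum_const_zero, add_zero, zero_add, if_true, Bool.false_eq_true, if_false]
    push_cast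
    rw [Finset.mul_sum]
    refine Finset.sum_congr rfl fun j _ => ?_
    have h1 := binet a b t s hta hts (m' j)
    have h2 := hsn (m' j) (hmN' j)
    calc t ^ N * (t - s) * ((c' j : K) * (luc a b (m' j) : K))
        = (c' j : K) * (t ^ N * ((t - s) * (luc a b (m' j) : K))) := by ring
      _ = (c' j : K) * (t ^ N * t ^ m' j - t ^ N * s ^ m' j) := by rw [h1]; ring
      _ = _ := by rw [h2, pow_add]; ring
  have hxyK : MvPolynomial.aeval (fun j => ((![x, y] : Fin 2 → ℤ) j : K)) F = 0 := by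
    have h2 := congrArg (Int.castRingHom K) hxy
    rw [map_zero, MvPolynomial.eval, MvPolynomial.coe_eval₂Hom, MvPolynomial.hom_eval₂] at h2
    rw [MvPolynomial.aeval_def, ← h2]
    congr 1
  have hmain := plane_main K F d hd hF A hA hFA hyp (r := 4 * r + 2) (by omega) t
    (fun j => ex (e j)) (fun j g => (w (e j) g : K)) (fun j => ((![x, y] : Fin 2 → ℤ) j : K)) hxyK
    (t ^ N * (t - s)) (mul_ne_zero (pow_ne_zero N ht0) hzne) (by rw [key, hz0]) (by
      intro i
      fin_cases i
      · exact hz1.trans (key 1).symm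
      · exact hz2.trans (key 2).symm)
  have hwB : ∀ i g, |(w i g : ℝ)| ≤ B := by
    have hpow : ∀ k : ℕ, |((b : ℝ) ^ k)| = 1 := by
      intro k
      rw [abs_pow, hb1, one_pow]
    rintro (β | q | q) g
    · fin_cases g
      · cases β
        · simpa [w, hb1] using hB
        · simpa [w] using hB
      · simpa [w] using le_trans zero_le_one hB
      · simpa [w] using le_trans zero_le_one hB
    · obtain ⟨j, β⟩ := q
      fin_cases g
      · simpa [w] using le_trans zero_le_one hB
      · cases β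
        · simpa [w, abs_mul, hpow, hb1] using hc j
        · simpa [w] using hc j
      · simpa [w] using le_trans zero_le_one hB
    · obtain ⟨j, β⟩ := q
      fin_cases g
      · simpa [w] using le_trans zero_le_one hB
      · simpa [w] using le_trans zero_le_one hB
      · cases β
        · simpa [w, abs_mul, hpow, hb1] using hc' j
        · simpa [w] using hc' j
  have hH : mulHeight (fun q : Fin (4 * r + 2) × Fin 3 => (w (e q.1) q.2 : K)) ≤
      B ^ totalWeight K :=
    height_ints (fun q : Fin (4 * r + 2) × Fin 3 => w (e q.1) q.2) B hB fun q => hwB _ _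
  have hD : totalWeight K ≠ 0 := by
    rw [totalWeight_eq_finrank]
    exact Module.finrank_pos.ne'
  have hup : mulHeight (Fin.cons 1 (fun j => ((![x, y] : Fin 2 → ℤ) j : K)) : Fin 3 → K) ≤
      ((A * ((4 * r + 2) * B) ^ d) ^ (1 + 8 * (4 * d) ^ (4 * r + 2))) ^ totalWeight K := by
    refine hmain.trans ?_
    rw [← pow_mul, mul_comm (1 + 8 * (4 * d) ^ (4 * r + 2)), pow_mul]
    refine pow_le_pow_left₀ (mul_nonneg (by positivity) (pow_nonneg (mulHeight_pos _).le _)) ?_ _
    calc (A * ((4 * r + 2 : ℕ) : ℝ) ^ d) ^ totalWeight K *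
        mulHeight (fun q : Fin (4 * r + 2) × Fin 3 => (w (e q.1) q.2 : K)) ^ d
        ≤ (A * ((4 * r + 2 : ℕ) : ℝ) ^ d) ^ totalWeight K * (B ^ totalWeight K) ^ d := by
          refine mul_le_mul_of_nonneg_left ?_ (by positivity)
          exact pow_le_pow_left₀ (mulHeight_pos _).le hH _
      _ = (A * ((4 * r + 2) * B) ^ d) ^ totalWeight K := by
          rw [← pow_mul, mul_comm (totalWeight K), pow_mul, ← mul_pow]
          congr 1
          push_cast
          rw [mul_pow]
          ring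
  have hfin : ∀ i : Fin 2, max |((![x, y] : Fin 2 → ℤ) i : ℝ)| 1 ≤
      (A * ((4 * r + 2) * B) ^ d) ^ (1 + 8 * (4 * d) ^ (4 * r + 2)) := fun i =>
    (pow_le_pow_iff_left₀ (by positivity) (by positivity) hD).1 ((int_le K ![x, y] i).trans hup)
  exact max_le ((le_max_left _ _).trans (hfin 0)) ((le_max_left _ _).trans (hfin 1))

end Pool.Agent.Q158.Luc
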