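import Mathlib
import Pool.Agent.Q21.DW.Cnt

/-! # Elements of thin families whose real size is close to a random integer -/

set_option autoImplicit false

namespace Pool.Agent.Q158.RR

open Finset Pool.Agent.Q21.DW

/-- if the family `E` with the real size `f` is thin, few integers are at a distance of at most `K`
from the size of an element of `E` -/
theorem ps_real {T : Type*} (E : Set T) (f : T → ℝ) (s : ℝ) (hs : 0 ≤ s)
    (h : ∀ ε : ℝ, 0 < ε → ∃ C : ℝ, ∀ X : ℝ, 1 ≤ X → {x | x ∈ E ∧ f x ≤ X}.Finite ∧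
      ({x | x ∈ E ∧ f x ≤ X}.ncard : ℝ) ≤ C * X ^ (s + ε)) (K : ℕ) :
    PS s (fun m => ∃ x ∈ E, |f x - m| ≤ K) := by
  classical
  intro t ht
  obtain ⟨C, hC⟩ := h (t - s) (by linarith)
  rw [add_sub_cancel] at hC
  have ht0 : 0 ≤ t := hs.trans ht.le
  refine ⟨(2 * K + 1 : ℕ) * |C| * ((K : ℝ) + 1) ^ t, fun N hN => ?_⟩
  have hN1 : (1 : ℝ) ≤ N := by exact_mod_cast hN
  have hK0 : (0 : ℝ) ≤ K := Nat.cast_nonneg K
  have hX : (1 : ℝ) ≤ (N : ℝ) + K := by linarith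
  obtain ⟨hfin, hcard⟩ := hC ((N : ℝ) + K) hX
  set S : Finset T := hfin.toFinset with hS
  -- the integers near the size of `x`
  let W : T → Finset ℕ := fun x => (Icc 1 N).filter (fun m : ℕ => |f x - m| ≤ K)
  have hW : ∀ x, (W x).card ≤ 2 * K + 1 := by
    intro x
    rcases (W x).eq_empty_or_nonempty with h0 | h0
    · rw [h0]
      simp
    · set a := (W x).min' h0 with ha
      have h1 : W x ⊆ Icc a (a + 2 * K) := by
        intro m hm
        have h2 : a ≤ m := (W x).min'_le m hm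
        have h3 : a ∈ W x := (W x).min'_mem h0
        have h4 := (mem_filter.1 hm).2
        have h5 := (mem_filter.1 h3).2
        have h6 : (m : ℝ) ≤ a + 2 * K := by
          obtain ⟨h7, -⟩ := abs_le.1 h4
          obtain ⟨-, h8⟩ := abs_le.1 h5
          linarith
        have h7 : m ≤ a + 2 * K := by exact_mod_cast h6
        exact mem_Icc.2 ⟨h2, h7⟩
      refine (card_le_card h1).trans ?_
      rw [Nat.card_Icc]
      omega
  have hsub : ((Icc 1 N).filter (fun m : ℕ => ∃ x ∈ E, |f x - m| ≤ K)) ⊆ S.biUnion W := by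
    intro m hm
    rw [mem_filter, mem_Icc] at hm
    obtain ⟨⟨hm1, hmN⟩, x, hx, hxm⟩ := hm
    rw [mem_biUnion]
    refine ⟨x, ?_, mem_filter.2 ⟨mem_Icc.2 ⟨hm1, hmN⟩, hxm⟩⟩
    rw [hS, Set.Finite.mem_toFinset]
    refine ⟨hx, ?_⟩
    have h1 : (m : ℝ) ≤ N := by exact_mod_cast hmN
    linarith [(abs_le.1 hxm).2]
  have h1 : ((((Icc 1 N).filter (fun m : ℕ => ∃ x ∈ E, |f x - m| ≤ K)).card : ℕ) : ℝ) ≤
      ((2 * K + 1 : ℕ) : ℝ) * (S.card : ℝ) := by
    have h2 : ((Icc 1 N).filter (fun m : ℕ => ∃ x ∈ E, |f x - m| ≤ K)).card ≤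
        (2 * K + 1) * S.card := by
      refine (card_le_card hsub).trans (card_biUnion_le.trans ?_)
      calc ∑ x ∈ S, (W x).card ≤ ∑ _x ∈ S, (2 * K + 1) := sum_le_sum fun x _ => hW x
        _ = (2 * K + 1) * S.card := by rw [sum_const, smul_eq_mul, mul_comm]
    exact_mod_cast h2
  have h2 : (S.card : ℝ) ≤ |C| * (((K : ℝ) + 1) ^ t * (N : ℝ) ^ t) := by
    rw [hS, ← Set.ncard_eq_toFinset_card _ hfin]
    calc _ ≤ C * ((N : ℝ) + K) ^ t := hcard
      _ ≤ |C| * ((N : ℝ) + K) ^ t := mul_le_mul_of_nonneg_right (le_abs_self C) (by positivity)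
      _ ≤ |C| * (((K : ℝ) + 1) * N) ^ t := by
          refine mul_le_mul_of_nonneg_left (Real.rpow_le_rpow (by positivity) ?_ ht0) (abs_nonneg C)
          nlinarith
      _ = _ := by rw [Real.mul_rpow (by positivity) (by positivity)]
  calc _ ≤ ((((Icc 1 N).filter (fun m : ℕ => ∃ x ∈ E, |f x - m| ≤ K)).card : ℕ) : ℝ) := by
        exact_mod_cast card_mono fun m hm h5 => ⟨hm, h5⟩
    _ ≤ ((2 * K + 1 : ℕ) : ℝ) * (S.card : ℝ) := h1
    _ ≤ ((2 * K + 1 : ℕ) : ℝ) * (|C| * (((K : ℝ) + 1) ^ t * (N : ℝ) ^ t)) :=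
        mul_le_mul_of_nonneg_left h2 (Nat.cast_nonneg _)
    _ = _ := by ring

/-- a thin family is thin with every larger exponent -/
theorem weaken {T : Type*} {E : Set T} {f : T → ℝ} {s s' : ℝ} (hs : s' ≤ s)
    (h : ∀ ε : ℝ, 0 < ε → ∃ C : ℝ, ∀ X : ℝ, 1 ≤ X → {x | x ∈ E ∧ f x ≤ X}.Finite ∧
      ({x | x ∈ E ∧ f x ≤ X}.ncard : ℝ) ≤ C * X ^ (s' + ε)) :
    ∀ ε : ℝ, 0 < ε → ∃ C : ℝ, ∀ X : ℝ, 1 ≤ X → {x | x ∈ E ∧ f x ≤ X}.Finite ∧
      ({x | x ∈ E ∧ f x ≤ X}.ncard : ℝ) ≤ C * X ^ (s + ε) := by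
  intro ε hε
  obtain ⟨C, hC⟩ := h ε hε
  refine ⟨|C|, fun X hX => ?_⟩
  obtain ⟨h1, h2⟩ := hC X hX
  refine ⟨h1, h2.trans ?_⟩
  calc C * X ^ (s' + ε) ≤ |C| * X ^ (s' + ε) :=
        mul_le_mul_of_nonneg_right (le_abs_self C) (by positivity)
    _ ≤ |C| * X ^ (s + ε) := by
        refine mul_le_mul_of_nonneg_left ?_ (abs_nonneg C)
        exact Real.rpow_le_rpow_of_exponent_le hX (by linarith)

/-- **No element of a thin family has a size near a random integer.** -/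
theorem random {T : Type*} {ι : Type} [Countable ι] (E : ι → Set T) (f : ι → T → ℝ) (s : ℝ)
    (hs : 0 ≤ s) (hs1 : s < 1)
    (h : ∀ i, ∀ ε : ℝ, 0 < ε → ∃ C : ℝ, ∀ X : ℝ, 1 ≤ X → {x | x ∈ E i ∧ f i x ≤ X}.Finite ∧
      ({x | x ∈ E i ∧ f i x ≤ X}.ncard : ℝ) ≤ C * X ^ (s + ε)) :
    RandomReals s (fun (p : ι × ℕ) (m : ℕ) => ∀ x ∈ E p.1, (p.2 : ℝ) < |f p.1 x - m|) := by
  refine randomReals_of (B := fun (p : ι × ℕ) (m : ℕ) => ∃ x ∈ E p.1, |f p.1 x - m| ≤ p.2) hs hs1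
    (fun p => ps_real (E p.1) (f p.1) s hs (h p.1) p.2) fun p m _ h1 x hx => ?_
  by_contra hcon
  exact h1 ⟨x, hx, not_lt.1 hcon⟩

/-- weakening of the properties -/
theorem mono {ι κ : Type} {s : ℝ} {G : ι → ℕ → Prop} {G' : κ → ℕ → Prop} (h : RandomReals s G)
    (φ : κ → ι) (hG : ∀ k m, G (φ k) m → G' k m) : RandomReals s G' where
  digits := by
    filter_upwards [h.digits] with α hα i g hg κ' hκ
    filter_upwards [hα (φ i) g hg κ' hκ] with k hk j hj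
    exact hG i _ (hk j hj)
  dim := by
    intro η hη
    refine le_trans (dimH_mono ?_) (h.dim η hη)
    intro α hα hcon
    refine hα fun i g hg => ?_
    filter_upwards [hcon (φ i) g hg] with k hk j hj
    exact hG i _ (hk j hj)
  dilates := by
    intro t s' v w ht hs hv hw hsum
    refine MeasureTheory.measure_mono_null ?_ (h.dilates t s' v w ht hs hv hw hsum)
    rintro α ⟨h2, h3⟩
    refine ⟨h2, fun h4 => h3 fun i => ?_⟩
    filter_upwards [h4 (φ i)] with k hk m hm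
    exact hG i m (hk m hm)

end Pool.Agent.Q158.RR
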