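import Mathlib

set_option autoImplicit false

open Set Filter Topology MeasureTheory Metric FourierTransform
open scoped ContDiff

namespace Pool.Agent.Q158.Spec

variable {V : Type*} [NormedAddCommGroup V] [InnerProductSpace ℝ V] [FiniteDimensional ℝ V]
  [MeasurableSpace V] [BorelSpace V]

/-- the character with frequency `u` -/
noncomputable def ch (u ξ : V) : ℂ := Complex.exp (((2 * Real.pi * inner ℝ ξ u : ℝ) : ℂ) * Complex.I)

omit [FiniteDimensional ℝ V] [MeasurableSpace V] [BorelSpace V] in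
lemma norm_ch (u ξ : V) : ‖ch u ξ‖ = 1 := Complex.norm_exp_ofReal_mul_I _

omit [FiniteDimensional ℝ V] [MeasurableSpace V] [BorelSpace V] in
lemma contDiff_ch (u : V) : ContDiff ℝ ∞ (ch u) := by
  unfold ch
  apply ContDiff.cexp
  apply ContDiff.mul _ contDiff_const
  exact Complex.ofRealCLM.contDiff.comp (contDiff_const.mul (contDiff_id.inner ℝ contDiff_const))

omit [FiniteDimensional ℝ V] [MeasurableSpace V] [BorelSpace V] in
lemma ch_comm (u ξ : V) : ch u ξ = ch ξ u := by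
  unfold ch; rw [real_inner_comm]

omit [FiniteDimensional ℝ V] [MeasurableSpace V] [BorelSpace V] in
lemma ch_zero_right (u : V) : ch u 0 = 1 := by simp [ch]

omit [FiniteDimensional ℝ V] [MeasurableSpace V] [BorelSpace V] in
lemma ch_add (u u' ξ : V) : ch (u + u') ξ = ch u ξ * ch u' ξ := by
  unfold ch
  rw [← Complex.exp_add, inner_add_right]
  congr 1; push_cast; ring

lemma fourier_eq_ch (θ : V → ℂ) (x : V) : 𝓕 θ x = ∫ ξ, ch (-x) ξ * θ ξ := by
  rw [Real.fourier_eq']
  congr 1; ext ξ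
  unfold ch
  rw [smul_eq_mul, inner_neg_right]
  congr 2
  push_cast; ring

/-- modulation becomes translation -/
lemma fourier_mul_ch (θ : V → ℂ) (u x : V) : 𝓕 (fun ξ => θ ξ * ch u ξ) x = 𝓕 θ (x - u) := by
  rw [fourier_eq_ch, fourier_eq_ch]
  congr 1; ext ξ
  have : -(x - u) = -x + u := by abel
  rw [this, ch_add]; ring

/-- dilation -/
lemma fourier_dilate (θ : V → ℂ) {N : ℝ} (hN : 0 < N) (x : V) :
    𝓕 (fun ξ => θ (N⁻¹ • ξ)) x = (N ^ Module.finrank ℝ V : ℝ) • 𝓕 θ (N • x) := by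
  rw [fourier_eq_ch, fourier_eq_ch]
  have h := Measure.integral_comp_inv_smul_of_nonneg (volume : Measure V)
    (fun η => ch (-(N • x)) η * θ η) hN.le
  rw [← h]
  congr 1; ext ξ
  congr 1
  unfold ch
  congr 3
  rw [inner_neg_right, inner_neg_right, real_inner_smul_left, real_inner_smul_right,
    ← mul_assoc N⁻¹, inv_mul_cancel₀ hN.ne', one_mul]

/-- spectrum in the closed ball of radius `R` -/
def SpecIn (R : ℝ) (h : V → ℂ) : Prop :=
  ∀ θ : V → ℂ, ContDiff ℝ ∞ θ → HasCompactSupport θ → Disjoint (tsupport θ) (closedBall 0 R) →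
    ∫ x, h x * 𝓕 θ x = 0

/-- the Fourier transform of a test function is integrable and continuous -/
lemma integrable_fourier {θ : V → ℂ} (h1 : ContDiff ℝ ∞ θ) (h2 : HasCompactSupport θ) :
    Integrable (𝓕 θ) := by
  have := (𝓕 (h2.toSchwartzMap h1)).integrable (μ := (volume : Measure V))
  exact this

lemma continuous_fourier {θ : V → ℂ} (h1 : ContDiff ℝ ∞ θ) (h2 : HasCompactSupport θ) :
    Continuous (𝓕 θ) := (𝓕 (h2.toSchwartzMap h1)).continuous

lemma integral_fourier {θ : V → ℂ} (h1 : ContDiff ℝ ∞ θ) (h2 : HasCompactSupport θ) :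
    ∫ x, 𝓕 θ x = θ 0 := by
  have h := Continuous.fourierInv_fourier_eq h1.continuous
    (h1.continuous.integrable_of_hasCompactSupport h2) (integrable_fourier h1 h2)
  have h0 := congrFun h 0
  rw [Real.fourierInv_eq] at h0
  simpa using h0

/-- a function with spectrum in a ball reproduces itself -/
lemma reproduce {R : ℝ} (hR : 0 ≤ R) {h : V → ℂ} (hc : Continuous h) {B : ℝ}
    (hB : ∀ x, ‖h x‖ ≤ B) (hs : SpecIn R h) {χ : V → ℂ} (h1 : ContDiff ℝ ∞ χ)
    (h2 : HasCompactSupport χ) (h3 : ∀ ξ, ‖ξ‖ ≤ R + 1 → χ ξ = 1) (x : V) :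
    h x = ∫ u, h (x + u) * 𝓕 χ u := by
  -- the cut offs
  let θ : ℝ → V → ℂ := fun N ξ => χ (N⁻¹ • ξ) * ch x ξ
  have hθ1 : ∀ N, ContDiff ℝ ∞ (θ N) := fun N =>
    (h1.comp (contDiff_const_smul _)).mul (contDiff_ch x)
  have hθ2 : ∀ N : ℝ, 1 ≤ N → HasCompactSupport (θ N) := by
    intro N hN
    have hN0 : N⁻¹ ≠ 0 := by positivity
    have := h2.comp_homeomorph (Homeomorph.smulOfNeZero N⁻¹ hN0)
    exact this.mul_right
  have hF : ∀ N : ℝ, 1 ≤ N → ∀ y, 𝓕 (θ N) y = (N ^ Module.finrank ℝ V : ℝ) • 𝓕 χ (N • (y - x)) := by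
    intro N hN y
    show 𝓕 (fun ξ => χ (N⁻¹ • ξ) * ch x ξ) y = _
    rw [fourier_mul_ch (fun ξ => χ (N⁻¹ • ξ)) x y, fourier_dilate χ (by linarith)]
  -- value of the pairing
  have hI : ∀ N : ℝ, 1 ≤ N → ∫ y, h y * 𝓕 (θ N) y = ∫ u, h (x + N⁻¹ • u) * 𝓕 χ u := by
    intro N hN
    have hN0 : 0 < N := by linarith
    have e1 := Measure.integral_comp_smul_of_nonneg (volume : Measure V)
      (fun u => h (x + N⁻¹ • u) * 𝓕 χ u) N (hR := hN0.le)
    have e2 : ∫ y, h y * 𝓕 (θ N) y = (N ^ Module.finrank ℝ V : ℝ) •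
        ∫ y, h (x + N⁻¹ • (N • y)) * 𝓕 χ (N • y) := by
      rw [← integral_smul, ← integral_add_right_eq_self _ x]
      congr 1; ext y
      rw [hF N hN, add_sub_cancel_right, smul_smul, inv_mul_cancel₀ hN0.ne', one_smul, add_comm x y]
      simp only [Complex.real_smul]
      ring
    rw [e2, e1, smul_smul]
    rw [mul_inv_cancel₀ (by positivity), one_smul]
  -- independence of the cut off
  have hind : ∀ N : ℝ, 1 ≤ N → ∫ y, h y * 𝓕 (θ N) y = ∫ y, h y * 𝓕 (θ 1) y := by
    intro N hN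
    have hint : ∀ N : ℝ, 1 ≤ N → Integrable (fun y => h y * 𝓕 (θ N) y) := by
      intro N hN
      exact (integrable_fourier (hθ1 N) (hθ2 N hN)).bdd_mul hc.aestronglyMeasurable
        (Eventually.of_forall hB)
    have hsub : 𝓕 (fun ξ => θ N ξ - θ 1 ξ) = fun y => 𝓕 (θ N) y - 𝓕 (θ 1) y := by
      have i1 := (hθ1 N).continuous.integrable_of_hasCompactSupport (μ := (volume : Measure V)) (hθ2 N hN)
      have i2 := (hθ1 1).continuous.integrable_of_hasCompactSupport (μ := (volume : Measure V)) (hθ2 1 le_rfl)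
      ext y
      rw [fourier_eq_ch, fourier_eq_ch, fourier_eq_ch, ← integral_sub]
      · congr 1; ext ξ; ring
      · exact i1.bdd_mul (contDiff_ch (-y)).continuous.aestronglyMeasurable
          (Eventually.of_forall fun ξ => (norm_ch (-y) ξ).le)
      · exact i2.bdd_mul (contDiff_ch (-y)).continuous.aestronglyMeasurable
          (Eventually.of_forall fun ξ => (norm_ch (-y) ξ).le)
    have hz : ∀ ξ, ‖ξ‖ ≤ R + 1 → θ N ξ - θ 1 ξ = 0 := by
      intro ξ hξ
      show χ (N⁻¹ • ξ) * ch x ξ - χ ((1:ℝ)⁻¹ • ξ) * ch x ξ = 0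
      rw [h3 _ _, h3 _ _]
      · ring
      · simpa using hξ
      · rw [norm_smul, Real.norm_of_nonneg (by positivity)]
        calc N⁻¹ * ‖ξ‖ ≤ 1 * ‖ξ‖ := by
              apply mul_le_mul_of_nonneg_right (inv_le_one_of_one_le₀ hN) (norm_nonneg _)
          _ ≤ R + 1 := by simpa using hξ
    have hdis : Disjoint (tsupport fun ξ => θ N ξ - θ 1 ξ) (closedBall (0 : V) R) := by
      rw [Set.disjoint_left]
      intro ξ hξ hξ'
      rw [mem_closedBall_zero_iff] at hξ'
      have hev : (fun ξ => θ N ξ - θ 1 ξ) =ᶠ[𝓝 ξ] 0 := by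
        have : ball (0 : V) (R + 1) ∈ 𝓝 ξ := isOpen_ball.mem_nhds (by
          rw [mem_ball_zero_iff]; linarith)
        filter_upwards [this] with η hη
        rw [mem_ball_zero_iff] at hη
        exact hz η hη.le
      exact (notMem_tsupport_iff_eventuallyEq.mpr hev) hξ
    have := hs (fun ξ => θ N ξ - θ 1 ξ) ((hθ1 N).sub (hθ1 1)) ((hθ2 N hN).sub (hθ2 1 le_rfl)) hdis
    rw [hsub] at this
    simp only [mul_sub] at this
    rw [integral_sub (hint N hN) (hint 1 le_rfl), sub_eq_zero] at this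
    exact this
  -- limit `N → ∞`
  have hlim : Tendsto (fun n : ℕ => ∫ u, h (x + ((n : ℝ) + 1)⁻¹ • u) * 𝓕 χ u) atTop
      (𝓝 (∫ u, h x * 𝓕 χ u)) := by
    apply tendsto_integral_of_dominated_convergence (fun u => B * ‖𝓕 χ u‖)
    · intro n
      apply AEStronglyMeasurable.mul
      · exact (hc.comp (by fun_prop)).aestronglyMeasurable
      · exact (continuous_fourier h1 h2).aestronglyMeasurable
    · exact (integrable_fourier h1 h2).norm.const_mul B
    · intro n
      refine Eventually.of_forall fun u => ?_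
      rw [norm_mul]
      exact mul_le_mul_of_nonneg_right (hB _) (norm_nonneg _)
    · refine Eventually.of_forall fun u => ?_
      have ht : Tendsto (fun n : ℕ => x + ((n : ℝ) + 1)⁻¹ • u) atTop (𝓝 x) := by
        have h0 : Tendsto (fun n : ℕ => ((n : ℝ) + 1)⁻¹) atTop (𝓝 0) := by
          simpa using tendsto_one_div_add_atTop_nhds_zero_nat (𝕜 := ℝ)
        have := (h0.smul_const u).const_add x
        simpa using this
      exact ((hc.tendsto x).comp ht).mul_const _
  have hconst : ∀ n : ℕ, ∫ u, h (x + ((n : ℝ) + 1)⁻¹ • u) * 𝓕 χ u = ∫ u, h (x + u) * 𝓕 χ u := by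
    intro n
    have hn : (1:ℝ) ≤ (n:ℝ) + 1 := by
      have : (0:ℝ) ≤ n := Nat.cast_nonneg n
      linarith
    rw [← hI _ hn, hind _ hn, hI 1 le_rfl]
    simp
  simp only [hconst] at hlim
  have h4 := tendsto_nhds_unique hlim tendsto_const_nhds
  rw [h4.symm] at *
  rw [integral_const_mul, integral_fourier h1 h2, h3 0 (by simp; linarith), mul_one]

end Pool.Agent.Q158.Spec
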