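import Mathlib
import Pool.Agent.Q158.SpecA

set_option autoImplicit false

open Set Filter Topology MeasureTheory Metric FourierTransform
open scoped ContDiff

namespace Pool.Agent.Q158.Spec

/-! ### Entire extension from bounds on all derivatives -/

lemma hasSum_exp_real (x : ℝ) : HasSum (fun n : ℕ => x ^ n / (n.factorial : ℝ)) (Real.exp x) := by
  have h := NormedSpace.expSeries_div_hasSum_exp (𝔸 := ℝ) x
  rwa [← Real.exp_eq_exp_ℝ] at h

/-- the candidate for the entire extension -/
noncomputable def Hx (c : ℕ → ℂ) (z : ℂ) : ℂ := ∑' n : ℕ, c n * z ^ n / (n.factorial : ℂ)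

lemma Hx_term {c : ℕ → ℂ} {M : ℝ} (hM : 0 ≤ M) (hc : ∀ n, ‖c n‖ ≤ M ^ n) (z : ℂ) (n : ℕ) :
    ‖c n * z ^ n / (n.factorial : ℂ)‖ ≤ (M * ‖z‖) ^ n / (n.factorial : ℝ) := by
  rw [norm_div, norm_mul, norm_pow, Complex.norm_natCast, mul_pow]
  gcongr
  exact hc n

lemma Hx_norm {c : ℕ → ℂ} {M : ℝ} (hM : 0 ≤ M) (hc : ∀ n, ‖c n‖ ≤ M ^ n) (z : ℂ) :
    ‖Hx c z‖ ≤ Real.exp (M * ‖z‖) :=
  tsum_of_norm_bounded (hasSum_exp_real _) (Hx_term hM hc z)

lemma Hx_summable {c : ℕ → ℂ} {M : ℝ} (hM : 0 ≤ M) (hc : ∀ n, ‖c n‖ ≤ M ^ n) (z : ℂ) :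
    Summable fun n : ℕ => c n * z ^ n / (n.factorial : ℂ) :=
  Summable.of_norm_bounded (hasSum_exp_real _).summable (Hx_term hM hc z)

lemma Hx_differentiable {c : ℕ → ℂ} {M : ℝ} (hM : 0 ≤ M) (hc : ∀ n, ‖c n‖ ≤ M ^ n) :
    Differentiable ℂ (Hx c) := by
  intro z
  have hz : z ∈ ball (0 : ℂ) (‖z‖ + 1) := by rw [mem_ball_zero_iff]; linarith
  have h : DifferentiableOn ℂ (Hx c) (ball 0 (‖z‖ + 1)) := by
    apply Complex.differentiableOn_tsum_of_summable_norm
      (u := fun n : ℕ => (M * (‖z‖ + 1)) ^ n / (n.factorial : ℝ)) (hasSum_exp_real _).summable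
    · intro n
      apply Differentiable.differentiableOn
      fun_prop
    · exact isOpen_ball
    · intro n w hw
      rw [mem_ball_zero_iff] at hw
      refine (Hx_term hM hc w n).trans ?_
      gcongr
  exact h.differentiableAt (isOpen_ball.mem_nhds hz)

lemma remainder {ψ : ℕ → ℝ → ℂ} {M : ℝ} (hM : 0 ≤ M)
    (hd : ∀ k t, HasDerivAt (ψ k) (ψ (k + 1) t) t) (hb : ∀ k t, ‖ψ k t‖ ≤ M ^ k) (n : ℕ) :
    ∀ j : ℕ, ∀ t : ℝ, 0 ≤ t →
      ‖ψ j t - ∑ k ∈ Finset.range n, ψ (j + k) 0 * (t : ℂ) ^ k / (k.factorial : ℂ)‖ ≤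
        M ^ (j + n) * t ^ n / (n.factorial : ℝ) := by
  induction n with
  | zero =>
    intro j t _
    simpa using hb j t
  | succ n ih =>
    intro j t ht
    -- derivative of one term
    have hterm : ∀ k : ℕ, ∀ s : ℝ, HasDerivAt
        (fun s : ℝ => ψ (j + (k + 1)) 0 * (s : ℂ) ^ (k + 1) / ((k + 1).factorial : ℂ))
        (ψ (j + 1 + k) 0 * (s : ℂ) ^ k / (k.factorial : ℂ)) s := by
      intro k s
      have h1 : HasDerivAt (fun s : ℝ => (s : ℂ)) 1 s := Complex.ofRealCLM.hasDerivAt
      have h2 := ((h1.fun_pow (k + 1)).const_mul (ψ (j + (k + 1)) 0)).div_const ((k + 1).factorial : ℂ)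
      refine h2.congr_deriv ?_
      have hk : ((k : ℂ) + 1) ≠ 0 := by exact_mod_cast Nat.succ_ne_zero k
      have hf : ((k.factorial : ℕ) : ℂ) ≠ 0 := by exact_mod_cast Nat.factorial_ne_zero k
      rw [Nat.factorial_succ]
      have e : j + 1 + k = j + (k + 1) := by ring
      rw [e]
      push_cast
      try simp only [Nat.add_sub_cancel]
      field_simp
      try ring
    have hder : ∀ s : ℝ, HasDerivAt
        (fun s : ℝ => ψ j s - ∑ k ∈ Finset.range (n + 1), ψ (j + k) 0 * (s : ℂ) ^ k / (k.factorial : ℂ))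
        (ψ (j + 1) s - ∑ k ∈ Finset.range n, ψ (j + 1 + k) 0 * (s : ℂ) ^ k / (k.factorial : ℂ)) s := by
      intro s
      have h3 : (fun s : ℝ => ψ j s - ∑ k ∈ Finset.range (n + 1), ψ (j + k) 0 * (s : ℂ) ^ k / (k.factorial : ℂ)) =
          fun s : ℝ => ψ j s - ((∑ k ∈ Finset.range n, ψ (j + (k + 1)) 0 * (s : ℂ) ^ (k + 1) / ((k + 1).factorial : ℂ)) + ψ j 0) := by
        ext s
        rw [Finset.sum_range_succ']
        simp
      rw [h3]
      apply (hd j s).sub
      have h4 := HasDerivAt.fun_sum (u := Finset.range n) (fun k _ => hterm k s)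
      simpa using h4.add_const (ψ j 0)
    have hmain := image_norm_le_of_norm_deriv_right_le_deriv_boundary (a := 0) (b := t)
      (f := fun s : ℝ => ψ j s - ∑ k ∈ Finset.range (n + 1), ψ (j + k) 0 * (s : ℂ) ^ k / (k.factorial : ℂ))
      (f' := fun s : ℝ => ψ (j + 1) s - ∑ k ∈ Finset.range n, ψ (j + 1 + k) 0 * (s : ℂ) ^ k / (k.factorial : ℂ))
      (fun s _ => (hder s).continuousAt.continuousWithinAt)
      (fun s _ => (hder s).hasDerivWithinAt)
      (B := fun s => M ^ (j + (n + 1)) * s ^ (n + 1) / ((n + 1).factorial : ℝ))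
      (B' := fun s => M ^ (j + 1 + n) * s ^ n / (n.factorial : ℝ)) ?_ ?_ ?_
    · exact hmain (right_mem_Icc.mpr ht)
    · have : ψ j 0 - ∑ k ∈ Finset.range (n + 1), ψ (j + k) 0 * ((0 : ℝ) : ℂ) ^ k / (k.factorial : ℂ) = 0 := by
        rw [Finset.sum_range_succ']
        simp
      simp only [this]
      simp
    · intro s
      have h1 := ((hasDerivAt_pow (n + 1) s).const_mul (M ^ (j + (n + 1)))).div_const ((n + 1).factorial : ℝ)
      refine h1.congr_deriv ?_
      have hk : ((n : ℝ) + 1) ≠ 0 := by positivity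
      have hf : ((n.factorial : ℕ) : ℝ) ≠ 0 := by positivity
      rw [Nat.factorial_succ]
      have e : j + 1 + n = j + (n + 1) := by ring
      rw [e]
      push_cast
      try simp only [Nat.add_sub_cancel]
      field_simp
      try ring
    · intro s hs
      exact ih (j + 1) s hs.1

lemma eq_Hx {ψ : ℕ → ℝ → ℂ} {M : ℝ} (hM : 0 ≤ M)
    (hd : ∀ k t, HasDerivAt (ψ k) (ψ (k + 1) t) t) (hb : ∀ k t, ‖ψ k t‖ ≤ M ^ k)
    {t : ℝ} (ht : 0 ≤ t) : ψ 0 t = Hx (fun n => ψ n 0) t := by
  have h1 : Tendsto (fun n : ℕ => ∑ k ∈ Finset.range n, ψ k 0 * (t : ℂ) ^ k / (k.factorial : ℂ)) atTop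
      (𝓝 (Hx (fun n => ψ n 0) t)) :=
    (Hx_summable hM (fun n => hb n 0) t).hasSum.tendsto_sum_nat
  have h2 : Tendsto (fun n : ℕ => ∑ k ∈ Finset.range n, ψ k 0 * (t : ℂ) ^ k / (k.factorial : ℂ)) atTop
      (𝓝 (ψ 0 t)) := by
    rw [tendsto_iff_norm_sub_tendsto_zero]
    have h3 : Tendsto (fun n : ℕ => (M * t) ^ n / (n.factorial : ℝ)) atTop (𝓝 0) :=
      FloorSemiring.tendsto_pow_div_factorial_atTop _
    refine squeeze_zero (fun n => norm_nonneg _) (fun n => ?_) h3
    have h4 := remainder hM hd hb n 0 t ht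
    rw [norm_sub_rev]
    simp only [zero_add] at h4
    rw [mul_pow]
    exact h4
  exact tendsto_nhds_unique h2 h1

/-! ### Entire functions without zeros of exponential type -/

/-- An entire function `L` with `Re L ≤ a (1 + |z|)` is affine. -/
lemma affine_of_re_le {L : ℂ → ℂ} (hL : Differentiable ℂ L) {a : ℝ} (ha : 0 < a)
    (h : ∀ z, (L z).re ≤ a * (1 + ‖z‖)) (h0 : L 0 = 0) : ∃ b : ℂ, ∀ z, L z = b * z := by
  -- linear growth
  have hgrow : ∀ z, ‖L z‖ ≤ 4 * a * (1 + ‖z‖) := by
    intro z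
    set r := ‖z‖ with hr
    have hr0 : 0 ≤ r := norm_nonneg z
    have hz : z ∈ ball (0 : ℂ) (2 * r + 1) := by rw [mem_ball_zero_iff]; linarith
    have hbc := Complex.borelCaratheodory_zero (f := L) (M := a * (1 + (2 * r + 1)))
      (R := 2 * r + 1) (z := z) (by positivity) hL.differentiableOn
      (by
        intro w hw
        rw [mem_ball_zero_iff] at hw
        show (L w).re ≤ _
        refine (h w).trans ?_
        gcongr)
      (by positivity) hz h0
    refine hbc.trans ?_
    rw [← hr, div_le_iff₀ (by linarith)]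
    nlinarith [mul_nonneg ha.le hr0, mul_nonneg (mul_nonneg ha.le hr0) hr0]
  -- the quotient is entire and bounded
  have hq : Differentiable ℂ (dslope L 0) := by
    intro z
    have : DifferentiableOn ℂ (dslope L 0) univ :=
      (Complex.differentiableOn_dslope (c := 0) (s := univ) univ_mem).mpr hL.differentiableOn
    exact this.differentiableAt univ_mem
  have hbd : Bornology.IsBounded (range (dslope L 0)) := by
    obtain ⟨C, hC⟩ := (isCompact_closedBall (0 : ℂ) 1).exists_bound_of_continuousOn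
      hq.continuous.continuousOn
    rw [isBounded_iff_forall_norm_le]
    refine ⟨max C (8 * a), ?_⟩
    rintro _ ⟨z, rfl⟩
    by_cases hz : ‖z‖ ≤ 1
    · exact (hC z (mem_closedBall_zero_iff.mpr hz)).trans (le_max_left _ _)
    · push Not at hz
      refine le_trans ?_ (le_max_right _ _)
      have hz0 : z ≠ 0 := by rintro rfl; simp at hz; linarith
      rw [dslope_of_ne _ hz0, slope_def_field, h0, sub_zero, sub_zero, norm_div,
        div_le_iff₀ (by linarith)]
      refine (hgrow z).trans ?_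
      nlinarith
  obtain ⟨b, hb⟩ := Differentiable.exists_const_forall_eq_of_bounded hq hbd
  refine ⟨b, fun z => ?_⟩
  by_cases hz : z = 0
  · rw [hz, h0, mul_zero]
  · have h1 := hb z
    rw [dslope_of_ne _ hz, slope_def_field, h0, sub_zero, sub_zero] at h1
    rw [← h1]; field_simp

/-- two entire functions of exponential type with product one on a half line are exponentials -/
lemma exp_of_mul_eq_one {H K : ℂ → ℂ} (hH : Differentiable ℂ H) (hK : Differentiable ℂ K)
    {M : ℝ} (hM : 0 < M) (h1 : ∀ z, ‖H z‖ ≤ Real.exp (M * ‖z‖))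
    (h2 : ∀ t : ℝ, 0 ≤ t → H t * K t = 1) (h3 : ‖H 0‖ = 1) :
    ∃ b : ℂ, ∀ z, H z = H 0 * Complex.exp (b * z) := by
  -- the identity theorem
  have hprod : ∀ z, H z * K z = 1 := by
    have ha : AnalyticOnNhd ℂ (fun z => H z * K z) univ :=
      (hH.mul hK).differentiableOn.analyticOnNhd isOpen_univ
    have hb : AnalyticOnNhd ℂ (fun _ : ℂ => (1 : ℂ)) univ := analyticOnNhd_const
    have hfr : ∃ᶠ z in 𝓝[≠] (0 : ℂ), (fun z => H z * K z) z = (fun _ => (1 : ℂ)) z := by
      have ht : Tendsto (fun n : ℕ => (((n : ℝ) + 1)⁻¹ : ℂ)) atTop (𝓝[≠] 0) := by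
        rw [tendsto_nhdsWithin_iff]
        constructor
        · have h0 : Tendsto (fun n : ℕ => ((n : ℝ) + 1)⁻¹) atTop (𝓝 0) := by
            simpa using tendsto_one_div_add_atTop_nhds_zero_nat (𝕜 := ℝ)
          have h5 := (Complex.continuous_ofReal.tendsto 0).comp h0
          simp only [Complex.ofReal_zero] at h5
          refine h5.congr (fun n => ?_)
          simp
        · refine Eventually.of_forall fun n => ?_
          have : ((n : ℝ) + 1) ≠ 0 := by positivity
          simp only [mem_compl_iff, mem_singleton_iff, inv_eq_zero]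
          exact_mod_cast this
      apply ht.frequently
      apply Eventually.frequently
      refine Eventually.of_forall fun n => ?_
      have h5 := h2 (((n : ℝ) + 1)⁻¹) (by positivity)
      push_cast at h5
      simpa using h5
    have heq := ha.eqOn_of_preconnected_of_frequently_eq hb isPreconnected_univ (mem_univ 0) hfr
    intro z
    exact heq (mem_univ z)
  have hne : ∀ z, H z ≠ 0 := fun z hz => by
    have := hprod z
    rw [hz, zero_mul] at this
    exact zero_ne_one this
  -- the logarithm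
  have hdq : Differentiable ℂ (fun z => deriv H z / H z) := by
    intro z
    have hd2 : DifferentiableAt ℂ (deriv H) z :=
      (hH.differentiableOn.deriv isOpen_univ).differentiableAt univ_mem
    exact hd2.div (hH z) (hne z)
  obtain ⟨L, hL0, hL⟩ := (hdq.isExactOn_univ).with_val_at 0 0
  have hLd : Differentiable ℂ L := fun z => (hL z (mem_univ z)).differentiableAt
  have hexp : ∀ z, H z = H 0 * Complex.exp (L z) := by
    have hder : ∀ z, HasDerivAt (fun z => H z * Complex.exp (- L z)) 0 z := by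
      intro z
      have e1 := (hH z).hasDerivAt
      have e2 := ((hL z (mem_univ z)).neg).cexp
      have e3 := e1.mul e2
      refine e3.congr_deriv ?_
      have := hne z
      field_simp
      ring
    have hconst : ∀ z, H z * Complex.exp (- L z) = H 0 * Complex.exp (- L 0) := by
      intro z
      have hdd : Differentiable ℂ (fun z => H z * Complex.exp (- L z)) :=
        fun z => (hder z).differentiableAt
      exact is_const_of_deriv_eq_zero hdd (fun z => (hder z).deriv) z 0
    intro z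
    have h5 := hconst z
    rw [hL0, neg_zero, Complex.exp_zero, mul_one] at h5
    rw [← h5, mul_assoc, ← Complex.exp_add, neg_add_cancel, Complex.exp_zero, mul_one]
  have hre : ∀ z, (L z).re ≤ M * (1 + ‖z‖) := by
    intro z
    have h5 := h1 z
    rw [hexp z, norm_mul, h3, one_mul, Complex.norm_exp, Real.exp_le_exp] at h5
    nlinarith
  obtain ⟨b, hb⟩ := affine_of_re_le hLd hM hre hL0
  refine ⟨b, fun z => ?_⟩
  rw [hexp z, hb z]

end Pool.Agent.Q158.Spec
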