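import Mathlib
import Pool.Agent.Q158.SpecA
import Pool.Agent.Q158.SpecB

set_option autoImplicit false

open Set Filter Topology MeasureTheory Metric FourierTransform SchwartzMap LineDeriv
open scoped ContDiff

namespace Pool.Agent.Q158.Spec

variable {V : Type*} [NormedAddCommGroup V] [InnerProductSpace ℝ V] [FiniteDimensional ℝ V]
  [MeasurableSpace V] [BorelSpace V]

/-- correlation of `g` with a kernel -/
noncomputable def T (κ : 𝓢(V, ℂ)) (g : V → ℂ) (x : V) : ℂ := ∫ u, g (x + u) * κ u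

lemma T_eq (κ : 𝓢(V, ℂ)) (g : V → ℂ) (x : V) : T κ g x = ∫ z, g z * κ (z - x) := by
  unfold T
  rw [← integral_sub_right_eq_self _ x]
  congr 1; ext z
  rw [add_sub_cancel]

/-- polynomial decay with a translation -/
lemma decay (κ : 𝓢(V, ℂ)) : ∃ C : ℝ, 0 ≤ C ∧ ∀ y : V,
    ‖κ y‖ ≤ C * (1 + ‖y‖) ^ (-((Module.finrank ℝ V : ℝ) + 1)) := by
  refine ⟨2 ^ (Module.finrank ℝ V + 1) * (Finset.Iic (Module.finrank ℝ V + 1, 0)).sup
    (fun m => SchwartzMap.seminorm ℝ m.1 m.2) κ, by positivity, fun y => ?_⟩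
  have h := one_add_le_sup_seminorm_apply (𝕜 := ℝ) (m := (Module.finrank ℝ V + 1, 0))
    (le_refl (Module.finrank ℝ V + 1)) (le_refl 0) κ y
  rw [norm_iteratedFDeriv_zero] at h
  have hp : (0:ℝ) < 1 + ‖y‖ := by positivity
  rw [Real.rpow_neg hp.le, ← div_eq_mul_inv, le_div_iff₀ (by positivity)]
  have e : (1 + ‖y‖) ^ ((Module.finrank ℝ V : ℝ) + 1) = (1 + ‖y‖) ^ (Module.finrank ℝ V + 1) := by
    rw [← Real.rpow_natCast]; push_cast; rfl
  rw [e, mul_comm]
  exact h

lemma T_norm (κ : 𝓢(V, ℂ)) {g : V → ℂ} {B : ℝ} (hB : ∀ x, ‖g x‖ ≤ B) (x : V) :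
    ‖T κ g x‖ ≤ (∫ u, ‖κ u‖) * B := by
  unfold T
  rw [← integral_mul_const]
  apply norm_integral_le_of_norm_le (κ.integrable.norm.mul_const B)
  refine Eventually.of_forall fun u => ?_
  rw [norm_mul, mul_comm]
  exact mul_le_mul_of_nonneg_left (hB _) (norm_nonneg _)

lemma T_continuous (κ : 𝓢(V, ℂ)) {g : V → ℂ} (hc : Continuous g) {B : ℝ} (hB : ∀ x, ‖g x‖ ≤ B) :
    Continuous (T κ g) := by
  unfold T
  apply continuous_of_dominated (bound := fun u => B * ‖κ u‖)
  · intro x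
    exact ((hc.comp (continuous_const.add continuous_id)).mul κ.continuous).aestronglyMeasurable
  · intro x
    refine Eventually.of_forall fun u => ?_
    rw [norm_mul]
    exact mul_le_mul_of_nonneg_right (hB _) (norm_nonneg _)
  · exact κ.integrable.norm.const_mul B
  · refine Eventually.of_forall fun u => ?_
    exact (hc.comp (continuous_id.add continuous_const)).mul continuous_const

lemma T_spec {R : ℝ} (κ : 𝓢(V, ℂ)) {g : V → ℂ} (hc : Continuous g) {B : ℝ}
    (hB : ∀ x, ‖g x‖ ≤ B) (hs : SpecIn R g) : SpecIn R (T κ g) := by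
  intro θ h1 h2 h3
  unfold T
  have hB0 : 0 ≤ B := (norm_nonneg _).trans (hB 0)
  have hF := integrable_fourier h1 h2
  have hFc := continuous_fourier h1 h2
  have hint : Integrable (Function.uncurry fun (x u : V) => g (x + u) * κ u * 𝓕 θ x)
      ((volume : Measure V).prod volume) := by
    have hm : Integrable (fun p : V × V => 𝓕 θ p.1 * κ p.2) ((volume : Measure V).prod volume) :=
      hF.mul_prod κ.integrable
    have := hm.bdd_mul (f := fun p : V × V => g (p.1 + p.2)) (c := B)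
      (hc.comp (continuous_fst.add continuous_snd)).aestronglyMeasurable
      (Eventually.of_forall fun p => hB _)
    refine this.congr (Eventually.of_forall fun p => ?_)
    show g (p.1 + p.2) * (𝓕 θ p.1 * κ p.2) = g (p.1 + p.2) * κ p.2 * 𝓕 θ p.1
    ring
  have e1 : ∫ x, (∫ u, g (x + u) * κ u) * 𝓕 θ x = ∫ x, ∫ u, g (x + u) * κ u * 𝓕 θ x := by
    congr 1; ext x
    rw [integral_mul_const]
  rw [e1, integral_integral_swap hint]
  have e2 : ∀ u : V, ∫ x, g (x + u) * κ u * 𝓕 θ x = 0 := by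
    intro u
    have e3 : ∫ x, g (x + u) * κ u * 𝓕 θ x = κ u * ∫ z, g z * 𝓕 (fun ξ => θ ξ * ch u ξ) z := by
      rw [← integral_const_mul, ← integral_sub_right_eq_self
        (fun x => g (x + u) * κ u * 𝓕 θ x) u]
      congr 1; ext x
      rw [fourier_mul_ch, sub_add_cancel]
      ring
    rw [e3]
    have h5 : HasCompactSupport (fun ξ => θ ξ * ch u ξ) := h2.mul_right
    have := hs (fun ξ => θ ξ * ch u ξ) (h1.mul (contDiff_ch u)) h5
      (h3.mono_left (tsupport_mul_subset_left))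
    rw [this, mul_zero]
  simp only [e2, integral_zero]

lemma T_deriv (κ : 𝓢(V, ℂ)) {g : V → ℂ} (hc : Continuous g) {B : ℝ} (hB : ∀ x, ‖g x‖ ≤ B)
    (x v : V) (t₀ : ℝ) :
    HasDerivAt (fun t : ℝ => T κ g (x + t • v)) (T (-(∂_{v} κ)) g (x + t₀ • v)) t₀ := by
  obtain ⟨C, hC0, hC⟩ := decay (-(∂_{v} κ) : 𝓢(V, ℂ))
  have hB0 : 0 ≤ B := (norm_nonneg _).trans (hB 0)
  set r : ℝ := (Module.finrank ℝ V : ℝ) + 1 with hr
  have hr0 : 0 ≤ r := by positivity
  have hfun : (fun t : ℝ => T κ g (x + t • v)) = fun t : ℝ => ∫ z, g z * κ (z - (x + t • v)) := by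
    ext t; rw [T_eq]
  rw [hfun, T_eq]
  refine (hasDerivAt_integral_of_dominated_loc_of_deriv_le (μ := (volume : Measure V))
    (F := fun (t : ℝ) (z : V) => g z * κ (z - (x + t • v)))
    (F' := fun (t : ℝ) (z : V) => g z * (-(∂_{v} κ) : 𝓢(V, ℂ)) (z - (x + t • v)))
    (s := ball t₀ 1)
    (bound := fun z => B * (C * ((1 + ‖v‖) ^ r * (1 + ‖z - (x + t₀ • v)‖) ^ (-r))))
    (ball_mem_nhds t₀ one_pos) ?_ ?_ ?_ ?_ ?_ ?_).2
  · refine Eventually.of_forall fun t => ?_
    exact (hc.mul (κ.continuous.comp (continuous_id.sub continuous_const))).aestronglyMeasurable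
  · have : Integrable (fun z => κ (z - (x + t₀ • v))) := κ.integrable.comp_sub_right _
    exact this.bdd_mul hc.aestronglyMeasurable (Eventually.of_forall hB)
  · exact (hc.mul ((-(∂_{v} κ) : 𝓢(V, ℂ)).continuous.comp
      (continuous_id.sub continuous_const))).aestronglyMeasurable
  · refine Eventually.of_forall fun z t ht => ?_
    rw [norm_mul]
    refine mul_le_mul (hB z) ((hC _).trans ?_) (norm_nonneg _) hB0
    refine mul_le_mul_of_nonneg_left ?_ hC0
    have ht1 : |t - t₀| ≤ 1 := by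
      rw [mem_ball, Real.dist_eq] at ht; exact ht.le
    set a := ‖z - (x + t • v)‖ with ha
    set b := ‖z - (x + t₀ • v)‖ with hb
    have hab : 1 + b ≤ (1 + ‖v‖) * (1 + a) := by
      have h1 : b ≤ a + ‖v‖ := by
        have e : z - (x + t₀ • v) = (z - (x + t • v)) + (t - t₀) • v := by
          rw [sub_smul]; abel
        rw [hb, e]
        refine (norm_add_le _ _).trans ?_
        rw [norm_smul, Real.norm_eq_abs]
        have : |t - t₀| * ‖v‖ ≤ 1 * ‖v‖ := mul_le_mul_of_nonneg_right ht1 (norm_nonneg _)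
        linarith
      have h2 : 0 ≤ ‖v‖ * a := by positivity
      nlinarith
    have ha0 : (0:ℝ) < 1 + a := by positivity
    have hb0 : (0:ℝ) < 1 + b := by positivity
    rw [Real.rpow_neg ha0.le, Real.rpow_neg hb0.le, ← div_eq_mul_inv, inv_eq_one_div,
      div_le_div_iff₀ (by positivity) (by positivity), one_mul, ← Real.mul_rpow (by positivity) ha0.le]
    exact Real.rpow_le_rpow hb0.le hab hr0
  · apply Integrable.const_mul
    apply Integrable.const_mul
    apply Integrable.const_mul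
    have h1 : Integrable (fun z : V => (1 + ‖z‖) ^ (-r)) := integrable_one_add_norm (by rw [hr]; linarith)
    exact h1.comp_sub_right (x + t₀ • v)
  · refine Eventually.of_forall fun z t _ => ?_
    apply HasDerivAt.const_mul
    have h1 : HasDerivAt (fun t : ℝ => z - (x + t • v)) (-v) t := by
      have := (((hasDerivAt_id t).smul_const v).const_add x).const_sub z
      simpa using this
    have h2 := (κ.hasFDerivAt (z - (x + t • v))).comp_hasDerivAt t h1
    refine h2.congr_deriv ?_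
    show (fderiv ℝ κ (z - (x + t • v))) (-v) = (-(∂_{v} κ) : 𝓢(V, ℂ)) (z - (x + t • v))
    rw [map_neg]
    rfl

/-- iterated kernels -/
noncomputable def G (κ : 𝓢(V, ℂ)) (h : V → ℂ) : ℕ → V → ℂ
  | 0 => h
  | n + 1 => T κ (G κ h n)

lemma G_props {R : ℝ} (κ : 𝓢(V, ℂ)) {h : V → ℂ} (hc : Continuous h) (hB : ∀ x, ‖h x‖ ≤ 1)
    (hs : SpecIn R h) {M : ℝ} (hM : ∫ u, ‖κ u‖ ≤ M) (n : ℕ) :
    Continuous (G κ h n) ∧ (∀ x, ‖G κ h n x‖ ≤ M ^ n) ∧ SpecIn R (G κ h n) := by
  have hM0 : 0 ≤ M := (integral_nonneg fun u => norm_nonneg _).trans hM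
  induction n with
  | zero => exact ⟨hc, fun x => by rw [pow_zero]; exact hB x, hs⟩
  | succ n ih =>
    obtain ⟨h1, h2, h3⟩ := ih
    refine ⟨T_continuous κ h1 h2, fun x => ?_, T_spec κ h1 h2 h3⟩
    refine (T_norm κ h2 x).trans ?_
    rw [pow_succ, mul_comm]
    exact mul_le_mul_of_nonneg_left hM (by positivity)

/-- functions with compact spectrum and modulus at most one are, along every ray, the restriction
of an entire function of exponential type -/
lemma ray {R : ℝ} (hR : 0 ≤ R) {h : V → ℂ} (hc : Continuous h) (hB : ∀ x, ‖h x‖ ≤ 1)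
    (hs : SpecIn R h) (x v : V) : ∃ M : ℝ, 0 < M ∧ ∃ H : ℂ → ℂ, Differentiable ℂ H ∧
      (∀ z, ‖H z‖ ≤ Real.exp (M * ‖z‖)) ∧ ∀ t : ℝ, 0 ≤ t → h (x + t • v) = H t := by
  -- the reproducing kernel
  let b : ContDiffBump (0 : V) := ⟨R + 1, R + 2, by linarith, by linarith⟩
  let χ : V → ℂ := fun ξ => (b ξ : ℂ)
  have h1 : ContDiff ℝ ∞ χ := Complex.ofRealCLM.contDiff.comp b.contDiff
  have h2 : HasCompactSupport χ := b.hasCompactSupport.comp_left (g := fun r : ℝ => (r : ℂ)) (by simp)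
  have h3 : ∀ ξ, ‖ξ‖ ≤ R + 1 → χ ξ = 1 := by
    intro ξ hξ
    show ((b ξ : ℝ) : ℂ) = 1
    rw [b.one_of_mem_closedBall (by rw [mem_closedBall_zero_iff]; exact hξ)]
    simp
  let κ₀ : 𝓢(V, ℂ) := 𝓕 (h2.toSchwartzMap h1)
  have hκ₀ : ∀ u, κ₀ u = 𝓕 χ u := fun u => rfl
  have hrep : ∀ (g : V → ℂ), Continuous g → ∀ B : ℝ, (∀ x, ‖g x‖ ≤ B) → SpecIn R g →
      g = T κ₀ g := by
    intro g hg B hgB hgs
    ext y
    unfold T
    simp only [hκ₀]
    exact reproduce hR hg hgB hgs h1 h2 h3 y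
  let κ : 𝓢(V, ℂ) := -(∂_{v} κ₀)
  let M : ℝ := (∫ u, ‖κ u‖) + 1
  have hM : ∫ u, ‖κ u‖ ≤ M := by show _ ≤ _ + 1; linarith
  have hM0 : 0 < M := by
    have : 0 ≤ ∫ u, ‖κ u‖ := integral_nonneg fun u => norm_nonneg _
    show 0 < _ + 1
    linarith
  let ψ : ℕ → ℝ → ℂ := fun k t => G κ h k (x + t • v)
  have hb : ∀ k t, ‖ψ k t‖ ≤ M ^ k := fun k t => (G_props κ hc hB hs hM k).2.1 _
  have hd : ∀ k t, HasDerivAt (ψ k) (ψ (k + 1) t) t := by
    intro k t
    obtain ⟨p1, p2, p3⟩ := G_props κ hc hB hs hM k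
    have := T_deriv κ₀ p1 p2 x v t
    rw [← hrep _ p1 _ p2 p3] at this
    exact this
  refine ⟨M, hM0, Hx (fun n => ψ n 0), Hx_differentiable hM0.le (fun n => hb n 0),
    Hx_norm hM0.le (fun n => hb n 0), fun t ht => ?_⟩
  exact eq_Hx hM0.le hd hb ht

/-- a phase whose exponentials have compact spectrum is affine along rays -/
lemma phase {φ : V → ℝ} (hφ : Continuous φ) {R : ℝ} (hR : 0 ≤ R)
    (h1 : SpecIn R fun x => Complex.exp (((2 * Real.pi * φ x : ℝ) : ℂ) * Complex.I))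
    (h2 : SpecIn R fun x => Complex.exp (((2 * Real.pi * (-φ x) : ℝ) : ℂ) * Complex.I))
    (x v : V) : ∀ t : ℝ, 0 ≤ t → φ (x + t • v) = φ x + t * (φ (x + v) - φ x) := by
  obtain ⟨M, hM, H, hH, hHn, hHe⟩ := ray hR (by fun_prop)
    (fun x => (Complex.norm_exp_ofReal_mul_I _).le) h1 x v
  obtain ⟨M', hM', K, hK, hKn, hKe⟩ := ray hR (by fun_prop)
    (fun x => (Complex.norm_exp_ofReal_mul_I _).le) h2 x v
  have hprod : ∀ t : ℝ, 0 ≤ t → H t * K t = 1 := by
    intro t ht
    rw [← hHe t ht, ← hKe t ht, ← Complex.exp_add, ← add_mul, ← Complex.ofReal_add]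
    rw [show 2 * Real.pi * φ (x + t • v) + 2 * Real.pi * -φ (x + t • v) = 0 by ring]
    simp
  have hH0 : ‖H 0‖ = 1 := by
    have := hHe 0 le_rfl
    rw [Complex.ofReal_zero] at this
    rw [← this]
    exact Complex.norm_exp_ofReal_mul_I _
  obtain ⟨b, hb⟩ := exp_of_mul_eq_one hH hK hM hHn hprod hH0
  -- the real part of `b` vanishes
  have hbre : b.re = 0 := by
    have e1 : ‖H ((1 : ℝ) : ℂ)‖ = 1 := by
      rw [← hHe 1 zero_le_one]; exact Complex.norm_exp_ofReal_mul_I _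
    rw [hb, norm_mul, hH0, one_mul, Complex.norm_exp] at e1
    simpa using e1
  set β : ℝ := b.im with hβ
  have hbI : b = (β : ℂ) * Complex.I := by
    apply Complex.ext <;> simp [hbre, hβ]
  -- the continuous function with values in `2πℤ`
  let q : ℝ → ℝ := fun t => 2 * Real.pi * φ (x + t • v) - 2 * Real.pi * φ x - β * t
  have hqc : Continuous q := by
    show Continuous fun t : ℝ => 2 * Real.pi * φ (x + t • v) - 2 * Real.pi * φ x - β * t
    fun_prop
  have hq0 : q 0 = 0 := by simp [q]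
  have hqv : ∀ t : ℝ, 0 ≤ t → Complex.exp ((q t : ℂ) * Complex.I) = 1 := by
    intro t ht
    have e1 := hHe t ht
    have e0 := hHe 0 le_rfl
    rw [hb] at e1
    rw [Complex.ofReal_zero] at e0
    rw [← e0, zero_smul, add_zero, ← Complex.exp_add] at e1
    have e2 : ((q t : ℝ) : ℂ) * Complex.I = ((2 * Real.pi * φ (x + t • v) : ℝ) : ℂ) * Complex.I -
        (((2 * Real.pi * φ x : ℝ) : ℂ) * Complex.I + b * t) := by
      rw [hbI]
      show ((2 * Real.pi * φ (x + t • v) - 2 * Real.pi * φ x - β * t : ℝ) : ℂ) * Complex.I = _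
      push_cast; ring
    rw [e2, Complex.exp_sub, e1, div_self (Complex.exp_ne_zero _)]
  have hqint : ∀ t : ℝ, 0 ≤ t → ∃ n : ℤ, q t = n * (2 * Real.pi) := by
    intro t ht
    obtain ⟨n, hn⟩ := Complex.exp_eq_one_iff.mp (hqv t ht)
    refine ⟨n, ?_⟩
    have h5 : (q t : ℂ) = ((n * (2 * Real.pi) : ℝ) : ℂ) := by
      have h6 : (q t : ℂ) * Complex.I = ((n * (2 * Real.pi) : ℝ) : ℂ) * Complex.I := by
        rw [hn]; push_cast; ring
      exact mul_right_cancel₀ Complex.I_ne_zero h6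
    exact_mod_cast h5
  have hqz : ∀ t : ℝ, 0 ≤ t → q t = 0 := by
    intro t ht
    by_contra hne
    -- `π` or `-π` would be a value
    have hpi := Real.pi_pos
    obtain ⟨n, hn⟩ := hqint t ht
    have hn0 : n ≠ 0 := by rintro rfl; simp at hn; exact hne hn
    have hval : ∃ s ∈ Icc 0 t, q s = Real.pi ∨ q s = - Real.pi := by
      rcases lt_or_gt_of_ne hn0 with hneg | hpos
      · have hle : (n : ℝ) ≤ -1 := by exact_mod_cast Int.le_sub_one_of_lt hneg
        have hmem : -Real.pi ∈ Icc (q t) (q 0) := ⟨by rw [hn]; nlinarith, by rw [hq0]; linarith⟩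
        obtain ⟨s, hs, hs'⟩ := intermediate_value_Icc' ht hqc.continuousOn hmem
        exact ⟨s, hs, Or.inr hs'⟩
      · have hle : (1 : ℝ) ≤ n := by exact_mod_cast hpos
        have hmem : Real.pi ∈ Icc (q 0) (q t) := ⟨by rw [hq0]; linarith, by rw [hn]; nlinarith⟩
        obtain ⟨s, hs, hs'⟩ := intermediate_value_Icc ht hqc.continuousOn hmem
        exact ⟨s, hs, Or.inl hs'⟩
    obtain ⟨s, hs, hs'⟩ := hval
    obtain ⟨m, hm⟩ := hqint s hs.1
    rcases hs' with hs' | hs'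
    · rw [hm] at hs'
      have h7 : (m : ℝ) * 2 = 1 := by
        have : Real.pi * ((m : ℝ) * 2) = Real.pi * 1 := by linarith
        exact mul_left_cancel₀ hpi.ne' this
      have h8 : m * 2 = 1 := by exact_mod_cast h7
      omega
    · rw [hm] at hs'
      have h7 : (m : ℝ) * 2 = -1 := by
        have : Real.pi * ((m : ℝ) * 2) = Real.pi * (-1) := by linarith
        exact mul_left_cancel₀ hpi.ne' this
      have h8 : m * 2 = -1 := by exact_mod_cast h7
      omega
  have hpi := Real.pi_pos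
  intro t ht
  have e1 : 2 * Real.pi * φ (x + t • v) - 2 * Real.pi * φ x - β * t = 0 := hqz t ht
  have e2 : 2 * Real.pi * φ (x + (1 : ℝ) • v) - 2 * Real.pi * φ x - β * 1 = 0 := hqz 1 zero_le_one
  rw [one_smul] at e2
  have e3 : 2 * Real.pi * φ (x + t • v) = 2 * Real.pi * (φ x + t * (φ (x + v) - φ x)) := by
    linear_combination e1 - t * e2
  exact mul_left_cancel₀ (by positivity) e3

end Pool.Agent.Q158.Spec
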