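import Mathlib
import Pool.Agent.Q158.SpecA
import Pool.Agent.Q158.SpecB
import Pool.Agent.Q158.SpecC

set_option autoImplicit false

open Set Filter Topology MeasureTheory Metric FourierTransform
open scoped ContDiff BoundedContinuousFunction ComplexConjugate

namespace Pool.Agent.Q158.Spec

variable {V : Type*} [NormedAddCommGroup V] [InnerProductSpace ℝ V] [FiniteDimensional ℝ V]
  [MeasurableSpace V] [BorelSpace V]

/-- `f` is the continuous representative of a bandlimited `L²` function: the (inverse) Fourier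
integral of an `L²` function `F` which vanishes outside a ball. -/
def IsBandlimited (f : V → ℂ) : Prop :=
  ∃ F : V → ℂ, MemLp F 2 (volume : Measure V) ∧ (∃ R : ℝ, ∀ ξ : V, R < ‖ξ‖ → F ξ = 0) ∧ f = 𝓕⁻ F

/-- The distributional Fourier transform `θ ↦ ∫ h 𝓕 θ` of `h` has compact support. -/
def HasCompactSpectrum (h : V → ℂ) : Prop :=
  ∃ K : Set V, IsCompact K ∧ ∀ θ : V → ℂ, ContDiff ℝ ∞ θ → HasCompactSupport θ →
    Disjoint (tsupport θ) K → ∫ x, h x * 𝓕 θ x = 0

lemma fourierInv_eq_ch (F : V → ℂ) (y : V) : 𝓕⁻ F y = ∫ η, ch y η * F η := by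
  rw [Real.fourierInv_eq']
  rfl

omit [InnerProductSpace ℝ V] [FiniteDimensional ℝ V] [MeasurableSpace V] [BorelSpace V] in
lemma exists_nat_closedBall [NormedSpace ℝ V] {K : Set V} (hK : IsCompact K) :
    ∃ n : ℕ, K ⊆ closedBall (0 : V) n := by
  obtain ⟨r, hr⟩ := hK.isBounded.subset_closedBall (0 : V)
  obtain ⟨n, hn⟩ := exists_nat_ge r
  exact ⟨n, hr.trans (closedBall_subset_closedBall hn)⟩

lemma SpecIn_mono {R R' : ℝ} (h : R ≤ R') {g : V → ℂ} (hg : SpecIn R g) : SpecIn R' g :=
  fun θ h1 h2 h3 => hg θ h1 h2 (h3.mono_right (closedBall_subset_closedBall h))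

/-- pulling back with `γ`: the weight whose pairing with `G` is the pairing of
`𝓕⁻ (G β) ∘ γ` with `𝓕 θ` -/
noncomputable def wt (γ : V → V) (β θ : V → ℂ) (η : V) : ℂ := β η * ∫ x, ch (γ x) η * 𝓕 θ x

omit [FiniteDimensional ℝ V] [MeasurableSpace V] [BorelSpace V] in
lemma continuous_ch_comp {γ : V → V} (hγ : Continuous γ) (η : V) : Continuous fun x => ch (γ x) η := by
  unfold ch
  fun_prop

omit [FiniteDimensional ℝ V] [MeasurableSpace V] [BorelSpace V] in
lemma continuous_ch_prod {γ : V → V} (hγ : Continuous γ) :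
    Continuous fun p : V × V => ch (γ p.1) p.2 := by
  unfold ch
  fun_prop

lemma wt_continuous {γ : V → V} (hγ : Continuous γ) {β : V → ℂ} (hβ : Continuous β) {θ : V → ℂ}
    (h1 : ContDiff ℝ ∞ θ) (h2 : HasCompactSupport θ) : Continuous (wt γ β θ) := by
  unfold wt
  apply hβ.mul
  apply continuous_of_dominated (bound := fun x => ‖𝓕 θ x‖)
  · intro η
    exact ((continuous_ch_comp hγ η).mul (continuous_fourier h1 h2)).aestronglyMeasurable
  · intro η
    refine Eventually.of_forall fun x => ?_
    rw [norm_mul, norm_ch, one_mul]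
  · exact (integrable_fourier h1 h2).norm
  · refine Eventually.of_forall fun x => ?_
    exact (contDiff_ch (γ x)).continuous.mul continuous_const

lemma pair_eq {γ : V → V} (hγ : Continuous γ) {F : V → ℂ} (hF : Integrable F) {θ : V → ℂ}
    (h1 : ContDiff ℝ ∞ θ) (h2 : HasCompactSupport θ) :
    ∫ x, (𝓕⁻ F) (γ x) * 𝓕 θ x = ∫ η, F η * ∫ x, ch (γ x) η * 𝓕 θ x := by
  have hint : Integrable (Function.uncurry fun (x η : V) => ch (γ x) η * F η * 𝓕 θ x)
      ((volume : Measure V).prod volume) := by
    have hm : Integrable (fun p : V × V => 𝓕 θ p.1 * F p.2) ((volume : Measure V).prod volume) :=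
      (integrable_fourier h1 h2).mul_prod hF
    have := hm.bdd_mul (f := fun p : V × V => ch (γ p.1) p.2) (c := 1)
      (continuous_ch_prod hγ).aestronglyMeasurable
      (Eventually.of_forall fun p => (norm_ch _ _).le)
    refine this.congr (Eventually.of_forall fun p => ?_)
    show ch (γ p.1) p.2 * (𝓕 θ p.1 * F p.2) = ch (γ p.1) p.2 * F p.2 * 𝓕 θ p.1
    ring
  have e1 : ∫ x, (𝓕⁻ F) (γ x) * 𝓕 θ x = ∫ x, ∫ η, ch (γ x) η * F η * 𝓕 θ x := by
    congr 1; ext x
    rw [fourierInv_eq_ch, integral_mul_const]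
  rw [e1, integral_integral_swap hint]
  congr 1; ext η
  rw [← integral_const_mul]
  congr 1; ext x
  ring

/-- the uniform spectral bound (Baire category) -/
lemma exists_spec {γ : V → V} (hγ : Continuous γ)
    (hbl : ∀ f : V → ℂ, IsBandlimited f → HasCompactSpectrum (f ∘ γ)) (ξ : V) :
    ∃ R : ℝ, 0 ≤ R ∧ SpecIn R (fun x => ch (γ x) ξ) := by
  let b : ContDiffBump ξ := ⟨1, 2, one_pos, by norm_num⟩
  let β : V → ℂ := fun η => (b η : ℂ)
  have hβc : Continuous β := Complex.continuous_ofReal.comp b.continuous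
  have hβs : HasCompactSupport β := b.hasCompactSupport.comp_left (g := fun r : ℝ => (r : ℂ)) (by simp)
  have hβ1 : β ξ = 1 := by
    show ((b ξ : ℝ) : ℂ) = 1
    rw [b.one_of_mem_closedBall (mem_closedBall_self b.rIn_pos.le)]
    simp
  -- the functionals
  have hwi : ∀ θ : V → ℂ, ContDiff ℝ ∞ θ → HasCompactSupport θ → Integrable (wt γ β θ) := by
    intro θ h1 h2
    apply (wt_continuous hγ hβc h1 h2).integrable_of_hasCompactSupport
    exact hβs.mul_right
  have hGi : ∀ (G : V →ᵇ ℂ) (θ : V → ℂ), ContDiff ℝ ∞ θ → HasCompactSupport θ →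
      Integrable (fun η => G η * wt γ β θ η) := by
    intro G θ h1 h2
    exact (hwi θ h1 h2).bdd_mul G.continuous.aestronglyMeasurable
      (Eventually.of_forall fun η => G.norm_coe_le_norm η)
  let A : ℕ → Submodule ℂ (V →ᵇ ℂ) := fun n =>
    { carrier := {G | ∀ θ : V → ℂ, ContDiff ℝ ∞ θ → HasCompactSupport θ →
        Disjoint (tsupport θ) (closedBall 0 (n : ℝ)) → ∫ η, G η * wt γ β θ η = 0}
      add_mem' := by
        intro G G' hG hG' θ h1 h2 h3
        have : ∫ η, (G + G') η * wt γ β θ η = ∫ η, (G η * wt γ β θ η + G' η * wt γ β θ η) := by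
          congr 1; ext η
          rw [BoundedContinuousFunction.coe_add, Pi.add_apply]; ring
        rw [this, integral_add (hGi G θ h1 h2) (hGi G' θ h1 h2), hG θ h1 h2 h3, hG' θ h1 h2 h3,
          add_zero]
      zero_mem' := by
        intro θ h1 h2 h3
        simp
      smul_mem' := by
        intro c G hG θ h1 h2 h3
        have : ∫ η, (c • G) η * wt γ β θ η = ∫ η, c * (G η * wt γ β θ η) := by
          congr 1; ext η
          show (c * G η) * wt γ β θ η = c * (G η * wt γ β θ η)
          ring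
        rw [this, integral_const_mul, hG θ h1 h2 h3, mul_zero] }
  have hAmem : ∀ n G, G ∈ A n ↔ ∀ θ : V → ℂ, ContDiff ℝ ∞ θ → HasCompactSupport θ →
        Disjoint (tsupport θ) (closedBall 0 (n : ℝ)) → ∫ η, G η * wt γ β θ η = 0 := fun n G => Iff.rfl
  have hclosed : ∀ n, IsClosed (A n : Set (V →ᵇ ℂ)) := by
    intro n
    have : (A n : Set (V →ᵇ ℂ)) = ⋂ (θ : V → ℂ) (_ : ContDiff ℝ ∞ θ) (_ : HasCompactSupport θ)
        (_ : Disjoint (tsupport θ) (closedBall 0 (n : ℝ))),
        {G : V →ᵇ ℂ | ∫ η, G η * wt γ β θ η = 0} := by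
      ext G
      rw [SetLike.mem_coe, hAmem]
      simp only [mem_iInter]
      rfl
    rw [this]
    refine isClosed_iInter fun θ => isClosed_iInter fun h1 => isClosed_iInter fun h2 =>
      isClosed_iInter fun _ => ?_
    have hcont : Continuous fun G : V →ᵇ ℂ => ∫ η, G η * wt γ β θ η := by
      let Λ : (V →ᵇ ℂ) →ₗ[ℂ] ℂ :=
        { toFun := fun G => ∫ η, G η * wt γ β θ η
          map_add' := by
            intro G G'
            rw [← integral_add (hGi G θ h1 h2) (hGi G' θ h1 h2)]
            congr 1; ext η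
            rw [BoundedContinuousFunction.coe_add, Pi.add_apply]; ring
          map_smul' := by
            intro c G
            rw [RingHom.id_apply, smul_eq_mul, ← integral_const_mul]
            congr 1; ext η
            show (c * G η) * wt γ β θ η = c * (G η * wt γ β θ η)
            ring }
      have := (Λ.mkContinuous (∫ η, ‖wt γ β θ η‖) (by
        intro G
        show ‖∫ η, G η * wt γ β θ η‖ ≤ _
        rw [← integral_mul_const]
        apply norm_integral_le_of_norm_le ((hwi θ h1 h2).norm.mul_const ‖G‖)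
        refine Eventually.of_forall fun η => ?_
        rw [norm_mul, mul_comm]
        exact mul_le_mul_of_nonneg_left (G.norm_coe_le_norm η) (norm_nonneg _))).continuous
      exact this
    exact isClosed_eq hcont continuous_const
  have hcover : ⋃ n, (A n : Set (V →ᵇ ℂ)) = univ := by
    rw [eq_univ_iff_forall]
    intro G
    -- the function `G β` is integrable and square integrable
    have hc : Continuous fun η => G η * β η := G.continuous.mul hβc
    have hs : HasCompactSupport fun η => G η * β η := hβs.mul_left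
    have hband : IsBandlimited (𝓕⁻ fun η => G η * β η) := by
      refine ⟨fun η => G η * β η, hc.memLp_of_hasCompactSupport hs, ?_, rfl⟩
      obtain ⟨n, hn⟩ := exists_nat_closedBall (show IsCompact (tsupport fun η => G η * β η) from hs)
      refine ⟨n, fun η hη => ?_⟩
      by_contra hne
      have : η ∈ closedBall (0 : V) n := hn (subset_tsupport _ hne)
      rw [mem_closedBall_zero_iff] at this
      linarith
    obtain ⟨K, hK, hKs⟩ := hbl _ hband
    obtain ⟨n, hn⟩ := exists_nat_closedBall hK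
    rw [mem_iUnion]
    refine ⟨n, fun θ h1 h2 h3 => ?_⟩
    have h4 := hKs θ h1 h2 (h3.mono_right hn)
    have h5 := pair_eq hγ (hc.integrable_of_hasCompactSupport hs) h1 h2
    have h6 : ∫ x, ((𝓕⁻ fun η => G η * β η) ∘ γ) x * 𝓕 θ x =
      ∫ x, (𝓕⁻ fun η => G η * β η) (γ x) * 𝓕 θ x := rfl
    rw [h6, h5] at h4
    rw [← h4]
    congr 1; ext η
    unfold wt
    ring
  obtain ⟨n, hn⟩ := nonempty_interior_of_iUnion_of_closed hclosed hcover
  have htop : A n = ⊤ := Submodule.eq_top_of_nonempty_interior' _ hn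
  refine ⟨n, Nat.cast_nonneg n, fun θ h1 h2 h3 => ?_⟩
  -- test with the conjugate of the weight
  have hwc := wt_continuous hγ hβc h1 h2
  have hws : HasCompactSupport (wt γ β θ) := hβs.mul_right
  obtain ⟨C, hC⟩ := hws.exists_bound_of_continuous hwc
  let G : V →ᵇ ℂ := BoundedContinuousFunction.ofNormedAddCommGroup (fun η => conj (wt γ β θ η))
    (Complex.continuous_conj.comp hwc) C (fun η => by rw [RCLike.norm_conj]; exact hC η)
  have hG : G ∈ A n := by rw [htop]; trivial
  have hz := hG θ h1 h2 h3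
  have hz' : ∫ η, ‖wt γ β θ η‖ ^ 2 = 0 := by
    have e1 : ∫ η, G η * wt γ β θ η = ((∫ η, ‖wt γ β θ η‖ ^ 2 : ℝ) : ℂ) := by
      rw [← integral_complex_ofReal]
      congr 1; ext η
      show conj (wt γ β θ η) * wt γ β θ η = _
      rw [mul_comm, Complex.mul_conj, Complex.normSq_eq_norm_sq]
    rw [e1] at hz
    exact_mod_cast hz
  have hint2 : Integrable fun η => ‖wt γ β θ η‖ ^ 2 := by
    apply Continuous.integrable_of_hasCompactSupport (by fun_prop)
    exact hws.comp_left (g := fun z : ℂ => ‖z‖ ^ 2) (by simp)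
  rw [integral_eq_zero_iff_of_nonneg (fun η => by positivity) hint2] at hz'
  have hall : (fun η => ‖wt γ β θ η‖ ^ 2) = 0 := by
    apply (Continuous.ae_eq_iff_eq (volume : Measure V) (by fun_prop) continuous_const).mp
    exact hz'
  have hξ := congrFun hall ξ
  simp only [Pi.zero_apply] at hξ
  have hξ' : wt γ β θ ξ = 0 := by
    have := pow_eq_zero_iff (n := 2) (by norm_num) |>.mp hξ
    exact norm_eq_zero.mp this
  unfold wt at hξ'
  rw [hβ1, one_mul] at hξ'
  exact hξ'

/-- a map with the property is affine along rays -/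
lemma rays {γ : V → V} (hγ : Continuous γ)
    (hbl : ∀ f : V → ℂ, IsBandlimited f → HasCompactSpectrum (f ∘ γ)) (x v : V) (t : ℝ) (ht : 0 ≤ t) :
    γ (x + t • v) = γ x + t • (γ (x + v) - γ x) := by
  apply ext_inner_left ℝ
  intro ξ
  obtain ⟨R₁, hR₁, h1⟩ := exists_spec hγ hbl ξ
  obtain ⟨R₂, hR₂, h2⟩ := exists_spec hγ hbl (-ξ)
  have h := phase (φ := fun x => inner ℝ ξ (γ x)) (by fun_prop) (R := max R₁ R₂)
    (hR₁.trans (le_max_left _ _)) (SpecIn_mono (le_max_left _ _) h1)
    (SpecIn_mono (le_max_right _ _) (by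
      have e : (fun x => ch (γ x) (-ξ)) = fun x =>
          Complex.exp (((2 * Real.pi * (-(inner ℝ ξ (γ x))) : ℝ) : ℂ) * Complex.I) := by
        ext x
        unfold ch
        rw [inner_neg_left]
      rw [← e]
      exact h2)) x v t ht
  rw [h, inner_add_right, inner_smul_right, inner_sub_right]

lemma affine_of_rays {γ : V → V} (hinj : Function.Injective γ)
    (h : ∀ (x v : V) (t : ℝ), 0 ≤ t → γ (x + t • v) = γ x + t • (γ (x + v) - γ x)) :
    ∃ (A : V ≃ₗ[ℝ] V) (b : V), ∀ x, γ x = A x + b := by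
  have hpos : ∀ (v : V) (t : ℝ), 0 ≤ t → γ (t • v) - γ 0 = t • (γ v - γ 0) := by
    intro v t ht
    have := h 0 v t ht
    rw [zero_add, zero_add] at this
    rw [this]; abel
  have hadd : ∀ a b : V, γ (a + b) - γ 0 = (γ a - γ 0) + (γ b - γ 0) := by
    intro a b
    have h1 := h ((2:ℝ) • a) ((2:ℝ) • b - (2:ℝ) • a) (1/2) (by norm_num)
    have e1 : (2:ℝ) • a + (1/2:ℝ) • ((2:ℝ) • b - (2:ℝ) • a) = a + b := by module
    have e2 : (2:ℝ) • a + ((2:ℝ) • b - (2:ℝ) • a) = (2:ℝ) • b := by abel
    rw [e1, e2] at h1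
    have h2 := hpos a 2 (by norm_num)
    have h3 := hpos b 2 (by norm_num)
    have h4 : γ ((2:ℝ) • a) = (2:ℝ) • (γ a - γ 0) + γ 0 := by rw [← h2]; abel
    have h5 : γ ((2:ℝ) • b) = (2:ℝ) • (γ b - γ 0) + γ 0 := by rw [← h3]; abel
    rw [h1, h4, h5]
    module
  let L : V →ₗ[ℝ] V :=
    { toFun := fun v => γ v - γ 0
      map_add' := hadd
      map_smul' := by
        intro t v
        rw [RingHom.id_apply]
        rcases le_or_gt 0 t with ht | ht
        · exact hpos v t ht
        · have h1 := hadd (t • v) ((-t) • v)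
          have e : t • v + (-t) • v = 0 := by module
          rw [e, sub_self, hpos v (-t) (by linarith)] at h1
          have h2 : γ (t • v) - γ 0 = -((-t) • (γ v - γ 0)) := eq_neg_of_add_eq_zero_left h1.symm
          rw [h2]; module }
  have hL : Function.Injective L := by
    intro a b hab
    have : γ a - γ 0 = γ b - γ 0 := hab
    exact hinj (sub_left_inj.mp this)
  refine ⟨LinearEquiv.ofInjectiveEndo L hL, γ 0, fun x => ?_⟩
  show γ x = (γ x - γ 0) + γ 0
  abel

/-- affine changes of variables preserve the property -/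
lemma affine_preserves (A : V ≃ₗ[ℝ] V) (b : V) (f : V → ℂ) (hf : IsBandlimited f) :
    HasCompactSpectrum (f ∘ fun x => A x + b) := by
  obtain ⟨F, hF2, ⟨R, hR⟩, rfl⟩ := hf
  have hsupp : Function.support F ⊆ closedBall (0 : V) R := by
    intro η hη
    rw [mem_closedBall_zero_iff]
    by_contra hlt
    push Not at hlt
    exact hη (hR η hlt)
  have hFi : Integrable F := by
    rw [← integrableOn_iff_integrable_of_support_subset hsupp]
    have : IsFiniteMeasure ((volume : Measure V).restrict (closedBall 0 R)) :=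
      ⟨by rw [Measure.restrict_apply_univ]; exact measure_closedBall_lt_top⟩
    exact (hF2.restrict (closedBall 0 R)).integrable one_le_two
  let At : V →ₗ[ℝ] V := LinearMap.adjoint (A : V →ₗ[ℝ] V)
  have hAc : Continuous (A : V → V) := (A : V →ₗ[ℝ] V).continuous_of_finiteDimensional
  refine ⟨At '' closedBall 0 R, (isCompact_closedBall (0 : V) R).image
    At.continuous_of_finiteDimensional, fun θ h1 h2 h3 => ?_⟩
  have hγ : Continuous fun x : V => A x + b := hAc.add continuous_const
  have e1 := pair_eq hγ hFi h1 h2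
  have e0 : ∫ x, ((𝓕⁻ F) ∘ fun x => A x + b) x * 𝓕 θ x = ∫ x, (𝓕⁻ F) (A x + b) * 𝓕 θ x := rfl
  rw [e0, e1]
  have hinv := Continuous.fourierInv_fourier_eq h1.continuous
    (h1.continuous.integrable_of_hasCompactSupport h2) (integrable_fourier h1 h2)
  have e2 : ∀ η : V, ∫ x, ch (A x + b) η * 𝓕 θ x = ch b η * θ (At η) := by
    intro η
    have e3 := congrFun hinv (At η)
    rw [fourierInv_eq_ch] at e3
    rw [← e3, ← integral_const_mul]
    congr 1; ext x
    have e4 : ch (A x) η = ch (At η) x := by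
      unfold ch
      congr 3
      have : inner ℝ (At η) x = inner ℝ η ((A : V →ₗ[ℝ] V) x) := LinearMap.adjoint_inner_left _ _ _
      rw [real_inner_comm x (At η)] at *
      rw [this]
      rfl
    rw [ch_add, e4]
    ring
  have e5 : ∀ η : V, F η * ∫ x, ch (A x + b) η * 𝓕 θ x = 0 := by
    intro η
    by_cases hη : F η = 0
    · rw [hη, zero_mul]
    · have hmem : At η ∈ At '' closedBall 0 R := mem_image_of_mem _ (hsupp hη)
      have : θ (At η) = 0 := by
        by_contra hne
        exact Set.disjoint_left.mp h3 (subset_tsupport _ hne) hmem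
      rw [e2, this, mul_zero, mul_zero]
  simp only [e5, integral_zero]

theorem main {γ : V → V} (hγ : Continuous γ) (hinj : Function.Injective γ) :
    (∀ f : V → ℂ, IsBandlimited f → HasCompactSpectrum (f ∘ γ)) ↔
      ∃ (A : V ≃ₗ[ℝ] V) (b : V), ∀ x, γ x = A x + b := by
  constructor
  · intro h
    exact affine_of_rays hinj (rays hγ h)
  · rintro ⟨A, b, hA⟩ f hf
    have : γ = fun x => A x + b := funext hA
    rw [this]
    exact affine_preserves A b f hf

end Pool.Agent.Q158.Spec
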