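import Mathlib

set_option autoImplicit false

open Set Filter Topology ENNReal

namespace Pool.Agent.Q158.Sponge

/-- a continuous function of infinite variation on every interval -/
noncomputable def w (x : ℝ) : ℝ := ∑' k : ℕ, (1 / 2 : ℝ) ^ k * Real.cos (8 ^ k * Real.pi * x)

lemma term_le (k : ℕ) (x : ℝ) : ‖(1 / 2 : ℝ) ^ k * Real.cos (8 ^ k * Real.pi * x)‖ ≤ (1 / 2 : ℝ) ^ k := by
  rw [norm_mul, Real.norm_of_nonneg (by positivity : (0:ℝ) ≤ (1/2)^k)]
  have := Real.abs_cos_le_one (8 ^ k * Real.pi * x)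
  have h2 : (0:ℝ) ≤ (1/2)^k := by positivity
  calc (1/2:ℝ)^k * ‖Real.cos (8 ^ k * Real.pi * x)‖ ≤ (1/2:ℝ)^k * 1 := by
        exact mul_le_mul_of_nonneg_left this h2
    _ = _ := by ring

lemma summable_w (x : ℝ) : Summable fun k : ℕ => (1 / 2 : ℝ) ^ k * Real.cos (8 ^ k * Real.pi * x) :=
  Summable.of_norm_bounded summable_geometric_two (fun k => term_le k x)

lemma continuous_w : Continuous w := by
  unfold w
  refine continuous_tsum (fun k => by fun_prop) summable_geometric_two (fun k x => term_le k x)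

lemma w_neg (x : ℝ) : w (-x) = w x := by
  unfold w
  congr 1
  ext k
  rw [mul_neg, Real.cos_neg]

lemma abs_w_le (x : ℝ) : |w x| ≤ 2 := by
  have h := tsum_of_norm_bounded (f := fun k : ℕ => (1 / 2 : ℝ) ^ k * Real.cos (8 ^ k * Real.pi * x))
    (g := fun k : ℕ => (1 / 2 : ℝ) ^ k) (a := 2) hasSum_geometric_two (fun k => term_le k x)
  simpa [w] using h

/-- the jump of `w` over one step of the grid of mesh `8 ^ (-k)` -/
lemma w_step (k : ℕ) (m : ℤ) :
    (1 / 2 : ℝ) ^ k / 2 ≤ |w (((m : ℝ) + 1) / 8 ^ k) - w ((m : ℝ) / 8 ^ k)| := by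
  set x : ℝ := (m : ℝ) / 8 ^ k with hx
  set y : ℝ := ((m : ℝ) + 1) / 8 ^ k with hy
  have h8 : (0 : ℝ) < 8 ^ k := by positivity
  let d : ℕ → ℝ := fun j => (1 / 2 : ℝ) ^ j * Real.cos (8 ^ j * Real.pi * y) -
    (1 / 2 : ℝ) ^ j * Real.cos (8 ^ j * Real.pi * x)
  have hd : w y - w x = ∑' j, d j := by
    unfold w
    rw [← (summable_w y).tsum_sub (summable_w x)]
  have hzero : ∀ j, j ∉ Finset.range (k + 1) → d j = 0 := by
    intro j hj
    have hj' : k + 1 ≤ j := by simpa using hj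
    obtain ⟨i, rfl⟩ := Nat.exists_eq_add_of_le hj'
    have e1 : (8 : ℝ) ^ (k + 1 + i) * Real.pi * y = (((m + 1) * 4 * 8 ^ i : ℤ) : ℝ) * (2 * Real.pi) := by
      rw [hy]; push_cast; field_simp; ring
    have e2 : (8 : ℝ) ^ (k + 1 + i) * Real.pi * x = ((m * 4 * 8 ^ i : ℤ) : ℝ) * (2 * Real.pi) := by
      rw [hx]; push_cast; field_simp; ring
    simp only [d]
    rw [e1, e2, Real.cos_int_mul_two_pi, Real.cos_int_mul_two_pi]
    ring
  have hs : w y - w x = ∑ j ∈ Finset.range (k + 1), d j := by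
    rw [hd, tsum_eq_sum hzero]
  have hk : |d k| = 2 * (1 / 2 : ℝ) ^ k := by
    have e1 : (8 : ℝ) ^ k * Real.pi * y = ((m + 1 : ℤ) : ℝ) * Real.pi := by
      rw [hy]; push_cast; field_simp
    have e2 : (8 : ℝ) ^ k * Real.pi * x = (m : ℝ) * Real.pi := by
      rw [hx]; field_simp
    simp only [d]
    rw [e1, e2, Real.cos_int_mul_pi, Real.cos_int_mul_pi]
    have h1 : ((-1 : ℝ)) ^ (m + 1) = - (-1) ^ m := by
      rw [zpow_add₀ (by norm_num)]; simp
    rw [h1]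
    have h2 : |((-1 : ℝ)) ^ m| = 1 := by
      rw [abs_zpow]; simp
    have h3 : (1 / 2 : ℝ) ^ k * -(-1) ^ m - (1 / 2) ^ k * (-1) ^ m = -(2 * (1/2)^k) * (-1) ^ m := by ring
    rw [h3, abs_mul, h2, abs_neg, abs_of_nonneg (by positivity)]
    ring
  have hj : ∀ j ∈ Finset.range k, |d j| ≤ 4 ^ j * (Real.pi / 8 ^ k) := by
    intro j _
    simp only [d]
    rw [← mul_sub, abs_mul, abs_of_nonneg (by positivity : (0:ℝ) ≤ (1/2)^j)]
    have hl : |Real.cos (8 ^ j * Real.pi * y) - Real.cos (8 ^ j * Real.pi * x)| ≤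
        |8 ^ j * Real.pi * y - 8 ^ j * Real.pi * x| := by
      have := Real.lipschitzWith_cos.dist_le_mul (8 ^ j * Real.pi * y) (8 ^ j * Real.pi * x)
      simpa [Real.dist_eq] using this
    have hyx : 8 ^ j * Real.pi * y - 8 ^ j * Real.pi * x = 8 ^ j * Real.pi / 8 ^ k := by
      rw [hx, hy]; field_simp; ring
    rw [hyx, abs_of_nonneg (by positivity : (0:ℝ) ≤ 8 ^ j * Real.pi / 8 ^ k)] at hl
    calc (1/2:ℝ)^j * _ ≤ (1/2:ℝ)^j * (8 ^ j * Real.pi / 8 ^ k) :=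
          mul_le_mul_of_nonneg_left hl (by positivity)
      _ = 4 ^ j * (Real.pi / 8 ^ k) := by
          have : (4:ℝ)^j = (1/2)^j * 8^j := by rw [← mul_pow]; norm_num
          rw [this]; ring
  have hsum : |∑ j ∈ Finset.range k, d j| ≤ (4 ^ k / 3) * (Real.pi / 8 ^ k) := by
    refine (Finset.abs_sum_le_sum_abs _ _).trans ((Finset.sum_le_sum hj).trans ?_)
    rw [← Finset.sum_mul]
    refine mul_le_mul_of_nonneg_right ?_ (by positivity)
    rw [geom_sum_eq (by norm_num)]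
    have : (0:ℝ) < 4 ^ k := by positivity
    linarith
  have h48 : (4 : ℝ) ^ k / 8 ^ k = (1/2) ^ k := by
    rw [← div_pow]; norm_num
  have hsum' : |∑ j ∈ Finset.range k, d j| ≤ (Real.pi / 3) * (1/2) ^ k := by
    calc _ ≤ (4 ^ k / 3) * (Real.pi / 8 ^ k) := hsum
      _ = (Real.pi / 3) * (4 ^ k / 8 ^ k) := by ring
      _ = _ := by rw [h48]
  rw [hs, Finset.sum_range_succ]
  have hpi : Real.pi < 3.15 := Real.pi_lt_d2
  have hp : (0:ℝ) < (1/2) ^ k := by positivity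
  have h1 : |d k| ≤ |∑ j ∈ Finset.range k, d j + d k| + |∑ j ∈ Finset.range k, d j| := by
    have := abs_sub_abs_le_abs_sub (∑ j ∈ Finset.range k, d j + d k) (∑ j ∈ Finset.range k, d j)
    have h2 := abs_sub (∑ j ∈ Finset.range k, d j + d k) (∑ j ∈ Finset.range k, d j)
    simpa using h2
  nlinarith

/-- `w` has infinite variation on every nondegenerate interval -/
lemma eVariationOn_w {a b : ℝ} (hab : a < b) : eVariationOn w (Icc a b) = ⊤ := by
  refine ENNReal.eq_top_of_forall_nnreal_le ?_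
  intro M
  -- choose `k` with `4 ^ k (b - a) / 2 - 1 ≥ M`
  obtain ⟨k, hk⟩ : ∃ k : ℕ, (M : ℝ) + 1 ≤ 4 ^ k * ((b - a) / 2) := by
    obtain ⟨k, hk⟩ := pow_unbounded_of_one_lt (((M : ℝ) + 1) / ((b - a) / 2)) (by norm_num : (1:ℝ) < 4)
    refine ⟨k, ?_⟩
    rw [div_lt_iff₀ (by linarith)] at hk
    exact hk.le
  have h8 : (0 : ℝ) < 8 ^ k := by positivity
  set m : ℤ := ⌈a * 8 ^ k⌉ with hm
  set N : ℕ := ⌊b * 8 ^ k - m⌋₊ with hN
  have hm1 : a * 8 ^ k ≤ m := Int.le_ceil _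
  have hm2 : (m : ℝ) < a * 8 ^ k + 1 := Int.ceil_lt_add_one _
  have hab8 : 2 ≤ (b - a) * 8 ^ k := by
    have h48 : (4:ℝ)^k ≤ 8^k := pow_le_pow_left₀ (by norm_num) (by norm_num) k
    have hM : (0:ℝ) ≤ M := M.2
    nlinarith
  have hN1 : (N : ℝ) ≤ b * 8 ^ k - m := Nat.floor_le (by nlinarith)
  have hN2 : b * 8 ^ k - m < N + 1 := Nat.lt_floor_add_one _
  have hmain := eVariationOn.sum_le_of_monotoneOn_Iic (f := w) (s := Icc a b) (n := N)
    (u := fun i : ℕ => ((m : ℝ) + i) / 8 ^ k)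
    (by
      intro i _ j _ hij
      have : (i : ℝ) ≤ j := by exact_mod_cast hij
      show ((m : ℝ) + i) / 8 ^ k ≤ ((m : ℝ) + j) / 8 ^ k
      gcongr)
    (by
      intro i hi
      have hi' : (i : ℝ) ≤ N := by exact_mod_cast hi
      constructor
      · rw [le_div_iff₀ h8]
        have : (0:ℝ) ≤ i := Nat.cast_nonneg _
        linarith
      · rw [div_le_iff₀ h8]; linarith)
  refine le_trans ?_ hmain
  have hterm : ∀ i ∈ Finset.range N, ENNReal.ofReal ((1 / 2 : ℝ) ^ k / 2) ≤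
      edist (w (((m : ℝ) + ((i + 1 : ℕ) : ℝ)) / 8 ^ k)) (w (((m : ℝ) + i) / 8 ^ k)) := by
    intro i _
    rw [edist_dist, Real.dist_eq]
    apply ENNReal.ofReal_le_ofReal
    have := w_step k (m + i)
    push_cast at this ⊢
    have e : (m : ℝ) + (i + 1) = m + i + 1 := by ring
    rw [e]
    exact this
  refine le_trans ?_ (Finset.sum_le_sum hterm)
  rw [Finset.sum_const, Finset.card_range, nsmul_eq_mul, ← ENNReal.ofReal_natCast N,
    ← ENNReal.ofReal_mul (by positivity), ← ENNReal.ofReal_coe_nnreal]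
  apply ENNReal.ofReal_le_ofReal
  have hNlow : (b - a) * 8 ^ k - 2 ≤ N := by nlinarith
  have h48 : (8 : ℝ) ^ k * (1/2) ^ k = 4 ^ k := by
    rw [← mul_pow]; norm_num
  have hp : (0:ℝ) < (1/2) ^ k := by positivity
  have hp1 : ((1:ℝ)/2) ^ k ≤ 1 := pow_le_one₀ (by norm_num) (by norm_num)
  calc (M : ℝ) ≤ 4 ^ k * ((b - a) / 2) - 1 := by linarith
    _ ≤ ((b - a) * 8 ^ k - 2) * ((1/2)^k / 2) := by
        have : ((b - a) * 8 ^ k - 2) * ((1/2:ℝ)^k / 2) = (b-a)/2 * (8 ^ k * (1/2)^k) - (1/2)^k := by ring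
        rw [this, h48]
        linarith
    _ ≤ N * ((1/2)^k / 2) := by
        exact mul_le_mul_of_nonneg_right hNlow (by positivity)

end Pool.Agent.Q158.Sponge
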