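import Mathlib
import Pool.Agent.Q158.SpongeA

set_option autoImplicit false

open Set Filter Topology ENNReal

namespace Pool.Agent.Q158.Sponge

/-- first hitting times are monotone: the variation of `w` along a nonconstant continuous function is infinite -/
lemma eVar_comp_of_lt {x : ℝ → ℝ} {s t : ℝ} (hst : s ≤ t) (hx : ContinuousOn x (Icc s t))
    (hlt : x s < x t) : eVariationOn (w ∘ x) (Icc s t) = ⊤ := by
  classical
  let S : ℝ → Set ℝ := fun v => {r | r ∈ Icc s t ∧ x r = v}
  have hSne : ∀ v ∈ Icc (x s) (x t), (S v).Nonempty := by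
    intro v hv
    obtain ⟨r, hr, hrv⟩ := intermediate_value_Icc hst hx hv
    exact ⟨r, hr, hrv⟩
  have hSclosed : ∀ v, IsClosed (S v) := by
    intro v
    have : S v = Icc s t ∩ x ⁻¹' {v} := by ext r; simp [S]
    rw [this]
    exact hx.preimage_isClosed_of_isClosed isClosed_Icc isClosed_singleton
  have hSbdd : ∀ v, BddBelow (S v) := fun v => ⟨s, fun r hr => hr.1.1⟩
  let τ : ℝ → ℝ := fun v => sInf (S v)
  have hτ : ∀ v ∈ Icc (x s) (x t), τ v ∈ S v := fun v hv =>
    (hSclosed v).csInf_mem (hSne v hv) (hSbdd v)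
  have hmono : MonotoneOn τ (Icc (x s) (x t)) := by
    intro v hv v' hv' hvv'
    have h1 := hτ v' hv'
    have h2 : v ∈ Icc (x s) (x (τ v')) := ⟨hv.1, by rw [h1.2]; exact hvv'⟩
    obtain ⟨r, hr, hrv⟩ := intermediate_value_Icc h1.1.1
      (hx.mono (Icc_subset_Icc le_rfl h1.1.2)) h2
    exact (csInf_le (hSbdd v) ⟨⟨hr.1, hr.2.trans h1.1.2⟩, hrv⟩).trans hr.2
  have hcomp := eVariationOn.comp_le_of_monotoneOn (w ∘ x) (s := Icc s t) (t := Icc (x s) (x t))
    τ hmono (fun v hv => (hτ v hv).1)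
  have heq : eVariationOn ((w ∘ x) ∘ τ) (Icc (x s) (x t)) = eVariationOn w (Icc (x s) (x t)) := by
    apply eVariationOn.congr
    intro v hv
    show w (x (τ v)) = w v
    rw [(hτ v hv).2]
  rw [heq, eVariationOn_w hlt] at hcomp
  exact top_le_iff.mp hcomp

/-- if `w ∘ x` has finite variation then `x` is constant -/
lemma const_of_eVar {x : ℝ → ℝ} {a b : ℝ} (hx : ContinuousOn x (Icc a b))
    (h : eVariationOn (fun r => w (x r)) (Icc a b) ≠ ⊤) :
    ∀ s ∈ Icc a b, ∀ t ∈ Icc a b, x s = x t := by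
  have key : ∀ s ∈ Icc a b, ∀ t ∈ Icc a b, s ≤ t → x s = x t := by
    intro s hs t ht hst
    by_contra hne
    have hsub : Icc s t ⊆ Icc a b := Icc_subset_Icc hs.1 ht.2
    rcases lt_or_gt_of_ne hne with hlt | hlt
    · have := eVar_comp_of_lt hst (hx.mono hsub) hlt
      have h2 := eVariationOn.mono (w ∘ x) hsub
      rw [this] at h2
      exact h (top_le_iff.mp h2)
    · have := eVar_comp_of_lt (x := fun r => - x r) hst (hx.mono hsub).neg (by simpa using hlt)
      have h3 : (w ∘ fun r => - x r) = w ∘ x := by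
        ext r; simp [w_neg]
      rw [h3] at this
      have h2 := eVariationOn.mono (w ∘ x) hsub
      rw [this] at h2
      exact h (top_le_iff.mp h2)
  intro s hs t ht
  rcases le_total s t with hst | hst
  · exact key s hs t ht hst
  · exact (key t ht s hs hst).symm

lemma eVar_sub_le (f g : ℝ → ℝ) (s : Set ℝ) :
    eVariationOn (fun r => f r - g r) s ≤ eVariationOn f s + eVariationOn g s := by
  unfold eVariationOn
  refine iSup_le fun p => ?_
  calc ∑ i ∈ Finset.range p.1, edist (f ((p.2 : ℕ → ℝ) (i + 1)) - g ((p.2 : ℕ → ℝ) (i + 1)))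
        (f ((p.2 : ℕ → ℝ) i) - g ((p.2 : ℕ → ℝ) i))
      ≤ ∑ i ∈ Finset.range p.1, (edist (f ((p.2 : ℕ → ℝ) (i + 1))) (f ((p.2 : ℕ → ℝ) i)) +
          edist (g ((p.2 : ℕ → ℝ) (i + 1))) (g ((p.2 : ℕ → ℝ) i))) := by
        apply Finset.sum_le_sum
        intro i _
        rw [edist_dist, edist_dist, edist_dist, ← ENNReal.ofReal_add dist_nonneg dist_nonneg]
        apply ENNReal.ofReal_le_ofReal
        exact dist_sub_sub_le _ _ _ _
    _ ≤ _ := by
        rw [Finset.sum_add_distrib]
        exact add_le_add (le_iSup (fun p : ℕ × { u : ℕ → ℝ // Monotone u ∧ ∀ i, u i ∈ s } =>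
          ∑ i ∈ Finset.range p.1, edist (f ((p.2 : ℕ → ℝ) (i + 1))) (f ((p.2 : ℕ → ℝ) i))) p)
          (le_iSup (fun p : ℕ × { u : ℕ → ℝ // Monotone u ∧ ∀ i, u i ∈ s } =>
          ∑ i ∈ Finset.range p.1, edist (g ((p.2 : ℕ → ℝ) (i + 1))) (g ((p.2 : ℕ → ℝ) i))) p)

lemma eVar_sub_ne_top {f g : ℝ → ℝ} {s : Set ℝ} (hf : eVariationOn f s ≠ ⊤)
    (hg : eVariationOn g s ≠ ⊤) : eVariationOn (fun r => f r - g r) s ≠ ⊤ :=
  ne_top_of_le_ne_top (ENNReal.add_ne_top.mpr ⟨hf, hg⟩) (eVar_sub_le f g s)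

variable {m : ℕ}

/-- the shear map on `ℝ^(m+2)` -/
noncomputable def F (z : Fin (m + 2) → ℝ) : Fin (m + 2) → ℝ := fun i =>
  if i = 0 then z 0 - w (z (Fin.last (m + 1)))
  else if i = 1 then z 1 - w (z 0 - w (z (Fin.last (m + 1))))
  else z i - w (z (i - 1))

lemma F_zero (z : Fin (m + 2) → ℝ) : F z 0 = z 0 - w (z (Fin.last (m + 1))) := by simp [F]

lemma F_one (z : Fin (m + 2) → ℝ) : F z 1 = z 1 - w (z 0 - w (z (Fin.last (m + 1)))) := by
  simp [F]

lemma F_ge (z : Fin (m + 2) → ℝ) {i : Fin (m + 2)} (h0 : i ≠ 0) (h1 : i ≠ 1) :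
    F z i = z i - w (z (i - 1)) := by
  simp [F, h0, h1]

lemma continuous_F : Continuous (F (m := m)) := by
  refine continuous_pi fun i => ?_
  have hw := continuous_w
  by_cases h0 : i = 0
  · subst h0
    simp only [F_zero]
    fun_prop
  · by_cases h1 : i = 1
    · subst h1
      simp only [F_one]
      fun_prop
    · simp only [F_ge _ h0 h1]
      fun_prop

/-- each coordinate is a continuous function of `F z` -/
lemma exists_inv_coord_succ (k : ℕ) (hk : k < m + 1) :
    ∃ g : (Fin (m + 2) → ℝ) → ℝ, Continuous g ∧ ∀ z, g (F z) = z ⟨k + 1, by omega⟩ := by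
  have hw := continuous_w
  induction k with
  | zero =>
    refine ⟨fun y => y 1 + w (y 0), by fun_prop, fun z => ?_⟩
    show F z 1 + w (F z 0) = _
    rw [F_one, F_zero]
    have : (⟨0 + 1, by omega⟩ : Fin (m + 2)) = 1 := by ext; simp
    rw [this]
    ring
  | succ k ih =>
    obtain ⟨g, hg, hgz⟩ := ih (by omega)
    refine ⟨fun y => y ⟨k + 1 + 1, by omega⟩ + w (g y), by fun_prop, fun z => ?_⟩
    show F z _ + w (g (F z)) = _
    have h0 : (⟨k + 1 + 1, by omega⟩ : Fin (m + 2)) ≠ 0 := by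
      intro h; have := congrArg Fin.val h; simp at this
    have h1 : (⟨k + 1 + 1, by omega⟩ : Fin (m + 2)) ≠ 1 := by
      intro h; have := congrArg Fin.val h; simp at this
    rw [F_ge z h0 h1, hgz]
    have h2 : (⟨k + 1 + 1, by omega⟩ : Fin (m + 2)) - 1 = ⟨k + 1, by omega⟩ := by
      rw [sub_eq_iff_eq_add]
      ext
      rw [Fin.val_add]
      simp
      rw [Nat.mod_eq_of_lt (by omega)]
    rw [h2]
    ring

lemma exists_inv_F : ∃ G : (Fin (m + 2) → ℝ) → (Fin (m + 2) → ℝ), Continuous G ∧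
    Function.LeftInverse G F := by
  have hw := continuous_w
  have h : ∀ i : Fin (m + 2), ∃ g : (Fin (m + 2) → ℝ) → ℝ, Continuous g ∧ ∀ z, g (F z) = z i := by
    intro i
    by_cases h0 : i = 0
    · subst h0
      obtain ⟨g, hg, hgz⟩ := exists_inv_coord_succ (m := m) m (by omega)
      refine ⟨fun y => y 0 + w (g y), by fun_prop, fun z => ?_⟩
      show F z 0 + w (g (F z)) = z 0
      rw [F_zero, hgz]
      have : (⟨m + 1, by omega⟩ : Fin (m + 2)) = Fin.last (m + 1) := by ext; simp
      rw [this]; ring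
    · obtain ⟨k, hk⟩ : ∃ k, i.val = k + 1 := Nat.exists_eq_succ_of_ne_zero (by
        intro h; apply h0; ext; simpa using h)
      have hlt := i.isLt
      obtain ⟨g, hg, hgz⟩ := exists_inv_coord_succ (m := m) k (by omega)
      refine ⟨g, hg, fun z => ?_⟩
      rw [hgz]
      congr 1
      ext
      simp [hk]
  choose g hg hgz using h
  refine ⟨fun y i => g i y, continuous_pi fun i => hg i, fun z => ?_⟩
  ext i
  exact hgz i z

lemma isEmbedding_F : IsEmbedding (F (m := m)) := by
  obtain ⟨G, hG, hGF⟩ := exists_inv_F (m := m)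
  exact IsEmbedding.of_leftInverse hGF hG continuous_F

/-- if `z` and `F ∘ z` are curves of finite variation, then `z` is constant -/
lemma const_of_F {z : ℝ → Fin (m + 2) → ℝ} {a b : ℝ} (hz : ContinuousOn z (Icc a b))
    (h1 : ∀ i, eVariationOn (fun r => z r i) (Icc a b) ≠ ⊤)
    (h2 : ∀ i, eVariationOn (fun r => F (z r) i) (Icc a b) ≠ ⊤) :
    ∀ s ∈ Icc a b, ∀ t ∈ Icc a b, z s = z t := by
  have hzc : ∀ i, ContinuousOn (fun r => z r i) (Icc a b) := fun i =>
    (continuous_apply i).comp_continuousOn hz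
  -- the last coordinate
  have hlast : ∀ s ∈ Icc a b, ∀ t ∈ Icc a b, z s (Fin.last (m + 1)) = z t (Fin.last (m + 1)) := by
    apply const_of_eVar (hzc _)
    have h := eVar_sub_ne_top (h1 0) (h2 0)
    refine fun hc => h ?_
    rw [← hc]
    apply eVariationOn.congr
    intro r _
    show z r 0 - F (z r) 0 = _
    rw [F_zero]; ring
  have hmid : ∀ i : Fin (m + 2), i ≠ 0 → i ≠ 1 →
      ∀ s ∈ Icc a b, ∀ t ∈ Icc a b, z s (i - 1) = z t (i - 1) := by
    intro i hi0 hi1
    apply const_of_eVar (hzc _)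
    have h := eVar_sub_ne_top (h1 i) (h2 i)
    refine fun hc => h ?_
    rw [← hc]
    apply eVariationOn.congr
    intro r _
    show z r i - F (z r) i = _
    rw [F_ge _ hi0 hi1]; ring
  have hzero : ∀ s ∈ Icc a b, ∀ t ∈ Icc a b, z s 0 = z t 0 := by
    have h3 : ∀ s ∈ Icc a b, ∀ t ∈ Icc a b, (fun r => z r 0 - w (z r (Fin.last (m + 1)))) s =
        (fun r => z r 0 - w (z r (Fin.last (m + 1)))) t := by
      apply const_of_eVar
      · exact (hzc 0).sub (continuous_w.comp_continuousOn (hzc _))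
      · have h := eVar_sub_ne_top (h1 1) (h2 1)
        refine fun hc => h ?_
        rw [← hc]
        apply eVariationOn.congr
        intro r _
        show z r 1 - F (z r) 1 = _
        rw [F_one]; ring
    intro s hs t ht
    have h4 := h3 s hs t ht
    simp only at h4
    rw [hlast s hs t ht] at h4
    linarith
  intro s hs t ht
  ext i
  by_cases hi0 : i = 0
  · subst hi0; exact hzero s hs t ht
  · by_cases hil : i = Fin.last (m + 1)
    · subst hil; exact hlast s hs t ht
    · have hval : i.val < m + 1 := by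
        have := i.isLt
        have h5 : i.val ≠ m + 1 := fun h => hil (by ext; simpa using h)
        omega
      have hpos : 0 < i.val := Nat.pos_of_ne_zero (fun h => hi0 (by ext; simpa using h))
      have h6 : ((⟨i.val + 1, by omega⟩ : Fin (m + 2)) - 1) = i := by
        rw [sub_eq_iff_eq_add]
        ext
        rw [Fin.val_add]
        simp
        rw [Nat.mod_eq_of_lt (by omega)]
      have h7 := hmid ⟨i.val + 1, by omega⟩
        (by intro h; have := congrArg Fin.val h; simp at this)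
        (by intro h; have := congrArg Fin.val h; simp at this; omega) s hs t ht
      rwa [h6] at h7

end Pool.Agent.Q158.Sponge
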