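import Mathlib
import Pool.Agent.Q158.SpongeB

set_option autoImplicit false

open Set Filter Topology ENNReal MeasureTheory

namespace Pool.Agent.Q158.Sponge

/-- the amount of `V` to the left of `t` -/
noncomputable def F1 (V : Set ℝ) (t : ℝ) : ℝ := (volume (V ∩ Iio t)).toReal

variable {V : Set ℝ}

lemma F1_sub (hV : MeasurableSet V) (hfin : volume V ≠ ⊤) {s t : ℝ} (hst : s ≤ t) :
    F1 V t - F1 V s = (volume (V ∩ Ico s t)).toReal := by
  unfold F1
  have h : V ∩ Iio t = (V ∩ Iio s) ∪ (V ∩ Ico s t) := by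
    rw [← inter_union_distrib_left, Iio_union_Ico_eq_Iio hst]
  have hd : Disjoint (V ∩ Iio s) (V ∩ Ico s t) := by
    refine Disjoint.mono inter_subset_right inter_subset_right ?_
    rw [Set.disjoint_left]
    intro x hx hx'
    exact absurd hx (not_lt.mpr hx'.1)
  have hf1 : volume (V ∩ Iio s) ≠ ⊤ := ne_top_of_le_ne_top hfin (measure_mono inter_subset_left)
  have hf2 : volume (V ∩ Ico s t) ≠ ⊤ := ne_top_of_le_ne_top hfin (measure_mono inter_subset_left)
  rw [h, measure_union hd (hV.inter measurableSet_Ico), ENNReal.toReal_add hf1 hf2]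
  ring

lemma F1_mono (hV : MeasurableSet V) (hfin : volume V ≠ ⊤) : Monotone (F1 V) := by
  intro s t hst
  have := F1_sub hV hfin hst
  have h0 : 0 ≤ (volume (V ∩ Ico s t)).toReal := ENNReal.toReal_nonneg
  linarith

lemma F1_sub_le (hV : MeasurableSet V) (hfin : volume V ≠ ⊤) {s t : ℝ} (hst : s ≤ t) :
    F1 V t - F1 V s ≤ t - s := by
  rw [F1_sub hV hfin hst]
  have h : volume (V ∩ Ico s t) ≤ ENNReal.ofReal (t - s) := by
    rw [← Real.volume_Ico]; exact measure_mono inter_subset_right
  calc (volume (V ∩ Ico s t)).toReal ≤ (ENNReal.ofReal (t - s)).toReal :=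
        ENNReal.toReal_mono ENNReal.ofReal_ne_top h
    _ = t - s := ENNReal.toReal_ofReal (by linarith)

lemma F1_sub_eq (hV : MeasurableSet V) (hfin : volume V ≠ ⊤) {s t : ℝ} (hst : s ≤ t)
    (hsub : Icc s t ⊆ V) : F1 V t - F1 V s = t - s := by
  rw [F1_sub hV hfin hst, inter_eq_right.mpr (Ico_subset_Icc_self.trans hsub), Real.volume_Ico,
    ENNReal.toReal_ofReal (by linarith)]

lemma F1_lipschitz (hV : MeasurableSet V) (hfin : volume V ≠ ⊤) (s t : ℝ) :
    |F1 V s - F1 V t| ≤ |s - t| := by
  rcases le_total s t with h | h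
  · have h1 := F1_sub_le hV hfin h
    have h2 := F1_mono hV hfin h
    rw [abs_sub_comm, abs_sub_comm s t, abs_of_nonneg (by linarith), abs_of_nonneg (by linarith)]
    exact h1
  · have h1 := F1_sub_le hV hfin h
    have h2 := F1_mono hV hfin h
    rw [abs_of_nonneg (by linarith), abs_of_nonneg (by linarith)]
    exact h1

lemma F1_abs_eq (hV : MeasurableSet V) (hfin : volume V ≠ ⊤) {s t : ℝ}
    (hsub : uIcc s t ⊆ V) : |F1 V s - F1 V t| = |s - t| := by
  rcases le_total s t with h | h
  · rw [uIcc_of_le h] at hsub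
    rw [abs_sub_comm, F1_sub_eq hV hfin h hsub, abs_sub_comm]
  · rw [uIcc_of_ge h] at hsub
    rw [F1_sub_eq hV hfin h hsub]

/-- near a point of `V` the map `F1` is a translation, and points with close values are close -/
lemma F1_local (hV : IsOpen V) (hfin : volume V ≠ ⊤) {x : ℝ} (hx : x ∈ V) {r : ℝ} (hr : 0 < r) :
    ∃ δ > 0, ∀ y, |F1 V y - F1 V x| < δ → |y - x| < r := by
  obtain ⟨ε, hε, hball⟩ := Metric.isOpen_iff.mp hV x hx
  have hVm := hV.measurableSet
  set δ := min (ε / 2) (r / 2) with hδ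
  have hδ0 : 0 < δ := by positivity
  have hδ1 : δ ≤ ε / 2 := min_le_left _ _
  have hδ2 : δ ≤ r / 2 := min_le_right _ _
  have hR : F1 V (x + δ) - F1 V x = δ := by
    rw [F1_sub_eq hVm hfin (by linarith)]
    · ring
    · intro z hz
      apply hball
      rw [Metric.mem_ball, Real.dist_eq, abs_of_nonneg (by linarith [hz.1])]
      linarith [hz.2]
  have hL : F1 V x - F1 V (x - δ) = δ := by
    rw [F1_sub_eq hVm hfin (by linarith)]
    · ring
    · intro z hz
      apply hball
      rw [Metric.mem_ball, Real.dist_eq, abs_of_nonpos (by linarith [hz.2])]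
      linarith [hz.1]
  refine ⟨δ, hδ0, fun y hy => ?_⟩
  rw [abs_lt] at hy
  rw [abs_lt]
  constructor
  · by_contra hcon
    have : y ≤ x - δ := by linarith
    have := F1_mono hVm hfin this
    linarith
  · by_contra hcon
    have : x + δ ≤ y := by linarith
    have := F1_mono hVm hfin this
    linarith

end Pool.Agent.Q158.Sponge
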