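import Mathlib
import Pool.Agent.Q158.LucA
import Pool.Agent.TH551.HE.App

set_option autoImplicit false

/-! # Short sums of S-units on plane curves, uniformly -/

namespace Pool.Agent.Q158.Sum

open Finset Height Pool.Agent.H533R3.SL Pool.Agent.TH551.SU.Uni Pool.Agent.TH551.SU
  Pool.Agent.TH551.SU.Ht Pool.Agent.TH551.HE Pool.Agent.Q158.Luc

/-- the homogenisation over the rational numbers -/
noncomputable def homQ (d : ℕ) (F : MvPolynomial (Fin 2) ℤ) : MvPolynomial (Fin (2 + 1)) ℚ :=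
  ∑ α ∈ F.support, MvPolynomial.monomial (Finsupp.cons (d - α.degree) α)
    (((MvPolynomial.coeff α F : ℤ) : ℚ))

theorem homQ_homog (d : ℕ) (F : MvPolynomial (Fin 2) ℤ) (hF : F.totalDegree ≤ d) :
    (homQ d F).IsHomogeneous d := by
  unfold homQ
  refine MvPolynomial.IsHomogeneous.sum _ _ _ fun α hα => ?_
  refine MvPolynomial.isHomogeneous_monomial _ ?_
  have h1 := deg_le hF hα
  rw [Finsupp.degree_eq_sum, Fin.sum_univ_succ]
  simp only [Finsupp.cons_zero, Finsupp.cons_succ]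
  rw [← Finsupp.degree_eq_sum]
  omega

theorem homQ_aeval (d : ℕ) (F : MvPolynomial (Fin 2) ℤ) {R : Type} [CommRing R]
    [Algebra ℚ R] (p : Fin (2 + 1) → R) :
    MvPolynomial.aeval p (homQ d F) = ∑ α ∈ F.support, ((MvPolynomial.coeff α F : ℤ) : R) *
      (p 0 ^ (d - α.degree) * ∏ i : Fin 2, p i.succ ^ α i) := by
  unfold homQ
  rw [map_sum]
  refine Finset.sum_congr rfl fun α _ => ?_
  rw [MvPolynomial.aeval_monomial, map_intCast, Finsupp.prod_fintype _ _ (by simp),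
    Fin.prod_univ_succ]
  simp only [Finsupp.cons_zero, Finsupp.cons_succ]

theorem homQ_eq (d : ℕ) (F : MvPolynomial (Fin 2) ℤ) {R : Type} [CommRing R]
    [Algebra ℚ R] (p : Fin (2 + 1) → R) :
    MvPolynomial.aeval p (homQ d F) = MvPolynomial.aeval p (hK ℚ d F) := by
  rw [homQ_aeval, hK_aeval]

/-- the height of the form -/
theorem homQ_height (d : ℕ) (F : MvPolynomial (Fin 2) ℤ) (M : ℝ) (hM : 1 ≤ M)
    (hF : ∑ α ∈ F.support, |((MvPolynomial.coeff α F : ℤ) : ℝ)| ≤ M) :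
    formHeight (homQ d F) ≤ Real.log M := by
  classical
  have h1 : ∀ β : Fin (2 + 1) →₀ ℕ, ∃ z : ℤ, MvPolynomial.coeff β (homQ d F) = z ∧
      |(z : ℝ)| ≤ M := by
    intro β
    refine ⟨∑ α ∈ F.support, if (Finsupp.cons (d - α.degree) α : Fin (2 + 1) →₀ ℕ) = β
      then MvPolynomial.coeff α F else 0, ?_, ?_⟩
    · unfold homQ
      rw [MvPolynomial.coeff_sum]
      push_cast
      refine Finset.sum_congr rfl fun α _ => ?_
      rw [MvPolynomial.coeff_monomial]
    · push_cast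
      refine (Finset.abs_sum_le_sum_abs _ _).trans (le_trans (Finset.sum_le_sum fun α _ => ?_) hF)
      split_ifs
      · exact le_rfl
      · rw [abs_zero]
        exact abs_nonneg _
  choose z hz hzb using h1
  have hne : homQ d F = 0 ∨ Nonempty (homQ d F).support := by
    by_cases h : homQ d F = 0
    · exact Or.inl h
    · obtain ⟨α, hα⟩ := MvPolynomial.support_nonempty.2 h
      exact Or.inr ⟨⟨α, hα⟩⟩
  unfold formHeight
  rcases hne with h | h
  · have h2 : (fun a : (homQ d F).support =>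
        MvPolynomial.coeff (a : Fin (2 + 1) →₀ ℕ) (homQ d F)) = 0 := by
      funext a
      have h4 : ∀ G : MvPolynomial (Fin (2 + 1)) ℚ, G = 0 → ∀ β, MvPolynomial.coeff β G = 0 := by
        intro G hG β
        rw [hG, MvPolynomial.coeff_zero]
      exact h4 _ h _
    rw [h2, logHeight_zero]
    exact Real.log_nonneg hM
  · have h2 : (fun a : (homQ d F).support =>
        MvPolynomial.coeff (a : Fin (2 + 1) →₀ ℕ) (homQ d F)) =
        fun a : (homQ d F).support => ((z (a : Fin (2 + 1) →₀ ℕ) : ℤ) : ℚ) := funext fun a => hz a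
    rw [h2]
    exact logHeight_int_le (fun a : (homQ d F).support =>
      z (a : Fin (2 + 1) →₀ ℕ)) _ hM fun a => hzb a

/-- **Uniform bound for short sums of S-units on plane curves.** -/
theorem su_plane (hU : ∀ d r : ℕ, ∃ D : ℕ, ∀ (n : ℕ) (Γ : Subgroup ℚˣ), Γ.FG → ∃ C : ℝ,
      ∀ (FF : Set (MvPolynomial (Fin (n + 1)) ℚ)) (H : ℝ), 0 ≤ H →
        (∀ F ∈ FF, (∃ e ≤ d, F.IsHomogeneous e) ∧ formHeight F ≤ H) →
        ∀ (u : Fin r → Γ) (v : Fin r → Fin (n + 1) → ℚ),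
          (∀ F ∈ FF, MvPolynomial.aeval (fun i => ∑ j, ((u j : ℚˣ) : ℚ) * v j i) F = 0) →
          C * (1 + H + logHeight (fun q : Fin r × Fin (n + 1) => v q.1 q.2)) <
            logHeight (fun i => ∑ j, ((u j : ℚˣ) : ℚ) * v j i) →
          ∃ l : Fin r → ℕ, (∀ j, l j ≤ D) ∧
            (∀ F ∈ FF, MvPolynomial.aeval (cur (fun j i => ((u j : ℚˣ) : ℚ) * v j i) l) F = 0) ∧
            ∃ i i', cur (fun j i => ((u j : ℚˣ) : ℚ) * v j i) l i *
                Polynomial.C (∑ j, ((u j : ℚˣ) : ℚ) * v j i') ≠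
              cur (fun j i => ((u j : ℚˣ) : ℚ) * v j i) l i' *
                Polynomial.C (∑ j, ((u j : ℚˣ) : ℚ) * v j i))
    (d r : ℕ) (Γ : Subgroup ℚˣ) (hΓ : Γ.FG) :
    ∃ C : ℝ, 0 ≤ C ∧ ∀ F : MvPolynomial (Fin 2) ℤ, F.totalDegree ≤ d → NoRat F →
      ∀ M : ℝ, 1 ≤ M → ∑ α ∈ F.support, |((MvPolynomial.coeff α F : ℤ) : ℝ)| ≤ M →
      ∀ (u : Fin r → Γ) (a : Fin r → Fin 3 → ℤ), (∀ j i, |(a j i : ℝ)| ≤ M) →
      ∀ (x : Fin 2 → ℚ) (z : ℚ), z ≠ 0 → MvPolynomial.aeval x F = 0 →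
        z = ∑ j, ((u j : ℚˣ) : ℚ) * a j 0 →
        (∀ i : Fin 2, z * x i = ∑ j, ((u j : ℚˣ) : ℚ) * a j i.succ) →
        logHeight (Fin.cons 1 x : Fin 3 → ℚ) ≤ C * (1 + Real.log M) := by
  classical
  obtain ⟨D, hD⟩ := hU d r
  obtain ⟨C, hC⟩ := hD 2 Γ hΓ
  refine ⟨2 * |C|, by positivity, ?_⟩
  intro F hFd hyp M hM hFM u a ha x z hz hxF h0 h1
  by_contra hlt
  push Not at hlt
  have hlogM : 0 ≤ Real.log M := Real.log_nonneg hM
  have hpt : (fun i => ∑ j, ((u j : ℚˣ) : ℚ) * ((a j i : ℤ) : ℚ)) =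
      (Fin.cons z (fun i => z * x i) : Fin 3 → ℚ) := by
    funext i
    refine Fin.cases ?_ (fun i => ?_) i
    · exact h0.symm
    · exact (h1 i).symm
  have hus : (Fin.cons z (fun i => z * x i) : Fin 3 → ℚ) = z • (Fin.cons 1 x : Fin 3 → ℚ) := by
    funext i
    refine Fin.cases ?_ (fun i => ?_) i
    · simp
    · simp
  have hr : 0 < r := by
    rcases Nat.eq_zero_or_pos r with h | h
    · subst h
      exact absurd (by simpa using h0) hz
    · exact h
  have hne' : Nonempty (Fin r × Fin (2 + 1)) := ⟨(⟨0, hr⟩, 0)⟩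
  have hv : logHeight (fun q : Fin r × Fin (2 + 1) => ((a q.1 q.2 : ℤ) : ℚ)) ≤ Real.log M :=
    logHeight_int_le (fun q : Fin r × Fin (2 + 1) => a q.1 q.2) M hM fun q => ha _ _
  obtain ⟨l, -, hcur, i, i', hne⟩ := hC {homQ d F} (Real.log M) hlogM (by
      intro G hG
      rw [Set.mem_singleton_iff] at hG
      rw [hG]
      exact ⟨⟨d, le_rfl, homQ_homog d F hFd⟩, homQ_height d F M hM hFM⟩) u
      (fun j i => ((a j i : ℤ) : ℚ)) (by
      intro G hG
      rw [Set.mem_singleton_iff] at hG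
      rw [hG, hpt, homQ_eq]
      exact hK_point hFd z x hxF) (by
      rw [hpt, hus, logHeight_smul_eq_logHeight _ hz]
      refine lt_of_le_of_lt ?_ hlt
      have h1 : C * (1 + Real.log M +
          logHeight (fun q : Fin r × Fin (2 + 1) => ((a q.1 q.2 : ℤ) : ℚ))) ≤
          |C| * (1 + Real.log M + Real.log M) := by
        have := logHeight_nonneg (fun q : Fin r × Fin (2 + 1) => ((a q.1 q.2 : ℤ) : ℚ))
        refine (mul_le_mul_of_nonneg_right (le_abs_self C) (by linarith)).trans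
          (mul_le_mul_of_nonneg_left (by linarith) (abs_nonneg C))
      refine h1.trans ?_
      have := abs_nonneg C
      nlinarith)
  have hcur' := hcur _ rfl
  rw [homQ_eq] at hcur'
  set p := cur (fun j i => ((u j : ℚˣ) : ℚ) * ((a j i : ℤ) : ℚ)) l with hp
  set w : Fin 3 → ℚ := (Fin.cons z (fun i => z * x i) : Fin 3 → ℚ) with hw
  have hev : ∀ i, (p i).eval 1 = w i := by
    intro i
    rw [hp, cur_eval_one, ← hpt]
  have hp0 : p 0 ≠ 0 := by
    intro h
    have h3 := hev 0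
    rw [h, Polynomial.eval_zero] at h3
    exact hz h3.symm
  set σ : ℚ →+* ℂ := Classical.choice (inferInstance : Nonempty (ℚ →+* ℂ)) with hσ
  have hall : ∀ i, ∃ e : ℂ, (p i).map σ = Polynomial.C e * (p 0).map σ := by
    intro i
    refine Fin.cases ?_ (fun i => ?_) i
    · exact ⟨1, by simp⟩
    · obtain ⟨c, hc⟩ := const_of hFd hyp p hp0 hcur' i
      exact ⟨c, hc σ rfl⟩
  obtain ⟨e, he⟩ := hall i
  obtain ⟨e', he'⟩ := hall i'
  have hevσ : ∀ i, ((p i).map σ).eval 1 = σ (w i) := by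
    intro i
    rw [Polynomial.eval_one_map, hev i]
  apply hne
  have hpt' : ∀ i, ∑ j, ((u j : ℚˣ) : ℚ) * ((a j i : ℤ) : ℚ) = w i := fun i => congrFun hpt i
  rw [hpt' i, hpt' i']
  apply Polynomial.map_injective σ σ.injective
  have h4 : σ (w i) = e * σ (w 0) := by
    rw [← hevσ i, he, Polynomial.eval_mul, Polynomial.eval_C, hevσ 0]
  have h5 : σ (w i') = e' * σ (w 0) := by
    rw [← hevσ i', he', Polynomial.eval_mul, Polynomial.eval_C, hevσ 0]
  rw [Polynomial.map_mul, Polynomial.map_mul, Polynomial.map_C, Polynomial.map_C, he, he', h4,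
    h5, Polynomial.C_mul, Polynomial.C_mul]
  ring

end Pool.Agent.Q158.Sum
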