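import Mathlib
import Pool.Agent.Q158.LinF

set_option autoImplicit false

/-! # Rotations of tori by the elements of a small closed set -/

namespace Pool.Agent.Q158.Tor

open Finset MeasureTheory Pool.Agent.Q158.Lin Pool.Agent.TH327.Thin

variable {d : ℕ}

/-- the system: the rotation is a coordinate of the point -/
def T (G : Set (Fin d → UnitAddCircle)) (p : G × (Fin d → UnitAddCircle)) :
    G × (Fin d → UnitAddCircle) := (p.1, p.2 + (p.1 : Fin d → UnitAddCircle))

theorem T_cont (G : Set (Fin d → UnitAddCircle)) : Continuous (T G) := by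
  unfold T
  fun_prop

theorem T_iter (G : Set (Fin d → UnitAddCircle)) (n : ℕ) (p : G × (Fin d → UnitAddCircle)) :
    (T G)^[n] p = (p.1, p.2 + n • (p.1 : Fin d → UnitAddCircle)) := by
  induction n with
  | zero => simp
  | succ n ih =>
    rw [Function.iterate_succ_apply', ih]
    unfold T
    rw [add_assoc, succ_nsmul]

/-- functions of the second coordinate -/
noncomputable def F (G : Set (Fin d → UnitAddCircle)) (f : C(Fin d → UnitAddCircle, ℂ)) :
    C(G × (Fin d → UnitAddCircle), ℂ) := f.comp ⟨Prod.snd, continuous_snd⟩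

theorem F_apply (G : Set (Fin d → UnitAddCircle)) (f : C(Fin d → UnitAddCircle, ℂ))
    (p : G × (Fin d → UnitAddCircle)) : F G f p = f p.2 := rfl

theorem fourier_sum {ι : Type*} (n : ℤ) (s : Finset ι) (θ : ι → UnitAddCircle) :
    (fourier n (∑ i ∈ s, θ i) : ℂ) = ∏ i ∈ s, (fourier n (θ i) : ℂ) := by
  classical
  induction s using Finset.induction_on with
  | empty => simp
  | insert a s ha ih =>
    rw [Finset.sum_insert ha, Finset.prod_insert ha, ← ih]
    rw [fourier_apply, fourier_apply, fourier_apply, zsmul_add, AddCircle.toCircle_add,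
      Circle.coe_mul]

theorem fourier_smul (n k : ℤ) (t : UnitAddCircle) :
    (fourier n (k • t) : ℂ) = fourier k (n • t) := by
  rw [fourier_apply, fourier_apply, smul_comm]

theorem fourier_add' (n : ℤ) (x y : UnitAddCircle) :
    (fourier n (x + y) : ℂ) = fourier n x * fourier n y := by
  rw [fourier_apply, fourier_apply, fourier_apply, zsmul_add, AddCircle.toCircle_add,
    Circle.coe_mul]

theorem mF_orbit (k : Fin d → ℤ) (x g : Fin d → UnitAddCircle) (n : ℕ) :
    (UnitAddTorus.mFourier k (x + n • g) : ℂ) =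
      UnitAddTorus.mFourier k x * fourier (n : ℤ) (∑ i, k i • g i) := by
  have h1 : ∀ y : Fin d → UnitAddCircle, (UnitAddTorus.mFourier k y : ℂ) =
      ∏ i, (fourier (k i) (y i) : ℂ) := fun y => rfl
  rw [h1, h1, fourier_sum, ← Finset.prod_mul_distrib]
  refine Finset.prod_congr rfl fun i _ => ?_
  rw [Pi.add_apply, fourier_add', fourier_smul, Pi.smul_apply, natCast_zsmul]

/-- an exponential sequence has its spectrum in each set containing its frequency -/
theorem spec_exp (K : Set UnitAddCircle) (θ : UnitAddCircle) (hθ : θ ∈ K) (c : ℂ) :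
    SpecIn K (fun n : ℤ => c * (fourier n θ : ℂ)) := by
  intro g _ hU
  obtain ⟨U, _, hKU, h⟩ := hU
  have h1 : ∀ n : ℤ, g n • (c * (fourier n θ : ℂ)) = c * (g n * fourier n θ) := by
    intro n
    rw [smul_eq_mul]
    ring
  rw [tsum_congr h1, tsum_mul_left, h θ (hKU hθ), mul_zero]

theorem vol_zero : volume ({0} : Set UnitAddCircle) = 0 := by
  have h := AddCircle.volume_closedBall (T := 1) (x := (0 : UnitAddCircle)) 0
  rw [Metric.closedBall_zero] at h
  rw [h]
  simp

/-- the rotations `g` in `G` have, for each nonzero character, values in a null set -/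
def NullProj (G : Set (Fin d → UnitAddCircle)) : Prop :=
  ∀ k : Fin d → ℤ, k ≠ 0 → volume ((fun g : Fin d → UnitAddCircle => ∑ i, k i • g i) '' G) = 0

theorem slow_char (G : Set (Fin d → UnitAddCircle)) (hG : IsClosed G) (hN : NullProj G)
    [CompactSpace G] (k : Fin d → ℤ) : Slow (kc (T G) (T_cont G) (F G (UnitAddTorus.mFourier k))) := by
  have hspec : ∀ K : Set UnitAddCircle,
      (fun g : Fin d → UnitAddCircle => ∑ i, k i • g i) '' G ⊆ K → ∀ x : G × (Fin d → UnitAddCircle),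
      ∃ a : ℤ → ℂ, (∀ n, ‖a n‖ ≤ 1) ∧
        (∀ n : ℕ, a n = (F G (UnitAddTorus.mFourier k)) ((T G)^[n] x)) ∧ SpecIn K a := by
    intro K hK x
    refine ⟨fun n => UnitAddTorus.mFourier k x.2 *
      fourier n (∑ i, k i • (x.1 : Fin d → UnitAddCircle) i), fun n => ?_, fun n => ?_, ?_⟩
    · rw [norm_mul, norm_fourier_apply, mul_one]
      refine (ContinuousMap.norm_coe_le_norm _ _).trans (le_of_eq UnitAddTorus.mFourier_norm)
    · rw [T_iter, F_apply, mF_orbit]
    · exact spec_exp K _ (hK ⟨x.1, x.1.2, rfl⟩) _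
  by_cases hk : k = 0
  · refine slow_spec (T G) (T_cont G) _ {0} isClosed_singleton vol_zero 1 (hspec {0} ?_)
    rintro _ ⟨g, _, rfl⟩
    simp [hk]
  · refine slow_spec (T G) (T_cont G) _ _ ?_ (hN k hk) 1 (hspec _ le_rfl)
    have hc : Continuous (fun g : Fin d → UnitAddCircle => ∑ i, k i • g i) := by fun_prop
    exact (hG.isCompact.image hc).isClosed

theorem mem_span (G : Set (Fin d → UnitAddCircle)) [CompactSpace G]
    (g : C(Fin d → UnitAddCircle, ℂ))
    (hg : g ∈ Submodule.span ℂ (Set.range (UnitAddTorus.mFourier (d := Fin d)))) :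
    F G g ∈ Submodule.span ℂ (Set.range fun k : Fin d → ℤ => F G (UnitAddTorus.mFourier k)) := by
  induction hg using Submodule.span_induction with
  | mem x hx =>
    obtain ⟨k, rfl⟩ := hx
    exact Submodule.subset_span ⟨k, rfl⟩
  | zero =>
    have : F G (0 : C(Fin d → UnitAddCircle, ℂ)) = 0 := by ext p; rfl
    exact this ▸ Submodule.zero_mem _
  | add x y _ _ hx hy =>
    have : F G (x + y) = F G x + F G y := by ext p; rfl
    exact this ▸ Submodule.add_mem _ hx hy
  | smul c x _ hx =>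
    have : F G (c • x) = c • F G x := by ext p; rfl
    exact this ▸ Submodule.smul_mem _ c hx

theorem mem_closure (G : Set (Fin d → UnitAddCircle)) [CompactSpace G]
    (f : C(Fin d → UnitAddCircle, ℂ)) : F G f ∈ (Submodule.span ℂ
      (Set.range fun k : Fin d → ℤ => F G (UnitAddTorus.mFourier k))).topologicalClosure := by
  have h1 : f ∈ (Submodule.span ℂ (Set.range (UnitAddTorus.mFourier (d := Fin d)))).topologicalClosure := by
    rw [UnitAddTorus.span_mFourier_closure_eq_top]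
    exact Submodule.mem_top
  have h2 : f ∈ closure ((Submodule.span ℂ (Set.range (UnitAddTorus.mFourier (d := Fin d))) :
      Submodule ℂ _) : Set C(UnitAddTorus (Fin d), ℂ)) := h1
  show F G f ∈ closure ((Submodule.span ℂ
      (Set.range fun k : Fin d → ℤ => F G (UnitAddTorus.mFourier k)) : Submodule ℂ _) : Set _)
  rw [Metric.mem_closure_iff] at h2 ⊢
  intro ε hε
  obtain ⟨g, hg, hfg⟩ := h2 ε hε
  refine ⟨F G g, ?_, ?_⟩
  · exact mem_span G g hg
  · refine lt_of_le_of_lt ?_ hfg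
    rw [dist_eq_norm, dist_eq_norm, ContinuousMap.norm_le _ (norm_nonneg _)]
    intro p
    exact ContinuousMap.norm_coe_le_norm (f - g) p.2

/-- the supremum over all rotations in `G` and all starting points -/
noncomputable def windowSup (G : Set (Fin d → UnitAddCircle)) (f : C(Fin d → UnitAddCircle, ℂ))
    (u : ℕ → ℤ) (n H : ℕ) : ℝ :=
  ⨆ p : G × (Fin d → UnitAddCircle), ‖∑ h ∈ Icc 1 H,
    f (p.2 + (h + n) • (p.1 : Fin d → UnitAddCircle)) * (u (n + h) : ℂ)‖

theorem windowSup_nonneg (G : Set (Fin d → UnitAddCircle)) (f : C(Fin d → UnitAddCircle, ℂ))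
    (u : ℕ → ℤ) (n H : ℕ) : 0 ≤ windowSup G f u n H := Real.iSup_nonneg fun _ => norm_nonneg _

theorem windowSup_le (G : Set (Fin d → UnitAddCircle)) (f : C(Fin d → UnitAddCircle, ℂ))
    (u : ℕ → ℤ) (n H : ℕ) (C : ℝ) (hC : 0 ≤ C) (h : ∀ p : G × (Fin d → UnitAddCircle),
      ‖∑ h ∈ Icc 1 H, f (p.2 + (h + n) • (p.1 : Fin d → UnitAddCircle)) * (u (n + h) : ℂ)‖ ≤ C) :
    windowSup G f u n H ≤ C := Real.iSup_le h hC

theorem windowSup_bdd (G : Set (Fin d → UnitAddCircle)) (f : C(Fin d → UnitAddCircle, ℂ))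
    (u : ℕ → ℤ) (hu : ∀ n, |u n| ≤ 1) (n H : ℕ) : windowSup G f u n H ≤ H * ‖f‖ := by
  refine windowSup_le G f u n H _ (by positivity) fun p => ?_
  refine (norm_sum_le _ _).trans ?_
  calc _ ≤ ∑ _h ∈ Icc 1 H, ‖f‖ := by
        refine Finset.sum_le_sum fun h _ => ?_
        rw [norm_mul, Complex.norm_intCast]
        have h1 : ((|u (n + h)| : ℤ) : ℝ) ≤ 1 := by exact_mod_cast hu _
        push_cast at h1
        calc _ ≤ ‖f‖ * 1 := mul_le_mul (ContinuousMap.norm_coe_le_norm _ _) h1 (abs_nonneg _)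
              (norm_nonneg _)
          _ = _ := mul_one _
    _ = _ := by simp

/-- **natural averages outside `E`** -/
theorem nat_avg {u : ℕ → ℤ} (hu : ∀ n, |u n| ≤ 1) {E : Set ℕ} (hE : Sm u E)
    (G : Set (Fin d → UnitAddCircle)) (hG : IsClosed G) (hN : NullProj G)
    (f : C(Fin d → UnitAddCircle, ℂ)) (ε : ℝ) (hε : 0 < ε) : ∃ H₀ : ℕ, ∀ H : ℕ, H₀ ≤ H →
      ∃ N₀ : ℕ, ∀ N : ℕ, N₀ ≤ N → N ∉ E → ∑ n ∈ Icc 1 N, windowSup G f u n H ≤ ε * (H * N) := by
  have : CompactSpace G := isCompact_iff_compactSpace.1 hG.isCompact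
  have hD := dis_all hu hE (T G) (T_cont G)
    (Set.range fun k : Fin d → ℤ => F G (UnitAddTorus.mFourier k))
    (by rintro _ ⟨k, rfl⟩; exact slow_char G hG hN k) (F G f) (mem_closure G f)
  obtain ⟨H₀, h1⟩ := hD.2 ε hε
  refine ⟨H₀, fun H hH => ?_⟩
  obtain ⟨N₀, h2⟩ := h1 H hH
  refine ⟨N₀, fun N hN hNE => le_trans (Finset.sum_le_sum fun n _ => ?_) (h2 N hN hNE 0)⟩
  refine windowSup_le G f u n H _ (norm_nonneg _) fun p => ?_
  have h3 := ContinuousMap.norm_coe_le_norm (∑ m ∈ Icc 1 H,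
    (((u (n + m) : ℤ) : ℂ) * e (0 * m)) • kc (T G) (T_cont G) (F G f) m) ((T G)^[n] p)
  rw [sum_apply0 (T G) (T_cont G) (F G f) (Icc 1 H)
    (fun m => ((u (n + m) : ℤ) : ℂ) * e (0 * m))] at h3
  refine le_trans (le_of_eq ?_) h3
  congr 1
  refine Finset.sum_congr rfl fun m _ => ?_
  rw [← Function.iterate_add_apply, T_iter, F_apply]
  have h4 : e (0 * (m : ℝ)) = 1 := by
    unfold e
    simp
  rw [h4, mul_one, mul_comm]

/-- from natural averages to logarithmic averages -/
theorem log_of_nat (A : ℕ → ℝ) (hA0 : ∀ n, 0 ≤ A n) (B : ℝ) (hAB : ∀ n, A n ≤ B) (E : Set ℕ)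
    [DecidablePred (· ∈ E)]
    (hE : ∀ ε : ℝ, 0 < ε → ∃ X₀ : ℕ, ∀ X : ℕ, X₀ ≤ X →
      ∑ n ∈ Icc 1 X, (if n ∈ E then (1 : ℝ) / n else 0) ≤ ε * Real.log X)
    (ε : ℝ) (hε : 0 < ε) (N₀ : ℕ) (h : ∀ N : ℕ, N₀ ≤ N → N ∉ E → ∑ n ∈ Icc 1 N, A n ≤ ε * N) :
    ∃ N₁ : ℕ, ∀ N : ℕ, N₁ ≤ N → ∑ n ∈ Icc 1 N, (1 / (n : ℝ)) * A n ≤ 2 * ε * Real.log N := by
  have hB0 : 0 ≤ B := (hA0 0).trans (hAB 0)
  set S : ℕ → ℝ := fun m => ∑ n ∈ Icc 1 m, A n with hS
  have hS0 : ∀ m, 0 ≤ S m := fun m => Finset.sum_nonneg fun n _ => hA0 n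
  have hSB : ∀ m, S m ≤ B * m := by
    intro m
    calc S m ≤ ∑ _n ∈ Icc 1 m, B := Finset.sum_le_sum fun n _ => hAB n
      _ = _ := by simp [mul_comm]
  have habel : ∀ N : ℕ, ∑ n ∈ Icc 1 N, (1 / (n : ℝ)) * A n = S N / (N + 1) +
      ∑ m ∈ Icc 1 N, S m / (m * (m + 1)) := by
    intro N
    induction N with
    | zero => simp [hS]
    | succ N ih =>
      rw [Finset.sum_Icc_succ_top (by omega), ih, Finset.sum_Icc_succ_top (by omega)]
      have h1 : S (N + 1) = S N + A (N + 1) := by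
        simp only [hS]
        rw [Finset.sum_Icc_succ_top (by omega)]
      have h2 : (0 : ℝ) < (N : ℝ) + 1 := by positivity
      have h3 : (0 : ℝ) < (N : ℝ) + 1 + 1 := by positivity
      rw [h1]
      push_cast
      field_simp
      ring
  have hpt : ∀ m : ℕ, 1 ≤ m → S m / (m * (m + 1)) ≤ ε * (1 / m) +
      B * (if m ∈ E then (1 : ℝ) / m else 0) + (if m < N₀ then B else 0) := by
    intro m hm
    have hm0 : (0 : ℝ) < m := by exact_mod_cast hm
    have hm1 : (1 : ℝ) ≤ m := by exact_mod_cast hm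
    have g1 : ∀ C : ℝ, 0 ≤ C → S m ≤ C * m → S m / (m * (m + 1)) ≤ C * (1 / m) := by
      intro C hC hSC
      rw [div_le_iff₀ (by positivity)]
      calc S m ≤ C * m := hSC
        _ ≤ C * (m + 1) := by nlinarith
        _ = C * (1 / m) * (m * (m + 1)) := by field_simp
    have p1 : 0 ≤ ε * (1 / (m : ℝ)) := by positivity
    have p2 : 0 ≤ B * (if m ∈ E then (1 : ℝ) / m else 0) := by
      split_ifs <;> positivity
    by_cases h1 : m < N₀
    · rw [if_pos h1]
      have h2 := g1 B hB0 (hSB m)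
      have h3 : B * (1 / (m : ℝ)) ≤ B := by
        have : 1 / (m : ℝ) ≤ 1 := by
          rw [div_le_one hm0]
          exact hm1
        nlinarith
      linarith
    · rw [if_neg h1]
      by_cases h2 : m ∈ E
      · rw [if_pos h2]
        have h3 := g1 B hB0 (hSB m)
        linarith
      · have h3 := g1 ε hε.le (h m (by omega) h2)
        linarith
  obtain ⟨X₀, hX₀⟩ := hE (ε / (2 * (B + 1))) (by positivity)
  obtain ⟨N₂, hN₂⟩ := Filter.eventually_atTop.1 ((Real.tendsto_log_atTop.comp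
    tendsto_natCast_atTop_atTop).eventually_ge_atTop (2 / ε * (B + ε + B * N₀)))
  refine ⟨max X₀ (max N₂ 1), fun N hN => ?_⟩
  have hN1 : 1 ≤ N := le_trans (le_trans (le_max_right _ _) (le_max_right _ _)) hN
  have c1 := hX₀ N (le_trans (le_max_left _ _) hN)
  have c2 : 2 / ε * (B + ε + B * N₀) ≤ Real.log N :=
    hN₂ N (le_trans (le_trans (le_max_left _ _) (le_max_right _ _)) hN)
  have c3 : B + ε + B * N₀ ≤ ε / 2 * Real.log N := by
    calc B + ε + B * N₀ = ε / 2 * (2 / ε * (B + ε + B * N₀)) := by field_simp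
      _ ≤ _ := mul_le_mul_of_nonneg_left c2 (by positivity)
  have hlog : 0 ≤ Real.log N := Real.log_nonneg (by exact_mod_cast hN1)
  rw [habel N]
  have d1 : S N / (N + 1) ≤ B := by
    rw [div_le_iff₀ (by positivity)]
    have := hSB N
    nlinarith
  have d2 : ∑ m ∈ Icc 1 N, (1 / (m : ℝ)) ≤ 1 + Real.log N := by
    have h1 := harmonic_le_one_add_log N
    rw [harmonic_eq_sum_Icc] at h1
    push_cast at h1
    simpa [one_div] using h1
  have d3 : ∑ m ∈ Icc 1 N, (if m < N₀ then B else 0) ≤ B * N₀ := by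
    rw [← Finset.sum_filter, Finset.sum_const, nsmul_eq_mul, mul_comm]
    apply mul_le_mul_of_nonneg_left _ hB0
    have h1 : ((Icc 1 N).filter (fun m => m < N₀)).card ≤ (range N₀).card :=
      Finset.card_le_card fun m hm => Finset.mem_range.2 (Finset.mem_filter.1 hm).2
    rw [Finset.card_range] at h1
    exact_mod_cast h1
  have d4 : ∑ m ∈ Icc 1 N, S m / ((m : ℝ) * (m + 1)) ≤
      ε * (1 + Real.log N) + B * (ε / (2 * (B + 1)) * Real.log N) + B * N₀ := by
    refine (Finset.sum_le_sum fun m hm => hpt m (Finset.mem_Icc.1 hm).1).trans ?_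
    rw [Finset.sum_add_distrib, Finset.sum_add_distrib, ← Finset.mul_sum, ← Finset.mul_sum]
    refine add_le_add (add_le_add (mul_le_mul_of_nonneg_left d2 hε.le)
      (mul_le_mul_of_nonneg_left c1 hB0)) d3
  have d5 : B * (ε / (2 * (B + 1)) * Real.log N) ≤ ε / 2 * Real.log N := by
    have h1 : B * (ε / (2 * (B + 1))) ≤ ε / 2 := by
      rw [← mul_div_assoc, div_le_div_iff₀ (by positivity) (by norm_num)]
      nlinarith
    calc _ = B * (ε / (2 * (B + 1))) * Real.log N := by ring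
      _ ≤ _ := mul_le_mul_of_nonneg_right h1 hlog
  linarith

end Pool.Agent.Q158.Tor
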